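import Pool.Agent.W_52423f_h70.MainA

/-!
# From a subgroup of finite rank to exponential data, with more information

`exists_expData'` is `exists_expData` of `W_52423f_h70/MainA` with two more statements: the vectors `ζ_l` are
independent, and the matrix `c` contains `p^k` times the identity matrix.
-/

set_option autoImplicit false

open scoped Classical

noncomputable section

namespace PCL

open Pool.Agent.PTwist WeierstrassCurve WeierstrassCurve.Affine

variable {p : ℕ} [Fact p.Prime] {K : Type} [NontriviallyNormedField K] [CompleteSpace K]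
  [IsUltrametricDist K] [IsAlgClosed K] [NormedAlgebra ℚ_[p] K]

/-- Exponential data. -/
theorem exists_expData' {M : Type} [Field M] [NumberField M] (V : WeierstrassCurve M)
    [V.IsElliptic] (ι : M →+* K) {n m : ℕ} (L : AddSubgroup (Fin n → V.toAffine.Point))
    (hfg : L.FG) (hr : Module.finrank ℤ L = m) :
    ∃ (r : ℕ) (r₀ : ℝ) (u : Fin m → Fin n → V.toAffine.Point) (c : Fin m → Fin r → ℤ_[p])
      (ζ : Fin r → Fin n → K), r ≤ m ∧ (∀ j, u j ∈ L) ∧
      (∀ t : Fin m → ℤ, ∑ j, t j • u j = 0 → t = 0) ∧ ExpData p V ι r₀ u c ζ ∧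
      (∀ a : Fin r → ℤ_[p], (∀ t, ∑ l, algebraMap ℚ_[p] K (a l : ℚ_[p]) * ζ l t = 0) → a = 0) ∧
      (∃ (I : Fin r → Fin m) (k : ℕ), ∀ l l', c (I l) l' = if l = l' then (p : ℤ_[p]) ^ k else 0) ∧
      HasRank (fun _ : Fin n => V.map ι) p r
        (clos (fun _ : Fin n => V.map ι)
          ((fun P i => pmap V ι (P i)) '' (L : Set (Fin n → V.toAffine.Point)))) := by
  have : (V.map ι).IsElliptic := inferInstance
  have : ∀ _ : Fin n, (V.map ι).IsElliptic := fun _ => inferInstance
  obtain ⟨v, hvL, hvind, hvcos⟩ := Grp_basis hfg hr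
  obtain ⟨r₀, N, z, hN0, hLC, hz, hzv⟩ := exists_logs (p := p) V ι (T := Fin m × Fin n)
    (fun t => v t.1 t.2)
  obtain ⟨r, k, I, c, hrm, hc, hcind⟩ := exists_independent p
    (fun (j : Fin m) (i : Fin n) => z (j, i))
  have hNz : (N : ℤ) ≠ 0 := by exact_mod_cast hN0.ne'
  have hpz : ((p : ℤ) ^ k) ≠ 0 := by
    have hp := (Fact.out : p.Prime).ne_zero
    exact pow_ne_zero _ (by exact_mod_cast hp)
  obtain ⟨Q, hQ⟩ : ∃ Q : ℤ, Q = (p : ℤ) ^ k * N := ⟨_, rfl⟩
  have hQ0 : Q ≠ 0 := by rw [hQ]; exact mul_ne_zero hpz hNz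
  -- the exponential of the combinations of the `ζ`
  have hpts : ∀ (j : Fin m) (i : Fin n),
      expPt (V.map ι) (∑ l, algebraMap ℚ_[p] K (c j l : ℚ_[p]) * z (I l, i)) =
        pmap V ι (Q • v j i) := by
    intro j i
    rw [← hc j i]
    have h1 : (p : K) ^ k * z (j, i) = ((p : ℤ) ^ k) • z (j, i) := by
      rw [zsmul_eq_mul]
      push_cast
      rfl
    rw [h1, expPt_zsmul (V.map ι) hLC (hz (j, i)), hzv (j, i), ← pmap_zsmul, hQ, mul_smul]
  have hball : ∀ (j : Fin m) (i : Fin n),
      ‖∑ l, algebraMap ℚ_[p] K (c j l : ℚ_[p]) * z (I l, i)‖ ≤ rad r₀ := by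
    intro j i
    refine IsUltrametricDist.norm_sum_le_of_forall_le_of_nonneg hLC.rad_pos.le fun l _ => ?_
    rw [norm_mul, norm_algebraMap']
    have h1 : ‖(c j l : ℚ_[p])‖ ≤ 1 := (c j l).2
    have h2 := norm_nonneg (z (I l, i))
    have h3 := hz (I l, i)
    calc ‖(c j l : ℚ_[p])‖ * ‖z (I l, i)‖ ≤ 1 * ‖z (I l, i)‖ :=
          mul_le_mul_of_nonneg_right h1 h2
      _ = ‖z (I l, i)‖ := one_mul _
      _ ≤ rad r₀ := h3
  refine ⟨r, r₀, fun j => Q • v j, c, fun l i => z (I l, i), hrm, ?_, ?_, ⟨hLC, ?_, ?_⟩, hcind,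
    ⟨I, k, ?_⟩, ?_⟩
  · exact fun j => zsmul_mem (hvL j) _
  · intro t ht
    have h1 := hvind (fun j => t j * Q) (by
      rw [← ht]
      exact Finset.sum_congr rfl fun j _ => mul_smul _ _ _)
    funext j
    have h2 := congrFun h1 j
    exact (mul_eq_zero.1 h2).resolve_right hQ0
  · exact fun l i => hz (I l, i)
  · intro j i
    rw [Pi.smul_apply]
    exact hpts j i
  · intro l l'
    have h1 := hcind (fun l'' => c (I l) l'' - if l = l'' then (p : ℤ_[p]) ^ k else 0) (by
      intro i
      have h2 := hc (I l) i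
      have h3 : ∀ l'', algebraMap ℚ_[p] K
          (((c (I l) l'' - if l = l'' then (p : ℤ_[p]) ^ k else 0 : ℤ_[p])) : ℚ_[p]) *
          z (I l'', i) = algebraMap ℚ_[p] K (c (I l) l'' : ℚ_[p]) * z (I l'', i) -
          if l = l'' then (p : K) ^ k * z (I l, i) else 0 := by
        intro l''
        rw [PadicInt.coe_sub, map_sub, sub_mul]
        congr 1
        split_ifs with h
        · subst h
          rw [PadicInt.coe_pow, PadicInt.coe_natCast, map_pow, map_natCast]
        · rw [PadicInt.coe_zero, map_zero, zero_mul]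
      rw [Finset.sum_congr rfl fun l'' _ => h3 l'', Finset.sum_sub_distrib, ← h2]
      simp)
    exact sub_eq_zero.1 (congrFun h1 l')
  · let f : (Fin n → V.toAffine.Point) →+ (Fin n → (V.map ι).toAffine.Point) :=
      { toFun := fun P i => pmap V ι (P i)
        map_zero' := by
          funext t
          exact pmap_zero V ι
        map_add' := by
          intro P P'
          funext t
          exact pmap_add V ι (P t) (P' t) }
    obtain ⟨A, hA⟩ := hvcos Q hQ0
    refine clos_hasRank' (fun _ : Fin n => V.map ι) (r₀ := fun _ => r₀)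
      (z := fun l i => z (I l, i)) (u := fun l => f ((N : ℤ) • v (I l))) (A := A.image f)
      (fun _ => hLC) (fun l i => hz (I l, i)) hcind ?_ ?_ ?_
    · intro l i
      exact hzv (I l, i)
    · intro m'
      refine ⟨∑ l, m' l • ((N : ℤ) • v (I l)), ?_, ?_⟩
      · exact sum_mem fun l _ => zsmul_mem (zsmul_mem (hvL (I l)) _) _
      · change f (∑ l, m' l • ((N : ℤ) • v (I l))) = _
        rw [map_sum]
        exact Finset.sum_congr rfl fun l _ => map_zsmul f _ _
    · rintro x ⟨P, hP, rfl⟩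
      obtain ⟨s, hs, t, ht⟩ := hA P hP
      refine ⟨f s, Finset.mem_image_of_mem f hs, fun l => ∑ j, (t j : ℤ_[p]) * c j l, ?_⟩
      intro i
      change f P i = f s i + _
      rw [ht, map_add, Pi.add_apply]
      congr 1
      have h1 : f (∑ j, t j • (Q • v j)) i = ∑ j, t j • pmap V ι (Q • v j i) := by
        rw [map_sum, Finset.sum_apply]
        refine Finset.sum_congr rfl fun j _ => ?_
        rw [map_zsmul, Pi.smul_apply]
        rfl
      rw [h1]
      have h2 : ∑ l, algebraMap ℚ_[p] K (((∑ j, (t j : ℤ_[p]) * c j l : ℤ_[p])) : ℚ_[p]) *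
          z (I l, i) =
          ∑ j, t j • ∑ l, algebraMap ℚ_[p] K (c j l : ℚ_[p]) * z (I l, i) := by
        have h3 : ∀ l, algebraMap ℚ_[p] K (((∑ j, (t j : ℤ_[p]) * c j l : ℤ_[p])) : ℚ_[p]) *
            z (I l, i) = ∑ j, (t j : K) * (algebraMap ℚ_[p] K (c j l : ℚ_[p]) * z (I l, i)) := by
          intro l
          rw [PadicInt.coe_sum, map_sum, Finset.sum_mul]
          refine Finset.sum_congr rfl fun j _ => ?_
          rw [PadicInt.coe_mul, PadicInt.coe_intCast, map_mul, map_intCast, mul_assoc]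
        rw [Finset.sum_congr rfl fun l _ => h3 l, Finset.sum_comm]
        refine Finset.sum_congr rfl fun j _ => ?_
        rw [← Finset.mul_sum, zsmul_eq_mul]
      rw [h2, expPt_sum (V.map ι) hLC Finset.univ t _ fun j _ => hball j i]
      exact Finset.sum_congr rfl fun j _ => by rw [hpts j i]

end PCL

end
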