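import Pool.Agent.W_52423f_v9.LaB
import Pool.Agent.W_52423f_v9.LaC

/-!
# Relations between logarithms

* `zeta_indep`: independence over `ℤ_p` implies independence over `ℚ_p`.
* `log_rel`: a linear relation with integral coefficients between the points `u_ji` gives the same relation between
  their logarithms `∑ l, c_jl ζ_li`.
* `ker_stable`: the left kernel of `c` is stable under the matrix of an endomorphism.
* `cols_indep`: the columns of `c` are independent.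
-/

set_option autoImplicit false

open scoped Classical

noncomputable section

namespace PCL

open Pool.Agent.PTwist WeierstrassCurve WeierstrassCurve.Affine

section

variable {p : ℕ} [Fact p.Prime] {K : Type} [Field K] [Algebra ℚ_[p] K] {m r n : ℕ}

/-- The matrix `c` over `ℚ_p`. -/
def cQ (c : Fin m → Fin r → ℤ_[p]) : Matrix (Fin m) (Fin r) ℚ_[p] := fun j l => (c j l : ℚ_[p])

theorem cQ_apply (c : Fin m → Fin r → ℤ_[p]) (j : Fin m) (l : Fin r) :
    cQ c j l = (c j l : ℚ_[p]) := rfl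

/-- A common denominator of elements of `ℚ_p`. -/
theorem exists_int_mul (b : Fin r → ℚ_[p]) : ∃ k : ℕ, ∀ l, ‖(p : ℚ_[p]) ^ k * b l‖ ≤ 1 := by
  obtain ⟨B, hB⟩ := Finite.exists_le fun l => ‖b l‖
  have hp1 : (1 : ℝ) < p := by exact_mod_cast (Fact.out : p.Prime).one_lt
  obtain ⟨k, hk⟩ := pow_unbounded_of_one_lt B hp1
  refine ⟨k, fun l => ?_⟩
  have hpk : (0 : ℝ) < (p : ℝ) ^ k := by positivity
  rw [norm_mul, norm_pow, Padic.norm_p, inv_pow]
  have h1 : ‖b l‖ ≤ (p : ℝ) ^ k := (hB l).trans hk.le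
  rw [inv_mul_le_iff₀ hpk, mul_one]
  exact h1

theorem zeta_indep {ζ : Fin r → Fin n → K}
    (hζ : ∀ a : Fin r → ℤ_[p], (∀ t, ∑ l, algebraMap ℚ_[p] K (a l : ℚ_[p]) * ζ l t = 0) → a = 0)
    (b : Fin r → ℚ_[p]) (hb : ∀ t, ∑ l, algebraMap ℚ_[p] K (b l) * ζ l t = 0) : b = 0 := by
  obtain ⟨k, hk⟩ := exists_int_mul b
  have h1 := hζ (fun l => ⟨(p : ℚ_[p]) ^ k * b l, hk l⟩) (by
    intro t
    have h2 : ∀ l, algebraMap ℚ_[p] K ((p : ℚ_[p]) ^ k * b l) * ζ l t =
        algebraMap ℚ_[p] K ((p : ℚ_[p]) ^ k) * (algebraMap ℚ_[p] K (b l) * ζ l t) := by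
      intro l
      rw [map_mul, mul_assoc]
    show ∑ l, algebraMap ℚ_[p] K ((p : ℚ_[p]) ^ k * b l) * ζ l t = 0
    rw [Finset.sum_congr rfl fun l _ => h2 l, ← Finset.mul_sum, hb t, mul_zero])
  funext l
  have h2 := congrArg (fun x : ℤ_[p] => (x : ℚ_[p])) (congrFun h1 l)
  have h3 : (p : ℚ_[p]) ^ k * b l = 0 := h2
  have h4 : (p : ℚ_[p]) ^ k ≠ 0 :=
    pow_ne_zero _ (by exact_mod_cast (Fact.out : p.Prime).ne_zero)
  exact (mul_eq_zero.1 h3).resolve_left h4

theorem cols_indep {c : Fin m → Fin r → ℤ_[p]} {I : Fin r → Fin m} {k : ℕ}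
    (hI : ∀ l l', c (I l) l' = if l = l' then (p : ℤ_[p]) ^ k else 0) :
    LinearIndependent ℚ_[p]
      (cQ c).transpose := by
  rw [Fintype.linearIndependent_iff]
  intro b hb l
  have h1 := congrFun hb (I l)
  rw [Finset.sum_apply] at h1
  have h2 : ∀ l', (b l' • (cQ c).transpose l') (I l) =
      if l = l' then b l * (p : ℚ_[p]) ^ k else 0 := by
    intro l'
    rw [Pi.smul_apply, smul_eq_mul, Matrix.transpose_apply, cQ_apply, hI]
    split_ifs with h
    · subst h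
      rw [PadicInt.coe_pow, PadicInt.coe_natCast]
    · rw [PadicInt.coe_zero, mul_zero]
  rw [Finset.sum_congr rfl fun l' _ => h2 l'] at h1
  simp only [Finset.sum_ite_eq, Finset.mem_univ, if_true, Pi.zero_apply] at h1
  have h4 : (p : ℚ_[p]) ^ k ≠ 0 :=
    pow_ne_zero _ (by exact_mod_cast (Fact.out : p.Prime).ne_zero)
  exact (mul_eq_zero.1 h1).resolve_right h4

/-- The left kernel of `c` is the space of the relations between the logarithms. -/
theorem ker_iff {c : Fin m → Fin r → ℤ_[p]} {ζ : Fin r → Fin n → K}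
    (hζ : ∀ a : Fin r → ℤ_[p], (∀ t, ∑ l, algebraMap ℚ_[p] K (a l : ℚ_[p]) * ζ l t = 0) → a = 0)
    (a : Fin m → ℚ_[p]) :
    Matrix.vecMul a (cQ c) = 0 ↔
      ∀ i, ∑ j, algebraMap ℚ_[p] K (a j) *
        ∑ l, algebraMap ℚ_[p] K (c j l : ℚ_[p]) * ζ l i = 0 := by
  have h1 : ∀ i, ∑ j, algebraMap ℚ_[p] K (a j) *
      ∑ l, algebraMap ℚ_[p] K (c j l : ℚ_[p]) * ζ l i =
      ∑ l, algebraMap ℚ_[p] K
        (Matrix.vecMul a (cQ c) l) *
        ζ l i := by
    intro i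
    have h2 : ∀ l, algebraMap ℚ_[p] K
        (Matrix.vecMul a (cQ c) l) *
        ζ l i = ∑ j, algebraMap ℚ_[p] K (a j) *
          (algebraMap ℚ_[p] K (c j l : ℚ_[p]) * ζ l i) := by
      intro l
      rw [Matrix.vecMul, dotProduct, map_sum, Finset.sum_mul]
      refine Finset.sum_congr rfl fun j _ => ?_
      rw [map_mul, mul_assoc, cQ_apply]
    rw [Finset.sum_congr rfl fun l _ => h2 l, Finset.sum_comm]
    refine Finset.sum_congr rfl fun j _ => ?_
    rw [Finset.mul_sum]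
  constructor
  · intro h i
    rw [h1, h]
    simp
  · intro h
    refine zeta_indep hζ _ fun t => ?_
    rw [← h1]
    exact h t

end

variable {p : ℕ} [Fact p.Prime] {K : Type} [NontriviallyNormedField K] [CompleteSpace K]
  [IsUltrametricDist K] [IsAlgClosed K] [NormedAlgebra ℚ_[p] K]
  {M : Type} [Field M] [NumberField M] {V : WeierstrassCurve M} [V.IsElliptic] {ι : M →+* K}
  {ρ : ℝ}

omit [IsAlgClosed K] [NumberField M] in
/-- Integral relations between points and between their logarithms. -/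
theorem log_rel (hLC : LC p (V.map ι).b₂ (V.map ι).b₄ (V.map ι).b₆ ρ) {a b : ℕ}
    {P : Fin a → V.toAffine.Point} {Q : Fin b → V.toAffine.Point} {z : Fin a → K} {w : Fin b → K}
    (hz : ∀ i, ‖z i‖ ≤ rad ρ) (hw : ∀ i, ‖w i‖ ≤ rad ρ)
    (hP : ∀ i, expPt (V.map ι) (z i) = pmap V ι (P i))
    (hQ : ∀ i, expPt (V.map ι) (w i) = pmap V ι (Q i)) (s : Fin a → ℤ) (t : Fin b → ℤ)
    (h : ∑ i, s i • P i = ∑ i, t i • Q i) :
    ∑ i, (s i : K) * z i = ∑ i, (t i : K) * w i := by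
  have : (V.map ι).IsElliptic := inferInstance
  refine expPt_inj (V.map ι) hLC (RelOf_norm hz p hLC.rad_pos.le s)
    (RelOf_norm hw p hLC.rad_pos.le t) ?_
  rw [RelA_key V ι hLC hz hP, RelA_key V ι hLC hw hQ, h]

omit [IsAlgClosed K] in
/-- The left kernel of `c` is stable under the matrix `A = κ(T u_j)`. -/
theorem ker_stable {m r N : ℕ} {u : Fin m → Fin N → V.toAffine.Point} {c : Fin m → Fin r → ℤ_[p]}
    {ζ : Fin r → Fin N → K} (hE : ExpData p V ι ρ u c ζ)
    (hζ : ∀ a : Fin r → ℤ_[p], (∀ t, ∑ l, algebraMap ℚ_[p] K (a l : ℚ_[p]) * ζ l t = 0) → a = 0)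
    (T : Matrix (Fin N) (Fin N) ℤ) (A : Matrix (Fin m) (Fin m) ℚ)
    (hA : ∀ j, ∃ n : ℤ, n ≠ 0 ∧ ∃ t : Fin m → ℤ, n • lAct T (u j) = ∑ k, t k • u k ∧
      ∀ k, (n : ℚ) * A j k = t k) (a : Fin m → ℚ_[p])
    (ha : Matrix.vecMul a (cQ c) = 0) :
    Matrix.vecMul (Matrix.vecMul a (A.map (algebraMap ℚ ℚ_[p])))
      (cQ c) = 0 := by
  rw [ker_iff hζ] at ha ⊢
  intro i
  -- the relations between the logarithms
  have hrel : ∀ j, ∑ i', (T i i' : K) * ∑ l, algebraMap ℚ_[p] K (c j l : ℚ_[p]) * ζ l i' =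
      ∑ k, algebraMap ℚ_[p] K (algebraMap ℚ ℚ_[p] (A j k)) *
        ∑ l, algebraMap ℚ_[p] K (c k l : ℚ_[p]) * ζ l i := by
    intro j
    obtain ⟨n, hn, t, ht, hnt⟩ := hA j
    have h1 := congrFun ht i
    rw [Pi.smul_apply, Finset.sum_apply] at h1
    have h2 : ∑ i', (n * T i i') • u j i' = ∑ k, t k • u k i := by
      have h3 : n • (lAct T (u j) i) = ∑ i', (n * T i i') • u j i' := by
        unfold lAct
        rw [Finset.smul_sum]
        exact Finset.sum_congr rfl fun i' _ => (mul_smul _ _ _).symm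
      rw [← h3, h1]
      rfl
    have h4 := log_rel hE.lc (fun i' => hE.norm_le j i') (fun k => hE.norm_le k i)
      (fun i' => hE.pts j i') (fun k => hE.pts k i) (fun i' => n * T i i') t h2
    have hnK : (n : K) ≠ 0 := by
      have h5 : (n : K) = algebraMap ℚ_[p] K (n : ℚ_[p]) := (map_intCast _ n).symm
      rw [h5, Ne, map_eq_zero_iff _ (algebraMap ℚ_[p] K).injective]
      exact_mod_cast hn
    apply mul_left_cancel₀ hnK
    rw [Finset.mul_sum, Finset.mul_sum]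
    have h6 : ∀ i', (n : K) * ((T i i' : K) *
        ∑ l, algebraMap ℚ_[p] K (c j l : ℚ_[p]) * ζ l i') =
        ((n * T i i' : ℤ) : K) * ∑ l, algebraMap ℚ_[p] K (c j l : ℚ_[p]) * ζ l i' := by
      intro i'
      push_cast
      ring
    have h7 : ∀ k, (n : K) * (algebraMap ℚ_[p] K (algebraMap ℚ ℚ_[p] (A j k)) *
        ∑ l, algebraMap ℚ_[p] K (c k l : ℚ_[p]) * ζ l i) =
        (t k : K) * ∑ l, algebraMap ℚ_[p] K (c k l : ℚ_[p]) * ζ l i := by
      intro k
      rw [← mul_assoc]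
      congr 1
      have h8 : (n : K) * algebraMap ℚ_[p] K (algebraMap ℚ ℚ_[p] (A j k)) =
          algebraMap ℚ_[p] K (algebraMap ℚ ℚ_[p] ((n : ℚ) * A j k)) := by
        rw [map_mul, map_mul, map_intCast, map_intCast]
      rw [h8, hnt k, map_intCast, map_intCast]
    rw [Finset.sum_congr rfl fun i' _ => h6 i', Finset.sum_congr rfl fun k _ => h7 k]
    exact h4
  have h1 : ∑ k, algebraMap ℚ_[p] K (Matrix.vecMul a (A.map (algebraMap ℚ ℚ_[p])) k) *
      ∑ l, algebraMap ℚ_[p] K (c k l : ℚ_[p]) * ζ l i =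
      ∑ j, algebraMap ℚ_[p] K (a j) * ∑ k, algebraMap ℚ_[p] K (algebraMap ℚ ℚ_[p] (A j k)) *
        ∑ l, algebraMap ℚ_[p] K (c k l : ℚ_[p]) * ζ l i := by
    have h2 : ∀ k, algebraMap ℚ_[p] K (Matrix.vecMul a (A.map (algebraMap ℚ ℚ_[p])) k) *
        ∑ l, algebraMap ℚ_[p] K (c k l : ℚ_[p]) * ζ l i =
        ∑ j, algebraMap ℚ_[p] K (a j) * (algebraMap ℚ_[p] K (algebraMap ℚ ℚ_[p] (A j k)) *
          ∑ l, algebraMap ℚ_[p] K (c k l : ℚ_[p]) * ζ l i) := by
      intro k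
      rw [Matrix.vecMul, dotProduct, map_sum, Finset.sum_mul]
      refine Finset.sum_congr rfl fun j _ => ?_
      rw [map_mul, mul_assoc]
      rfl
    rw [Finset.sum_congr rfl fun k _ => h2 k, Finset.sum_comm]
    refine Finset.sum_congr rfl fun j _ => ?_
    rw [Finset.mul_sum]
  rw [h1]
  have h3 : ∑ j, algebraMap ℚ_[p] K (a j) *
      ∑ k, algebraMap ℚ_[p] K (algebraMap ℚ ℚ_[p] (A j k)) *
        ∑ l, algebraMap ℚ_[p] K (c k l : ℚ_[p]) * ζ l i =
      ∑ i', (T i i' : K) * ∑ j, algebraMap ℚ_[p] K (a j) *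
        ∑ l, algebraMap ℚ_[p] K (c j l : ℚ_[p]) * ζ l i' := by
    rw [Finset.sum_congr rfl fun j _ => congrArg (fun x => algebraMap ℚ_[p] K (a j) * x)
      (hrel j).symm]
    simp only [Finset.mul_sum]
    rw [Finset.sum_comm]
    refine Finset.sum_congr rfl fun i' _ => ?_
    refine Finset.sum_congr rfl fun j _ => ?_
    refine Finset.sum_congr rfl fun l _ => ?_
    ring
  rw [h3]
  refine Finset.sum_eq_zero fun i' _ => ?_
  rw [ha i', mul_zero]

end PCL

end
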