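import Pool.Agent.W_52423f_h30.EvB

/-!
# Taylor expansion of a power series at a point of the disc of convergence
-/

open scoped Classical

set_option linter.unusedSectionVars false

noncomputable section

namespace PCL

open PowerSeries Pool.Agent.PTwist

variable {K : Type} [NontriviallyNormedField K] [CompleteSpace K] [IsUltrametricDist K] [CharZero K]

/-- The Taylor series of `F` at the point `w`: the coefficients are `F^(n)(w) / n!`. -/
def tay (F : PowerSeries K) (w : K) : PowerSeries K :=
  PowerSeries.mk fun n => ev ((derivative K)^[n] F) w * ((n.factorial : ℕ) : K)⁻¹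

variable {ρ c c' : ℝ} {F G : PowerSeries K} {w : K}

theorem AnA_iter (hρ : 0 ≤ ρ) (h : Bd ρ c F) (n : ℕ) : ∃ c' : ℝ, Bd ρ c' ((derivative K)^[n] F) := by
  induction n with
  | zero => exact ⟨c, h⟩
  | succ n ih =>
    obtain ⟨c', hc'⟩ := ih
    refine ⟨c' * ρ, ?_⟩
    rw [Function.iterate_succ_apply']
    exact hc'.deriv hρ

theorem tay_coeff_zero (F : PowerSeries K) (w : K) : coeff 0 (tay F w) = ev F w := by
  unfold tay
  rw [coeff_mk]
  simp

theorem tay_deriv (F : PowerSeries K) (w : K) :
    derivative K (tay F w) = tay (derivative K F) w := by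
  ext n
  unfold tay
  rw [coeff_derivative, coeff_mk, coeff_mk, Function.iterate_succ_apply, Nat.factorial_succ]
  have h1 : ((n : K) + 1) ≠ 0 := Nat.cast_add_one_ne_zero n
  have h2 : ((n.factorial : ℕ) : K) ≠ 0 := Nat.cast_ne_zero.2 (Nat.factorial_ne_zero n)
  push_cast
  field_simp

theorem AnA_iter_add (F G : PowerSeries K) (n : ℕ) :
    (derivative K)^[n] (F + G) = (derivative K)^[n] F + (derivative K)^[n] G := by
  induction n generalizing F G with
  | zero => rfl
  | succ n ih => rw [Function.iterate_succ_apply, Function.iterate_succ_apply,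
      Function.iterate_succ_apply, map_add, ih]

theorem tay_add (hρ : 0 ≤ ρ) (h : Bd ρ c F) (h' : Bd ρ c' G) (hw : ρ * ‖w‖ < 1) :
    tay (F + G) w = tay F w + tay G w := by
  ext n
  obtain ⟨c₁, h₁⟩ := AnA_iter hρ h n
  obtain ⟨c₂, h₂⟩ := AnA_iter hρ h' n
  rw [map_add]
  unfold tay
  rw [coeff_mk, coeff_mk, coeff_mk, AnA_iter_add, ev_add hρ h₁ h₂ hw, add_mul]

theorem tay_mul (hρ : 0 ≤ ρ) (h : Bd ρ c F) (h' : Bd ρ c' G) (hw : ρ * ‖w‖ < 1) :
    tay (F * G) w = tay F w * tay G w := by
  ext n
  induction n generalizing F G c c' with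
  | zero =>
    rw [tay_coeff_zero, ev_mul hρ h h' hw, coeff_zero_eq_constantCoeff_apply, map_mul,
      ← coeff_zero_eq_constantCoeff_apply, ← coeff_zero_eq_constantCoeff_apply, tay_coeff_zero,
      tay_coeff_zero]
  | succ n ih =>
    have h1 : ((n : K) + 1) ≠ 0 := Nat.cast_add_one_ne_zero n
    refine mul_right_cancel₀ h1 ?_
    rw [← coeff_derivative, ← coeff_derivative, tay_deriv, Derivation.leibniz,
      Derivation.leibniz, smul_eq_mul, smul_eq_mul, smul_eq_mul, smul_eq_mul,
      tay_add hρ (h.mul hρ (h'.deriv hρ)) (h'.mul hρ (h.deriv hρ)) hw, map_add, map_add,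
      ih h (h'.deriv hρ), ih h' (h.deriv hρ), tay_deriv, tay_deriv]

theorem AnA_iter_zero (n : ℕ) : (derivative K)^[n] (0 : PowerSeries K) = 0 := by
  induction n with
  | zero => rfl
  | succ n ih => rw [Function.iterate_succ_apply, map_zero, ih]

theorem tay_zero (w : K) : tay (0 : PowerSeries K) w = 0 := by
  ext n
  unfold tay
  rw [coeff_mk, AnA_iter_zero, ev_zero, zero_mul, map_zero]

theorem tay_C (a : K) (w : K) : tay (C a) w = C a := by
  apply derivative.ext
  · rw [tay_deriv, derivative_C, tay_zero]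
  · rw [← coeff_zero_eq_constantCoeff_apply, ← coeff_zero_eq_constantCoeff_apply, tay_coeff_zero,
      ev_C, coeff_zero_C]

theorem tay_X (w : K) : tay (X : PowerSeries K) w = C w + X := by
  apply derivative.ext
  · rw [tay_deriv, derivative_X, map_add, derivative_C, derivative_X, zero_add]
    have h := tay_C (1 : K) w
    rwa [map_one] at h
  · rw [← coeff_zero_eq_constantCoeff_apply, ← coeff_zero_eq_constantCoeff_apply, tay_coeff_zero,
      ev_X, map_add, coeff_zero_C, coeff_zero_X, add_zero]

theorem tay_pow (hρ : 0 ≤ ρ) (h : Bd ρ c F) (hw : ρ * ‖w‖ < 1) (n : ℕ) :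
    tay (F ^ n) w = tay F w ^ n := by
  induction n with
  | zero =>
    have h1 := tay_C (1 : K) w
    rw [map_one] at h1
    rw [pow_zero, pow_zero, h1]
  | succ n ih => rw [pow_succ, pow_succ, tay_mul hρ (h.pow hρ n) h hw, ih]

/-- The coefficients of the derivatives. -/
theorem AnA_coeff_iter (F : PowerSeries K) (n k : ℕ) :
    coeff k ((derivative K)^[n] F) =
      ((n.factorial : ℕ) : K) * (((k + n).choose n : ℕ) : K) * coeff (k + n) F := by
  induction n generalizing k with
  | zero => simp
  | succ n ih =>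
    rw [Function.iterate_succ_apply', coeff_derivative, ih, Nat.factorial_succ]
    have h1 : (((k + 1 + n).choose n : ℕ) : K) * ((k : K) + 1) =
        (((k + (n + 1)).choose (n + 1) : ℕ) : K) * ((n : K) + 1) := by
      have h2 := Nat.choose_succ_right_eq (k + 1 + n) n
      have h3 : k + 1 + n - n = k + 1 := by omega
      rw [h3] at h2
      have h4 : k + (n + 1) = k + 1 + n := by ring
      rw [h4]
      have h5 := congrArg (Nat.cast (R := K)) h2
      push_cast at h5
      exact h5.symm
    have h6 : coeff (k + 1 + n) F = coeff (k + (n + 1)) F := by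
      congr 2
      ring
    rw [h6]
    push_cast
    linear_combination ((n.factorial : ℕ) : K) * coeff (k + (n + 1)) F * h1

/-- The Taylor series of a series without terms of degree less than `T`, at a small point. -/
theorem tay_tail {q : ℝ} (hq : 1 ≤ q) {T : ℕ} (hF : ∀ n, ‖coeff n F‖ ≤ 1)
    (h0 : ∀ n < T, coeff n F = 0) (hw : ‖w‖ ≤ q⁻¹) : Bd q ((q⁻¹) ^ T) (tay F w) := by
  intro n
  have hq0 : 0 < q := by linarith
  unfold tay
  rw [coeff_mk]
  have h2 : ((n.factorial : ℕ) : K) ≠ 0 := Nat.cast_ne_zero.2 (Nat.factorial_ne_zero n)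
  have h1 : ev ((derivative K)^[n] F) w * ((n.factorial : ℕ) : K)⁻¹ =
      ∑' k, (((k + n).choose n : ℕ) : K) * coeff (k + n) F * w ^ k := by
    unfold ev
    rw [← tsum_mul_right]
    refine tsum_congr fun k => ?_
    rw [AnA_coeff_iter]
    field_simp
  rw [h1]
  refine IsUltrametricDist.norm_tsum_le_of_forall_le_of_nonneg (by positivity) fun k => ?_
  by_cases hk : k + n < T
  · rw [h0 _ hk, mul_zero, zero_mul, norm_zero]
    positivity
  · rw [norm_mul, norm_mul, norm_pow]
    calc ‖(((k + n).choose n : ℕ) : K)‖ * ‖coeff (k + n) F‖ * ‖w‖ ^ k ≤ 1 * 1 * (q⁻¹) ^ k := by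
          refine mul_le_mul (mul_le_mul (IsUltrametricDist.norm_natCast_le_one K _) (hF _)
            (norm_nonneg _) zero_le_one) (pow_le_pow_left₀ (norm_nonneg _) hw k) (by positivity)
            (by positivity)
      _ = (q⁻¹) ^ (k + n) * q ^ n := by
          rw [pow_add, mul_assoc ((q⁻¹) ^ k), ← mul_pow, inv_mul_cancel₀ hq0.ne', one_pow]
          ring
      _ ≤ (q⁻¹) ^ T * q ^ n := by
          refine mul_le_mul_of_nonneg_right ?_ (by positivity)
          exact pow_le_pow_of_le_one (by positivity) (inv_le_one_of_one_le₀ hq) (not_lt.1 hk)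

end PCL

end
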