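import Pool.Agent.W_52423f_v9.AnA
import Pool.Agent.W_52423f_h70.BrB

/-!
# Box principle: the Taylor series of the values at small points are small
-/

open scoped Classical

set_option linter.unusedSectionVars false

noncomputable section

namespace PCL

open PowerSeries Pool.Agent.PTwist

variable {K : Type} [NontriviallyNormedField K] [CompleteSpace K] [IsUltrametricDist K] [CharZero K]

/-- Integral polynomials in power series of Gauss norm at most one. -/
theorem gauss_aeval {m : ℕ} {ρ ε : ℝ} (hρ : 0 ≤ ρ) (hε : 0 ≤ ε) (P : MvPolynomial (Fin m) ℤ)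
    {x y : Fin m → PowerSeries K} (hx : ∀ j, Bd ρ 1 (x j)) (hy : ∀ j, Bd ρ 1 (y j))
    (hxy : ∀ j, Bd ρ ε (x j - y j)) :
    Bd ρ 1 (MvPolynomial.aeval x P) ∧ Bd ρ 1 (MvPolynomial.aeval y P) ∧
      Bd ρ ε (MvPolynomial.aeval x P - MvPolynomial.aeval y P) := by
  induction P using MvPolynomial.induction_on with
  | C a =>
    have h1 : (algebraMap ℤ (PowerSeries K)) a = C (a : K) := by
      rw [eq_intCast, map_intCast]
    rw [MvPolynomial.aeval_C, MvPolynomial.aeval_C, h1, sub_self]
    have h2 : Bd ρ 1 (C (a : K)) := Bd.const hρ (IsUltrametricDist.norm_intCast_le_one K a)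
    exact ⟨h2, h2, Ev_zero hε hρ⟩
  | add P Q hP hQ =>
    rw [map_add, map_add]
    refine ⟨hP.1.add hQ.1, hP.2.1.add hQ.2.1, ?_⟩
    rw [add_sub_add_comm]
    exact hP.2.2.add hQ.2.2
  | mul_X P j hP =>
    rw [map_mul, map_mul, MvPolynomial.aeval_X, MvPolynomial.aeval_X]
    refine ⟨?_, ?_, ?_⟩
    · have := hP.1.mul hρ (hx j)
      rwa [one_mul] at this
    · have := hP.2.1.mul hρ (hy j)
      rwa [one_mul] at this
    · have h1 : MvPolynomial.aeval x P * x j - MvPolynomial.aeval y P * y j =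
          (MvPolynomial.aeval x P - MvPolynomial.aeval y P) * x j +
            MvPolynomial.aeval y P * (x j - y j) := by ring
      rw [h1]
      have h2 := hP.2.2.mul hρ (hx j)
      have h3 := hP.2.1.mul hρ (hxy j)
      rw [mul_one] at h2
      rw [one_mul] at h3
      exact h2.add h3

theorem AnB_prod {ι : Type*} (s : Finset ι) {ρ : ℝ} (hρ : 0 ≤ ρ) {c : ι → ℝ}
    {F : ι → PowerSeries K} (h : ∀ i ∈ s, Bd ρ (c i) (F i)) :
    Bd ρ (∏ i ∈ s, c i) (∏ i ∈ s, F i) := by
  induction s using Finset.induction_on with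
  | empty =>
    rw [Finset.prod_empty, Finset.prod_empty]
    have := Bd.const (K := K) (c := 1) hρ (a := 1) (by rw [norm_one])
    rwa [map_one] at this
  | insert a s ha ih =>
    rw [Finset.prod_insert ha, Finset.prod_insert ha]
    exact (h a (Finset.mem_insert_self _ _)).mul hρ
      (ih fun i hi => h i (Finset.mem_insert_of_mem hi))

/-- A polynomial with small coefficients in degrees less than `T`, at a point of Gauss norm at most
`1 / q`. -/
theorem gauss_comp {r : ℕ} {q : ℝ} (hq : 1 ≤ q) {F : MvPolynomial (Fin r) K}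
    (hF : ∀ α, ‖F.coeff α‖ ≤ 1) {T : ℕ}
    (hT : ∀ α : Fin r →₀ ℕ, α.degree < T → ‖F.coeff α‖ ≤ (q⁻¹) ^ T) {z : Fin r → PowerSeries K}
    (hz : ∀ l, Bd q q⁻¹ (z l)) : Bd q ((q⁻¹) ^ T) (MvPolynomial.aeval z F) := by
  have hq0 : 0 ≤ q := by linarith
  have hqi : (0 : ℝ) ≤ q⁻¹ := inv_nonneg.2 hq0
  have hq1 : q⁻¹ ≤ 1 := inv_le_one_of_one_le₀ hq
  rw [MvPolynomial.aeval_def, MvPolynomial.eval₂_eq']
  refine Bd.sum _ (by positivity) hq0 fun α _ => ?_
  have h1 : Bd q (∏ l, (q⁻¹) ^ α l) (∏ l, z l ^ α l) :=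
    AnB_prod _ hq0 fun l _ => (hz l).pow hq0 (α l)
  rw [Finset.prod_pow_eq_pow_sum] at h1
  have hdeg : ∑ l, α l = α.degree := by
    rw [Finsupp.degree_eq_sum]
  rw [hdeg] at h1
  have h2 : Bd q ‖F.coeff α‖ (C (F.coeff α)) := Bd.const hq0 le_rfl
  have h3 := h2.mul hq0 h1
  refine Bd.mono hq0 ?_ h3
  by_cases h : α.degree < T
  · calc ‖F.coeff α‖ * (q⁻¹) ^ α.degree ≤ (q⁻¹) ^ T * 1 :=
          mul_le_mul (hT α h) (pow_le_one₀ hqi hq1) (by positivity) (by positivity)
      _ = _ := mul_one _
  · calc ‖F.coeff α‖ * (q⁻¹) ^ α.degree ≤ 1 * (q⁻¹) ^ T :=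
          mul_le_mul (hF α) (pow_le_pow_of_le_one hqi hq1 (not_lt.1 h)) (by positivity) zero_le_one
      _ = _ := one_mul _

theorem AnB_lin {q : ℝ} (hq : 1 ≤ q) {a b : K} (ha : ‖a‖ ≤ q⁻¹) (hb : ‖b‖ ≤ 1) :
    Bd q q⁻¹ (C a + C b * X) := by
  have hq0 : 0 < q := by linarith
  intro n
  rw [map_add, coeff_C, coeff_C_mul, coeff_X]
  rcases n with _ | _ | n
  · simpa using ha
  · simpa [inv_mul_cancel₀ hq0.ne'] using hb
  · simp
    positivity

variable {p : ℕ} [Fact p.Prime] [NormedAlgebra ℚ_[p] K]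

/-- The Taylor series, in the direction `∑ c_jl y_l`, of `P(g(..))` at the point `∑ c_jl z_l`. -/
theorem gauss_value {m r : ℕ} {R : Subring K} {q : ℕ} (hR : DiscRing p R q) {g : ℕ → K}
    (hg : ∀ k, g k ∈ R) {c : Fin m → Fin r → K} (hc : ∀ j l, c j l ∈ R) {T : ℕ}
    {P : MvPolynomial (Fin m) ℤ}
    (hT : ∀ α : Fin r →₀ ℕ, α.degree < T →
      ‖(Rc.compF g c T P).coeff α‖ ≤ (p : ℝ) ^ (-(T : ℤ)))
    {z y : Fin r → K} (hz : ∀ l, ‖z l‖ ≤ (p : ℝ)⁻¹) (hy : ∀ l, ‖y l‖ ≤ 1) :
    Bd (p : ℝ) (((p : ℝ)⁻¹) ^ T) (MvPolynomial.aeval (fun j => PowerSeries.rescale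
      (∑ l, c j l * y l) (tay (PowerSeries.mk g) (∑ l, c j l * z l))) P) := by
  have hp1 : (1 : ℝ) ≤ p := by exact_mod_cast (Fact.out : p.Prime).one_le
  have hp2 : (1 : ℝ) < p := by exact_mod_cast (Fact.out : p.Prime).one_lt
  have hp0 : (0 : ℝ) ≤ p := by linarith
  have hpi : (0 : ℝ) ≤ (p : ℝ)⁻¹ := inv_nonneg.2 hp0
  have hpl : (p : ℝ)⁻¹ < 1 := inv_lt_one_of_one_lt₀ hp2
  set w : Fin m → K := fun j => ∑ l, c j l * z l with hw
  set β : Fin m → K := fun j => ∑ l, c j l * y l with hβ
  have hwn : ∀ j, ‖w j‖ ≤ (p : ℝ)⁻¹ :=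
    Rc.BpB_norm_lin (fun j l => hR.norm_le _ (hc j l)) hz
  have hβn : ∀ j, ‖β j‖ ≤ 1 := by
    intro j
    refine IsUltrametricDist.norm_sum_le_of_forall_le_of_nonneg zero_le_one fun l _ => ?_
    rw [norm_mul]
    exact mul_le_one₀ (hR.norm_le _ (hc j l)) (norm_nonneg _) (hy l)
  have hgn : ∀ k, ‖g k‖ ≤ 1 := fun k => hR.norm_le _ (hg k)
  -- the truncated series
  set t : Fin m → PowerSeries K := fun j => ∑ k ∈ Finset.range T, C (g k) *
    (C (w j) + C (β j) * X) ^ k with ht
  have htay : ∀ v : K, ‖v‖ < 1 → tay (∑ k ∈ Finset.range T, C (g k) * X ^ k) v =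
      ∑ k ∈ Finset.range T, C (g k) * (C v + X) ^ k := by
    intro v hv
    have hb : ∀ k, Bd 1 1 (C (g k) * X ^ k : PowerSeries K) := by
      intro k n
      rw [coeff_C_mul, coeff_X_pow, one_pow, one_mul]
      split_ifs
      · rw [mul_one]
        exact hgn k
      · rw [mul_zero, norm_zero]
        exact zero_le_one
    have hXb : Bd 1 1 (X : PowerSeries K) := by
      intro n
      rw [coeff_X, one_pow, one_mul]
      split_ifs
      · rw [norm_one]
      · rw [norm_zero]
        exact zero_le_one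
    have hv' : (1 : ℝ) * ‖v‖ < 1 := by rwa [one_mul]
    induction T with
    | zero => rw [Finset.sum_range_zero, Finset.sum_range_zero, tay_zero]
    | succ T _ =>
      have key : ∀ S : ℕ, tay (∑ k ∈ Finset.range S, C (g k) * X ^ k) v =
          ∑ k ∈ Finset.range S, C (g k) * (C v + X) ^ k := by
        intro S
        induction S with
        | zero => rw [Finset.sum_range_zero, Finset.sum_range_zero, tay_zero]
        | succ S ih =>
          rw [Finset.sum_range_succ, Finset.sum_range_succ,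
            tay_add zero_le_one (Bd.sum _ zero_le_one zero_le_one fun k _ => hb k) (hb S) hv', ih,
            tay_mul zero_le_one (Bd.const zero_le_one (hgn S)) (hXb.pow zero_le_one S) hv', tay_C,
            tay_pow zero_le_one hXb hv', tay_X]
      exact key (T + 1)
  -- the error
  have herr : ∀ j, Bd (p : ℝ) (((p : ℝ)⁻¹) ^ T)
      (PowerSeries.rescale (β j) (tay (PowerSeries.mk g) (w j)) - t j) := by
    intro j
    have hwj : ‖w j‖ < 1 := (hwn j).trans_lt hpl
    have hH : ∀ n, ‖coeff n (PowerSeries.mk g - ∑ k ∈ Finset.range T, C (g k) * X ^ k)‖ ≤ 1 ∧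
        (n < T → coeff n (PowerSeries.mk g - ∑ k ∈ Finset.range T, C (g k) * X ^ k) = 0) := by
      intro n
      have h1 : coeff n (PowerSeries.mk g - ∑ k ∈ Finset.range T, C (g k) * X ^ k) =
          g n - if n < T then g n else 0 := by
        rw [map_sub, coeff_mk, map_sum]
        congr 1
        have h2 : ∀ k, coeff n (C (g k) * X ^ k : PowerSeries K) = if n = k then g k else 0 := by
          intro k
          rw [coeff_C_mul, coeff_X_pow]
          split_ifs
          · rw [mul_one]
          · rw [mul_zero]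
        rw [Finset.sum_congr rfl fun k _ => h2 k, Finset.sum_ite_eq]
        simp only [Finset.mem_range]
      rw [h1]
      refine ⟨?_, fun h => by rw [if_pos h, sub_self]⟩
      split_ifs
      · rw [sub_self, norm_zero]
        exact zero_le_one
      · rw [sub_zero]
        exact hgn n
    have h3 := tay_tail (w := w j) hp1 (fun n => (hH n).1) (fun n hn => (hH n).2 hn) (hwn j)
    have h4 : tay (PowerSeries.mk g) (w j) =
        tay (∑ k ∈ Finset.range T, C (g k) * X ^ k) (w j) +
          tay (PowerSeries.mk g - ∑ k ∈ Finset.range T, C (g k) * X ^ k) (w j) := by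
      have hb1 : Bd 1 1 (∑ k ∈ Finset.range T, C (g k) * X ^ k : PowerSeries K) := by
        refine Bd.sum _ zero_le_one zero_le_one fun k _ n => ?_
        rw [coeff_C_mul, coeff_X_pow, one_pow, one_mul]
        split_ifs
        · rw [mul_one]
          exact hgn k
        · rw [mul_zero, norm_zero]
          exact zero_le_one
      have hb2 : Bd 1 1 (PowerSeries.mk g - ∑ k ∈ Finset.range T, C (g k) * X ^ k) := by
        intro n
        rw [one_pow, one_mul]
        exact (hH n).1
      rw [← tay_add zero_le_one hb1 hb2 (by rwa [one_mul]), add_sub_cancel]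
    have h5 : PowerSeries.rescale (β j) (tay (PowerSeries.mk g) (w j)) - t j =
        PowerSeries.rescale (β j)
          (tay (PowerSeries.mk g - ∑ k ∈ Finset.range T, C (g k) * X ^ k) (w j)) := by
      rw [h4, htay _ hwj, map_add, map_sum]
      have h6 : ∑ k ∈ Finset.range T, PowerSeries.rescale (β j) (C (g k) * (C (w j) + X) ^ k) =
          t j := by
        rw [ht]
        refine Finset.sum_congr rfl fun k _ => ?_
        rw [map_mul, map_pow, map_add, PowerSeries.rescale_X]
        have h7 : ∀ a : K, PowerSeries.rescale (β j) (C a) = C a := by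
          intro a
          ext n
          rw [coeff_rescale, coeff_C]
          split_ifs with h
          · rw [h, pow_zero, one_mul]
          · rw [mul_zero]
        rw [h7, h7]
      rw [h6]
      ring
    rw [h5]
    exact Bd.rescale (hβn j) h3
  have htb : ∀ j, Bd (p : ℝ) 1 (t j) := by
    intro j
    refine Bd.sum _ zero_le_one hp0 fun k _ => ?_
    have h1 : Bd (p : ℝ) 1 (C (w j) + C (β j) * X) :=
      Bd.mono hp0 hpl.le (AnB_lin hp1 (hwn j) (hβn j))
    have h2 := h1.pow hp0 k
    rw [one_pow] at h2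
    have h3 := (Bd.const (K := K) hp0 (hgn k)).mul hp0 h2
    rwa [one_mul] at h3
  have hTp : (0 : ℝ) ≤ ((p : ℝ)⁻¹) ^ T := by positivity
  have hT1 : ((p : ℝ)⁻¹) ^ T ≤ 1 := pow_le_one₀ hpi hpl.le
  have hxb : ∀ j, Bd (p : ℝ) 1 (PowerSeries.rescale (β j) (tay (PowerSeries.mk g) (w j))) := by
    intro j
    have h1 := (Bd.mono hp0 hT1 (herr j)).add (htb j)
    rwa [sub_add_cancel] at h1
  have hG := (gauss_aeval hp0 hTp P hxb htb herr).2.2
  -- the composite polynomial
  have hcomp : MvPolynomial.aeval t P =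
      MvPolynomial.aeval (fun l => C (z l) + C (y l) * X) (Rc.compF g c T P) := by
    unfold Rc.compF
    have h0 : MvPolynomial.aeval (R := K) (fun l => (C (z l) + C (y l) * X : PowerSeries K))
        (MvPolynomial.eval₂ (Int.castRingHom (MvPolynomial (Fin r) K)) (Rc.truncF g c T) P) =
        MvPolynomial.eval₂ (Int.castRingHom (PowerSeries K)) (fun j =>
          MvPolynomial.aeval (R := K) (fun l => (C (z l) + C (y l) * X : PowerSeries K))
            (Rc.truncF g c T j)) P := by
      have h1 := MvPolynomial.eval₂_comp_left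
        ((MvPolynomial.aeval (R := K) (fun l => (C (z l) + C (y l) * X : PowerSeries K))) :
          MvPolynomial (Fin r) K →+* PowerSeries K)
        (Int.castRingHom (MvPolynomial (Fin r) K)) (Rc.truncF g c T) P
      rw [show ((MvPolynomial.aeval (R := K)
        (fun l => (C (z l) + C (y l) * X : PowerSeries K)) :
          MvPolynomial (Fin r) K →+* PowerSeries K).comp
            (Int.castRingHom (MvPolynomial (Fin r) K))) = Int.castRingHom (PowerSeries K) from
        RingHom.ext_int _ _] at h1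
      exact h1
    rw [h0, MvPolynomial.aeval_def, show algebraMap ℤ (PowerSeries K) =
      Int.castRingHom (PowerSeries K) from RingHom.ext_int _ _]
    congr 1
    funext j
    rw [ht]
    unfold Rc.truncF Rc.linF
    rw [map_sum]
    refine Finset.sum_congr rfl fun k _ => ?_
    rw [map_mul, map_pow, MvPolynomial.aeval_C]
    congr 1
    congr 1
    have h2 : ∀ l, MvPolynomial.aeval (R := K) (fun l => (C (z l) + C (y l) * X : PowerSeries K))
        (MvPolynomial.C (c j l) * MvPolynomial.X l) = C (c j l * z l) + C (c j l * y l) * X := by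
      intro l
      rw [map_mul, MvPolynomial.aeval_C, MvPolynomial.aeval_X, map_mul, map_mul]
      show C (c j l) * (C (z l) + C (y l) * X) = _
      ring
    have h3 : MvPolynomial.aeval (R := K) (fun l => (C (z l) + C (y l) * X : PowerSeries K))
        (∑ l, MvPolynomial.C (c j l) * MvPolynomial.X l) =
        ∑ l, (C (c j l * z l) + C (c j l * y l) * X) := by
      rw [map_sum]
      exact Finset.sum_congr rfl fun l _ => h2 l
    rw [h3, Finset.sum_add_distrib, ← Finset.sum_mul, ← map_sum, ← map_sum]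
  have hsm : Bd (p : ℝ) (((p : ℝ)⁻¹) ^ T) (MvPolynomial.aeval t P) := by
    rw [hcomp]
    refine gauss_comp hp1 (fun α => hR.norm_le _ (Rc.compF_coeff hg hc T P α)) ?_
      (fun l => AnB_lin hp1 (hz l) (hy l))
    intro α hα
    have h1 := hT α hα
    rwa [zpow_neg, zpow_natCast, ← inv_pow] at h1
  have h := hG.add hsm
  rwa [sub_add_cancel] at h

end PCL

end
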