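import Pool.Agent.W_52423f_v9.JtA
import Pool.Agent.W_52423f_h30.Ser
import Pool.Agent.W_52423f_h30.Defs

/-!
# From jets of `1/x` to jets of `x`

`jv x h` is the inverse of the power series `jx 1 x h`; it solves `ψ'' = 2 + b₂ ψ + 3 b₄ ψ^2 + 2 b₆ ψ^3`
with `ψ(0) = 1/x`, `ψ'(0) = -h/x^2`.  If all `x(u_i)` are different from zero then `P` at the jets
`rescale β_i (jv x_i h_i)` is, up to a unit, `PX D P (jX β u)`.
-/

open scoped Classical

noncomputable section

namespace PCL

open PowerSeries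

variable {K : Type} [Field K] {W : WeierstrassCurve K} {F : Type} [Field F] [Algebra K F]

/-- The power series `1/x(u + exp ε)`. -/
def jv (W : WeierstrassCurve K) {F : Type} [Field F] [Algebra K F] (x h : F) : PowerSeries F :=
  (jx W 1 x h)⁻¹

theorem AnBr_rescale (β x h : F) : jx W β x h = rescale β (jx W 1 x h) := by
  ext n
  unfold jx
  rw [coeff_rescale, coeff_mk, coeff_mk, one_pow]
  ring

theorem jx_mul_jv {x : F} (hx : x ≠ 0) (h : F) : jx W 1 x h * jv W x h = 1 := by
  unfold jv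
  exact PowerSeries.mul_inv_cancel _ (by rw [jx_const]; exact hx)

theorem jv_const (x h : F) : constantCoeff (jv W x h) = x⁻¹ := by
  unfold jv
  rw [PowerSeries.constantCoeff_inv, jx_const]

theorem jv_deriv [CharZero F] {x : F} (hx : x ≠ 0) (h : F) :
    derivative F (jv W x h) = -(jh W 1 x h * jv W x h ^ 2) := by
  have h1 := congrArg (derivative F) (jx_mul_jv (W := W) hx h)
  rw [Derivation.leibniz, d_jx, Derivation.map_one_eq_zero, smul_eq_mul, smul_eq_mul, map_one,
    one_mul] at h1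
  have h2 := jx_mul_jv (W := W) hx h
  linear_combination (jv W x h) * h1 - (derivative F (jv W x h)) * h2

/-- The differential equation of `1/x`. -/
theorem jv_ode [CharZero F] {x h : F} (hx : x ≠ 0) (hh : h ^ 2 = cub W x) :
    derivative F (derivative F (jv W x h)) = Pool.Agent.PTwist.rhs (algebraMap K F W.b₂)
      (algebraMap K F W.b₄) (algebraMap K F W.b₆) (jv W x h) := by
  have h2 := jx_mul_jv (W := W) hx h
  have h3 := jets_curve (W := W) 1 hh
  unfold cub at h3
  simp only [PowerSeries.algebraMap_apply] at h3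
  rw [jv_deriv hx, map_neg, Derivation.leibniz, Derivation.leibniz_pow, jv_deriv hx, d_jh]
  unfold Pool.Agent.PTwist.rhs
  simp only [smul_eq_mul, nsmul_eq_mul, Nat.cast_ofNat, Nat.add_one_sub_one, pow_one, map_one,
    one_mul, map_mul, map_ofNat]
  generalize jx W 1 x h = Y at h2 h3 ⊢
  generalize jv W x h = ψ at h2 h3 ⊢
  generalize jh W 1 x h = H at h2 h3 ⊢
  linear_combination (2 * ψ ^ 3) * h3 + (8 * ((Y * ψ) ^ 2 + Y * ψ + 1) - 6 * (Y * ψ + 1) +
    C (algebraMap K F W.b₂) * ψ * (2 * (Y * ψ) + 1) + 4 * C (algebraMap K F W.b₄) * ψ ^ 2) * h2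

theorem jv_coeff_one [CharZero F] {x : F} (hx : x ≠ 0) (h : F) :
    coeff 1 (jv W x h) = -h * x⁻¹ ^ 2 := by
  have h1 := congrArg constantCoeff (jv_deriv (W := W) hx h)
  rw [← coeff_zero_eq_constantCoeff_apply, coeff_derivative, map_neg, map_mul, map_pow, jh_const,
    jv_const] at h1
  simpa using h1

/-- `PX` at invertible elements. -/
theorem PX_inv {R : Type} [CommRing R] [Algebra K R] {m D : ℕ} {P : MvPolynomial (Fin m) K}
    (hdeg : ∀ i, P.degreeOf i ≤ D) {a b : Fin m → R} (hab : ∀ i, a i * b i = 1) :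
    PX D P a = (∏ i, a i ^ D) * MvPolynomial.aeval b P := by
  unfold PX hPol
  rw [MvPolynomial.aeval_def, MvPolynomial.eval₂_eq', Finset.mul_sum]
  refine Finset.sum_congr rfl fun α hα => ?_
  have h1 : ∏ i, ((![a i, 1] : Fin 2 → R) 1 ^ α i * (![a i, 1] : Fin 2 → R) 0 ^ (D - α i)) =
      (∏ i, a i ^ D) * ∏ i, b i ^ α i := by
    rw [← Finset.prod_mul_distrib]
    refine Finset.prod_congr rfl fun i _ => ?_
    have h2 : α i ≤ D := (MvPolynomial.monomial_le_degreeOf i hα).trans (hdeg i)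
    simp only [Matrix.cons_val_one, Matrix.cons_val_zero, Matrix.cons_val_fin_one, one_pow,
      one_mul]
    have hD : a i ^ D = a i ^ (D - α i) * a i ^ α i := by
      rw [← pow_add, Nat.sub_add_cancel h2]
    rw [hD, mul_assoc, ← mul_pow, hab, one_pow, mul_one]
  rw [h1]
  ring

/-- The order of vanishing in terms of the jets of `1/x`. -/
theorem dvd_PX {m D N : ℕ} {P : MvPolynomial (Fin m) K} (hdeg : ∀ i, P.degreeOf i ≤ D)
    (β : Fin m → K) {u : Fin m → Pt W F} (hu : ∀ i, xc (u i) ≠ 0)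
    (h : (X : F⟦X⟧) ^ N ∣ MvPolynomial.aeval
      (fun i => rescale (algebraMap K F (β i)) (jv W (xc (u i)) (hc (u i)))) P) :
    (X : F⟦X⟧) ^ N ∣ PX D P (jX β u) := by
  rw [PX_inv hdeg (b := fun i => rescale (algebraMap K F (β i)) (jv W (xc (u i)) (hc (u i))))]
  · exact Dvd.dvd.mul_left h _
  · intro i
    unfold jX
    rw [AnBr_rescale, ← map_mul, jx_mul_jv (hu i), map_one]

open Pool.Agent.PTwist in
/-- The initial values in terms of `iX`, `iV`. -/
theorem jv_iX (w : Pt W F) : constantCoeff (jv W (xc w) (hc w)) =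
    iX (WeierstrassCurve.baseChange W F) w := by
  rw [jv_const]
  rcases w with _ | ⟨x, y, h⟩
  · change (0 : F)⁻¹ = 0
    rw [inv_zero]
  · rfl

open Pool.Agent.PTwist in
theorem jv_iV [CharZero F] {w : Pt W F} (hw : xc w ≠ 0) : coeff 1 (jv W (xc w) (hc w)) =
    iV (WeierstrassCurve.baseChange W F) w := by
  rw [jv_coeff_one hw]
  rcases w with _ | ⟨x, y, h⟩
  · exact absurd rfl hw
  · rfl

end PCL

end
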