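import Pool.Agent.W_52423f_v9.AnBr
import Pool.Agent.W_52423f_h70.CaC
import Pool.Agent.W_52423f_h70.SbBasic

/-!
# The box principle with orders of vanishing: from the jets of `1/x` to `VanJ`
-/

open scoped Classical

noncomputable section

namespace PCL

open Pool.Agent.PTwist WeierstrassCurve WeierstrassCurve.Affine

variable {p : ℕ} [Fact p.Prime] {K : Type} [NontriviallyNormedField K] [CompleteSpace K]
  [IsUltrametricDist K] [IsAlgClosed K] [NormedAlgebra ℚ_[p] K] {M : Type} [Field M] [NumberField M]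

/-- The box principle in terms of the jets of `1/x` (the conclusion of the analytic part): `bb` are the
directions, `E`, `A` the multiples in the order of vanishing and in the box. -/
def AnBox (V : WeierstrassCurve M) {n m : ℕ} (r : ℕ) (u : Fin m → Fin n → V.toAffine.Point)
    {w : ℕ} (bb : Fin w → Fin m → M) (A E : ℕ) : Prop :=
  ∃ C₀ : ℕ, 1 ≤ C₀ ∧ ∀ v : ℕ, 1 ≤ v → ∃ P : MvPolynomial (Fin m) ℤ, P ≠ 0 ∧
    (∀ j, P.degreeOf j ≤ C₀ * v ^ (2 * r)) ∧
    ∀ s ∈ box n (A * v ^ (m - r)), ∀ ψ : Fin m → PowerSeries M,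
      (∀ j, PowerSeries.derivative M (PowerSeries.derivative M (ψ j)) =
          rhs V.b₂ V.b₄ V.b₆ (ψ j) ∧
        PowerSeries.coeff 0 (ψ j) = iX V (∑ i, s i • u j i) ∧
        PowerSeries.coeff 1 (ψ j) = iV V (∑ i, s i • u j i)) →
      ∀ t : Fin w → M, (PowerSeries.X : PowerSeries M) ^ (E * (C₀ * v ^ (2 * r))) ∣
        MvPolynomial.aeval (fun j => PowerSeries.rescale (∑ b, t b * bb b j) (ψ j)) P

theorem bp_vanJ_of_box {V : WeierstrassCurve M} [V.IsElliptic] {ι : M →+* K} {n m r : ℕ} {ρ : ℝ}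
    {u : Fin m → Fin n → V.toAffine.Point} {c : Fin m → Fin r → ℤ_[p]} {ζ : Fin r → Fin n → K}
    (h : ExpData p V ι ρ u c ζ)
    (γ : (Fin n → ℤ) →+ (Fin m → Pt V M)) (hγ : ∀ s j, γ s j = toPt (∑ i, s i • u j i))
    (hγ0 : ∀ s : Fin n → ℤ, s ≠ 0 → ∀ j, γ s j ≠ 0) (𝒲 : Submodule M (Fin m → M))
    (hbox : AnBox V r u (fun b => ((Module.finBasis M 𝒲 b : 𝒲) : Fin m → M))
      (2 * m + 1) (m + 1)) :
    ∃ C₀ : ℕ, 1 ≤ C₀ ∧ ∀ v : ℕ, 1 ≤ v → ∃ P : MvPolynomial (Fin m) M, P ≠ 0 ∧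
      (∀ j, P.degreeOf j ≤ C₀ * v ^ (2 * r)) ∧
      ∀ s ∈ box n (2 * m * v ^ (m - r) + 1), s ≠ 0 →
        VanJ 𝒲 (m * (C₀ * v ^ (2 * r)) + 1) (C₀ * v ^ (2 * r)) P (γ s) := by
  obtain ⟨C₀, hC₀, H⟩ := hbox
  refine ⟨C₀, hC₀, fun v hv => ?_⟩
  obtain ⟨P, hP0, hPd, hP⟩ := H v hv
  have hinj : Function.Injective (Int.castRingHom M) := Int.cast_injective
  have hdeg : ∀ j, (MvPolynomial.map (Int.castRingHom M) P).degreeOf j ≤ C₀ * v ^ (2 * r) := by
    intro j
    have h1 : (MvPolynomial.map (Int.castRingHom M) P).degreeOf j = P.degreeOf j := by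
      rw [MvPolynomial.degreeOf_eq_sup, MvPolynomial.degreeOf_eq_sup,
        MvPolynomial.support_map_of_injective _ hinj]
    rw [h1]
    exact hPd j
  refine ⟨MvPolynomial.map (Int.castRingHom M) P, ?_, hdeg, fun s hs hs0 β hβ => ?_⟩
  · intro h0
    exact hP0 ((map_eq_zero_iff _ (MvPolynomial.map_injective _ hinj)).1 h0)
  have hs' : s ∈ box n ((2 * m + 1) * v ^ (m - r)) := by
    have h1 : 1 ≤ v ^ (m - r) := Nat.one_le_pow _ _ hv
    have h2 : 2 * m * v ^ (m - r) + 1 ≤ (2 * m + 1) * v ^ (m - r) := by nlinarith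
    unfold box at hs ⊢
    rw [Fintype.mem_piFinset] at hs ⊢
    intro i
    have h3 := hs i
    rw [Finset.mem_Icc] at h3 ⊢
    have h4 : ((2 * m * v ^ (m - r) + 1 : ℕ) : ℤ) ≤ (((2 * m + 1) * v ^ (m - r) : ℕ) : ℤ) := by
      exact_mod_cast h2
    constructor <;> linarith [h3.1, h3.2]
  have hiX : ∀ j, iX (WeierstrassCurve.baseChange V M) (γ s j) = iX V (∑ i, s i • u j i) := by
    intro j
    rw [hγ s j]
    rfl
  have hiV : ∀ j, iV (WeierstrassCurve.baseChange V M) (γ s j) = iV V (∑ i, s i • u j i) := by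
    intro j
    rw [hγ s j]
    rfl
  have hx : ∀ j, xc (γ s j) ≠ 0 := by
    intro j h2
    have h3 : iX V (∑ i, s i • u j i) ≠ 0 := by
      refine (h.x_ne s j).resolve_left fun h1 => hγ0 s hs0 j ?_
      rw [hγ s j, h1]
      rfl
    rw [← hiX j, PCL.iX_eq, h2, inv_zero] at h3
    exact h3 rfl
  have hγne : ∀ j, γ s j ≠ 0 := hγ0 s hs0
  -- the coordinates of the direction
  obtain ⟨t, ht⟩ : ∃ t : Fin (Module.finrank M 𝒲) → M, ∀ j,
      β j = ∑ b, t b * ((Module.finBasis M 𝒲 b : 𝒲) : Fin m → M) j := by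
    refine ⟨fun b => (Module.finBasis M 𝒲).repr ⟨β, hβ⟩ b, fun j => ?_⟩
    have h1 := (Module.finBasis M 𝒲).sum_repr ⟨β, hβ⟩
    have h2 := congrArg (fun z : 𝒲 => (z : Fin m → M) j) h1
    simp only [Submodule.coe_sum, Submodule.coe_smul, Finset.sum_apply, Pi.smul_apply,
      smul_eq_mul] at h2
    exact h2.symm
  have h5 := hP s hs' (fun j => jv V (xc (γ s j)) (hc (γ s j))) (fun j => ⟨?_, ?_, ?_⟩) t
  · refine dvd_PX hdeg β hx ?_
    have e1 : MvPolynomial.aeval (fun i => PowerSeries.rescale (algebraMap M M (β i))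
          (jv V (xc (γ s i)) (hc (γ s i)))) (MvPolynomial.map (Int.castRingHom M) P) =
        MvPolynomial.aeval (fun j => PowerSeries.rescale
          (∑ b, t b * (fun b => ((Module.finBasis M 𝒲 b : 𝒲) : Fin m → M)) b j)
          (jv V (xc (γ s j)) (hc (γ s j)))) P := by
      rw [MvPolynomial.aeval_def, MvPolynomial.eval₂_map, MvPolynomial.aeval_def]
      have e2 : (fun i => PowerSeries.rescale (algebraMap M M (β i))
          (jv V (xc (γ s i)) (hc (γ s i)))) = fun j => PowerSeries.rescale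
          (∑ b, t b * (fun b => ((Module.finBasis M 𝒲 b : 𝒲) : Fin m → M)) b j)
          (jv V (xc (γ s j)) (hc (γ s j))) := by
        funext j
        have e3 : algebraMap M M (β j) =
            ∑ b, t b * (fun b => ((Module.finBasis M 𝒲 b : 𝒲) : Fin m → M)) b j := ht j
        rw [e3]
      rw [e2]
      congr 1
      exact Subsingleton.elim _ _
    rw [e1]
    refine dvd_trans (pow_dvd_pow _ ?_) h5
    have h6 : 1 ≤ C₀ * v ^ (2 * r) := Nat.one_le_iff_ne_zero.2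
      (Nat.mul_ne_zero (by omega) (pow_ne_zero _ (by omega)))
    nlinarith
  · exact jv_ode (hx j) (curve_eq (hγne j))
  · rw [PowerSeries.coeff_zero_eq_constantCoeff_apply, jv_iX, hiX]
  · rw [jv_iV (hx j), hiV]

end PCL

end
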