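import Pool.Agent.W_52423f_v9.AnA
import Pool.Agent.W_52423f_h30.Loc

/-!
# Solutions of the differential equation of the elliptic curve
-/

open scoped Classical

set_option linter.unusedSectionVars false

noncomputable section

namespace PCL

open PowerSeries Pool.Agent.PTwist

/-- `φ'' = 2 + b₂ φ + 3 b₄ φ^2 + 2 b₆ φ^3`: this is the differential equation of the function
`1 / x` on the curve (in terms of the invariant derivation). -/
def IsSol {k : Type} [Field k] (b₂ b₄ b₆ : k) (φ : PowerSeries k) : Prop :=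
  derivative k (derivative k φ) = rhs b₂ b₄ b₆ φ

section Formal

variable {k : Type} [Field k] {b₂ b₄ b₆ : k} {φ χ : PowerSeries k}

theorem IsSol.coeff (h : IsSol b₂ b₄ b₆ φ) (n : ℕ) :
    PowerSeries.coeff (n + 2) φ * (((n : k) + 2) * ((n : k) + 1)) =
      PowerSeries.coeff n (rhs b₂ b₄ b₆ φ) := by
  have h1 := congrArg (PowerSeries.coeff n) h
  rw [coeff_derivative, coeff_derivative] at h1
  rw [← h1]
  push_cast
  ring

/-- The solutions are determined by the first two coefficients. -/
theorem IsSol.unique [CharZero k] (h : IsSol b₂ b₄ b₆ φ) (h' : IsSol b₂ b₄ b₆ χ)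
    (h0 : PowerSeries.coeff 0 φ = PowerSeries.coeff 0 χ)
    (h1 : PowerSeries.coeff 1 φ = PowerSeries.coeff 1 χ) : φ = χ := by
  ext n
  induction n using Nat.strong_induction_on with
  | _ n ih =>
    rcases n with _ | _ | n
    · exact h0
    · exact h1
    · have h2 : PowerSeries.X ^ (n + 1) ∣ rhs b₂ b₄ b₆ φ - rhs b₂ b₄ b₆ χ := by
        refine dvd_trans (X_pow_dvd_iff.2 fun m hm => ?_) (Ser_sub_dvd b₂ b₄ b₆ φ χ)
        rw [map_sub, ih m (by omega), sub_self]
      have h3 := X_pow_dvd_iff.1 h2 n (by omega)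
      rw [map_sub, sub_eq_zero, ← h.coeff, ← h'.coeff] at h3
      have h4 : ((n : k) + 2) ≠ 0 := by
        have := Nat.cast_add_one_ne_zero (R := k) (n + 1)
        intro h5
        apply this
        rw [← h5]
        push_cast
        ring
      have h5 : ((n : k) + 1) ≠ 0 := Nat.cast_add_one_ne_zero n
      exact mul_right_cancel₀ (mul_ne_zero h4 h5) h3

theorem IsSol.map {k' : Type} [Field k'] (f : k →+* k') (h : IsSol b₂ b₄ b₆ φ) :
    IsSol (f b₂) (f b₄) (f b₆) (PowerSeries.map f φ) := by
  have h1 : ∀ F : PowerSeries k, derivative k' (PowerSeries.map f F) =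
      PowerSeries.map f (derivative k F) := by
    intro F
    ext n
    rw [coeff_derivative, coeff_map, coeff_map, coeff_derivative, map_mul, map_add, map_natCast,
      map_one]
  unfold IsSol at h ⊢
  rw [h1, h1, h]
  unfold rhs
  simp only [map_add, map_mul, map_pow, PowerSeries.map_C, map_ofNat]

theorem IsSol.fe [CharZero k] (b₂ b₄ b₆ : k) : IsSol b₂ b₄ b₆ (fe b₂ b₄ b₆) := fe_ode b₂ b₄ b₆

end Formal

variable {K : Type} [NontriviallyNormedField K] [CompleteSpace K] [IsUltrametricDist K] {p : ℕ}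
  [Fact p.Prime] [NormedAlgebra ℚ_[p] K] {b₂ b₄ b₆ : K} {ρ : ℝ} {w : K}

/-- The Taylor series of `fe` are solutions. -/
theorem tay_sol [CharZero K] (h : LC p b₂ b₄ b₆ ρ) (hw : ‖w‖ ≤ rad ρ) :
    IsSol b₂ b₄ b₆ (tay (fe b₂ b₄ b₆) w) := by
  have h2 := h.two_le
  have h0 : 0 ≤ ρ := by linarith
  have hlt := h.lt_one hw
  have bF : Bd ρ 1 (fe b₂ b₄ b₆) := h.bd
  have e2 : (2 : PowerSeries K) = C (2 : K) := by rw [map_ofNat]
  have c2 := Bd.const (K := K) (c := ‖(2 : K)‖) h0 (a := 2) le_rfl
  have k2 := Bd.const (K := K) (c := ‖b₂‖) h0 (a := b₂) le_rfl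
  have k4 := Bd.const (K := K) (c := ‖3 * b₄‖) h0 (a := 3 * b₄) le_rfl
  have k6 := Bd.const (K := K) (c := ‖2 * b₆‖) h0 (a := 2 * b₆) le_rfl
  have p2 := k2.mul h0 bF
  have p4 := k4.mul h0 (bF.pow h0 2)
  have p6 := k6.mul h0 (bF.pow h0 3)
  have evs : ∀ {c c' : ℝ} {A B : PowerSeries K}, Bd ρ c A → Bd ρ c' B →
      Bd ρ (max c c') (A + B) := fun hA hB =>
    (hA.mono h0 (le_max_left _ _)).add (hB.mono h0 (le_max_right _ _))
  have q1 := evs c2 p2
  have q2 := evs q1 p4
  unfold IsSol
  rw [tay_deriv, tay_deriv, fe_ode]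
  unfold rhs
  rw [e2, tay_add h0 q2 p6 hlt, tay_add h0 q1 p4 hlt, tay_add h0 c2 p2 hlt, tay_mul h0 k2 bF hlt,
    tay_mul h0 k4 (bF.pow h0 2) hlt, tay_mul h0 k6 (bF.pow h0 3) hlt, tay_pow h0 bF hlt,
    tay_pow h0 bF hlt, tay_C, tay_C, tay_C, tay_C]

theorem tay_coeff_one [CharZero K] (F : PowerSeries K) (w : K) :
    PowerSeries.coeff 1 (tay F w) = ev (derivative K F) w := by
  have h := congrArg (PowerSeries.coeff 0) (tay_deriv F w)
  rw [coeff_derivative, tay_coeff_zero] at h
  simpa using h

/-- Change of scale. -/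
theorem tay_rescale [CharZero K] (F : PowerSeries K) {a : K} (ha : a ≠ 0) (w : K) :
    tay (PowerSeries.rescale a F) (a⁻¹ * w) = PowerSeries.rescale a (tay F w) := by
  have h1 : ∀ n, ∀ G : PowerSeries K, (derivative K)^[n] (PowerSeries.rescale a G) =
      C (a ^ n) * PowerSeries.rescale a ((derivative K)^[n] G) := by
    intro n
    induction n with
    | zero =>
      intro G
      rw [pow_zero, map_one, one_mul]
      rfl
    | succ n ih =>
      intro G
      have h2 : derivative K (PowerSeries.rescale a G) =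
          C a * PowerSeries.rescale a (derivative K G) := by
        ext m
        rw [coeff_derivative, coeff_rescale, coeff_C_mul, coeff_rescale, coeff_derivative]
        ring
      have h3 : ∀ (b : K) (G : PowerSeries K), ∀ n, (derivative K)^[n] (C b * G) =
          C b * (derivative K)^[n] G := by
        intro b G n
        induction n generalizing G with
        | zero => rfl
        | succ n ih =>
          rw [Function.iterate_succ_apply, Function.iterate_succ_apply, Derivation.leibniz,
            derivative_C, smul_zero, add_zero, smul_eq_mul, ih]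
      rw [Function.iterate_succ_apply, h2, h3, ih, Function.iterate_succ_apply, ← mul_assoc,
        ← map_mul, pow_succ']
  ext n
  unfold tay
  rw [coeff_mk, coeff_rescale, coeff_mk, h1]
  have h2 : ev (C (a ^ n) * PowerSeries.rescale a ((derivative K)^[n] F)) (a⁻¹ * w) =
      a ^ n * ev ((derivative K)^[n] F) w := by
    unfold ev
    rw [← tsum_mul_left]
    refine tsum_congr fun m => ?_
    rw [coeff_C_mul, coeff_rescale]
    have h3 : a ^ m * (a⁻¹ * w) ^ m = w ^ m := by
      rw [← mul_pow, mul_inv_cancel_left₀ ha]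
    rw [← h3]
    ring
  rw [h2]
  ring

end PCL

end
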