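import Pool.Agent.W_52423f_v9.AnB
import Pool.Agent.W_52423f_v9.AnS
import Pool.Agent.W_52423f_h70.CaB

/-!
# The p-adic smallness of the Taylor coefficients
-/

open scoped Classical

set_option linter.unusedSectionVars false

noncomputable section

namespace PCL

open PowerSeries Pool.Agent.PTwist

/-- Integral polynomials commute with ring homomorphisms. -/
theorem aeval_int_map {A B : Type*} [CommRing A] [CommRing B] [Algebra ℤ A] [Algebra ℤ B]
    (f : A →+* B) {m : ℕ} (x : Fin m → A) (P : MvPolynomial (Fin m) ℤ) :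
    f (MvPolynomial.aeval x P) = MvPolynomial.aeval (fun j => f (x j)) P := by
  rw [MvPolynomial.aeval_def, MvPolynomial.aeval_def, MvPolynomial.eval₂_comp_left]
  congr 1
  exact RingHom.ext_int _ _

variable {p : ℕ} [Fact p.Prime] {K : Type} [NontriviallyNormedField K] [CompleteSpace K]
  [IsUltrametricDist K] [CharZero K] [NormedAlgebra ℚ_[p] K] {M : Type} [Field M]
  {ι : M →+* K} {m r : ℕ} {c : Fin m → Fin r → K} {b₂ b₄ b₆ : K}

/-- The Taylor coefficients of `P` at the points in the direction `β` are small. -/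
theorem an_small {R : Subring K} {q : ℕ} (hR : DiscRing p R q)
    {N : ℕ} (hg : ∀ k, ((p : K) ^ N) ^ k * coeff k (fe b₂ b₄ b₆) ∈ R)
    (hc : ∀ j l, c j l ∈ R) {T : ℕ} {P : MvPolynomial (Fin m) ℤ}
    (hT : ∀ α : Fin r →₀ ℕ, α.degree < T → ‖(Rc.compF (fun k => ((p : K) ^ N) ^ k *
      coeff k (fe b₂ b₄ b₆)) c T P).coeff α‖ ≤ (p : ℝ) ^ (-(T : ℤ)))
    {x : Fin r → K} (hx : ∀ l, ‖((p : K) ^ N)⁻¹ * x l‖ ≤ (p : ℝ)⁻¹) {ψ : Fin m → PowerSeries M}
    (hψ : ∀ j, PowerSeries.map ι (ψ j) = tay (fe b₂ b₄ b₆) (∑ l, c j l * x l))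
    {β : Fin m → M} {y : Fin r → K}
    (hβ : ∀ j, ι (β j) = ∑ l, c j l * y l) {e : ℕ} (hy : ∀ l, ‖y l‖ ≤ (p : ℝ) ^ e) (k : ℕ) :
    ‖ι (coeff k (MvPolynomial.aeval (fun j => PowerSeries.rescale (β j) (ψ j)) P))‖ ≤
      ((p : ℝ)⁻¹) ^ T * (p : ℝ) ^ ((N + e + 1) * k) := by
  have hp0 : (0 : ℝ) < p := by exact_mod_cast (Fact.out : p.Prime).pos
  have hpK : (p : K) ^ N ≠ 0 := pow_ne_zero _ (CaB_p_ne p K)
  have hnp : ‖(p : K)‖ = (p : ℝ)⁻¹ := CaB_norm_p p K
  set f : PowerSeries K := fe b₂ b₄ b₆ with hf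
  set w : Fin m → K := fun j => ∑ l, c j l * x l with hw
  have hG := gauss_value (P := P) hR hg hc hT
    (z := fun l => ((p : K) ^ N)⁻¹ * x l)
    (y := fun l => (p : K) ^ e * y l) hx (by
      intro l
      rw [norm_mul, norm_pow, hnp, inv_pow]
      calc ((p : ℝ) ^ e)⁻¹ * ‖y l‖ ≤ ((p : ℝ) ^ e)⁻¹ * (p : ℝ) ^ e :=
            mul_le_mul_of_nonneg_left (hy l) (by positivity)
        _ = 1 := inv_mul_cancel₀ (by positivity))
  have hmk : (PowerSeries.mk fun k => ((p : K) ^ N) ^ k * coeff k f) =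
      PowerSeries.rescale ((p : K) ^ N) f := by
    ext k
    rw [coeff_mk, coeff_rescale]
  have hser : ∀ j, PowerSeries.rescale (∑ l, c j l * ((p : K) ^ e * y l))
      (tay (PowerSeries.mk fun k => ((p : K) ^ N) ^ k * coeff k f)
        (∑ l, c j l * (((p : K) ^ N)⁻¹ * x l))) =
      PowerSeries.rescale ((p : K) ^ (N + e))
        (PowerSeries.map ι (PowerSeries.rescale (β j) (ψ j))) := by
    intro j
    have e1 : ∑ l, c j l * (((p : K) ^ N)⁻¹ * x l) =
        ((p : K) ^ N)⁻¹ * w j := by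
      rw [hw, Finset.mul_sum]
      exact Finset.sum_congr rfl fun l _ => by ring
    have e2 : ∑ l, c j l * ((p : K) ^ e * y l) = (p : K) ^ e * ι (β j) := by
      rw [hβ, Finset.mul_sum]
      exact Finset.sum_congr rfl fun l _ => by ring
    rw [e1, e2, hmk, tay_rescale _ hpK, ← show PowerSeries.map ι (ψ j) = tay f (w j) from hψ j]
    ext k
    rw [coeff_rescale, coeff_rescale, coeff_map, coeff_rescale, coeff_map, coeff_rescale, map_mul,
      map_pow, mul_pow, pow_add, mul_pow]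
    ring
  have hall : MvPolynomial.aeval (fun j => PowerSeries.rescale (∑ l, c j l * ((p : K) ^ e * y l))
      (tay (PowerSeries.mk fun k => ((p : K) ^ N) ^ k * coeff k f)
        (∑ l, c j l * (((p : K) ^ N)⁻¹ * x l)))) P =
      PowerSeries.rescale ((p : K) ^ (N + e)) (PowerSeries.map ι
        (MvPolynomial.aeval (fun j => PowerSeries.rescale (β j) (ψ j)) P)) := by
    rw [aeval_int_map, aeval_int_map]
    congr 2
    funext j
    exact hser j
  have hk := hG k
  rw [hall, coeff_rescale, coeff_map, norm_mul, norm_pow, norm_pow, hnp] at hk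
  have h5 : ((p : ℝ)⁻¹ ^ (N + e)) ^ k * (p : ℝ) ^ ((N + e) * k) = 1 := by
    rw [← pow_mul, inv_pow]
    exact inv_mul_cancel₀ (by positivity)
  calc ‖ι (coeff k (MvPolynomial.aeval (fun j => PowerSeries.rescale (β j) (ψ j)) P))‖ =
        (((p : ℝ)⁻¹ ^ (N + e)) ^ k *
          ‖ι (coeff k (MvPolynomial.aeval (fun j => PowerSeries.rescale (β j) (ψ j)) P))‖) *
          (p : ℝ) ^ ((N + e) * k) := by
        rw [mul_right_comm, h5, one_mul]
    _ ≤ (((p : ℝ)⁻¹) ^ T * (p : ℝ) ^ k) * (p : ℝ) ^ ((N + e) * k) :=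
        mul_le_mul_of_nonneg_right hk (by positivity)
    _ = ((p : ℝ)⁻¹) ^ T * (p : ℝ) ^ ((N + e + 1) * k) := by
        rw [mul_assoc, ← pow_add]
        congr 2
        ring

end PCL

end
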