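import Pool.Agent.W_52423f_v9.AnS
import Pool.Agent.W_52423f_h70.BpD

/-!
# Archimedean growth of the Taylor coefficients
-/

open scoped Classical

noncomputable section

namespace PCL

open PowerSeries Pool.Agent.PTwist

/-- `coeff n (φ^2) = ∑ (i, j) ∈ antidiagonal n, coeff i φ * coeff j φ` has `n + 1` terms, each at most
`Y S^i * Y S^j`. -/
theorem coeff_sq_le {φ : PowerSeries ℂ} {Y S : ℝ} (hY : 0 ≤ Y) (hS : 0 ≤ S) {N : ℕ}
    (h : ∀ n ≤ N, ‖coeff n φ‖ ≤ Y * S ^ n) {n : ℕ} (hn : n ≤ N) :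
    ‖coeff n (φ ^ 2)‖ ≤ ((n : ℝ) + 1) * (Y ^ 2 * S ^ n) := by
  rw [pow_two, PowerSeries.coeff_mul]
  have h1 : ∀ p ∈ Finset.HasAntidiagonal.antidiagonal n, ‖coeff p.1 φ * coeff p.2 φ‖ ≤ Y ^ 2 * S ^ n := by
    intro p hp
    rw [Finset.HasAntidiagonal.mem_antidiagonal] at hp
    rw [norm_mul]
    calc ‖coeff p.1 φ‖ * ‖coeff p.2 φ‖ ≤ (Y * S ^ p.1) * (Y * S ^ p.2) :=
          mul_le_mul (h _ (by omega)) (h _ (by omega)) (norm_nonneg _) (by positivity)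
      _ = Y ^ 2 * S ^ n := by rw [← hp, pow_add]; ring
  refine (norm_sum_le_of_le _ h1).trans ?_
  rw [Finset.sum_const, Finset.Nat.card_antidiagonal, nsmul_eq_mul]
  push_cast
  exact le_refl _

/-- `φ^3 = φ^2 * φ`: the same with `coeff_sq_le` (`i + 1 <= n + 1`). -/
theorem coeff_cube_le {φ : PowerSeries ℂ} {Y S : ℝ} (hY : 0 ≤ Y) (hS : 0 ≤ S) {N : ℕ}
    (h : ∀ n ≤ N, ‖coeff n φ‖ ≤ Y * S ^ n) {n : ℕ} (hn : n ≤ N) :
    ‖coeff n (φ ^ 3)‖ ≤ ((n : ℝ) + 1) ^ 2 * (Y ^ 3 * S ^ n) := by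
  rw [show φ ^ 3 = φ ^ 2 * φ by ring, PowerSeries.coeff_mul]
  have h1 : ∀ p ∈ Finset.HasAntidiagonal.antidiagonal n, ‖coeff p.1 (φ ^ 2) * coeff p.2 φ‖ ≤
      ((n : ℝ) + 1) * (Y ^ 3 * S ^ n) := by
    intro p hp
    rw [Finset.HasAntidiagonal.mem_antidiagonal] at hp
    rw [norm_mul]
    have h2 : (p.1 : ℝ) ≤ n := by
      have : p.1 ≤ n := by omega
      exact_mod_cast this
    calc ‖coeff p.1 (φ ^ 2)‖ * ‖coeff p.2 φ‖ ≤
          (((p.1 : ℝ) + 1) * (Y ^ 2 * S ^ p.1)) * (Y * S ^ p.2) :=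
          mul_le_mul (coeff_sq_le hY hS h (by omega)) (h _ (by omega)) (norm_nonneg _)
            (by positivity)
      _ = ((p.1 : ℝ) + 1) * (Y ^ 3 * S ^ n) := by rw [← hp, pow_add]; ring
      _ ≤ ((n : ℝ) + 1) * (Y ^ 3 * S ^ n) :=
          mul_le_mul_of_nonneg_right (by linarith) (by positivity)
  refine (norm_sum_le_of_le _ h1).trans ?_
  rw [Finset.sum_const, Finset.Nat.card_antidiagonal, nsmul_eq_mul]
  push_cast
  exact le_of_eq (by ring)

/-- The coefficients of a solution are at most `Y (R Y)^n`.  Strong induction on `n`.  For the step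
`n + 2` use `IsSol.coeff`: with `S = R Y` (`>= 1`)
`(n+2)(n+1) |a_(n+2)| = |coeff n (2 + b₂ φ + 3 b₄ φ^2 + 2 b₆ φ^3)|
 <= 2 + |b₂| Y S^n + 3 |b₄| (n+1) Y^2 S^n + 2 |b₆| (n+1)^2 Y^3 S^n
 <= (n+1)(n+2) (2 + |b₂| + 3 |b₄| + 2 |b₆|) Y^3 S^n <= (n+1)(n+2) R^2 Y^3 S^n = (n+1)(n+2) Y S^(n+2)`
(`coeff_sq_le`, `coeff_cube_le`; `rhs` is defined in `W_52423f_h30`). -/
theorem sol_growth {b₂ b₄ b₆ : ℂ} {φ : PowerSeries ℂ} (h : IsSol b₂ b₄ b₆ φ) {Y R : ℝ}
    (hY : 1 ≤ Y) (hR : 1 ≤ R) (hR2 : 2 + ‖b₂‖ + 3 * ‖b₄‖ + 2 * ‖b₆‖ ≤ R ^ 2)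
    (h0 : ‖coeff 0 φ‖ ≤ Y) (h1 : ‖coeff 1 φ‖ ≤ R * Y ^ 2) (n : ℕ) :
    ‖coeff n φ‖ ≤ Y * (R * Y) ^ n := by
  have hY0 : 0 ≤ Y := by linarith
  have hS1 : 1 ≤ R * Y := one_le_mul_of_one_le_of_one_le hR hY
  have hS0 : 0 ≤ R * Y := by linarith
  induction n using Nat.strong_induction_on with
  | _ n ih =>
    rcases n with _ | _ | n
    · rw [pow_zero, mul_one]
      exact h0
    · rw [zero_add, pow_one]
      refine h1.trans (le_of_eq ?_)
      ring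
    · have hle : ∀ i ≤ n, ‖coeff i φ‖ ≤ Y * (R * Y) ^ i := fun i hi => ih i (by omega)
      have e1 := hle n le_rfl
      have e2 := coeff_sq_le hY0 hS0 hle le_rfl
      have e3 := coeff_cube_le hY0 hS0 hle le_rfl
      have hc := h.coeff n
      have e0 : ‖coeff n (2 : PowerSeries ℂ)‖ ≤ 2 := by
        have h2 : (2 : PowerSeries ℂ) = C (2 : ℂ) := by rw [map_ofNat]
        rw [h2, PowerSeries.coeff_C]
        split_ifs
        · simp
        · simp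
      have hn : ‖coeff n (rhs b₂ b₄ b₆ φ)‖ ≤ 2 + ‖b₂‖ * (Y * (R * Y) ^ n) +
          3 * ‖b₄‖ * (((n : ℝ) + 1) * (Y ^ 2 * (R * Y) ^ n)) +
          2 * ‖b₆‖ * (((n : ℝ) + 1) ^ 2 * (Y ^ 3 * (R * Y) ^ n)) := by
        unfold rhs
        rw [map_add, map_add, map_add, coeff_C_mul, coeff_C_mul, coeff_C_mul]
        refine (norm_add_le _ _).trans (add_le_add ?_ ?_)
        · refine (norm_add_le _ _).trans (add_le_add ?_ ?_)
          · refine (norm_add_le _ _).trans (add_le_add e0 ?_)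
            rw [norm_mul]
            exact mul_le_mul_of_nonneg_left e1 (norm_nonneg _)
          · rw [norm_mul, norm_mul]
            have h3 : ‖(3 : ℂ)‖ = 3 := by simp
            rw [h3]
            exact mul_le_mul_of_nonneg_left e2 (by positivity)
        · rw [norm_mul, norm_mul]
          have h3 : ‖(2 : ℂ)‖ = 2 := by simp
          rw [h3]
          exact mul_le_mul_of_nonneg_left e3 (by positivity)
      have hPn : 1 ≤ (R * Y) ^ n := one_le_pow₀ hS1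
      obtain ⟨Q, hQ⟩ : ∃ Q : ℝ, Q = ((n : ℝ) + 1) * ((n : ℝ) + 2) * (Y ^ 3 * (R * Y) ^ n) :=
        ⟨_, rfl⟩
      have hn0 : (0 : ℝ) ≤ n := Nat.cast_nonneg n
      have hY2 : 1 ≤ Y ^ 2 := one_le_pow₀ hY
      have f1 : Y * (R * Y) ^ n ≤ Q := by
        rw [hQ]
        calc Y * (R * Y) ^ n = 1 * (1 * (Y * (R * Y) ^ n)) := by ring
          _ ≤ (((n : ℝ) + 1) * ((n : ℝ) + 2)) * (Y ^ 2 * (Y * (R * Y) ^ n)) :=
              mul_le_mul (by nlinarith) (mul_le_mul_of_nonneg_right hY2 (by positivity))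
                (by positivity) (by positivity)
          _ = _ := by ring
      have f0 : 1 ≤ Q := by
        refine le_trans ?_ f1
        exact one_le_mul_of_one_le_of_one_le hY hPn
      have f2 : ((n : ℝ) + 1) * (Y ^ 2 * (R * Y) ^ n) ≤ Q := by
        rw [hQ]
        calc ((n : ℝ) + 1) * (Y ^ 2 * (R * Y) ^ n) =
              (((n : ℝ) + 1) * 1) * (1 * (Y ^ 2 * (R * Y) ^ n)) := by ring
          _ ≤ (((n : ℝ) + 1) * ((n : ℝ) + 2)) * (Y * (Y ^ 2 * (R * Y) ^ n)) :=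
              mul_le_mul (mul_le_mul_of_nonneg_left (by linarith) (by positivity))
                (mul_le_mul_of_nonneg_right hY (by positivity)) (by positivity) (by positivity)
          _ = _ := by ring
      have f3 : ((n : ℝ) + 1) ^ 2 * (Y ^ 3 * (R * Y) ^ n) ≤ Q := by
        rw [hQ]
        refine mul_le_mul_of_nonneg_right ?_ (by positivity)
        nlinarith
      have hQ0 : 0 ≤ Q := by linarith
      have g1 : ‖coeff n (rhs b₂ b₄ b₆ φ)‖ ≤ R ^ 2 * Q := by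
        refine hn.trans (le_trans ?_ (mul_le_mul_of_nonneg_right hR2 hQ0))
        have k1 := mul_le_mul_of_nonneg_left f1 (norm_nonneg b₂)
        have k2 := mul_le_mul_of_nonneg_left f2 (show 0 ≤ 3 * ‖b₄‖ by positivity)
        have k3 := mul_le_mul_of_nonneg_left f3 (show 0 ≤ 2 * ‖b₆‖ by positivity)
        linarith
      rw [← hc, norm_mul] at g1
      have h5 : ‖((n : ℂ) + 2) * ((n : ℂ) + 1)‖ = ((n : ℝ) + 1) * ((n : ℝ) + 2) := by
        have h6 : ((n : ℂ) + 2) * ((n : ℂ) + 1) = (((n + 1) * (n + 2) : ℕ) : ℂ) := by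
          push_cast
          ring
        rw [h6, Complex.norm_natCast]
        push_cast
        ring
      rw [h5, hQ] at g1
      have hpos : (0 : ℝ) < ((n : ℝ) + 1) * ((n : ℝ) + 2) := by positivity
      refine le_of_mul_le_mul_right (le_trans g1 (le_of_eq ?_)) hpos
      rw [pow_add]
      ring

/-- The truncated weighted `l^1` norm. -/
def AnD_nu (N : ℕ) (T : ℝ) (F : PowerSeries ℂ) : ℝ :=
  ∑ i ∈ Finset.range (N + 1), ‖coeff i F‖ * T ^ i

theorem AnD_nu_nonneg (N : ℕ) {T : ℝ} (hT : 0 ≤ T) (F : PowerSeries ℂ) : 0 ≤ AnD_nu N T F :=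
  Finset.sum_nonneg fun _ _ => mul_nonneg (norm_nonneg _) (pow_nonneg hT _)

theorem AnD_le_nu (n : ℕ) {T : ℝ} (hT : 0 ≤ T) (F : PowerSeries ℂ) :
    ‖coeff n F‖ * T ^ n ≤ AnD_nu n T F :=
  Finset.single_le_sum (f := fun i => ‖coeff i F‖ * T ^ i)
    (fun _ _ => mul_nonneg (norm_nonneg _) (pow_nonneg hT _)) (Finset.self_mem_range_succ n)

theorem AnD_nu_sum {ι : Type} (s : Finset ι) (N : ℕ) {T : ℝ} (hT : 0 ≤ T)
    (F : ι → PowerSeries ℂ) : AnD_nu N T (∑ i ∈ s, F i) ≤ ∑ i ∈ s, AnD_nu N T (F i) := by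
  unfold AnD_nu
  rw [Finset.sum_comm]
  refine Finset.sum_le_sum fun i _ => ?_
  rw [← Finset.sum_mul, map_sum]
  exact mul_le_mul_of_nonneg_right (norm_sum_le _ _) (pow_nonneg hT _)

theorem AnD_nu_mul (N : ℕ) {T : ℝ} (hT : 0 ≤ T) (F G : PowerSeries ℂ) :
    AnD_nu N T (F * G) ≤ AnD_nu N T F * AnD_nu N T G := by
  obtain ⟨f, hf⟩ : ∃ f : ℕ × ℕ → ℝ, ∀ p, f p =
      (‖coeff p.1 F‖ * T ^ p.1) * (‖coeff p.2 G‖ * T ^ p.2) := ⟨_, fun _ => rfl⟩
  have hf0 : ∀ p, 0 ≤ f p := by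
    intro p
    rw [hf]
    positivity
  have h1 : AnD_nu N T (F * G) ≤
      ∑ n ∈ Finset.range (N + 1), ∑ p ∈ Finset.HasAntidiagonal.antidiagonal n, f p := by
    unfold AnD_nu
    refine Finset.sum_le_sum fun n _ => ?_
    rw [PowerSeries.coeff_mul]
    refine (mul_le_mul_of_nonneg_right (norm_sum_le _ _) (pow_nonneg hT _)).trans ?_
    rw [Finset.sum_mul]
    refine Finset.sum_le_sum fun p hp => ?_
    rw [Finset.HasAntidiagonal.mem_antidiagonal] at hp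
    rw [hf, norm_mul, ← hp, pow_add]
    exact le_of_eq (by ring)
  obtain ⟨U, hU⟩ : ∃ U : Finset (ℕ × ℕ), U =
      (Finset.range (N + 1) ×ˢ Finset.range (N + 1)).filter (fun p => p.1 + p.2 < N + 1) :=
    ⟨_, rfl⟩
  have h2 : ∑ n ∈ Finset.range (N + 1), ∑ p ∈ Finset.HasAntidiagonal.antidiagonal n, f p = ∑ p ∈ U, f p := by
    rw [← Finset.sum_fiberwise_of_maps_to (s := U) (t := Finset.range (N + 1))
      (g := fun p => p.1 + p.2) (fun p hp => by
        rw [hU, Finset.mem_filter] at hp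
        exact Finset.mem_range.2 hp.2)]
    refine Finset.sum_congr rfl fun n hn => ?_
    rw [Finset.mem_range] at hn
    refine Finset.sum_congr ?_ fun _ _ => rfl
    ext p
    rw [hU, Finset.mem_filter, Finset.mem_filter, Finset.mem_product, Finset.mem_range,
      Finset.mem_range, Finset.HasAntidiagonal.mem_antidiagonal]
    constructor
    · intro h
      exact ⟨⟨⟨by omega, by omega⟩, by omega⟩, h⟩
    · intro h
      exact h.2
  have h3 : ∑ p ∈ U, f p ≤ ∑ p ∈ Finset.range (N + 1) ×ˢ Finset.range (N + 1), f p := by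
    refine Finset.sum_le_sum_of_subset_of_nonneg ?_ fun p _ _ => hf0 p
    rw [hU]
    exact Finset.filter_subset _ _
  refine h1.trans (le_trans (le_of_eq h2) (h3.trans (le_of_eq ?_)))
  unfold AnD_nu
  rw [Finset.sum_mul_sum, ← Finset.sum_product']
  exact Finset.sum_congr rfl fun p _ => hf p

theorem AnD_nu_C (N : ℕ) (T : ℝ) (a : ℂ) : AnD_nu N T (C a) = ‖a‖ := by
  unfold AnD_nu
  rw [Finset.sum_eq_single 0]
  · simp
  · intro i _ hi
    rw [PowerSeries.coeff_C, if_neg hi, norm_zero, zero_mul]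
  · intro h
    exact absurd (Finset.mem_range.2 (Nat.succ_pos N)) h

theorem AnD_nu_pow (N : ℕ) {T B : ℝ} (hT : 0 ≤ T) (hB : 0 ≤ B) {F : PowerSeries ℂ}
    (h : AnD_nu N T F ≤ B) (k : ℕ) : AnD_nu N T (F ^ k) ≤ B ^ k := by
  induction k with
  | zero =>
    rw [pow_zero, pow_zero, ← map_one (C (R := ℂ)), AnD_nu_C, norm_one]
  | succ k ih =>
    rw [pow_succ, pow_succ]
    exact (AnD_nu_mul N hT _ _).trans (mul_le_mul ih h (AnD_nu_nonneg N hT _) (pow_nonneg hB k))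

theorem AnD_nu_prod {ι : Type} (s : Finset ι) (N : ℕ) {T : ℝ} (hT : 0 ≤ T)
    (F : ι → PowerSeries ℂ) (b : ι → ℝ) (h : ∀ i ∈ s, AnD_nu N T (F i) ≤ b i) :
    AnD_nu N T (∏ i ∈ s, F i) ≤ ∏ i ∈ s, b i := by
  induction s using Finset.induction_on with
  | empty => rw [Finset.prod_empty, Finset.prod_empty, ← map_one (C (R := ℂ)), AnD_nu_C, norm_one]
  | insert a s ha ih =>
    rw [Finset.prod_insert ha, Finset.prod_insert ha]
    have hb : ∀ i ∈ s, 0 ≤ b i := fun i hi =>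
      (AnD_nu_nonneg N hT (F i)).trans (h i (Finset.mem_insert_of_mem hi))
    exact (AnD_nu_mul N hT _ _).trans (mul_le_mul (h a (Finset.mem_insert_self a s))
      (ih fun i hi => h i (Finset.mem_insert_of_mem hi)) (AnD_nu_nonneg N hT _)
      ((AnD_nu_nonneg N hT (F a)).trans (h a (Finset.mem_insert_self a s))))

theorem AnD_nu_aeval {m D H : ℕ} {P : MvPolynomial (Fin m) ℤ} (hdeg : ∀ j, P.degreeOf j < D)
    (hH : ∀ α, |P.coeff α| ≤ H) {φ : Fin m → PowerSeries ℂ} {T B : ℝ} (hT : 0 ≤ T) (hB : 1 ≤ B)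
    {N : ℕ} (hφ : ∀ j, AnD_nu N T (φ j) ≤ B) :
    AnD_nu N T (MvPolynomial.aeval φ P) ≤ (D : ℝ) ^ m * H * B ^ (m * D) := by
  have hB0 : 0 ≤ B := by linarith
  rw [MvPolynomial.aeval_def, MvPolynomial.eval₂_eq']
  refine (AnD_nu_sum _ N hT _).trans ?_
  have h1 : ∀ α ∈ P.support, AnD_nu N T (algebraMap ℤ (PowerSeries ℂ) (P.coeff α) *
      ∏ j, φ j ^ α j) ≤ (H : ℝ) * B ^ (m * D) := by
    intro α hα
    refine (AnD_nu_mul N hT _ _).trans ?_
    have h2 : AnD_nu N T (algebraMap ℤ (PowerSeries ℂ) (P.coeff α)) ≤ H := by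
      have h3 : algebraMap ℤ (PowerSeries ℂ) (P.coeff α) = C ((P.coeff α : ℤ) : ℂ) := by
        rw [eq_intCast, map_intCast]
      rw [h3, AnD_nu_C, Complex.norm_intCast]
      exact_mod_cast hH α
    have h4 : AnD_nu N T (∏ j, φ j ^ α j) ≤ B ^ (m * D) := by
      refine (AnD_nu_prod Finset.univ N hT _ (fun j => B ^ α j)
        fun j _ => AnD_nu_pow N hT hB0 (hφ j) (α j)).trans ?_
      rw [Finset.prod_pow_eq_pow_sum]
      exact pow_le_pow_right₀ hB (sum_exp_le hdeg hα)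
    exact mul_le_mul h2 h4 (AnD_nu_nonneg N hT _) (Nat.cast_nonneg _)
  refine (Finset.sum_le_sum h1).trans ?_
  rw [Finset.sum_const, nsmul_eq_mul, mul_assoc]
  refine mul_le_mul_of_nonneg_right ?_ (by positivity)
  exact_mod_cast card_supp_le hdeg

/-- The coefficients of an integral polynomial in series with `|coeff n| <= Y S^n`.  Put
`ν F = ∑ i ∈ range (N + 1), ‖coeff i F‖ * (2 S)⁻¹ ^ i` for `N = n` fixed.  Then `ν (F + G) <= ν F + ν G`,
`ν (F G) <= ν F * ν G` (the double sum over `i + j <= N` is a part of the double sum over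
`i, j <= N`), `ν (C a) = |a|`, `ν (φ_j) <= ∑ Y 2^(-i) <= 2 Y`.  The polynomial has at most `D^m` monomials
(`card_supp_le`), each with at most `m D` factors (`sum_exp_le`; `1 <= 2 Y`) and a coefficient at most
`H`, so `ν (P(φ)) <= D^m H (2 Y)^(m D)`; finally `‖coeff n F‖ <= ν F * (2 S)^n`. -/
theorem aeval_growth {m D H : ℕ} {P : MvPolynomial (Fin m) ℤ} (hdeg : ∀ j, P.degreeOf j < D)
    (hH : ∀ α, |P.coeff α| ≤ H) {φ : Fin m → PowerSeries ℂ} {Y S : ℝ} (hY : 1 ≤ Y) (hS : 0 < S)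
    (hφ : ∀ j n, ‖coeff n (φ j)‖ ≤ Y * S ^ n) (n : ℕ) :
    ‖coeff n (MvPolynomial.aeval φ P)‖ ≤
      (D : ℝ) ^ m * H * (2 * Y) ^ (m * D) * (2 * S) ^ n := by
  have hT : (0 : ℝ) ≤ (2 * S)⁻¹ := by positivity
  have hν := AnD_nu_aeval hdeg hH hT (B := 2 * Y) (by linarith) (φ := φ) (N := n) (fun j => by
    unfold AnD_nu
    have h1 : ∀ i ∈ Finset.range (n + 1), ‖coeff i (φ j)‖ * (2 * S)⁻¹ ^ i ≤
        Y * (1 / 2 : ℝ) ^ i := by
      intro i _
      calc ‖coeff i (φ j)‖ * (2 * S)⁻¹ ^ i ≤ (Y * S ^ i) * (2 * S)⁻¹ ^ i :=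
            mul_le_mul_of_nonneg_right (hφ j i) (by positivity)
        _ = Y * (S * (2 * S)⁻¹) ^ i := by rw [mul_pow]; ring
        _ = Y * (1 / 2 : ℝ) ^ i := by
            congr 2
            field_simp
    refine (Finset.sum_le_sum h1).trans ?_
    rw [← Finset.mul_sum, mul_comm]
    exact mul_le_mul_of_nonneg_right (sum_geometric_two_le _) (by linarith))
  have h1 : ‖coeff n (MvPolynomial.aeval φ P)‖ * (2 * S)⁻¹ ^ n ≤
      (D : ℝ) ^ m * H * (2 * Y) ^ (m * D) :=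
    (AnD_le_nu n hT _).trans hν
  have h2 : (0 : ℝ) < (2 * S) ^ n := by positivity
  calc ‖coeff n (MvPolynomial.aeval φ P)‖ =
        (‖coeff n (MvPolynomial.aeval φ P)‖ * (2 * S)⁻¹ ^ n) * (2 * S) ^ n := by
        rw [inv_pow, mul_assoc, inv_mul_cancel₀ h2.ne', mul_one]
    _ ≤ ((D : ℝ) ^ m * H * (2 * Y) ^ (m * D)) * (2 * S) ^ n :=
        mul_le_mul_of_nonneg_right h1 h2.le

end PCL

end
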