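import Pool.Agent.W_52423f_v9.AnS
import Pool.Agent.W_52423f_h70.BpD

/-!
# Denominators of the Taylor coefficients
-/

open scoped Classical

noncomputable section

namespace PCL

open PowerSeries Pool.Agent.PTwist

variable {M : Type} [Field M] {q : M}

/-- `n! q^(2n+e)` times the coefficient of `ε^n` is integral. -/
def DenOk (q : M) (e : ℕ) (F : PowerSeries M) : Prop :=
  ∀ n : ℕ, IsIntegral ℤ ((n.factorial : M) * q ^ (2 * n + e) * coeff n F)

/-- A part of `DenOk`, up to the order `N`. -/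
def DenOkUpTo (q : M) (N e : ℕ) (F : PowerSeries M) : Prop :=
  ∀ n ≤ N, IsIntegral ℤ ((n.factorial : M) * q ^ (2 * n + e) * coeff n F)

theorem AnE_nat (k : ℕ) : IsIntegral ℤ (k : M) := by
  have h := isIntegral_algebraMap (R := ℤ) (A := M) (x := (k : ℤ))
  simpa using h

theorem AnE_int (k : ℤ) : IsIntegral ℤ (k : M) := by
  have h := isIntegral_algebraMap (R := ℤ) (A := M) (x := k)
  simpa using h

theorem DenOkUpTo.add {N e : ℕ} {F G : PowerSeries M} (hF : DenOkUpTo q N e F)
    (hG : DenOkUpTo q N e G) : DenOkUpTo q N e (F + G) := by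
  intro n hn
  rw [map_add, mul_add]
  exact (hF n hn).add (hG n hn)

/-- Products: `n! = (n.choose i) i! j!` for `i + j = n`. -/
theorem DenOkUpTo.mul {N e e' : ℕ} {F G : PowerSeries M} (hF : DenOkUpTo q N e F)
    (hG : DenOkUpTo q N e' G) : DenOkUpTo q N (e + e') (F * G) := by
  intro n hn
  rw [coeff_mul, Finset.mul_sum]
  refine IsIntegral.sum _ fun x hx => ?_
  obtain ⟨i, j⟩ := x
  have hij : i + j = n := Finset.HasAntidiagonal.mem_antidiagonal.1 hx
  subst hij
  have h1 : (((i + j).factorial : ℕ) : M) * q ^ (2 * (i + j) + (e + e')) *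
      (coeff i F * coeff j G) = (((i + j).choose j : ℕ) : M) *
        (((i.factorial : ℕ) : M) * q ^ (2 * i + e) * coeff i F) *
        (((j.factorial : ℕ) : M) * q ^ (2 * j + e') * coeff j G) := by
    rw [← Nat.add_choose_mul_factorial_mul_factorial i j]
    push_cast
    ring
  show IsIntegral ℤ ((((i + j).factorial : ℕ) : M) * q ^ (2 * (i + j) + (e + e')) *
      (coeff i F * coeff j G))
  rw [h1]
  exact ((AnE_nat _).mul (hF i (by omega))).mul (hG j (by omega))

theorem DenOkUpTo.mono (hq : IsIntegral ℤ q) {N e e' : ℕ} (he : e ≤ e') {F : PowerSeries M}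
    (hF : DenOkUpTo q N e F) : DenOkUpTo q N e' F := by
  intro n hn
  obtain ⟨d, rfl⟩ := Nat.exists_eq_add_of_le he
  have h1 : (n.factorial : M) * q ^ (2 * n + (e + d)) * coeff n F =
      q ^ d * ((n.factorial : M) * q ^ (2 * n + e) * coeff n F) := by
    ring
  rw [h1]
  exact (hq.pow d).mul (hF n hn)

theorem DenOkUpTo.const {N e : ℕ} {a : M} (ha : IsIntegral ℤ (q ^ e * a)) :
    DenOkUpTo q N e (C a) := by
  intro n hn
  rw [coeff_C]
  split_ifs with h
  · subst h
    simpa using ha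
  · rw [mul_zero]
    exact isIntegral_zero

theorem AnE_one {N : ℕ} : DenOkUpTo q N 0 (1 : PowerSeries M) := by
  have h := DenOkUpTo.const (q := q) (N := N) (e := 0) (a := 1)
    (by rw [pow_zero, mul_one]; exact isIntegral_one)
  rwa [map_one] at h

theorem AnE_pow {N : ℕ} {F : PowerSeries M} (hF : DenOkUpTo q N 1 F) (k : ℕ) :
    DenOkUpTo q N k (F ^ k) := by
  induction k with
  | zero =>
    rw [pow_zero]
    exact AnE_one
  | succ k ih =>
    rw [pow_succ]
    exact ih.mul hF

theorem AnE_prod {N : ℕ} {ι : Type} (s : Finset ι) {F : ι → PowerSeries M}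
    (hF : ∀ j, DenOkUpTo q N 1 (F j)) (α : ι → ℕ) :
    DenOkUpTo q N (∑ j ∈ s, α j) (∏ j ∈ s, F j ^ α j) := by
  induction s using Finset.induction_on with
  | empty =>
    rw [Finset.sum_empty, Finset.prod_empty]
    exact AnE_one
  | insert a s ha ih =>
    rw [Finset.sum_insert ha, Finset.prod_insert ha]
    exact (AnE_pow (hF a) (α a)).mul ih

theorem AnE_sum {N e : ℕ} {ι : Type} (s : Finset ι) {F : ι → PowerSeries M}
    (hF : ∀ j ∈ s, DenOkUpTo q N e (F j)) : DenOkUpTo q N e (∑ j ∈ s, F j) := by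
  intro n hn
  rw [map_sum, Finset.mul_sum]
  exact IsIntegral.sum _ fun j hj => hF j hj n hn

/-- The denominators of a solution.  Strong induction on `n`: suppose the claim for the orders
`<= n + 1` (`DenOkUpTo q n 1 φ`), then `rhs b₂ b₄ b₆ φ = 2 + b₂ φ + 3 b₄ φ^2 + 2 b₆ φ^3` satisfies
`DenOkUpTo q n 4` (`b_i` has `e = 1`, and `φ^k` has `e = k`), and
`(n+2)! a_(n+2) = n! coeff n rhs` (`IsSol.coeff`), `2 n + 4 <= 2 (n + 2) + 1`. -/
theorem sol_den {b₂ b₄ b₆ : M} {φ : PowerSeries M} (hs : IsSol b₂ b₄ b₆ φ) (hq : IsIntegral ℤ q)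
    (h2 : IsIntegral ℤ (q * b₂)) (h4 : IsIntegral ℤ (q * b₄)) (h6 : IsIntegral ℤ (q * b₆))
    (h0 : IsIntegral ℤ (q * coeff 0 φ)) (h1 : IsIntegral ℤ (q ^ 3 * coeff 1 φ)) :
    DenOk q 1 φ := by
  intro n
  induction n using Nat.strong_induction_on with
  | _ n ih =>
    rcases n with _ | _ | n
    · simpa using h0
    · simpa using h1
    · have hφ : DenOkUpTo q n 1 φ := fun k hk => ih k (by omega)
      have t0 : DenOkUpTo q n 4 (2 : PowerSeries M) := by
        have h := DenOkUpTo.const (q := q) (N := n) (e := 4) (a := 2)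
          ((hq.pow 4).mul (by simpa using AnE_nat (M := M) 2))
        rwa [map_ofNat] at h
      have t2 : DenOkUpTo q n 4 (C b₂ * φ) := by
        have h := (DenOkUpTo.const (q := q) (N := n) (e := 1) (a := b₂)
          (by rw [pow_one]; exact h2)).mul hφ
        exact h.mono hq (by norm_num)
      have t4 : DenOkUpTo q n 4 (C (3 * b₄) * φ ^ 2) := by
        have h := (DenOkUpTo.const (q := q) (N := n) (e := 1) (a := 3 * b₄)
          (by
            have h3 : q ^ 1 * (3 * b₄) = ((3 : ℕ) : M) * (q * b₄) := by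
              push_cast
              ring
            rw [h3]
            exact (AnE_nat 3).mul h4)).mul (AnE_pow hφ 2)
        exact h.mono hq (by norm_num)
      have t6 : DenOkUpTo q n 4 (C (2 * b₆) * φ ^ 3) := by
        have h := (DenOkUpTo.const (q := q) (N := n) (e := 1) (a := 2 * b₆)
          (by
            have h3 : q ^ 1 * (2 * b₆) = ((2 : ℕ) : M) * (q * b₆) := by
              push_cast
              ring
            rw [h3]
            exact (AnE_nat 2).mul h6)).mul (AnE_pow hφ 3)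
        exact h.mono hq (by norm_num)
      have t : DenOkUpTo q n 4 (rhs b₂ b₄ b₆ φ) := by
        unfold rhs
        exact ((t0.add t2).add t4).add t6
      have h3 := hs.coeff n
      have h5 : (((n + 2).factorial : ℕ) : M) * q ^ (2 * (n + 2) + 1) * coeff (n + 2) φ =
          q * (((n.factorial : ℕ) : M) * q ^ (2 * n + 4) * coeff n (rhs b₂ b₄ b₆ φ)) := by
        rw [← h3, Nat.factorial_succ, Nat.factorial_succ]
        push_cast
        ring
      show IsIntegral ℤ ((((n + 2).factorial : ℕ) : M) * q ^ (2 * (n + 2) + 1) *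
        coeff (n + 2) φ)
      rw [h5]
      exact hq.mul (t n le_rfl)

/-- `q^3 V` is integral if `q b_i`, `q v` are and `V^2 = 4 v + b₂ v^2 + 2 b₄ v^3 + b₆ v^4`:
`(q^3 V)^2 = q^6 V^2` is a sum of products of integral numbers, and an element with integral square is
integral (`IsIntegral.of_pow`). -/
theorem den_V {b₂ b₄ b₆ v w : M} (hq : IsIntegral ℤ q)
    (h2 : IsIntegral ℤ (q * b₂)) (h4 : IsIntegral ℤ (q * b₄)) (h6 : IsIntegral ℤ (q * b₆))
    (hv : IsIntegral ℤ (q * v)) (hw : w ^ 2 = 4 * v + b₂ * v ^ 2 + 2 * b₄ * v ^ 3 + b₆ * v ^ 4) :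
    IsIntegral ℤ (q ^ 3 * w) := by
  refine IsIntegral.of_pow (n := 2) (by norm_num) ?_
  have h : (q ^ 3 * w) ^ 2 = ((4 : ℕ) : M) * q ^ 5 * (q * v) + q ^ 3 * (q * b₂) * (q * v) ^ 2 +
      ((2 : ℕ) : M) * q ^ 2 * (q * b₄) * (q * v) ^ 3 + q * (q * b₆) * (q * v) ^ 4 := by
    rw [mul_pow, hw]
    push_cast
    ring
  rw [h]
  exact ((((((AnE_nat 4).mul (hq.pow 5)).mul hv).add (((hq.pow 3).mul h2).mul (hv.pow 2))).add
    ((((AnE_nat 2).mul (hq.pow 2)).mul h4).mul (hv.pow 3))).add ((hq.mul h6).mul (hv.pow 4)))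

/-- Change of the direction: `(q q')^(2n+e) β^n = (q' β)^n q'^(n+e) q^(2n+e)`. -/
theorem DenOk.rescale {q' β : M} (hq' : IsIntegral ℤ q') (hβ : IsIntegral ℤ (q' * β)) {e : ℕ}
    {F : PowerSeries M} (hF : DenOk q e F) : DenOk (q * q') e (PowerSeries.rescale β F) := by
  intro n
  rw [coeff_rescale]
  have h : (n.factorial : M) * (q * q') ^ (2 * n + e) * (β ^ n * coeff n F) =
      (q' * β) ^ n * q' ^ (n + e) * ((n.factorial : M) * q ^ (2 * n + e) * coeff n F) := by
    ring
  rw [h]
  exact ((hβ.pow n).mul (hq'.pow (n + e))).mul (hF n)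

/-- Integral polynomials of degree less than `D` in each variable: the monomial `α` has `e = |α|`
(`DenOkUpTo.mul`), `|α| <= m D` (`sum_exp_le`) and
`DenOkUpTo.mono`. -/
theorem aeval_den {m D : ℕ} {P : MvPolynomial (Fin m) ℤ} (hdeg : ∀ j, P.degreeOf j < D)
    (hq : IsIntegral ℤ q) {φ : Fin m → PowerSeries M} (hφ : ∀ j, DenOk q 1 (φ j)) :
    DenOk q (m * D) (MvPolynomial.aeval φ P) := by
  intro n
  have h : DenOkUpTo q n (m * D) (MvPolynomial.aeval φ P) := by
    rw [MvPolynomial.aeval_def, MvPolynomial.eval₂_eq']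
    refine AnE_sum _ fun α hα => ?_
    have h1 : DenOkUpTo q n 0 (algebraMap ℤ (PowerSeries M) (P.coeff α)) := by
      have h2 : algebraMap ℤ (PowerSeries M) (P.coeff α) = C ((P.coeff α : ℤ) : M) := by
        rw [eq_intCast, map_intCast]
      rw [h2]
      refine DenOkUpTo.const ?_
      rw [pow_zero, one_mul]
      exact AnE_int _
    have h3 := h1.mul (AnE_prod Finset.univ (fun j k _ => hφ j k) (fun j => α j))
    refine h3.mono hq ?_
    rw [zero_add]
    exact sum_exp_le hdeg hα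
  exact h n le_rfl

end PCL

end
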