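import Pool.Agent.W_52423f_v9.AnC
import Pool.Agent.W_52423f_v9.AnD
import Pool.Agent.W_52423f_v9.AnE

/-!
# Liouville inequality for the Taylor coefficients
-/

open scoped Classical

set_option linter.unusedSectionVars false

noncomputable section

namespace PCL

open PowerSeries Pool.Agent.PTwist NumberField

/-- The Liouville inequality for the Taylor coefficients of `P` at a point in the direction `β`. -/
theorem an_liouville {M : Type} [Field M] [NumberField M] {K : Type} [NormedField K]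
    [IsUltrametricDist K] (p : ℕ) [Fact p.Prime] [NormedAlgebra ℚ_[p] K] (ι : M →+* K)
    {b₂ b₄ b₆ : M} {m D H b B₀ B' : ℕ} {Y R B : ℝ} (hY : 1 ≤ Y) (hR : 1 ≤ R) (hB : 1 ≤ B)
    {P : MvPolynomial (Fin m) ℤ} (hdeg : ∀ j, P.degreeOf j < D) (hH : ∀ α, |P.coeff α| ≤ H)
    {ψ : Fin m → PowerSeries M} (hψ : ∀ j, IsSol b₂ b₄ b₆ (ψ j))
    (hsq : ∀ j, coeff 1 (ψ j) ^ 2 = 4 * coeff 0 (ψ j) + b₂ * coeff 0 (ψ j) ^ 2 +
      2 * b₄ * coeff 0 (ψ j) ^ 3 + b₆ * coeff 0 (ψ j) ^ 4)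
    (hint : ∀ j, IsIntegral ℤ ((b : M) * coeff 0 (ψ j)))
    (hσ : ∀ (σ : M →+* ℂ) (j : Fin m), ‖σ (coeff 0 (ψ j))‖ ≤ Y)
    (h2 : IsIntegral ℤ ((B₀ : M) * b₂)) (h4 : IsIntegral ℤ ((B₀ : M) * b₄))
    (h6 : IsIntegral ℤ ((B₀ : M) * b₆))
    (hR2 : ∀ σ : M →+* ℂ, 4 + ‖σ b₂‖ + 3 * ‖σ b₄‖ + 2 * ‖σ b₆‖ ≤ R ^ 2)
    {β : Fin m → M} (hβ : ∀ j, IsIntegral ℤ ((B' : M) * β j))
    (hβσ : ∀ (σ : M →+* ℂ) (j : Fin m), ‖σ (β j)‖ ≤ B)
    (hb : 1 ≤ b) (hB₀ : 1 ≤ B₀) (hB' : 1 ≤ B') {n : ℕ}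
    (h0 : coeff n (MvPolynomial.aeval (fun j => PowerSeries.rescale (β j) (ψ j)) P) ≠ 0) :
    1 ≤ ‖ι (coeff n (MvPolynomial.aeval (fun j => PowerSeries.rescale (β j) (ψ j)) P))‖ *
      ((n.factorial : ℝ) * ((b : ℝ) * B₀ * B') ^ (2 * n + m * D) *
        ((D : ℝ) ^ m * H * (2 * Y) ^ (m * D) * (2 * (R * Y * B)) ^ n)) ^
          Module.finrank ℚ M := by
  set F : PowerSeries M := MvPolynomial.aeval (fun j => PowerSeries.rescale (β j) (ψ j)) P with hF
  have hnat : ∀ a : ℕ, IsIntegral ℤ (a : M) := by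
    intro a
    have h := isIntegral_algebraMap (R := ℤ) (A := M) (x := (a : ℤ))
    simpa using h
  have hY0 : (0 : ℝ) < Y := by linarith
  -- denominators
  have hden : DenOk ((b : M) * B₀ * B') (m * D) F := by
    refine aeval_den hdeg (((hnat b).mul (hnat B₀)).mul (hnat B')) fun j => ?_
    refine DenOk.rescale (hnat B') (hβ j) ?_
    have k2 : IsIntegral ℤ ((b : M) * B₀ * b₂) := by
      rw [mul_assoc]
      exact (hnat b).mul h2
    have k4 : IsIntegral ℤ ((b : M) * B₀ * b₄) := by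
      rw [mul_assoc]
      exact (hnat b).mul h4
    have k6 : IsIntegral ℤ ((b : M) * B₀ * b₆) := by
      rw [mul_assoc]
      exact (hnat b).mul h6
    have k0 : IsIntegral ℤ ((b : M) * B₀ * coeff 0 (ψ j)) := by
      rw [mul_right_comm]
      exact (hint j).mul (hnat B₀)
    exact sol_den (hψ j) ((hnat b).mul (hnat B₀)) k2 k4 k6 k0
      (den_V ((hnat b).mul (hnat B₀)) k2 k4 k6 k0 (hsq j))
  set q : M := (b : M) * B₀ * B' with hq
  obtain ⟨η, hη⟩ : ∃ η : M, η = (n.factorial : M) * q ^ (2 * n + m * D) * coeff n F := ⟨_, rfl⟩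
  have hqc : q = ((b * B₀ * B' : ℕ) : M) := by
    rw [hq]
    push_cast
    ring
  have hq0 : q ≠ 0 := by
    rw [hqc]
    have h1 : b * B₀ * B' ≠ 0 := by
      have := Nat.mul_pos (Nat.mul_pos hb hB₀) hB'
      omega
    exact_mod_cast h1
  have hη0 : η ≠ 0 := by
    rw [hη]
    exact mul_ne_zero (mul_ne_zero (Nat.cast_ne_zero.2 (Nat.factorial_ne_zero n))
      (pow_ne_zero _ hq0)) h0
  have hηint : IsIntegral ℤ η := by
    rw [hη]
    exact hden n
  have hL := liouville p ι hηint hη0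
  have h1 : ‖ι η‖ ≤ ‖ι (coeff n F)‖ := by
    have e1 : η = ((n.factorial * (b * B₀ * B') ^ (2 * n + m * D) : ℕ) : M) * coeff n F := by
      rw [hη, hqc]
      push_cast
      ring
    rw [e1, map_mul, norm_mul]
    have e2 : ‖ι ((n.factorial * (b * B₀ * B') ^ (2 * n + m * D) : ℕ) : M)‖ ≤ 1 :=
      norm_integral_le_one ι (hnat _)
    calc _ ≤ 1 * ‖ι (coeff n F)‖ := mul_le_mul_of_nonneg_right e2 (norm_nonneg _)
      _ = _ := one_mul _
  have hsol : ∀ (σ : M →+* ℂ) (j : Fin m) (k : ℕ),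
      ‖coeff k (PowerSeries.map σ (PowerSeries.rescale (β j) (ψ j)))‖ ≤ Y * (R * Y * B) ^ k := by
    intro σ j k
    have g1 := (hψ j).map σ
    have hc1 : ‖coeff 1 (PowerSeries.map σ (ψ j))‖ ≤ R * Y ^ 2 := by
      rw [coeff_map]
      have e1 := congrArg σ (hsq j)
      have e2 : ‖σ (coeff 1 (ψ j))‖ ^ 2 ≤ (R * Y ^ 2) ^ 2 := by
        rw [← norm_pow, ← map_pow, e1]
        simp only [map_add, map_mul, map_pow, map_ofNat]
        set v := σ (coeff 0 (ψ j)) with hv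
        have hvY : ‖v‖ ≤ Y := hσ σ j
        have hv0 := norm_nonneg v
        have n1 : ‖4 * v‖ ≤ 4 * Y ^ 4 := by
          rw [norm_mul]
          have : ‖(4 : ℂ)‖ = 4 := by norm_num
          rw [this]
          have hp : Y ≤ Y ^ 4 := le_self_pow₀ hY (by norm_num)
          linarith
        have n2 : ‖σ b₂ * v ^ 2‖ ≤ ‖σ b₂‖ * Y ^ 4 := by
          rw [norm_mul, norm_pow]
          refine mul_le_mul_of_nonneg_left ?_ (norm_nonneg _)
          exact (pow_le_pow_left₀ hv0 hvY 2).trans (pow_le_pow_right₀ hY (by norm_num))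
        have n3 : ‖2 * σ b₄ * v ^ 3‖ ≤ 2 * ‖σ b₄‖ * Y ^ 4 := by
          rw [norm_mul, norm_mul, norm_pow]
          have : ‖(2 : ℂ)‖ = 2 := by norm_num
          rw [this]
          refine mul_le_mul_of_nonneg_left ?_ (by positivity)
          exact (pow_le_pow_left₀ hv0 hvY 3).trans (pow_le_pow_right₀ hY (by norm_num))
        have n4 : ‖σ b₆ * v ^ 4‖ ≤ ‖σ b₆‖ * Y ^ 4 := by
          rw [norm_mul, norm_pow]
          exact mul_le_mul_of_nonneg_left (pow_le_pow_left₀ hv0 hvY 4) (norm_nonneg _)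
        have n5 : ‖4 * v + σ b₂ * v ^ 2 + 2 * σ b₄ * v ^ 3 + σ b₆ * v ^ 4‖ ≤
            (4 + ‖σ b₂‖ + 2 * ‖σ b₄‖ + ‖σ b₆‖) * Y ^ 4 := by
          have m1 := norm_add_le (4 * v + σ b₂ * v ^ 2 + 2 * σ b₄ * v ^ 3) (σ b₆ * v ^ 4)
          have m2 := norm_add_le (4 * v + σ b₂ * v ^ 2) (2 * σ b₄ * v ^ 3)
          have m3 := norm_add_le (4 * v) (σ b₂ * v ^ 2)
          linarith
        have n6 : 4 + ‖σ b₂‖ + 2 * ‖σ b₄‖ + ‖σ b₆‖ ≤ R ^ 2 := by
          have := hR2 σ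
          have := norm_nonneg (σ b₄)
          have := norm_nonneg (σ b₆)
          linarith
        calc _ ≤ (4 + ‖σ b₂‖ + 2 * ‖σ b₄‖ + ‖σ b₆‖) * Y ^ 4 := n5
          _ ≤ R ^ 2 * Y ^ 4 := mul_le_mul_of_nonneg_right n6 (by positivity)
          _ = _ := by ring
      exact (sq_le_sq₀ (norm_nonneg _) (by positivity)).1 e2
    have g2 := sol_growth g1 hY hR (by
      have := hR2 σ
      linarith) (by
      rw [coeff_map]
      exact hσ σ j) hc1 k
    rw [coeff_map] at g2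
    rw [coeff_map, coeff_rescale, map_mul, map_pow, norm_mul, norm_pow]
    calc ‖σ (β j)‖ ^ k * ‖σ (coeff k (ψ j))‖ ≤ B ^ k * (Y * (R * Y) ^ k) :=
          mul_le_mul (pow_le_pow_left₀ (norm_nonneg _) (hβσ σ j) k) g2 (norm_nonneg _)
            (by positivity)
      _ = Y * (R * Y * B) ^ k := by
          rw [mul_pow (R * Y) B]
          ring
  have h2' : house η ≤ (n.factorial : ℝ) * ((b : ℝ) * B₀ * B') ^ (2 * n + m * D) *
      ((D : ℝ) ^ m * H * (2 * Y) ^ (m * D) * (2 * (R * Y * B)) ^ n) := by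
    refine house_le_of_forall η (by positivity) fun σ => ?_
    have e1 : σ η = ((n.factorial : ℕ) : ℂ) * (((b : ℕ) : ℂ) * ((B₀ : ℕ) : ℂ) *
        ((B' : ℕ) : ℂ)) ^ (2 * n + m * D) * σ (coeff n F) := by
      rw [hη, hq, map_mul, map_mul, map_pow, map_mul, map_mul, map_natCast, map_natCast,
        map_natCast, map_natCast]
    rw [e1, norm_mul, norm_mul, norm_pow, norm_mul, norm_mul, Complex.norm_natCast,
      Complex.norm_natCast, Complex.norm_natCast, Complex.norm_natCast]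
    refine mul_le_mul_of_nonneg_left ?_ (by positivity)
    have e2 : σ (coeff n F) = coeff n (MvPolynomial.aeval (fun j =>
        PowerSeries.map σ (PowerSeries.rescale (β j) (ψ j))) P) := by
      rw [← coeff_map, hF, aeval_int_map]
    rw [e2]
    exact aeval_growth hdeg hH hY (by positivity) (hsol σ) n
  calc (1 : ℝ) ≤ ‖ι η‖ * house η ^ Module.finrank ℚ M := hL
    _ ≤ _ := mul_le_mul h1 (pow_le_pow_left₀ (house_nonneg _) h2' _)
        (pow_nonneg (house_nonneg _) _) (norm_nonneg _)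

/-- The estimate of the right side. -/
theorem an_est {m D H b n E : ℕ} {Y R B₁ q₀ : ℝ} (hD : 1 ≤ D) (hY : 1 ≤ Y) (hR : 1 ≤ R)
    (hB₁ : 1 ≤ B₁) (hq₀ : 0 ≤ q₀) (hb : (b : ℝ) ≤ Y) (hn : n ≤ E * D) :
    (n.factorial : ℝ) * ((b : ℝ) * q₀) ^ (2 * n + m * D) *
        ((D : ℝ) ^ m * H * (2 * Y) ^ (m * D) * (2 * (R * Y * (B₁ * D))) ^ n) ≤
      (D : ℝ) ^ m * H * ((E + q₀ + 2 + 2 * R * B₁) * D * Y) ^ ((4 * E + 2 * m) * D) := by
  have hD' : (1 : ℝ) ≤ D := by exact_mod_cast hD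
  obtain ⟨Z, hZ⟩ : ∃ Z : ℝ, Z = (E + q₀ + 2 + 2 * R * B₁) * D * Y := ⟨_, rfl⟩
  have hE0 : (0 : ℝ) ≤ E := Nat.cast_nonneg _
  have hRB : (1 : ℝ) ≤ R * B₁ := one_le_mul_of_one_le_of_one_le hR hB₁
  have hDY : (1 : ℝ) ≤ D * Y := one_le_mul_of_one_le_of_one_le hD' hY
  have hZ1 : 1 ≤ Z := by
    rw [hZ, mul_assoc]
    refine one_le_mul_of_one_le_of_one_le ?_ hDY
    linarith
  have key : ∀ a : ℝ, 0 ≤ a → a ≤ E + q₀ + 2 + 2 * R * B₁ → a * (D * Y) ≤ Z := by
    intro a _ h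
    rw [hZ, mul_assoc]
    exact mul_le_mul_of_nonneg_right h (by linarith)
  have f1 : (n.factorial : ℝ) ≤ Z ^ (E * D) := by
    have e1 : (n.factorial : ℝ) ≤ ((E * D : ℕ) : ℝ) ^ n := by
      have h1 : n.factorial ≤ (E * D) ^ n := (Nat.factorial_le_pow n).trans (Nat.pow_le_pow_left hn n)
      exact_mod_cast h1
    have e2 : ((E * D : ℕ) : ℝ) ≤ Z := by
      have h1 := key E hE0 (by linarith)
      push_cast
      have h2 : (E : ℝ) * D ≤ E * (D * Y) := by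
        refine mul_le_mul_of_nonneg_left ?_ hE0
        nlinarith
      linarith
    calc (n.factorial : ℝ) ≤ ((E * D : ℕ) : ℝ) ^ n := e1
      _ ≤ Z ^ n := pow_le_pow_left₀ (Nat.cast_nonneg _) e2 n
      _ ≤ Z ^ (E * D) := pow_le_pow_right₀ hZ1 hn
  have f2 : ((b : ℝ) * q₀) ^ (2 * n + m * D) ≤ Z ^ (2 * (E * D) + m * D) := by
    have e1 : (b : ℝ) * q₀ ≤ Z := by
      have h1 := key q₀ hq₀ (by linarith)
      have h2 : (b : ℝ) * q₀ ≤ Y * q₀ := mul_le_mul_of_nonneg_right hb hq₀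
      have h3 : Y * q₀ ≤ q₀ * (D * Y) := by
        have : Y ≤ D * Y := by nlinarith
        nlinarith
      linarith
    calc _ ≤ Z ^ (2 * n + m * D) := pow_le_pow_left₀ (by positivity) e1 _
      _ ≤ _ := pow_le_pow_right₀ hZ1 (by omega)
  have f3 : (2 * Y) ^ (m * D) ≤ Z ^ (m * D) := by
    refine pow_le_pow_left₀ (by positivity) ?_ _
    have h1 := key 2 (by norm_num) (by linarith)
    have h3 : Y ≤ D * Y := by nlinarith
    linarith
  have f4 : (2 * (R * Y * (B₁ * D))) ^ n ≤ Z ^ (E * D) := by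
    have e1 : 2 * (R * Y * (B₁ * D)) ≤ Z := by
      have h1 := key (2 * R * B₁) (by positivity) (by linarith)
      have h2 : 2 * (R * Y * (B₁ * D)) = 2 * R * B₁ * (D * Y) := by ring
      linarith
    calc _ ≤ Z ^ n := pow_le_pow_left₀ (by positivity) e1 n
      _ ≤ _ := pow_le_pow_right₀ hZ1 hn
  rw [← hZ]
  have hZ0 : 0 ≤ Z := by linarith
  calc _ = ((D : ℝ) ^ m * H) * ((n.factorial : ℝ) * (((b : ℝ) * q₀) ^ (2 * n + m * D)) *
        ((2 * Y) ^ (m * D)) * ((2 * (R * Y * (B₁ * D))) ^ n)) := by ring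
    _ ≤ ((D : ℝ) ^ m * H) * (Z ^ (E * D) * Z ^ (2 * (E * D) + m * D) * Z ^ (m * D) *
          Z ^ (E * D)) := by
        refine mul_le_mul_of_nonneg_left ?_ (by positivity)
        have hb0 : (0 : ℝ) ≤ (b : ℝ) * q₀ := by positivity
        refine mul_le_mul (mul_le_mul (mul_le_mul f1 f2 (by positivity) (by positivity)) f3
          (by positivity) (by positivity)) f4 (by positivity) (by positivity)
    _ = (D : ℝ) ^ m * H * Z ^ ((4 * E + 2 * m) * D) := by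
        rw [← pow_add, ← pow_add, ← pow_add]
        congr 2
        ring

end PCL

end
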