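import Pool.Agent.W_52423f_v9.JtA
import Pool.Agent.W_52423f_v9.AnS
import Pool.Agent.W_52423f_h70.CaC

/-!
# The jets `1 / x` are solutions; orders of vanishing in terms of `1 / x`
-/

open scoped Classical

noncomputable section

namespace PCL

open PowerSeries Pool.Agent.PTwist WeierstrassCurve WeierstrassCurve.Affine

section

variable {K : Type} [Field K] {W : WeierstrassCurve K} {F : Type} [Field F] [Algebra K F]

theorem AnG_d [CharZero F] {x h : F} (hx : x ≠ 0) :
    derivative F (jx W 1 x h)⁻¹ = -(jh W 1 x h * (jx W 1 x h)⁻¹ ^ 2) := by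
  have h0 : constantCoeff (jx W 1 x h) ≠ 0 := by rwa [jx_const]
  have hXv : jx W 1 x h * (jx W 1 x h)⁻¹ = 1 := PowerSeries.mul_inv_cancel _ h0
  have h1 := congrArg (derivative F) hXv
  rw [Derivation.leibniz, d_jx, Derivation.map_one_eq_zero, map_one, one_mul] at h1
  simp only [smul_eq_mul] at h1
  generalize derivative F (jx W 1 x h)⁻¹ = w at *
  generalize (jx W 1 x h)⁻¹ = v at *
  generalize jx W 1 x h = X at *
  generalize jh W 1 x h = H at *
  linear_combination v * h1 - w * hXv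

theorem AnG_rescale_inv {k : Type} [Field k] (β : k) {f : PowerSeries k}
    (hf : constantCoeff f ≠ 0) : rescale β f⁻¹ = (rescale β f)⁻¹ := by
  have h0 : constantCoeff (rescale β f) ≠ 0 := by
    rw [← coeff_zero_eq_constantCoeff_apply, coeff_rescale, pow_zero, one_mul,
      coeff_zero_eq_constantCoeff_apply]
    exact hf
  rw [PowerSeries.eq_inv_iff_mul_eq_one h0, ← map_mul, PowerSeries.inv_mul_cancel _ hf, map_one]

theorem AnG_pt {M : Type} [Field M] {V : WeierstrassCurve M} {P : V.toAffine.Point}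
    (hP : iX V P ≠ 0) :
    xc (toPt P : Pt V M) ≠ 0 ∧ hc (toPt P : Pt V M) ^ 2 = cub V (xc (toPt P : Pt V M)) ∧
      (xc (toPt P : Pt V M))⁻¹ = iX V P ∧
      -hc (toPt P : Pt V M) * (xc (toPt P : Pt V M))⁻¹ ^ 2 = iV V P := by
  rcases P with _ | ⟨x, y, h⟩
  · exact absurd rfl hP
  · have hx : x ≠ 0 := by
      intro h0
      apply hP
      rw [iX_some, h0, inv_zero]
    have hxc : xc (toPt (Point.some x y h) : Pt V M) = x := rfl
    have hhc : hc (toPt (Point.some x y h) : Pt V M) = 2 * y + V.a₁ * x + V.a₃ := rfl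
    refine ⟨hx, ?_, rfl, ?_⟩
    · rw [hxc, hhc]
      unfold cub
      rw [Algebra.algebraMap_self]
      simp only [RingHom.id_apply]
      have h1 := (WeierstrassCurve.Affine.equation_iff (W := V.toAffine) x y).1 h.1
      simp only [WeierstrassCurve.b₂, WeierstrassCurve.b₄, WeierstrassCurve.b₆]
      linear_combination 4 * h1
    · rw [hxc, hhc, iV_some]

theorem jx_rescale (β x h : F) : jx W β x h = PowerSeries.rescale β (jx W 1 x h) := by
  ext n
  rw [coeff_rescale]
  unfold jx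
  rw [coeff_mk, coeff_mk, one_pow]
  ring

/-- `v = 1 / x(ε)` satisfies `v'' = 2 + b₂ v + 3 b₄ v^2 + 2 b₆ v^3`: with `X = jx`, `H = jh`,
`X v = 1` (`PowerSeries.mul_inv_cancel`, `jx_const`), `X' = H`, `H' = 6 X^2 + b₂ X + b₄` (`d_jx`, `d_jh` for
`β = 1`), `H^2 = 4 X^3 + b₂ X^2 + 2 b₄ X + b₆` (`jets_curve`): `v' = - H v^2` (differentiate `X v = 1`,
multiply by `v`), `v'' = - H' v^2 + 2 H^2 v^3` and `X v = 1`. -/
theorem inv_jx_sol [CharZero F] {x h : F} (hx : x ≠ 0) (hh : h ^ 2 = cub W x) :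
    IsSol (algebraMap K F W.b₂) (algebraMap K F W.b₄) (algebraMap K F W.b₆) (jx W 1 x h)⁻¹ := by
  have h0 : constantCoeff (jx W 1 x h) ≠ 0 := by rwa [jx_const]
  have hXv : jx W 1 x h * (jx W 1 x h)⁻¹ = 1 := PowerSeries.mul_inv_cancel _ h0
  have hdv := AnG_d hx (W := W) (h := h)
  have hH := d_jh (W := W) (1 : F) x h
  have hc := jets_curve (W := W) (1 : F) hh
  unfold IsSol
  rw [hdv, map_neg, pow_two, Derivation.leibniz, Derivation.leibniz, hdv, hH, map_one]
  unfold cub at hc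
  simp only [PowerSeries.algebraMap_apply] at hc
  unfold rhs
  rw [map_mul, map_mul, map_ofNat, map_ofNat]
  simp only [smul_eq_mul, one_mul]
  generalize (jx W 1 x h)⁻¹ = v at *
  generalize jx W 1 x h = X at *
  generalize jh W 1 x h = H at *
  generalize C ((algebraMap K F) W.b₂) = B₂ at *
  generalize C ((algebraMap K F) W.b₄) = B₄ at *
  generalize C ((algebraMap K F) W.b₆) = B₆ at *
  have e1 : 2 * H ^ 2 * v ^ 3 = 2 * (4 * (X * v) ^ 3 + B₂ * (X * v) ^ 2 * v +
      2 * B₄ * (X * v) * v ^ 2 + B₆ * v ^ 3) := by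
    rw [hc]
    ring
  have e2 : (6 * X ^ 2 + B₂ * X + B₄) * v ^ 2 = 6 * (X * v) ^ 2 + B₂ * (X * v) * v + B₄ * v ^ 2 := by
    ring
  rw [hXv] at e1 e2
  linear_combination e1 - e2

theorem inv_jx_coeff_zero (x h : F) : coeff 0 (jx W 1 x h)⁻¹ = x⁻¹ := by
  rw [coeff_zero_eq_constantCoeff_apply, PowerSeries.constantCoeff_inv, jx_const]

theorem inv_jx_coeff_one [CharZero F] {x h : F} (hx : x ≠ 0) :
    coeff 1 (jx W 1 x h)⁻¹ = -h * x⁻¹ ^ 2 := by
  have h1 := congrArg (PowerSeries.coeff 0) (AnG_d hx (W := W) (h := h))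
  rw [coeff_derivative] at h1
  rw [coeff_zero_eq_constantCoeff_apply, map_neg, map_mul, map_pow, PowerSeries.constantCoeff_inv,
    jx_const, jh_const] at h1
  push_cast at h1
  rw [zero_add, mul_one] at h1
  rw [h1]
  ring

/-- `PX D P a` is `∏ a_i^D` times the value of `P` at the `1 / a_i`: for `α ∈ P.support` one has
`α i <= D` and `a_i^(D - α i) = a_i^D (1/a_i)^(α i)`. -/
theorem PX_eq {m D : ℕ} {P : MvPolynomial (Fin m) K} (hdeg : ∀ j, P.degreeOf j ≤ D)
    {a : Fin m → PowerSeries F} (ha : ∀ j, constantCoeff (a j) ≠ 0) :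
    PX D P a = (∏ j, a j ^ D) * MvPolynomial.aeval (fun j => (a j)⁻¹) P := by
  unfold PX hPol
  rw [MvPolynomial.aeval_def, MvPolynomial.eval₂_eq', Finset.mul_sum]
  refine Finset.sum_congr rfl fun α hα => ?_
  have h1 : ∀ i, (![a i, 1] : Fin 2 → PowerSeries F) 1 ^ α i *
      (![a i, 1] : Fin 2 → PowerSeries F) 0 ^ (D - α i) = a i ^ D * (a i)⁻¹ ^ α i := by
    intro i
    have h2 : α i ≤ D := (MvPolynomial.monomial_le_degreeOf i hα).trans (hdeg i)
    have h3 : a i * (a i)⁻¹ = 1 := PowerSeries.mul_inv_cancel _ (ha i)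
    have h4 : a i ^ D = a i ^ (D - α i) * a i ^ α i := by
      rw [← pow_add, Nat.sub_add_cancel h2]
    show (1 : PowerSeries F) ^ α i * a i ^ (D - α i) = a i ^ D * (a i)⁻¹ ^ α i
    rw [one_pow, one_mul, h4, mul_assoc, ← mul_pow, h3, one_pow, mul_one]
  rw [Finset.prod_congr rfl fun i _ => h1 i, Finset.prod_mul_distrib]
  ring

end

/-- Vanishing in terms of solutions of the differential equation of `1 / x`.  Take
`ψ_j = (jx V 1 (xc (u j)) (hc (u j)))⁻¹` in the hypothesis: its coefficients are `iX`, `iV` of `pts j`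
(`iX V (some x y h) = x⁻¹`, `iV V (some x y h) = -(2 y + a₁ x + a₃) x⁻¹ ^ 2`; `pts j` is affine with `x ≠ 0` as
`iX ≠ 0`; `toPt` is the identity, the base change of `V` to `M` is `V`, compare `CaA`, `bp_van` in
`Pool/Agent/W_52423f_h70`), `h ^ 2 = cub V x` is the equation of the curve (compare `hc_sq` or similar in
`W_52423f_h70.SbPair`).  By `jx_rescale` and `PX_eq`, `PX D P (jX β u)` is a multiple of the value of `P` at
the `rescale (β j) (ψ j)` (`rescale` commutes with inverses; `jX β u j = jx V (β j) ..`). -/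
theorem vanJ_of_sol {M : Type} [Field M] [CharZero M] {V : WeierstrassCurve M} {m D T : ℕ}
    {P : MvPolynomial (Fin m) ℤ} (hdeg : ∀ j, P.degreeOf j ≤ D)
    {𝒲 : Submodule M (Fin m → M)} {pts : Fin m → V.toAffine.Point}
    (hne : ∀ j, iX V (pts j) ≠ 0)
    (H : ∀ ψ : Fin m → PowerSeries M, (∀ j, IsSol V.b₂ V.b₄ V.b₆ (ψ j) ∧
      coeff 0 (ψ j) = iX V (pts j) ∧ coeff 1 (ψ j) = iV V (pts j)) → ∀ β ∈ 𝒲,
        (PowerSeries.X : PowerSeries M) ^ T ∣
          MvPolynomial.aeval (fun j => PowerSeries.rescale (β j) (ψ j)) P) :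
    VanJ 𝒲 T D (MvPolynomial.map (Int.castRingHom M) P) (fun j => (toPt (pts j) : Pt V M)) := by
  have key : ∀ j, xc (toPt (pts j) : Pt V M) ≠ 0 ∧
      hc (toPt (pts j) : Pt V M) ^ 2 = cub V (xc (toPt (pts j) : Pt V M)) ∧
      (xc (toPt (pts j) : Pt V M))⁻¹ = iX V (pts j) ∧
      -hc (toPt (pts j) : Pt V M) * (xc (toPt (pts j) : Pt V M))⁻¹ ^ 2 = iV V (pts j) :=
    fun j => AnG_pt (hne j)
  have hsol := H (fun j => (jx V 1 (xc (toPt (pts j) : Pt V M)) (hc (toPt (pts j) : Pt V M)))⁻¹)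
    (fun j => ⟨inv_jx_sol (key j).1 (key j).2.1, by
      rw [inv_jx_coeff_zero]
      exact (key j).2.2.1, by
      rw [inv_jx_coeff_one (key j).1]
      exact (key j).2.2.2⟩)
  intro β hβ
  have hinj : Function.Injective (Int.castRingHom M) := Int.cast_injective
  have hdeg' : ∀ j, (MvPolynomial.map (Int.castRingHom M) P).degreeOf j ≤ D := by
    intro j
    have h1 : (MvPolynomial.map (Int.castRingHom M) P).degreeOf j = P.degreeOf j := by
      rw [MvPolynomial.degreeOf_eq_sup, MvPolynomial.degreeOf_eq_sup,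
        MvPolynomial.support_map_of_injective _ hinj]
    rw [h1]
    exact hdeg j
  rw [PX_eq hdeg' (fun j => by
    show constantCoeff (jx V _ _ _) ≠ 0
    rw [jx_const]
    exact (key j).1)]
  refine Dvd.dvd.mul_left ?_ _
  have h1 := hsol β hβ
  rw [MvPolynomial.aeval_def] at h1 ⊢
  rw [MvPolynomial.eval₂_map]
  have h2 : (algebraMap M (PowerSeries M)).comp (Int.castRingHom M) =
      algebraMap ℤ (PowerSeries M) := Subsingleton.elim _ _
  rw [h2]
  have h3 : (fun j => (jX β (fun j => (toPt (pts j) : Pt V M)) j)⁻¹) =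
      fun j => rescale (β j)
        (jx V 1 (xc (toPt (pts j) : Pt V M)) (hc (toPt (pts j) : Pt V M)))⁻¹ := by
    funext j
    show (jx V (β j) _ _)⁻¹ = _
    rw [jx_rescale]
    exact (AnG_rescale_inv (β j) (by rw [jx_const]; exact (key j).1)).symm
  rw [h3]
  exact h1

end PCL

end
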