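import Mathlib

/-!
# Directions with integral coordinates suffice
-/

open scoped Classical

noncomputable section

namespace PCL

open PowerSeries

theorem AnH_deg {M : Type} [Field M] {m w : ℕ} (P : MvPolynomial (Fin m) ℤ)
    (Ψ : Fin m → PowerSeries (MvPolynomial (Fin w) M))
    (hΨ : ∀ j n, (coeff n (Ψ j)).totalDegree ≤ n) :
    ∀ n, (coeff n (MvPolynomial.aeval Ψ P)).totalDegree ≤ n := by
  have hmul : ∀ F G : PowerSeries (MvPolynomial (Fin w) M),
      (∀ n, (coeff n F).totalDegree ≤ n) → (∀ n, (coeff n G).totalDegree ≤ n) →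
      ∀ n, (coeff n (F * G)).totalDegree ≤ n := by
    intro F G hF hG n
    rw [coeff_mul]
    refine MvPolynomial.totalDegree_finsetSum_le fun x hx => ?_
    refine (MvPolynomial.totalDegree_mul _ _).trans ?_
    have h1 := Finset.HasAntidiagonal.mem_antidiagonal.1 hx
    have h2 := hF x.1
    have h3 := hG x.2
    omega
  induction P using MvPolynomial.induction_on with
  | C a =>
    intro n
    rw [MvPolynomial.aeval_C]
    have h1 : algebraMap ℤ (PowerSeries (MvPolynomial (Fin w) M)) a =
        PowerSeries.C (MvPolynomial.C (a : M)) := by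
      simp
    rw [h1, PowerSeries.coeff_C]
    split_ifs
    · rw [MvPolynomial.totalDegree_C]
      exact Nat.zero_le n
    · rw [MvPolynomial.totalDegree_zero]
      exact Nat.zero_le n
  | add p q hp hq =>
    intro n
    rw [map_add, map_add]
    exact (MvPolynomial.totalDegree_add _ _).trans (max_le (hp n) (hq n))
  | mul_X p i hp =>
    rw [map_mul, MvPolynomial.aeval_X]
    exact hmul _ _ hp (hΨ i)

theorem AnH_map {M : Type} [Field M] {m w : ℕ} (P : MvPolynomial (Fin m) ℤ)
    (ψ : Fin m → PowerSeries M) (bb : Fin w → Fin m → M) (t : Fin w → M) :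
    PowerSeries.map (MvPolynomial.eval t) (MvPolynomial.aeval (fun j => PowerSeries.mk fun n =>
      (∑ b, MvPolynomial.C (bb b j) * MvPolynomial.X b) ^ n *
        MvPolynomial.C (coeff n (ψ j))) P) =
      MvPolynomial.aeval (fun j => PowerSeries.rescale (∑ b, t b * bb b j) (ψ j)) P := by
  rw [MvPolynomial.map_aeval, MvPolynomial.aeval_def, MvPolynomial.coe_eval₂Hom]
  congr 1
  · exact RingHom.ext_int _ _
  funext j
  ext n
  rw [coeff_map, coeff_mk, coeff_rescale, map_mul, map_pow, map_sum, MvPolynomial.eval_C]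
  congr 2
  refine Finset.sum_congr rfl fun b _ => ?_
  rw [map_mul, MvPolynomial.eval_C, MvPolynomial.eval_X, mul_comm]

theorem AnH_main {M : Type} [Field M] [CharZero M] {w N n : ℕ} (hn : n < N)
    (Q : MvPolynomial (Fin w) M) (hQ : Q.totalDegree ≤ n)
    (h : ∀ t : Fin w → ℕ, (∀ b, t b ≤ N) → MvPolynomial.eval (fun b => (t b : M)) Q = 0) :
    Q = 0 := by
  refine MvPolynomial.eq_zero_of_eval_zero_at_prod_finset Q
    (fun _ => (Finset.range (N + 1)).image (fun a : ℕ => (a : M))) (fun i => ?_) fun x hx => ?_
  · rw [Finset.card_image_of_injective _ Nat.cast_injective, Finset.card_range]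
    exact lt_of_le_of_lt ((MvPolynomial.degreeOf_le_totalDegree Q i).trans hQ) (by omega)
  · have h1 : ∀ b, ∃ a : ℕ, a ≤ N ∧ (a : M) = x b := by
      intro b
      obtain ⟨a, ha, hab⟩ := Finset.mem_image.1 (hx b)
      exact ⟨a, Nat.lt_succ_iff.1 (Finset.mem_range.1 ha), hab⟩
    choose s hs1 hs2 using h1
    have h2 := h s hs1
    have h3 : (fun b => (s b : M)) = x := funext hs2
    rwa [h3] at h2

/-- If the order is at least `N` in all directions `∑ t_b bb_b` with `t_b ∈ {0, ..., N}` then it is at
least `N` in all directions `∑ t_b bb_b`, `t_b` in the field.  Proof: over `R = MvPolynomial (Fin w) M`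
put `Ψ_j = mk fun n => (∑ b, C (bb b j) * X b)^n * C (coeff n (ψ j))` and `G = aeval Ψ P : R⟦X⟧`.  The
total degree of `coeff n G` is at most `n` (the series with this property contain the constants and the
`Ψ_j` and are closed under sums and products; `MvPolynomial.induction_on` for `P`).  The homomorphism
`PowerSeries.map (MvPolynomial.eval t)` sends `Ψ_j` to `rescale (∑ b, t b * bb b j) (ψ j)`, so
`eval t (coeff n G)` is the coefficient of `ε^n` in question.  For `n < N` it vanishes on the grid
`{0, ..., N}^w` and its degree is at most `n < N + 1`, so it is the zero polynomial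
(`MvPolynomial.eq_zero_of_eval_zero_at_prod_finset` or `MvPolynomial.schwartz_zippel...`, or induction);
`M` has characteristic zero so the `N + 1` numbers are different. -/
theorem dvd_of_grid {M : Type} [Field M] [CharZero M] {m w N : ℕ} (P : MvPolynomial (Fin m) ℤ)
    (ψ : Fin m → PowerSeries M) (bb : Fin w → Fin m → M)
    (h : ∀ t : Fin w → ℕ, (∀ b, t b ≤ N) → (X : PowerSeries M) ^ N ∣
      MvPolynomial.aeval (fun j => PowerSeries.rescale (∑ b, (t b : M) * bb b j) (ψ j)) P)
    (t : Fin w → M) : (X : PowerSeries M) ^ N ∣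
      MvPolynomial.aeval (fun j => PowerSeries.rescale (∑ b, t b * bb b j) (ψ j)) P := by
  rw [X_pow_dvd_iff]
  intro n hn
  rw [← AnH_map P ψ bb t, coeff_map]
  have hdeg := AnH_deg P (fun j => PowerSeries.mk fun n =>
      (∑ b, MvPolynomial.C (bb b j) * MvPolynomial.X b) ^ n *
        MvPolynomial.C (coeff n (ψ j)) : Fin m → PowerSeries (MvPolynomial (Fin w) M))
    (by
      intro j n
      rw [coeff_mk]
      refine (MvPolynomial.totalDegree_mul _ _).trans ?_
      rw [MvPolynomial.totalDegree_C, add_zero]
      refine (MvPolynomial.totalDegree_pow _ _).trans ?_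
      have h1 : (∑ b, MvPolynomial.C (bb b j) * MvPolynomial.X b :
          MvPolynomial (Fin w) M).totalDegree ≤ 1 := by
        refine MvPolynomial.totalDegree_finsetSum_le fun b _ => ?_
        refine (MvPolynomial.totalDegree_mul _ _).trans ?_
        rw [MvPolynomial.totalDegree_C, zero_add]
        exact (MvPolynomial.totalDegree_X b).le
      calc n * _ ≤ n * 1 := Nat.mul_le_mul_left n h1
        _ = n := mul_one n)
  rw [AnH_main hn _ (hdeg n) (fun s hs => ?_), map_zero]
  have h1 := h s hs
  rw [X_pow_dvd_iff] at h1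
  have h2 := h1 n hn
  rw [← AnH_map P ψ bb (fun b => (s b : M)), coeff_map] at h2
  exact h2

end PCL

end
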