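import Mathlib

/-!
# The parameters of the box principle with orders of vanishing
-/

noncomputable section

namespace PCL

theorem AnP_choice {b : ℝ} (hb : 0 ≤ b) (a : ℝ) (K₃ : ℕ) :
    ∃ c : ℕ, 1 ≤ c ∧ (K₃ : ℝ) ≤ c ∧ a + b * Real.log c < ((c : ℝ) - K₃) * Real.log 2 := by
  have hl2 : 0 < Real.log 2 := Real.log_pos (by norm_num)
  set ε : ℝ := Real.log 2 / (2 * (b + 1)) with hε
  have hε0 : 0 < ε := by positivity
  have hbε : b * ε ≤ Real.log 2 / 2 := by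
    rw [hε, ← mul_div_assoc, div_le_div_iff₀ (by positivity) (by norm_num)]
    nlinarith
  obtain ⟨c, hc⟩ := exists_nat_gt (max (max 1 (K₃ : ℝ))
    ((a + b * |Real.log ε| + K₃ * Real.log 2) * 2 / Real.log 2))
  have h1 : (1 : ℝ) < c := lt_of_le_of_lt ((le_max_left _ _).trans (le_max_left _ _)) hc
  have h2 : (K₃ : ℝ) < c := lt_of_le_of_lt ((le_max_right _ _).trans (le_max_left _ _)) hc
  have h3 : (a + b * |Real.log ε| + K₃ * Real.log 2) * 2 / Real.log 2 < c :=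
    lt_of_le_of_lt (le_max_right _ _) hc
  rw [div_lt_iff₀ hl2] at h3
  have hc0 : (0 : ℝ) < c := by linarith
  have h4 : Real.log c ≤ ε * c + |Real.log ε| := by
    have h5 := Real.log_le_sub_one_of_pos (mul_pos hε0 hc0)
    rw [Real.log_mul hε0.ne' hc0.ne'] at h5
    have h6 := neg_abs_le (Real.log ε)
    linarith
  refine ⟨c, by exact_mod_cast h1.le, h2.le, ?_⟩
  have h5 := mul_le_mul_of_nonneg_left h4 hb
  have h6 := mul_le_mul_of_nonneg_right hbε hc0.le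
  nlinarith

/-- Choice of the parameters, as in `bp_parameters` (`Pool/Agent/W_52423f_h70/BpE.lean`; copy its
proof).  Take `C₀ = q c₂^(r+1) + 1`, `D = C₀ u^(2r)`, `Q = C₀ u^(2m)`, `H = 2^Q`, `T = c₂ Q`.  The first
inequality is the one of `bp_parameters`.  For the second take logarithms: `D <= Q`,
`D u^(2(m-r)) = Q`, so with `log D <= log C₀ + 2 r log u <= log C₀ + 2 r u^(2(m-r))` one has
`D log D <= (log C₀ + 2 r) Q`; and `log C₀ <= log (q + 1) + (r + 1) log c₂`, `m log D <= m D <= m Q`,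
`D (1 + n A^2 u^(2(m-r))) <= (1 + n A^2) Q`.  So the logarithm of the left side is at most `Q` times
`d (m + log 2 + K₂ (log K₁ + log (q+1) + (r+1) log c₂ + 2 r + C (1 + n A^2))) + K₃ log p`, and this is less
than `c₂ log p` (the right side is `p^(c₂ Q)`) if `c₂` is large enough: it is enough that
`d (...) < (c₂ - K₃) log 2`, `c₂ >= K₃`, and `log c₂` is small compared with `c₂`
(`Real.isLittleO_log_id_atTop`, or `Real.add_one_le_exp`/`Real.log_le_sub_one_of_pos` for the square root: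
`log c <= 2 (sqrt c)`). -/
theorem an_parameters (d q m r n p A K₂ K₃ : ℕ) (hp : 2 ≤ p) (hrm : r < m) {C K₁ : ℝ}
    (hC : 0 ≤ C) (hK₁ : 1 ≤ K₁) :
    ∃ C₀ : ℕ, 1 ≤ C₀ ∧ ∀ u : ℕ, 1 ≤ u → ∃ H T : ℕ,
      q ^ (T * T ^ r) < (H + 1) ^ ((C₀ * u ^ (2 * r)) ^ m) ∧
      (((C₀ * u ^ (2 * r) : ℕ) : ℝ) ^ m * H *
        (K₁ * ((C₀ * u ^ (2 * r) : ℕ) : ℝ) *
          Real.exp (C * (1 + n * ((A * u ^ (m - r) : ℕ) : ℝ) ^ 2))) ^
            (K₂ * (C₀ * u ^ (2 * r)))) ^ d * (p : ℝ) ^ (K₃ * (C₀ * u ^ (2 * r))) < (p : ℝ) ^ T := by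
  have hl2 : 0 < Real.log 2 := Real.log_pos (by norm_num)
  have hpR : (2 : ℝ) ≤ p := by exact_mod_cast hp
  have hlp : Real.log 2 ≤ Real.log p := Real.log_le_log (by norm_num) hpR
  have hK₁0 : 0 < K₁ := by linarith
  have hlK : 0 ≤ Real.log K₁ := Real.log_nonneg hK₁
  obtain ⟨c₂, hc₂1, hc₂⟩ := AnP_choice (b := (d : ℝ) * K₂ * (r + 1)) (by positivity)
    ((d : ℝ) * (((m : ℝ) + 1) * Real.log 2 + K₂ * (Real.log K₁ + Real.log ((q : ℝ) + 1) + 2 * r +
      C * (1 + n * (A : ℝ) ^ 2)))) K₃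
  obtain ⟨C₀, hC₀⟩ : ∃ C₀, C₀ = q * c₂ ^ (r + 1) + 1 := ⟨_, rfl⟩
  have hC₀1 : 1 ≤ C₀ := by omega
  have hlC₀ : Real.log C₀ ≤ Real.log ((q : ℝ) + 1) + (r + 1) * Real.log c₂ := by
    have h1 : C₀ ≤ (q + 1) * c₂ ^ (r + 1) := by
      rw [hC₀, add_mul, one_mul]
      exact Nat.add_le_add_left (Nat.one_le_pow _ _ hc₂1) _
    have h2 : (C₀ : ℝ) ≤ ((q : ℝ) + 1) * (c₂ : ℝ) ^ (r + 1) := by exact_mod_cast h1
    have h3 : (0 : ℝ) < C₀ := by exact_mod_cast hC₀1
    have h4 : (0 : ℝ) < c₂ := by exact_mod_cast hc₂1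
    refine (Real.log_le_log h3 h2).trans (le_of_eq ?_)
    rw [Real.log_mul (by positivity) (by positivity), Real.log_pow]
    push_cast
    ring
  have hlC₀0 : 0 ≤ Real.log C₀ := Real.log_nonneg (by exact_mod_cast hC₀1)
  refine ⟨C₀, hC₀1, fun u hu => ?_⟩
  obtain ⟨D, hD⟩ : ∃ D, D = C₀ * u ^ (2 * r) := ⟨_, rfl⟩
  obtain ⟨Q, hQ⟩ : ∃ Q, Q = C₀ * u ^ (2 * m) := ⟨_, rfl⟩
  have hD1 : 1 ≤ D := by
    rw [hD]
    exact Nat.mul_pos hC₀1 (Nat.pow_pos hu)
  have hQ1 : 1 ≤ Q := by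
    rw [hQ]
    exact Nat.mul_pos hC₀1 (Nat.pow_pos hu)
  have hDQ : D ≤ Q := by
    rw [hD, hQ]
    exact Nat.mul_le_mul_left _ (Nat.pow_le_pow_right hu (by omega))
  have hDu : D * (u ^ (m - r)) ^ 2 = Q := by
    rw [hD, hQ, ← pow_mul, mul_assoc, ← pow_add]
    congr 2
    omega
  have hlD : Real.log D = Real.log C₀ + 2 * r * Real.log u := by
    have h3 : (0 : ℝ) < C₀ := by exact_mod_cast hC₀1
    have h4 : (0 : ℝ) < u := by exact_mod_cast hu
    rw [hD]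
    push_cast
    rw [Real.log_mul h3.ne' (by positivity), Real.log_pow]
    push_cast
    ring
  rw [← hD]
  refine ⟨2 ^ Q, c₂ * Q, ?_, ?_⟩
  · have h1 : q * (c₂ * Q * (c₂ * Q) ^ r) ≤ Q * D ^ m := by
      have h2 : q * c₂ ^ (r + 1) * C₀ ^ r ≤ C₀ ^ m := by
        calc q * c₂ ^ (r + 1) * C₀ ^ r ≤ C₀ * C₀ ^ r := Nat.mul_le_mul_right _ (by omega)
          _ = C₀ ^ (r + 1) := by ring
          _ ≤ C₀ ^ m := Nat.pow_le_pow_right hC₀1 hrm
      have h3 : Q ^ r = C₀ ^ r * u ^ (2 * r * m) := by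
        rw [hQ, mul_pow, ← pow_mul]
        congr 2
        ring
      have h4 : D ^ m = C₀ ^ m * u ^ (2 * r * m) := by
        rw [hD, mul_pow, ← pow_mul]
      calc q * (c₂ * Q * (c₂ * Q) ^ r) = Q * ((q * c₂ ^ (r + 1)) * Q ^ r) := by
            rw [mul_pow]
            ring
        _ = Q * ((q * c₂ ^ (r + 1) * C₀ ^ r) * u ^ (2 * r * m)) := by
            rw [h3]
            ring
        _ ≤ Q * (C₀ ^ m * u ^ (2 * r * m)) :=
            Nat.mul_le_mul_left _ (Nat.mul_le_mul_right _ h2)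
        _ = Q * D ^ m := by rw [h4]
    calc q ^ (c₂ * Q * (c₂ * Q) ^ r) ≤ (2 ^ q) ^ (c₂ * Q * (c₂ * Q) ^ r) :=
          Nat.pow_le_pow_left Nat.lt_two_pow_self.le _
      _ = 2 ^ (q * (c₂ * Q * (c₂ * Q) ^ r)) := (pow_mul _ _ _).symm
      _ ≤ 2 ^ (Q * D ^ m) := Nat.pow_le_pow_right (by norm_num) h1
      _ = (2 ^ Q) ^ (D ^ m) := pow_mul _ _ _
      _ < (2 ^ Q + 1) ^ (D ^ m) := by
          refine Nat.pow_lt_pow_left (Nat.lt_succ_self _) ?_
          exact pow_ne_zero _ (by omega)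
  · have hexp2 : ∀ k : ℕ, (2 : ℝ) ^ k = Real.exp (k * Real.log 2) := by
      intro k
      rw [Real.exp_nat_mul, Real.exp_log (by norm_num)]
    have hexpp : ∀ k : ℕ, (p : ℝ) ^ k = Real.exp (k * Real.log p) := by
      intro k
      rw [Real.exp_nat_mul, Real.exp_log (by linarith)]
    have hDR0 : (0 : ℝ) < D := by exact_mod_cast hD1
    have hDR : (D : ℝ) ^ m ≤ Real.exp (m * (Q * Real.log 2)) := by
      rw [Real.exp_nat_mul, ← hexp2]
      refine pow_le_pow_left₀ (Nat.cast_nonneg _) ?_ m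
      have h1 : D ≤ 2 ^ Q := hDQ.trans Nat.lt_two_pow_self.le
      exact_mod_cast h1
    have hH : (((2 ^ Q : ℕ) : ℝ)) = Real.exp (Q * Real.log 2) := by
      rw [← hexp2]
      push_cast
      rfl
    have hDuR : (D : ℝ) * ((u : ℝ) ^ (m - r)) ^ 2 = Q := by exact_mod_cast hDu
    have hDQR : (D : ℝ) ≤ Q := by exact_mod_cast hDQ
    have hQR : (0 : ℝ) < Q := by exact_mod_cast hQ1
    have huR : (1 : ℝ) ≤ u := by exact_mod_cast hu
    -- `D log D`
    have hDlog : (D : ℝ) * Real.log D ≤ (Real.log C₀ + 2 * r) * Q := by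
      have h1 : Real.log u ≤ ((u : ℝ) ^ (m - r)) ^ 2 := by
        have h2 : Real.log u ≤ u := by
          have := Real.log_le_sub_one_of_pos (show (0 : ℝ) < u by linarith)
          linarith
        refine h2.trans ?_
        rw [← pow_mul]
        exact le_self_pow₀ huR (by omega)
      have h3 : (D : ℝ) * Real.log u ≤ Q := by
        rw [← hDuR]
        exact mul_le_mul_of_nonneg_left h1 hDR0.le
      have h4 : (D : ℝ) * Real.log C₀ ≤ Q * Real.log C₀ :=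
        mul_le_mul_of_nonneg_right hDQR hlC₀0
      have h5 : (2 * r : ℝ) * ((D : ℝ) * Real.log u) ≤ 2 * r * Q :=
        mul_le_mul_of_nonneg_left h3 (by positivity)
      rw [hlD]
      linarith
    have hE : (K₁ * (D : ℝ) * Real.exp (C * (1 + n * ((A * u ^ (m - r) : ℕ) : ℝ) ^ 2))) ^
        (K₂ * D) ≤
        Real.exp (K₂ * (Real.log K₁ + Real.log C₀ + 2 * r + C * (1 + n * (A : ℝ) ^ 2)) * Q) := by
      have h0 : K₁ * (D : ℝ) * Real.exp (C * (1 + n * ((A * u ^ (m - r) : ℕ) : ℝ) ^ 2)) =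
          Real.exp (Real.log K₁ + Real.log D + C * (1 + n * ((A * u ^ (m - r) : ℕ) : ℝ) ^ 2)) := by
        rw [Real.exp_add, Real.exp_add, Real.exp_log hK₁0, Real.exp_log hDR0]
      rw [h0, ← Real.exp_nat_mul, Real.exp_le_exp]
      push_cast
      have h1 : (D : ℝ) * (C * (1 + n * ((A : ℝ) * u ^ (m - r)) ^ 2)) ≤
          C * (1 + n * (A : ℝ) ^ 2) * Q := by
        have h2 : (D : ℝ) * (C * (1 + n * ((A : ℝ) * u ^ (m - r)) ^ 2)) =
            C * (D + n * (A : ℝ) ^ 2 * ((D : ℝ) * ((u : ℝ) ^ (m - r)) ^ 2)) := by ring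
        rw [h2, hDuR]
        have h3 : (D : ℝ) + n * (A : ℝ) ^ 2 * Q ≤ (1 + n * (A : ℝ) ^ 2) * Q := by linarith
        calc C * ((D : ℝ) + n * (A : ℝ) ^ 2 * Q) ≤ C * ((1 + n * (A : ℝ) ^ 2) * Q) :=
              mul_le_mul_of_nonneg_left h3 hC
          _ = C * (1 + n * (A : ℝ) ^ 2) * Q := by ring
      have h3 : (D : ℝ) * Real.log K₁ ≤ Q * Real.log K₁ := mul_le_mul_of_nonneg_right hDQR hlK
      have h4 : (0 : ℝ) ≤ K₂ := Nat.cast_nonneg _
      calc (K₂ : ℝ) * D * (Real.log K₁ + Real.log D + C * (1 + n * ((A : ℝ) * u ^ (m - r)) ^ 2))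
          = K₂ * ((D : ℝ) * Real.log K₁ + (D : ℝ) * Real.log D +
              (D : ℝ) * (C * (1 + n * ((A : ℝ) * u ^ (m - r)) ^ 2))) := by ring
        _ ≤ K₂ * (Q * Real.log K₁ + (Real.log C₀ + 2 * r) * Q +
              C * (1 + n * (A : ℝ) ^ 2) * Q) :=
            mul_le_mul_of_nonneg_left (add_le_add (add_le_add h3 hDlog) h1) h4
        _ = K₂ * (Real.log K₁ + Real.log C₀ + 2 * r + C * (1 + n * (A : ℝ) ^ 2)) * Q := by ring
    set Y : ℝ := ((m : ℝ) + 1) * Real.log 2 +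
      K₂ * (Real.log K₁ + Real.log C₀ + 2 * r + C * (1 + n * (A : ℝ) ^ 2)) with hY
    have hall : (D : ℝ) ^ m * ((2 ^ Q : ℕ) : ℝ) *
        (K₁ * (D : ℝ) * Real.exp (C * (1 + n * ((A * u ^ (m - r) : ℕ) : ℝ) ^ 2))) ^ (K₂ * D) ≤
        Real.exp (Q * Y) := by
      calc (D : ℝ) ^ m * ((2 ^ Q : ℕ) : ℝ) *
            (K₁ * (D : ℝ) * Real.exp (C * (1 + n * ((A * u ^ (m - r) : ℕ) : ℝ) ^ 2))) ^ (K₂ * D)
          ≤ Real.exp (m * (Q * Real.log 2)) * Real.exp (Q * Real.log 2) *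
            Real.exp (K₂ * (Real.log K₁ + Real.log C₀ + 2 * r + C * (1 + n * (A : ℝ) ^ 2)) *
              Q) := by
            rw [hH]
            exact mul_le_mul (mul_le_mul_of_nonneg_right hDR (Real.exp_pos _).le) hE
              (by positivity) (by positivity)
        _ = Real.exp (Q * Y) := by
            rw [← Real.exp_add, ← Real.exp_add, hY]
            congr 1
            ring
    have hfin : (d : ℝ) * Y + K₃ * Real.log p < c₂ * Real.log p := by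
      have h1 : (d : ℝ) * Y ≤ (d : ℝ) * (((m : ℝ) + 1) * Real.log 2 +
          K₂ * (Real.log K₁ + Real.log ((q : ℝ) + 1) + 2 * r + C * (1 + n * (A : ℝ) ^ 2))) +
          (d : ℝ) * K₂ * (r + 1) * Real.log c₂ := by
        rw [hY]
        have h2 : (0 : ℝ) ≤ (d : ℝ) * K₂ := by positivity
        have h3 := mul_le_mul_of_nonneg_left hlC₀ h2
        nlinarith
      have h2 : ((c₂ : ℝ) - K₃) * Real.log 2 ≤ ((c₂ : ℝ) - K₃) * Real.log p :=
        mul_le_mul_of_nonneg_left hlp (by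
          have := hc₂.1
          linarith)
      have h3 := hc₂.2
      nlinarith
    have hpD : (p : ℝ) ^ (K₃ * D) ≤ Real.exp (Q * (K₃ * Real.log p)) := by
      rw [hexpp, Real.exp_le_exp]
      push_cast
      have h1 : (0 : ℝ) ≤ K₃ * Real.log p := by
        have : 0 ≤ Real.log p := hl2.le.trans hlp
        positivity
      have h2 := mul_le_mul_of_nonneg_right hDQR h1
      linarith
    calc ((D : ℝ) ^ m * ((2 ^ Q : ℕ) : ℝ) *
          (K₁ * (D : ℝ) * Real.exp (C * (1 + n * ((A * u ^ (m - r) : ℕ) : ℝ) ^ 2))) ^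
            (K₂ * D)) ^ d * (p : ℝ) ^ (K₃ * D)
        ≤ Real.exp (Q * Y) ^ d * Real.exp (Q * (K₃ * Real.log p)) :=
          mul_le_mul (pow_le_pow_left₀ (by positivity) hall d) hpD (by positivity)
            (by positivity)
      _ = Real.exp (Q * (d * Y + K₃ * Real.log p)) := by
          rw [← Real.exp_nat_mul, ← Real.exp_add]
          congr 1
          ring
      _ < Real.exp (Q * (c₂ * Real.log p)) := by
          rw [Real.exp_lt_exp]
          exact mul_lt_mul_of_pos_left hfin hQR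
      _ = (p : ℝ) ^ (c₂ * Q) := by
          rw [hexpp]
          congr 1
          push_cast
          ring

end PCL

end
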