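import Pool.Agent.W_52423f_v9.AnF
import Pool.Agent.W_52423f_v9.AnP
import Pool.Agent.W_52423f_v9.AnH
import Pool.Agent.W_52423f_h30.HtC
import Pool.Agent.W_52423f_h70.BrD

/-!
# The box principle with orders of vanishing
-/

open scoped Classical

set_option linter.unusedSectionVars false

noncomputable section

namespace PCL

open PowerSeries Pool.Agent.PTwist WeierstrassCurve WeierstrassCurve.Affine NumberField

/-- Common denominators. -/
theorem AnI_den {M : Type} [Field M] [NumberField M] (S : Finset M) :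
    ∃ B : ℕ, 1 ≤ B ∧ ∀ x ∈ S, IsIntegral ℤ ((B : M) * x) := by
  have hnat : ∀ a : ℕ, IsIntegral ℤ (a : M) := by
    intro a
    have h := isIntegral_algebraMap (R := ℤ) (A := M) (x := (a : ℤ))
    simpa using h
  induction S using Finset.induction_on with
  | empty => exact ⟨1, le_rfl, fun x hx => absurd hx (Finset.notMem_empty x)⟩
  | insert a S _ ih =>
    obtain ⟨B, hB, hS⟩ := ih
    have halg : IsAlgebraic ℤ a := by
      rw [IsFractionRing.isAlgebraic_iff ℤ ℚ M]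
      exact Algebra.IsAlgebraic.isAlgebraic a
    obtain ⟨y, hy, hya⟩ := halg.exists_integral_multiple
    have h1 : IsIntegral ℤ ((y.natAbs : M) * a) := by
      rcases Int.natAbs_eq y with h | h
      · have e1 : (y.natAbs : M) * a = y • a := by
          rw [zsmul_eq_mul]
          congr 1
          rw [h]
          push_cast
          simp
        rw [e1]
        exact hya
      · have e1 : (y.natAbs : M) * a = -(y • a) := by
          rw [zsmul_eq_mul, ← neg_mul]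
          congr 1
          have h2 : (y.natAbs : ℤ) = -y := by omega
          have h3 := congrArg (Int.cast (R := M)) h2
          rw [Int.cast_natCast, Int.cast_neg] at h3
          exact h3
        rw [e1]
        exact hya.neg
    have hy0 : 1 ≤ y.natAbs := Nat.one_le_iff_ne_zero.2 (Int.natAbs_ne_zero.2 hy)
    refine ⟨B * y.natAbs, Nat.mul_pos hB hy0, fun x hx => ?_⟩
    rcases Finset.mem_insert.1 hx with h | h
    · rw [h]
      push_cast
      rw [mul_assoc]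
      exact (hnat B).mul h1
    · push_cast
      rw [mul_right_comm]
      exact (hS x h).mul (hnat _)

variable {p : ℕ} [Fact p.Prime] {K : Type} [NontriviallyNormedField K] [CompleteSpace K]
  [IsUltrametricDist K] [NormedAlgebra ℚ_[p] K] {M : Type} [Field M] [NumberField M]
  {V : WeierstrassCurve M} [V.IsElliptic] {ι : M →+* K} {n m r : ℕ} {ρ : ℝ}
  {u : Fin m → Fin n → V.toAffine.Point} {c : Fin m → Fin r → K} {ζ : Fin r → Fin n → K}

section

variable [CharZero K]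

/-- The derivative of `1 / x` at the points. -/
theorem Rc.ExpDataR.iV_eq (h : Rc.ExpDataR p V ι ρ u c ζ) (s : Fin n → ℤ) (j : Fin m) :
    ι (iV V (∑ i, s i • u j i)) = ev (derivative K (fV (V.map ι)))
      (∑ l, c j l * ∑ i, (s i : K) * ζ l i) := by
  have h1 := RelOf_iV V ι h.lc (P := u j)
    (z := fun i => ∑ l, c j l * ζ l i)
    (fun i => h.norm_le j i) (fun i => h.pts j i) s
  rw [h1, CaC_swap]

/-- The image of the algebraic solution is the Taylor series at the logarithm. -/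
theorem map_sol (h : Rc.ExpDataR p V ι ρ u c ζ) (s : Fin n → ℤ) (j : Fin m) {ψ : PowerSeries M}
    (hψ : IsSol V.b₂ V.b₄ V.b₆ ψ) (h0 : coeff 0 ψ = iX V (∑ i, s i • u j i))
    (h1 : coeff 1 ψ = iV V (∑ i, s i • u j i)) :
    PowerSeries.map ι ψ = tay (fV (V.map ι)) (∑ l, c j l * ∑ i, (s i : K) * ζ l i) := by
  have hb₂ : (V.map ι).b₂ = ι V.b₂ := V.map_b₂ ι
  have hb₄ : (V.map ι).b₄ = ι V.b₄ := V.map_b₄ ι
  have hb₆ : (V.map ι).b₆ = ι V.b₆ := V.map_b₆ ι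
  have h2 := hψ.map ι
  have h3 := tay_sol h.lc (h.norm_le_swap s j)
  rw [← hb₂, ← hb₄, ← hb₆] at h2
  refine h2.unique h3 ?_ ?_
  · rw [coeff_map, h0, tay_coeff_zero, h.iX_eq s j]
  · rw [coeff_map, h1, tay_coeff_one, h.iV_eq s j]

end

/-- The relation between `iX` and `iV` for points with `x ≠ 0` and the origin. -/
theorem AnI_sq (Q : V.toAffine.Point) (h : Q = 0 ∨ iX V Q ≠ 0) :
    iV V Q ^ 2 = 4 * iX V Q + V.b₂ * iX V Q ^ 2 + 2 * V.b₄ * iX V Q ^ 3 + V.b₆ * iX V Q ^ 4 := by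
  rcases Q with _ | ⟨x, y, hn⟩
  · have h1 : iX V (Point.zero : V.toAffine.Point) = 0 := rfl
    have h2 : iV V (Point.zero : V.toAffine.Point) = 0 := rfl
    rw [h1, h2]
    ring
  · have hne : (Point.some x y hn : V.toAffine.Point) ≠ 0 := by
      intro h0
      cases h0
    have hx := h.resolve_left hne
    rw [iX_some] at hx
    exact iV_sq V hn (fun h0 => hx (by rw [h0, inv_zero]))

theorem AnI_norm_bound {w : ℕ} (yy : Fin w → Fin r → K) :
    ∃ e : ℕ, ∀ b l, ‖yy b l‖ ≤ (p : ℝ) ^ e := by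
  have hp1 : (1 : ℝ) < p := by exact_mod_cast (Fact.out : p.Prime).one_lt
  obtain ⟨e, he⟩ := pow_unbounded_of_one_lt (∑ b, ∑ l, ‖yy b l‖) hp1
  refine ⟨e, fun b l => le_trans ?_ he.le⟩
  calc ‖yy b l‖ ≤ ∑ l, ‖yy b l‖ :=
        Finset.single_le_sum (f := fun l => ‖yy b l‖) (fun _ _ => norm_nonneg _) (Finset.mem_univ l)
    _ ≤ ∑ b, ∑ l, ‖yy b l‖ :=
        Finset.single_le_sum (f := fun b => ∑ l, ‖yy b l‖)
          (fun _ _ => Finset.sum_nonneg fun _ _ => norm_nonneg _) (Finset.mem_univ b)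

theorem AnI_box {n S : ℕ} {s : Fin n → ℤ} (hs : s ∈ box n S) :
    ∑ i, (s i : ℝ) ^ 2 ≤ n * (S : ℝ) ^ 2 := by
  have h1 : ∀ i ∈ (Finset.univ : Finset (Fin n)), (s i : ℝ) ^ 2 ≤ (S : ℝ) ^ 2 := by
    intro i _
    have h2 := Fintype.mem_piFinset.1 hs i
    rw [Finset.mem_Icc] at h2
    have h3 : -(S : ℝ) ≤ (s i : ℝ) := by exact_mod_cast h2.1
    have h4 : (s i : ℝ) ≤ (S : ℝ) := by exact_mod_cast h2.2
    exact sq_le_sq' h3 h4
  have h5 := Finset.sum_le_sum h1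
  rw [Finset.sum_const, Finset.card_univ, Fintype.card_fin, nsmul_eq_mul] at h5
  exact h5

theorem an_box (hrm : r < m) (h : Rc.ExpDataR p V ι ρ u c ζ) {w : ℕ} (bb : Fin w → Fin m → M)
    (yy : Fin w → Fin r → K) (hby : ∀ b j, ι (bb b j) = ∑ l, c j l * yy b l) (A E : ℕ) :
    ∃ C₀ : ℕ, 1 ≤ C₀ ∧ ∀ v : ℕ, 1 ≤ v → ∃ P : MvPolynomial (Fin m) ℤ, P ≠ 0 ∧
      (∀ j, P.degreeOf j ≤ C₀ * v ^ (2 * r)) ∧
      ∀ s ∈ box n (A * v ^ (m - r)), ∀ ψ : Fin m → PowerSeries M,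
        (∀ j, IsSol V.b₂ V.b₄ V.b₆ (ψ j) ∧ coeff 0 (ψ j) = iX V (∑ i, s i • u j i) ∧
          coeff 1 (ψ j) = iV V (∑ i, s i • u j i)) →
        ∀ t : Fin w → M, (X : PowerSeries M) ^ (E * (C₀ * v ^ (2 * r))) ∣
          MvPolynomial.aeval (fun j => PowerSeries.rescale (∑ b, t b * bb b j) (ψ j)) P := by
  have hp : 2 ≤ p := (Fact.out : p.Prime).two_le
  have hp0 : (0 : ℝ) < p := by
    have : 0 < p := by omega
    exact_mod_cast this
  have hp1 : (1 : ℝ) ≤ p := by exact_mod_cast (Fact.out : p.Prime).one_le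
  have : CharZero K := charZero_of_injective_algebraMap (algebraMap ℚ_[p] K).injective
  obtain ⟨R, q, hq, hR, hRa⟩ := exists_disc_adjoin (p := p) ι
  have hRι : ∀ x : M, ‖ι x‖ ≤ 1 → ι x ∈ R := fun x hx =>
    hRa _ (Algebra.subset_adjoin ⟨x, rfl⟩) hx
  obtain ⟨N, hN1, hN2⟩ := exists_scale h.lc
  have hgrow := fun j => grow_iX V (u j)
  choose C hC hG using hgrow
  have hb₂ : (V.map ι).b₂ = ι V.b₂ := V.map_b₂ ι
  have hb₄ : (V.map ι).b₄ = ι V.b₄ := V.map_b₄ ι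
  have hb₆ : (V.map ι).b₆ = ι V.b₆ := V.map_b₆ ι
  have hnat : ∀ a : ℕ, IsIntegral ℤ (a : M) := by
    intro a
    have h := isIntegral_algebraMap (R := ℤ) (A := M) (x := (a : ℤ))
    simpa using h
  have hg : ∀ k, ((p : K) ^ N) ^ k *
      coeff k (fe (V.map ι).b₂ (V.map ι).b₄ (V.map ι).b₆) ∈ R := by
    intro k
    have h1 : ((p : K) ^ N) ^ k *
        PowerSeries.coeff k (fe (V.map ι).b₂ (V.map ι).b₄ (V.map ι).b₆) =
        ι (((p : M) ^ N) ^ k * PowerSeries.coeff k (fe V.b₂ V.b₄ V.b₆)) := by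
      rw [hb₂, hb₄, hb₆, fe_map, map_mul, map_pow, map_pow, map_natCast]
    have h2 := hN1 k
    rw [h1] at h2 ⊢
    exact hRι _ h2
  have hcR : ∀ j l, c j l ∈ R := fun j l => hRa _ (h.cmem j l) (h.cle j l)
  -- the constants
  obtain ⟨e, he⟩ := AnI_norm_bound (p := p) yy
  obtain ⟨B₀, hB₀, hB₀'⟩ := AnI_den ({V.b₂, V.b₄, V.b₆} : Finset M)
  obtain ⟨B', hB', hB''⟩ := AnI_den ((Finset.univ : Finset (Fin w × Fin m)).image
    fun x => bb x.1 x.2)
  obtain ⟨Rr, hRr⟩ : ∃ Rr : ℝ, Rr = 1 + ∑ σ : M →+* ℂ,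
    (4 + ‖σ V.b₂‖ + 3 * ‖σ V.b₄‖ + 2 * ‖σ V.b₆‖) := ⟨_, rfl⟩
  have hRr1 : 1 ≤ Rr := by
    rw [hRr]
    have : 0 ≤ ∑ σ : M →+* ℂ, (4 + ‖σ V.b₂‖ + 3 * ‖σ V.b₄‖ + 2 * ‖σ V.b₆‖) :=
      Finset.sum_nonneg fun _ _ => by positivity
    linarith
  have hRr2 : ∀ σ : M →+* ℂ, 4 + ‖σ V.b₂‖ + 3 * ‖σ V.b₄‖ + 2 * ‖σ V.b₆‖ ≤ Rr ^ 2 := by
    intro σ
    have h1 : 4 + ‖σ V.b₂‖ + 3 * ‖σ V.b₄‖ + 2 * ‖σ V.b₆‖ ≤ Rr := by
      rw [hRr]
      have h2 := Finset.single_le_sum (f := fun σ : M →+* ℂ =>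
        4 + ‖σ V.b₂‖ + 3 * ‖σ V.b₄‖ + 2 * ‖σ V.b₆‖) (fun _ _ => by positivity)
        (Finset.mem_univ σ)
      linarith
    exact h1.trans (le_self_pow₀ hRr1 (by norm_num))
  obtain ⟨B₁, hB₁⟩ : ∃ B₁ : ℝ, B₁ = 1 + E * ∑ σ : M →+* ℂ, ∑ b, ∑ j, ‖σ (bb b j)‖ := ⟨_, rfl⟩
  have hBs : 0 ≤ ∑ σ : M →+* ℂ, ∑ b, ∑ j, ‖σ (bb b j)‖ :=
    Finset.sum_nonneg fun _ _ => Finset.sum_nonneg fun _ _ => Finset.sum_nonneg fun _ _ =>
      norm_nonneg _
  have hB₁1 : 1 ≤ B₁ := by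
    rw [hB₁]
    have : 0 ≤ (E : ℝ) * ∑ σ : M →+* ℂ, ∑ b, ∑ j, ‖σ (bb b j)‖ :=
      mul_nonneg (Nat.cast_nonneg _) hBs
    linarith
  obtain ⟨Cs, hCs⟩ : ∃ Cs : ℝ, Cs = ∑ j, C j := ⟨_, rfl⟩
  have hCs0 : 0 ≤ Cs := by
    rw [hCs]
    exact Finset.sum_nonneg fun j _ => hC j
  obtain ⟨K₁, hK₁⟩ : ∃ K₁ : ℝ, K₁ = E + (B₀ : ℝ) * B' + 2 + 2 * Rr * B₁ := ⟨_, rfl⟩
  have hK₁1 : 1 ≤ K₁ := by
    rw [hK₁]
    have h1 : (0 : ℝ) ≤ E := Nat.cast_nonneg _
    have h2 : (0 : ℝ) ≤ (B₀ : ℝ) * B' := by positivity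
    have h3 : (0 : ℝ) ≤ 2 * Rr * B₁ := by positivity
    linarith
  obtain ⟨C₀, hC₀, hpar⟩ := an_parameters (Module.finrank ℚ M) q m r n p A (4 * E + 2 * m)
    ((N + e + 1) * E) hp hrm hCs0 hK₁1
  refine ⟨C₀, hC₀, fun v hv => ?_⟩
  obtain ⟨H, T, hh1, hh2⟩ := hpar v hv
  obtain ⟨P, hP0, hdeg, hH, hco⟩ := Rc.pigeon hq hR hg hcR hh1
  refine ⟨P, hP0, fun j => (hdeg j).le, fun s hs ψ hψ => ?_⟩
  obtain ⟨D, hD⟩ : ∃ D, D = C₀ * v ^ (2 * r) := ⟨_, rfl⟩
  rw [← hD] at hdeg hh2 ⊢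
  have hD1 : 1 ≤ D := by
    rw [hD]
    exact Nat.mul_pos hC₀ (Nat.pow_pos hv)
  have hD1' : (1 : ℝ) ≤ D := by exact_mod_cast hD1
  obtain ⟨S, hS⟩ : ∃ S : ℕ, S = A * v ^ (m - r) := ⟨_, rfl⟩
  rw [← hS] at hs hh2
  have hsum := AnI_box hs
  obtain ⟨Y, hYd⟩ : ∃ Y : ℝ, Y = Real.exp (Cs * (1 + n * (S : ℝ) ^ 2)) := ⟨_, rfl⟩
  rw [← hYd] at hh2
  have hY : 1 ≤ Y := by
    rw [hYd]
    exact Real.one_le_exp (by positivity)
  -- the denominators and the size of the coordinates of the point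
  obtain ⟨b, hb1, hbY, hbint, hσ⟩ : ∃ b : ℕ, 1 ≤ b ∧ (b : ℝ) ≤ Y ∧
      (∀ j, IsIntegral ℤ ((b : M) * iX V (∑ i, s i • u j i))) ∧
      ∀ (σ : M →+* ℂ) (j : Fin m), ‖σ (iX V (∑ i, s i • u j i))‖ ≤ Y := by
    have hG' := fun j => hG j s
    choose b hb0 hb1 hb2 hb3 using hG'
    have hE : (0 : ℝ) ≤ 1 + ∑ i, (s i : ℝ) ^ 2 := by positivity
    have hYs : Real.exp (Cs * (1 + ∑ i, (s i : ℝ) ^ 2)) ≤ Y := by
      rw [hYd]
      exact Real.exp_le_exp.2 (mul_le_mul_of_nonneg_left (by linarith) hCs0)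
    have hle : ∀ j, Real.exp (C j * (1 + ∑ i, (s i : ℝ) ^ 2)) ≤
        Real.exp (Cs * (1 + ∑ i, (s i : ℝ) ^ 2)) := by
      intro j
      refine Real.exp_le_exp.2 (mul_le_mul_of_nonneg_right ?_ hE)
      rw [hCs]
      exact Finset.single_le_sum (fun i _ => hC i) (Finset.mem_univ j)
    refine ⟨∏ j, b j, Finset.one_le_prod'' fun j => Nat.one_le_iff_ne_zero.2 (hb0 j), ?_, ?_, ?_⟩
    · refine le_trans ?_ hYs
      rw [hCs, Nat.cast_prod, Finset.sum_mul, Real.exp_sum]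
      exact Finset.prod_le_prod (fun j _ => Nat.cast_nonneg _) fun j _ => hb1 j
    · intro j
      rw [← Finset.mul_prod_erase Finset.univ b (Finset.mem_univ j)]
      push_cast
      have h1 : (b j : M) * (∏ x ∈ Finset.univ.erase j, (b x : M)) * iX V (∑ i, s i • u j i) =
          (∏ x ∈ Finset.univ.erase j, (b x : M)) * ((b j : M) * iX V (∑ i, s i • u j i)) := by
        ring
      rw [h1]
      exact IsIntegral.mul (IsIntegral.prod _ fun x _ => hnat _) (hb2 j)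
    · intro σ j
      exact ((hb3 j σ).trans (hle j)).trans hYs
  -- directions with small natural coordinates
  refine dvd_of_grid P ψ bb fun t ht => X_pow_dvd_iff.2 fun k hk => ?_
  by_contra h0
  obtain ⟨β, hβd⟩ : ∃ β : Fin m → M, β = fun j => ∑ b, (t b : M) * bb b j := ⟨_, rfl⟩
  have hβj : ∀ j, β j = ∑ b, (t b : M) * bb b j := fun j => by rw [hβd]
  have hfun : (fun j => PowerSeries.rescale (∑ b, (t b : M) * bb b j) (ψ j)) =
      fun j => PowerSeries.rescale (β j) (ψ j) := by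
    rw [hβd]
  rw [hfun] at h0
  have hsmall := an_small (ι := ι) hR hg hcR hco (fun l => hN2 _ (h.norm_le_sum s l))
    (fun j => map_sol h s j (hψ j).1 (hψ j).2.1 (hψ j).2.2) (β := β)
    (y := fun l => ∑ b, (t b : K) * yy b l) (e := e) (by
      intro j
      rw [hβj, map_sum]
      have e1 : ∀ b, ι ((t b : M) * bb b j) = ∑ l, c j l * ((t b : K) * yy b l) := by
        intro b
        rw [map_mul, map_natCast, hby, Finset.mul_sum]
        exact Finset.sum_congr rfl fun l _ => by ring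
      rw [Finset.sum_congr rfl fun b _ => e1 b, Finset.sum_comm]
      exact Finset.sum_congr rfl fun l _ => by rw [Finset.mul_sum]) (by
      intro l
      refine IsUltrametricDist.norm_sum_le_of_forall_le_of_nonneg (by positivity) fun b _ => ?_
      rw [norm_mul]
      calc ‖((t b : ℕ) : K)‖ * ‖yy b l‖ ≤ 1 * (p : ℝ) ^ e :=
            mul_le_mul (IsUltrametricDist.norm_natCast_le_one K _) (he b l) (norm_nonneg _)
              zero_le_one
        _ = _ := one_mul _) k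
  have hliou := an_liouville (b₂ := V.b₂) (b₄ := V.b₄) (b₆ := V.b₆) (B := B₁ * D) p ι hY hRr1
    (one_le_mul_of_one_le_of_one_le hB₁1 hD1') hdeg hH (fun j => (hψ j).1) (by
      intro j
      rw [(hψ j).2.1, (hψ j).2.2]
      exact AnI_sq _ (h.x_ne s j)) (b := b) (by
      intro j
      rw [(hψ j).2.1]
      exact hbint j) (by
      intro σ j
      rw [(hψ j).2.1]
      exact hσ σ j) (B₀ := B₀) (hB₀' _ (by simp)) (hB₀' _ (by simp)) (hB₀' _ (by simp)) hRr2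
    (β := β) (B' := B') (by
      intro j
      rw [hβj, Finset.mul_sum]
      refine IsIntegral.sum _ fun b _ => ?_
      have e1 : (B' : M) * ((t b : M) * bb b j) = (t b : M) * ((B' : M) * bb b j) := by ring
      rw [e1]
      refine (hnat _).mul (hB'' _ ?_)
      exact Finset.mem_image.2 ⟨(b, j), Finset.mem_univ _, rfl⟩) (by
      intro σ j
      rw [hβj, map_sum]
      have e1 : ∀ b ∈ (Finset.univ : Finset (Fin w)), ‖σ ((t b : M) * bb b j)‖ ≤
          ((E * D : ℕ) : ℝ) * ‖σ (bb b j)‖ := by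
        intro b _
        rw [map_mul, map_natCast, norm_mul, Complex.norm_natCast]
        refine mul_le_mul_of_nonneg_right ?_ (norm_nonneg _)
        exact_mod_cast ht b
      refine (norm_sum_le_of_le _ e1).trans ?_
      rw [← Finset.mul_sum]
      have e2 : ∑ b, ‖σ (bb b j)‖ ≤ ∑ σ : M →+* ℂ, ∑ b, ∑ j, ‖σ (bb b j)‖ := by
        calc ∑ b, ‖σ (bb b j)‖ ≤ ∑ b, ∑ j, ‖σ (bb b j)‖ := by
              refine Finset.sum_le_sum fun b _ => ?_
              exact Finset.single_le_sum (f := fun j => ‖σ (bb b j)‖)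
                (fun _ _ => norm_nonneg _) (Finset.mem_univ j)
          _ ≤ _ := Finset.single_le_sum (f := fun σ : M →+* ℂ => ∑ b, ∑ j, ‖σ (bb b j)‖)
              (fun _ _ => Finset.sum_nonneg fun _ _ => Finset.sum_nonneg fun _ _ => norm_nonneg _)
              (Finset.mem_univ σ)
      have hD0 : (0 : ℝ) ≤ D := Nat.cast_nonneg _
      have hE0 : (0 : ℝ) ≤ E := Nat.cast_nonneg _
      rw [hB₁]
      push_cast
      calc (E : ℝ) * D * ∑ b, ‖σ (bb b j)‖ ≤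
            (E : ℝ) * D * ∑ σ : M →+* ℂ, ∑ b, ∑ j, ‖σ (bb b j)‖ :=
            mul_le_mul_of_nonneg_left e2 (by positivity)
        _ ≤ (1 + E * ∑ σ : M →+* ℂ, ∑ b, ∑ j, ‖σ (bb b j)‖) * D := by nlinarith)
    hb1 hB₀ hB' h0
  have hest := an_est (m := m) (H := H) (q₀ := (B₀ : ℝ) * B') hD1 hY hRr1 hB₁1 (by positivity) hbY
    (E := E) hk.le
  rw [← hK₁, ← mul_assoc (b : ℝ)] at hest
  -- the contradiction
  set G : PowerSeries M := MvPolynomial.aeval (fun j => PowerSeries.rescale (β j) (ψ j)) P with hGd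
  set U : ℝ := (D : ℝ) ^ m * H * (K₁ * D * Y) ^ ((4 * E + 2 * m) * D) with hU
  have hU0 : 0 ≤ U := by
    have : 0 ≤ Y := by linarith
    positivity
  have h5 : 1 ≤ ((p : ℝ)⁻¹) ^ T * (p : ℝ) ^ ((N + e + 1) * E * D) *
      U ^ Module.finrank ℚ M := by
    have hl0 : 0 ≤ (k.factorial : ℝ) * ((b : ℝ) * B₀ * B') ^ (2 * k + m * D) *
        ((D : ℝ) ^ m * H * (2 * Y) ^ (m * D) * (2 * (Rr * Y * (B₁ * D))) ^ k) := by positivity
    calc (1 : ℝ) ≤ _ := hliou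
      _ ≤ (((p : ℝ)⁻¹) ^ T * (p : ℝ) ^ ((N + e + 1) * E * D)) * U ^ Module.finrank ℚ M := by
        refine mul_le_mul ?_ (pow_le_pow_left₀ hl0 hest _) (pow_nonneg hl0 _) (by positivity)
        refine hsmall.trans (mul_le_mul_of_nonneg_left ?_ (by positivity))
        refine pow_le_pow_right₀ hp1 ?_
        rw [mul_assoc]
        exact Nat.mul_le_mul_left _ hk.le
  have h6 : ((p : ℝ)⁻¹) ^ T * (p : ℝ) ^ ((N + e + 1) * E * D) * U ^ Module.finrank ℚ M < 1 := by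
    calc ((p : ℝ)⁻¹) ^ T * (p : ℝ) ^ ((N + e + 1) * E * D) * U ^ Module.finrank ℚ M =
        ((p : ℝ)⁻¹) ^ T * (U ^ Module.finrank ℚ M * (p : ℝ) ^ ((N + e + 1) * E * D)) := by ring
      _ < ((p : ℝ)⁻¹) ^ T * (p : ℝ) ^ T := mul_lt_mul_of_pos_left hh2 (by positivity)
      _ = 1 := by rw [← mul_pow, inv_mul_cancel₀ hp0.ne', one_pow]
  linarith

end PCL

end
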