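import Pool.Agent.W_52423f_v9.JtDefs
import Pool.Agent.W_52423f_h70.CaC
import Pool.Agent.W_52423f_v9.AnI
import Pool.Agent.W_52423f_v9.AnG

/-!
# The box principle with orders of vanishing (interface)
-/

open scoped Classical

set_option linter.unusedSectionVars false

noncomputable section

namespace PCL

open Pool.Agent.PTwist WeierstrassCurve WeierstrassCurve.Affine

section

variable {p : ℕ} [Fact p.Prime] {K : Type} [NontriviallyNormedField K] [CompleteSpace K]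
  [IsUltrametricDist K] [NormedAlgebra ℚ_[p] K] {M : Type} [Field M] [NumberField M]

/-- The box principle with orders of vanishing, for coefficients `c` in `K`. -/
theorem bp_vanJ_R {V : WeierstrassCurve M} [V.IsElliptic] {ι : M →+* K} {n m r : ℕ} {ρ : ℝ}
    {u : Fin m → Fin n → V.toAffine.Point} {c : Fin m → Fin r → K} {ζ : Fin r → Fin n → K}
    (hrm : r < m) (h : Rc.ExpDataR p V ι ρ u c ζ)
    (γ : (Fin n → ℤ) →+ (Fin m → Pt V M)) (hγ : ∀ s j, γ s j = toPt (∑ i, s i • u j i))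
    (hγ0 : ∀ s : Fin n → ℤ, s ≠ 0 → ∀ j, γ s j ≠ 0) (𝒲 : Submodule M (Fin m → M))
    (h𝒲 : ∀ β ∈ 𝒲, ∃ ω : Fin r → K, ∀ j, ι (β j) = ∑ l, c j l * ω l) :
    ∃ C₀ : ℕ, 1 ≤ C₀ ∧ ∀ v : ℕ, 1 ≤ v → ∃ P : MvPolynomial (Fin m) M, P ≠ 0 ∧
      (∀ j, P.degreeOf j ≤ C₀ * v ^ (2 * r)) ∧
      ∀ s ∈ box n (2 * m * v ^ (m - r) + 1), s ≠ 0 →
        VanJ 𝒲 (m * (C₀ * v ^ (2 * r)) + 1) (C₀ * v ^ (2 * r)) P (γ s) := by
  obtain ⟨bs⟩ : Nonempty (Module.Basis (Fin (Module.finrank M 𝒲)) M 𝒲) := ⟨Module.finBasis M 𝒲⟩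
  have hyy : ∀ b, ∃ ω : Fin r → K, ∀ j, ι ((bs b : Fin m → M) j) = ∑ l, c j l * ω l :=
    fun b => h𝒲 _ (bs b).2
  choose yy hyy using hyy
  obtain ⟨C₀, hC₀, H⟩ := an_box hrm h (fun b => (bs b : Fin m → M)) yy hyy (2 * m + 1) (m + 1)
  refine ⟨C₀, hC₀, fun v hv => ?_⟩
  obtain ⟨P, hP0, hPd, hP⟩ := H v hv
  have hinj : Function.Injective (Int.castRingHom M) := Int.cast_injective
  refine ⟨MvPolynomial.map (Int.castRingHom M) P, ?_, ?_, fun s hs hs0 => ?_⟩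
  · intro h0
    exact hP0 ((map_eq_zero_iff _ (MvPolynomial.map_injective _ hinj)).1 h0)
  · intro j
    rw [MvPolynomial.degreeOf_eq_sup, MvPolynomial.support_map_of_injective _ hinj,
      ← MvPolynomial.degreeOf_eq_sup]
    exact hPd j
  · have hv1 : 1 ≤ v ^ (m - r) := Nat.pow_pos hv
    have hs' : s ∈ box n ((2 * m + 1) * v ^ (m - r)) := by
      have h1 : 2 * m * v ^ (m - r) + 1 ≤ (2 * m + 1) * v ^ (m - r) := by
        rw [add_mul, one_mul]
        omega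
      unfold box at hs ⊢
      rw [Fintype.mem_piFinset] at hs ⊢
      intro i
      have h2 := hs i
      rw [Finset.mem_Icc] at h2 ⊢
      have h3 : ((2 * m * v ^ (m - r) + 1 : ℕ) : ℤ) ≤ (((2 * m + 1) * v ^ (m - r) : ℕ) : ℤ) := by
        exact_mod_cast h1
      constructor
      · linarith [h2.1]
      · linarith [h2.2]
    have hD1 : 1 ≤ C₀ * v ^ (2 * r) := Nat.mul_pos hC₀ (Nat.pow_pos hv)
    have hγs : γ s = fun j => (toPt (∑ i, s i • u j i) : Pt V M) := funext fun j => hγ s j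
    rw [hγs]
    refine vanJ_of_sol hPd (fun j => ?_) fun ψ hψ β hβ => ?_
    · refine (h.x_ne s j).resolve_left fun h0 => ?_
      refine hγ0 s hs0 j ?_
      rw [hγ s j, h0]
      rfl
    · have h1 := hP s hs' ψ hψ fun b => bs.repr ⟨β, hβ⟩ b
      have h2 : ∀ j, ∑ b, bs.repr ⟨β, hβ⟩ b * (bs b : Fin m → M) j = β j := by
        intro j
        have h3 := bs.sum_repr ⟨β, hβ⟩
        have h4 : ((∑ b, bs.repr ⟨β, hβ⟩ b • bs b : 𝒲) : Fin m → M) = β := by rw [h3]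
        rw [Submodule.coe_sum] at h4
        have h5 := congrFun h4 j
        rw [Finset.sum_apply] at h5
        exact h5
      simp only [h2] at h1
      refine dvd_trans (pow_dvd_pow _ ?_) h1
      rw [add_mul, one_mul]
      omega

end

variable {p : ℕ} [Fact p.Prime] {K : Type} [NontriviallyNormedField K] [CompleteSpace K]
  [IsUltrametricDist K] [IsAlgClosed K] [NormedAlgebra ℚ_[p] K] {M : Type} [Field M] [NumberField M]

/-- The box principle with orders of vanishing along a space `𝒲` of algebraic directions which is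
contained in the `p`-adic space of the logarithms. -/
theorem bp_vanJ {V : WeierstrassCurve M} [V.IsElliptic] {ι : M →+* K} {n m r : ℕ} {ρ : ℝ}
    {u : Fin m → Fin n → V.toAffine.Point} {c : Fin m → Fin r → ℤ_[p]} {ζ : Fin r → Fin n → K}
    (hrm : r < m) (h : ExpData p V ι ρ u c ζ)
    (γ : (Fin n → ℤ) →+ (Fin m → Pt V M)) (hγ : ∀ s j, γ s j = toPt (∑ i, s i • u j i))
    (hγ0 : ∀ s : Fin n → ℤ, s ≠ 0 → ∀ j, γ s j ≠ 0) (𝒲 : Submodule M (Fin m → M))
    (h𝒲 : ∀ β ∈ 𝒲, ∃ ω : Fin r → K, ∀ j,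
      ι (β j) = ∑ l, algebraMap ℚ_[p] K (c j l : ℚ_[p]) * ω l) :
    ∃ C₀ : ℕ, 1 ≤ C₀ ∧ ∀ v : ℕ, 1 ≤ v → ∃ P : MvPolynomial (Fin m) M, P ≠ 0 ∧
      (∀ j, P.degreeOf j ≤ C₀ * v ^ (2 * r)) ∧
      ∀ s ∈ box n (2 * m * v ^ (m - r) + 1), s ≠ 0 →
        VanJ 𝒲 (m * (C₀ * v ^ (2 * r)) + 1) (C₀ * v ^ (2 * r)) P (γ s) := by
  have hR : Rc.ExpDataR p V ι ρ u (fun j l => algebraMap ℚ_[p] K (c j l : ℚ_[p])) ζ :=
    { lc := h.lc
      ball := h.ball
      cmem := fun j l => Subalgebra.algebraMap_mem _ _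
      cle := fun j l => by
        rw [norm_algebraMap']
        exact PadicInt.norm_le_one (c j l)
      pts := h.pts }
  exact bp_vanJ_R hrm hR γ hγ hγ0 𝒲 h𝒲

end PCL

end
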