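import Pool.Agent.W_52423f_h70.BzB

/-!
# Bezout with multiplicities: Hilbert functions and nonzerodivisors
-/

open scoped Classical

noncomputable section

namespace PCL

variable {k : Type} [Field k] {ι : Type} [Fintype ι]

/-- Cutting an ideal by a polynomial which is a nonzerodivisor modulo the ideal.

Proof: the proof of `hf_mul` (file `W_52423f_h70/BzB.lean`) word for word; the only place where it uses
that `p` is prime and `f` not in `p` is the injectivity of the multiplication by the class of `f` on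
`R/p` (`LinearMap.mulLeft`), which is `hf` here. -/
theorem hf_mulR {J : Ideal (MvPolynomial ι k)} {f : MvPolynomial ι k}
    (hf' : ∀ a, f * a ∈ J → a ∈ J) {D : ℕ} (hD : ∀ i, f.degreeOf i ≤ D) (T : ℕ) :
    hf (J ⊔ Ideal.span {f}) (T + D) + hf J T ≤ hf J (T + D) := by
  have hle : J ≤ J ⊔ Ideal.span {f} := le_sup_left
  set KK : Ideal (MvPolynomial ι k) := J ⊔ Ideal.span {f} with hKK
  set mk := (Ideal.Quotient.mkₐ k J).toLinearMap with hmk
  set A : Submodule k (MvPolynomial ι k ⧸ J) :=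
    Submodule.map mk (MvPolynomial.restrictDegree ι k (T + D)) with hA
  set A' : Submodule k (MvPolynomial ι k ⧸ J) :=
    Submodule.map mk (MvPolynomial.restrictDegree ι k T) with hA'
  haveI := finite_restrictDegree (k := k) (ι := ι) (T + D)
  haveI := finite_restrictDegree (k := k) (ι := ι) T
  haveI : FiniteDimensional k A := by
    rw [hA]; infer_instance
  haveI : FiniteDimensional k A' := by
    rw [hA']; infer_instance
  set π : (MvPolynomial ι k ⧸ J) →ₗ[k] (MvPolynomial ι k ⧸ KK) :=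
    (Ideal.Quotient.factorₐ k hle).toLinearMap with hπ
  have hπmk : ∀ a : MvPolynomial ι k, π (mk a) = Ideal.Quotient.mkₐ k KK a := by
    intro a
    simp [hπ, hmk]
  set φ : A →ₗ[k] (MvPolynomial ι k ⧸ KK) := π.domRestrict A with hφ
  have h1 := LinearMap.finrank_range_add_finrank_ker φ
  have h2 : LinearMap.range φ
      = Submodule.map (Ideal.Quotient.mkₐ k KK).toLinearMap
        (MvPolynomial.restrictDegree ι k (T + D)) := by
    ext x
    constructor
    · rintro ⟨⟨y, hy⟩, rfl⟩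
      rw [hA, Submodule.mem_map] at hy
      obtain ⟨a, ha, rfl⟩ := hy
      refine ⟨a, ha, ?_⟩
      rw [hφ, LinearMap.domRestrict_apply]
      exact (hπmk a).symm
    · rintro ⟨a, ha, rfl⟩
      refine ⟨⟨mk a, ?_⟩, ?_⟩
      · rw [hA]; exact Submodule.mem_map_of_mem ha
      · rw [hφ, LinearMap.domRestrict_apply]
        exact hπmk a
  set μ : (MvPolynomial ι k ⧸ J) →ₗ[k] (MvPolynomial ι k ⧸ J) :=
    LinearMap.mulLeft k (Ideal.Quotient.mk J f) with hμ
  have hinj : Function.Injective μ := by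
    intro x y hxy
    obtain ⟨a, rfl⟩ := Ideal.Quotient.mk_surjective x
    obtain ⟨b, rfl⟩ := Ideal.Quotient.mk_surjective y
    rw [hμ, LinearMap.mulLeft_apply, LinearMap.mulLeft_apply, ← map_mul, ← map_mul,
      Ideal.Quotient.eq, ← mul_sub] at hxy
    rw [Ideal.Quotient.eq]
    exact hf' _ hxy
  have h3 : Submodule.map μ A' ≤ Submodule.map A.subtype (LinearMap.ker φ) := by
    rintro x ⟨y, hy, rfl⟩
    rw [hA'] at hy
    obtain ⟨a, ha, rfl⟩ := hy
    have hmem : mk (f * a) ∈ A := by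
      rw [hA]
      exact Submodule.mem_map_of_mem (BzB_mul_mem ha hD)
    refine ⟨⟨mk (f * a), hmem⟩, ?_, ?_⟩
    · rw [SetLike.mem_coe, LinearMap.mem_ker, hφ, LinearMap.domRestrict_apply]
      show π (mk (f * a)) = 0
      rw [hπmk]
      show Ideal.Quotient.mk KK (f * a) = 0
      rw [Ideal.Quotient.eq_zero_iff_mem]
      apply Ideal.mul_mem_right
      rw [hKK]
      exact Ideal.mem_sup_right (Ideal.subset_span rfl)
    · show mk (f * a) = μ (mk a)
      rw [hμ, LinearMap.mulLeft_apply]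
      show Ideal.Quotient.mk J (f * a) = _
      rw [map_mul]
      rfl
  have h4 : Module.finrank k (Submodule.map μ A') = Module.finrank k A' :=
    (LinearEquiv.finrank_eq (Submodule.equivMapOfInjective μ hinj A')).symm
  have h5 : Module.finrank k (Submodule.map A.subtype (LinearMap.ker φ))
      = Module.finrank k (LinearMap.ker φ) :=
    (LinearEquiv.finrank_eq (Submodule.equivMapOfInjective A.subtype
      (Submodule.subtype_injective A) (LinearMap.ker φ))).symm
  have h6 : Module.finrank k (Submodule.map μ A')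
      ≤ Module.finrank k (Submodule.map A.subtype (LinearMap.ker φ)) :=
    Submodule.finrank_mono h3
  have e1 : hf KK (T + D) = Module.finrank k (LinearMap.range φ) := by
    rw [h2]; rfl
  have e2 : hf J T = Module.finrank k A' := rfl
  have e3 : hf J (T + D) = Module.finrank k A := rfl
  rw [e1, e2, e3]
  omega

theorem BmA_tel {J : Ideal (MvPolynomial ι k)} {f : MvPolynomial ι k}
    (hf' : ∀ a, f * a ∈ J → a ∈ J) {D : ℕ} (hD : ∀ i, f.degreeOf i ≤ D) (T q : ℕ) :
    q * hf (J ⊔ Ideal.span {f}) T + hf J T ≤ hf J (T + q * D) := by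
  induction q with
  | zero => simp
  | succ q ih =>
    have h1 := hf_mulR hf' hD (T + q * D)
    have h2 : hf (J ⊔ Ideal.span {f}) T ≤ hf (J ⊔ Ideal.span {f}) (T + q * D + D) :=
      hf_mono _ (by omega)
    have h3 : T + (q + 1) * D = T + q * D + D := by ring
    rw [h3, add_mul, one_mul]
    omega

/-- Averaging: the proof of `hf_avg` (with `BzB_tel`) word for word, `hf_mulR` in place of
`hf_mul`. -/
theorem hf_avgR {J : Ideal (MvPolynomial ι k)} {f : MvPolynomial ι k}
    (hf' : ∀ a, f * a ∈ J → a ∈ J) {D : ℕ} (hD1 : 1 ≤ D) (hD : ∀ i, f.degreeOf i ≤ D) {T : ℕ}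
    (hT : D ≤ T) :
    T * hf (J ⊔ Ideal.span {f}) T ≤ 2 * D * hf J (2 * T) := by
  set q := T / D with hq
  have hq1 : 1 ≤ q := (Nat.one_le_div_iff (by omega)).mpr hT
  have hqT : q * D ≤ T := Nat.div_mul_le_self T D
  have hTq : T ≤ 2 * (q * D) := by
    have h1 : T < (q + 1) * D := by
      rw [hq]
      exact Nat.lt_mul_of_div_lt (Nat.lt_succ_self _) (by omega)
    have h2 : D ≤ q * D := Nat.le_mul_of_pos_left D (by omega)
    nlinarith
  have h1 := BmA_tel hf' hD T q
  have h2 : hf J (T + q * D) ≤ hf J (2 * T) := hf_mono _ (by omega)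
  have h3 : q * hf (J ⊔ Ideal.span {f}) T ≤ hf J (2 * T) := by omega
  calc T * hf (J ⊔ Ideal.span {f}) T ≤ 2 * (q * D) * hf (J ⊔ Ideal.span {f}) T :=
        Nat.mul_le_mul_right _ hTq
    _ = 2 * D * (q * hf (J ⊔ Ideal.span {f}) T) := by ring
    _ ≤ 2 * D * hf J (2 * T) := Nat.mul_le_mul_left _ h3

/-- A chain of cuts.

Proof.  Induction on `i ≤ r`: `hf (J i) T ≤ 4 ^ (r * (i + 1)) * D ^ i * T ^ (r - i)` for all `T ≥ D`.
`i = 0`: `hf (J 0) T ≤ hf ⊥ T = (T + 1) ^ r ≤ (2 T) ^ r` (`hf_anti`, `hf_bot`).  Step: `J (i+1)` contains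
`J i + (f i)`, so by `hf_anti` and `hf_avgR`
`T * hf (J (i+1)) T ≤ 2 D hf (J i) (2 T) ≤ 2 D 4 ^ (r (i+1)) D ^ i (2 T) ^ (r - i)`, divide by `T ≥ 1`
(`r - i ≥ 1`; `2 * 2 ^ (r - i) ≤ 4 ^ r`). -/
theorem hf_chain {r : ℕ} (hr : Fintype.card ι = r) {D : ℕ} (hD1 : 1 ≤ D)
    (J : ℕ → Ideal (MvPolynomial ι k)) (f : ℕ → MvPolynomial ι k)
    (hD : ∀ i < r, ∀ j, (f i).degreeOf j ≤ D)
    (hreg : ∀ i < r, ∀ a, f i * a ∈ J i → a ∈ J i)
    (hle : ∀ i < r, J i ⊔ Ideal.span {f i} ≤ J (i + 1)) :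
    ∀ T, D ≤ T → hf (J r) T ≤ 4 ^ (r * (r + 1)) * D ^ r := by
  have key : ∀ i, i ≤ r → ∀ T, D ≤ T →
      hf (J i) T ≤ 4 ^ (r * (i + 1)) * D ^ i * T ^ (r - i) := by
    intro i
    induction i with
    | zero =>
      intro _ T hT
      have h1 : hf (J 0) T ≤ hf (⊥ : Ideal (MvPolynomial ι k)) T := hf_anti bot_le T
      rw [hf_bot, hr] at h1
      refine h1.trans ?_
      have h2 : (T + 1) ^ r ≤ (4 * T) ^ r := Nat.pow_le_pow_left (by omega) r
      refine h2.trans (le_of_eq ?_)
      rw [mul_pow]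
      simp
    | succ i ih =>
      intro hi T hT
      have hi' : i < r := by omega
      have h1 : hf (J (i + 1)) T ≤ hf (J i ⊔ Ideal.span {f i}) T := hf_anti (hle i hi') T
      have h2 := hf_avgR (hreg i hi') hD1 (hD i hi') hT
      have h3 := ih (by omega) (2 * T) (by omega)
      have hT1 : 0 < T := by omega
      obtain ⟨s, hs⟩ : ∃ s, r - i = s + 1 := ⟨r - i - 1, by omega⟩
      have hs' : r - (i + 1) = s := by omega
      rw [hs] at h3
      rw [hs']
      have h4 : 2 * 2 ^ (s + 1) ≤ 4 ^ r := by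
        have h5 : s + 1 + 1 ≤ 2 * r := by omega
        calc 2 * 2 ^ (s + 1) = 2 ^ (s + 1 + 1) := by ring
          _ ≤ 2 ^ (2 * r) := Nat.pow_le_pow_right (by norm_num) h5
          _ = 4 ^ r := by rw [pow_mul]; norm_num
      have h6 : T * hf (J (i + 1)) T ≤ T * (4 ^ (r * (i + 1 + 1)) * D ^ (i + 1) * T ^ s) := by
        calc T * hf (J (i + 1)) T ≤ T * hf (J i ⊔ Ideal.span {f i}) T := Nat.mul_le_mul_left _ h1
          _ ≤ 2 * D * hf (J i) (2 * T) := h2
          _ ≤ 2 * D * (4 ^ (r * (i + 1)) * D ^ i * (2 * T) ^ (s + 1)) := Nat.mul_le_mul_left _ h3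
          _ = (2 * 2 ^ (s + 1)) * (4 ^ (r * (i + 1)) * D ^ (i + 1) * T ^ (s + 1)) := by
              rw [mul_pow]; ring
          _ ≤ 4 ^ r * (4 ^ (r * (i + 1)) * D ^ (i + 1) * T ^ (s + 1)) := Nat.mul_le_mul_right _ h4
          _ = T * (4 ^ (r * (i + 1 + 1)) * D ^ (i + 1) * T ^ s) := by
              rw [show r * (i + 1 + 1) = r + r * (i + 1) by ring, pow_add 4 r]
              ring
      exact Nat.le_of_mul_le_mul_left h6 hT1
  intro T hT
  have := key r le_rfl T hT
  simpa using this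

end PCL

end
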