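import Pool.Agent.W_52423f_h70.BzC
import Pool.Agent.W_52423f_h70.SbCnt

/-!
# Bezout with multiplicities: colengths and the Hilbert function
-/

open scoped Classical

noncomputable section

namespace PCL

variable {k : Type} [Field k] {ι : Type} [Fintype ι]

/-- An element outside the maximal ideal `m` is a unit modulo an ideal which contains a power of `m`.

Proof.  `m` is maximal, `g ∉ m`: there are `h`, `c ∈ m` with `h * g + c = 1`
(`Ideal.exists_inv`-type lemma, `Ideal.IsMaximal.exists_inv`).  Then `(h * g) ` and `1 - c` agree,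
`1 - c ^ e = (1 - c) * u` for a geometric sum `u`, so `a * (1 - c ^ e) = (g * a) * (h * u) ∈ q` and
`a * c ^ e ∈ q`. -/
theorem mem_of_mul_mem_pow {R : Type} [CommRing R] {m q : Ideal R} (hm : m.IsMaximal) {e : ℕ}
    (hq : m ^ e ≤ q) {g a : R} (hg : g ∉ m) (h : g * a ∈ q) : a ∈ q := by
  obtain ⟨y, c, hc, hyc⟩ := hm.exists_inv hg
  have h1 : (1 : R) - c ∣ 1 ^ e - c ^ e := sub_dvd_pow_sub_pow 1 c e
  obtain ⟨u, hu⟩ := h1
  have h2 : (1 : R) - c = y * g := by rw [← hyc]; ring
  have h3 : c ^ e ∈ q := hq (Ideal.pow_mem_pow hc e)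
  have h4 : a = (y * u) * (g * a) + a * c ^ e := by
    have h5 : (1 : R) = y * g * u + c ^ e := by
      rw [← h2, ← hu, one_pow]
      ring
    calc a = a * 1 := (mul_one a).symm
      _ = a * (y * g * u + c ^ e) := by rw [← h5]
      _ = _ := by ring
  rw [h4]
  exact add_mem (q.mul_mem_left _ h) (q.mul_mem_left _ h3)

/-- For large `T` the colength is at most the value of the Hilbert function.

Proof.  If `A/q` is not finite dimensional then `finrank` is `0`.  Otherwise the images of the spaces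
`restrictDegree ι k T` form an increasing sequence of subspaces of `A/q` whose union is everything
(every polynomial has bounded degrees), so some member is everything (take lifts of a finite basis and
the maximum of their degrees; compare the proof of `maximal_of_hf_bounded` in
`W_52423f_h70/BzA.lean`), and `hf q T = finrank` for all larger `T` (`hf_mono`). -/
theorem finrank_le_hf (q : Ideal (MvPolynomial ι k)) :
    ∃ T₀, ∀ T, T₀ ≤ T → Module.finrank k (MvPolynomial ι k ⧸ q) ≤ hf q T := by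
  classical
  by_cases hfin : Module.Finite k (MvPolynomial ι k ⧸ q)
  · have hbd : ∀ T, hf q T ≤ Module.finrank k (MvPolynomial ι k ⧸ q) := fun T =>
      Submodule.finrank_le _
    obtain ⟨T0, hT0⟩ : ∃ T0, ∀ T, hf q T ≤ hf q T0 := by
      have hb : ∀ m, (∃ T, hf q T = m) → m ≤ Module.finrank k (MvPolynomial ι k ⧸ q) := by
        rintro m ⟨T, rfl⟩
        exact hbd T
      obtain ⟨T0, h0⟩ := Nat.findGreatest_spec (P := fun m => ∃ T, hf q T = m)
        (hb _ ⟨0, rfl⟩) ⟨0, rfl⟩
      refine ⟨T0, fun T => ?_⟩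
      rw [h0]
      exact Nat.le_findGreatest (hbd T) ⟨T, rfl⟩
    have htop : Submodule.map (Ideal.Quotient.mkₐ k q).toLinearMap
        (MvPolynomial.restrictDegree ι k T0) = ⊤ := by
      rw [eq_top_iff]
      rintro x -
      obtain ⟨f, rfl⟩ := Ideal.Quotient.mk_surjective x
      have hf' : f ∈ MvPolynomial.restrictDegree ι k (max T0 f.totalDegree) := by
        apply BzA_le (le_max_right T0 f.totalDegree)
        exact MvPolynomial.restrictTotalDegree_le_restrictDegree ι k _
          ((MvPolynomial.mem_restrictTotalDegree ι _ f).2 le_rfl)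
      have := BzA_fin q (max T0 f.totalDegree)
      have heq : Submodule.map (Ideal.Quotient.mkₐ k q).toLinearMap
          (MvPolynomial.restrictDegree ι k T0) =
          Submodule.map (Ideal.Quotient.mkₐ k q).toLinearMap
          (MvPolynomial.restrictDegree ι k (max T0 f.totalDegree)) := by
        apply Submodule.eq_of_le_of_finrank_le (Submodule.map_mono (BzA_le (le_max_left _ _)))
        exact hT0 _
      rw [heq]
      exact Submodule.mem_map_of_mem hf'
    refine ⟨T0, fun T hT => ?_⟩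
    refine le_trans (le_of_eq ?_) (hf_mono q hT)
    unfold hf
    rw [htop, finrank_top]
  · refine ⟨0, fun T _ => ?_⟩
    rw [Module.finrank_of_not_finite hfin]
    exact Nat.zero_le _

/-- Additivity.

Proof: the proof of `hf_add` (file `W_52423f_h70/BzC.lean`) word for word: there the elements `g q`
come from `exists_separating` and the only place where primality is used is the last line of `hker`
(`g q' * a q' ∈ q'` implies `a q' ∈ q'`), which is the hypothesis `hg` here. -/
theorem hf_addR {β : Type} (I : Ideal (MvPolynomial ι k)) (s : Finset β)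
    (q : β → Ideal (MvPolynomial ι k)) (hI : ∀ b ∈ s, I ≤ q b) (g : β → MvPolynomial ι k)
    (hg : ∀ b ∈ s, ∀ a, g b * a ∈ q b → a ∈ q b)
    (hsep : ∀ b ∈ s, ∀ b' ∈ s, b ≠ b' → g b ∈ q b') :
    ∃ T₀ : ℕ, ∀ T : ℕ, ∑ b ∈ s, hf (q b) T ≤ hf I (T + T₀) := by
  refine ⟨Finset.univ.sup (fun b : {b // b ∈ s} =>
    Finset.univ.sup (fun i : ι => (g b).degreeOf i)), ?_⟩
  intro T
  set T₀ := Finset.univ.sup (fun b : {b // b ∈ s} =>
    Finset.univ.sup (fun i : ι => (g b).degreeOf i)) with hT₀
  have hdeg : ∀ b : {b // b ∈ s}, ∀ i, (g b).degreeOf i ≤ T₀ := by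
    intro b i
    calc (g b).degreeOf i ≤ Finset.univ.sup (fun i : ι => (g b).degreeOf i) :=
          Finset.le_sup (f := fun i : ι => (g b).degreeOf i) (Finset.mem_univ i)
      _ ≤ T₀ := Finset.le_sup (f := fun b : {b // b ∈ s} =>
          Finset.univ.sup (fun i : ι => (g b).degreeOf i)) (Finset.mem_univ b)
  have := finite_restrictDegree (k := k) (ι := ι) T
  have := finite_restrictDegree (k := k) (ι := ι) (T + T₀)
  set V := MvPolynomial.restrictDegree ι k T with hV
  let θ : ∀ b : {b // b ∈ s}, V →ₗ[k] (MvPolynomial ι k ⧸ q b) := fun b =>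
    (Ideal.Quotient.mkₐ k (q b)).toLinearMap ∘ₗ V.subtype
  have hθ : ∀ b, Module.finrank k (LinearMap.range (θ b)) = hf (q b) T := by
    intro b
    have : LinearMap.range (θ b)
        = Submodule.map (Ideal.Quotient.mkₐ k (q b)).toLinearMap V := by
      show LinearMap.range ((Ideal.Quotient.mkₐ k (q b)).toLinearMap ∘ₗ V.subtype) = _
      rw [LinearMap.range_comp, Submodule.range_subtype]
    rw [this]
    rfl
  let Ψ : ({b // b ∈ s} → V) →ₗ[k] (MvPolynomial ι k ⧸ I) :=
    ∑ b : {b // b ∈ s}, (Ideal.Quotient.mkₐ k I).toLinearMap ∘ₗ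
      (LinearMap.mulLeft k (g b)) ∘ₗ V.subtype ∘ₗ LinearMap.proj b
  have hΨ : ∀ a : {b // b ∈ s} → V,
      Ψ a = Ideal.Quotient.mk I (∑ b : {b // b ∈ s}, g b * (a b : MvPolynomial ι k)) := by
    intro a
    show (∑ b : {b // b ∈ s}, (Ideal.Quotient.mkₐ k I).toLinearMap ∘ₗ
      (LinearMap.mulLeft k (g b)) ∘ₗ V.subtype ∘ₗ LinearMap.proj b) a = _
    rw [LinearMap.sum_apply, map_sum]
    rfl
  have hker : ∀ a, Ψ a = 0 → ∀ b', (θ b').rangeRestrict (a b') = 0 := by
    intro a ha b'
    rw [hΨ, Ideal.Quotient.eq_zero_iff_mem] at ha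
    apply Subtype.ext
    show Ideal.Quotient.mk (q b') (a b' : MvPolynomial ι k) = 0
    rw [Ideal.Quotient.eq_zero_iff_mem]
    have h1 : (∑ b : {b // b ∈ s}, g b * (a b : MvPolynomial ι k)) ∈ q b' :=
      (hI b'.1 b'.2) ha
    rw [← Finset.add_sum_erase _ _ (Finset.mem_univ b')] at h1
    have h2 : (∑ b ∈ Finset.univ.erase b', g b * (a b : MvPolynomial ι k)) ∈ q b' := by
      apply Ideal.sum_mem
      intro b hb
      apply Ideal.mul_mem_right
      apply hsep b.1 b.2 b'.1 b'.2
      intro h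
      exact (Finset.mem_erase.mp hb).1 (Subtype.ext h)
    have h3 : g b' * (a b' : MvPolynomial ι k) ∈ q b' := by
      have := Ideal.sub_mem _ h1 h2
      rwa [add_sub_cancel_right] at this
    exact hg b'.1 b'.2 _ h3
  have hmain := BzC_pi (Q := {b // b ∈ s}) (V := V)
    (M := fun b : {b // b ∈ s} => (LinearMap.range (θ b) : Type))
    (fun b => (θ b).rangeRestrict)
    (fun b => (θ b).surjective_rangeRestrict) Ψ hker
  have hrange : LinearMap.range Ψ ≤ Submodule.map (Ideal.Quotient.mkₐ k I).toLinearMap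
      (MvPolynomial.restrictDegree ι k (T + T₀)) := by
    rintro x ⟨a, rfl⟩
    rw [hΨ]
    refine ⟨∑ b : {b // b ∈ s}, g b * (a b : MvPolynomial ι k), ?_, rfl⟩
    apply Submodule.sum_mem
    intro b _
    rw [BzC_mem]
    intro i
    have h1 := MvPolynomial.degreeOf_mul_le i (g b) (a b : MvPolynomial ι k)
    have h2 := hdeg b i
    have h3 : (a b : MvPolynomial ι k).degreeOf i ≤ T := (BzC_mem.mp (a b).2) i
    omega
  have hfin : Module.finrank k (LinearMap.range Ψ) ≤ hf I (T + T₀) :=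
    Submodule.finrank_mono hrange
  have hsum : ∑ b : {b // b ∈ s}, Module.finrank k (LinearMap.range (θ b)) =
      ∑ b ∈ s, hf (q b) T := by
    rw [← Finset.sum_coe_sort s (fun b => hf (q b) T)]
    exact Finset.sum_congr rfl (fun b _ => hθ b)
  rw [← hsum]
  exact hmain.trans hfin

theorem BmB_sep {b b' : ι → k} (hne : b ≠ b') (e : ℕ) :
    ∃ f : MvPolynomial ι k, f ∈ mI b' ^ e ∧ MvPolynomial.eval b f ≠ 0 := by
  obtain ⟨i, hi⟩ : ∃ i, b i ≠ b' i := by
    by_contra h
    push Not at h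
    exact hne (funext h)
  refine ⟨(MvPolynomial.X i - MvPolynomial.C (b' i)) ^ e, Ideal.pow_mem_pow ?_ e, ?_⟩
  · show MvPolynomial.eval b' _ = 0
    rw [map_sub, MvPolynomial.eval_X, MvPolynomial.eval_C, sub_self]
  · rw [map_pow, map_sub, MvPolynomial.eval_X, MvPolynomial.eval_C]
    exact pow_ne_zero _ (sub_ne_zero.2 hi)

/-- The sum of the colengths of ideals which contain powers of different maximal ideals is bounded by the
Hilbert function of any ideal contained in all of them.

Proof.  Separating elements: for `b ≠ b'` in `s` choose `i` with `b i ≠ b' i`; the polynomial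
`(X i - C (b' i)) ^ e b'` is in `mI b' ^ e b' ≤ q b'` and not in `mI b` (evaluate at `b`).  Let `g b` be
the product over all `b' ∈ s`, `b' ≠ b`; it is in all `q b'`, `b' ≠ b`, and not in the prime ideal
`mI b`, so `mem_of_mul_mem_pow` applies (`mI_spec`).  Then `finrank_le_hf` for all `b` (maximum of the
`T₀`), `hf_addR`, and `hf_mono` to pass to all large `T`. -/
theorem sum_finrank_le_hf (I : Ideal (MvPolynomial ι k)) (s : Finset (ι → k))
    (q : (ι → k) → Ideal (MvPolynomial ι k)) (hI : ∀ b ∈ s, I ≤ q b)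
    (hq : ∀ b ∈ s, ∃ e, mI b ^ e ≤ q b) :
    ∃ T₀, ∀ T, T₀ ≤ T → ∑ b ∈ s, Module.finrank k (MvPolynomial ι k ⧸ q b) ≤ hf I T := by
  classical
  have hq' : ∀ b, ∃ e, b ∈ s → mI b ^ e ≤ q b := fun b => by
    by_cases hb : b ∈ s
    · obtain ⟨e, he⟩ := hq b hb
      exact ⟨e, fun _ => he⟩
    · exact ⟨0, fun h => absurd h hb⟩
  choose e he using hq'
  have hsep : ∀ b b' : ι → k, ∃ f : MvPolynomial ι k, b ≠ b' →
      f ∈ mI b' ^ (e b') ∧ MvPolynomial.eval b f ≠ 0 := fun b b' => by
    by_cases hne : b = b'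
    · exact ⟨0, fun h => absurd hne h⟩
    · obtain ⟨f, hf1⟩ := BmB_sep hne (e b')
      exact ⟨f, fun _ => hf1⟩
  choose f hf1 using hsep
  obtain ⟨g, hgdef⟩ : ∃ g : (ι → k) → MvPolynomial ι k,
      ∀ b, g b = ∏ b' ∈ s.erase b, f b b' := ⟨_, fun _ => rfl⟩
  have hg1 : ∀ b, g b ∉ mI b := by
    intro b hb
    have h1 : MvPolynomial.eval b (g b) = 0 := hb
    rw [hgdef, map_prod, Finset.prod_eq_zero_iff] at h1
    obtain ⟨b', hb', h2⟩ := h1
    exact (hf1 b b' (Finset.ne_of_mem_erase hb').symm).2 h2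
  have hg2 : ∀ b ∈ s, ∀ b' ∈ s, b ≠ b' → g b ∈ q b' := by
    intro b _ b' hb' hne
    rw [hgdef]
    have h1 : b' ∈ s.erase b := Finset.mem_erase.2 ⟨hne.symm, hb'⟩
    exact Ideal.mem_of_dvd _ (Finset.dvd_prod_of_mem _ h1) (he b' hb' (hf1 b b' hne).1)
  have hg3 : ∀ b ∈ s, ∀ a, g b * a ∈ q b → a ∈ q b := fun b hb a ha =>
    mem_of_mul_mem_pow (mI_spec b b).1 (he b hb) (hg1 b) ha
  obtain ⟨T₀, hT₀⟩ := hf_addR I s q hI g hg3 hg2
  choose T₁ hT₁ using fun b => finrank_le_hf (q b)
  refine ⟨s.sup T₁ + T₀, fun T hT => ?_⟩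
  calc ∑ b ∈ s, Module.finrank k (MvPolynomial ι k ⧸ q b)
      ≤ ∑ b ∈ s, hf (q b) (s.sup T₁) :=
        Finset.sum_le_sum fun b hb => hT₁ b _ (Finset.le_sup hb)
    _ ≤ hf I (s.sup T₁ + T₀) := hT₀ _
    _ ≤ hf I T := hf_mono I hT

end PCL

end
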