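import Mathlib

/-!
# Bezout with multiplicities: depth
-/

open scoped Classical
open CategoryTheory Abelian RingTheory.Sequence

noncomputable section

namespace PCL

/-- Depth at least `n` (with respect to the ideal `I`), in terms of Ext. -/
def DepthGE {R : Type} [CommRing R] (I : Ideal R) (n : ℕ) (M : Type) [AddCommGroup M] [Module R M] :
    Prop :=
  ∀ i < n, Subsingleton (Ext (ModuleCat.of R (R ⧸ I)) (ModuleCat.of R M) i)

/-- From a regular sequence to the depth: `ModuleCat.subsingleton_ext_of_exists_isRegular` (Rees theorem,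
`Mathlib/RingTheory/Depth/Rees.lean`) with `N = R / I` (its support is the zero locus of `I`,
`Module.support_eq_zeroLocus`, `Ideal.annihilator_quotient`). -/
theorem depthGE_of_regular {R : Type} [CommRing R] [IsNoetherianRing R] (I : Ideal R)
    (M : Type) [AddCommGroup M] [Module R M] [Module.Finite R M]
    (hlt : I • (⊤ : Submodule R M) < ⊤) (rs : List R) (hmem : ∀ r ∈ rs, r ∈ I)
    (hreg : IsRegular M rs) : DepthGE I rs.length M := by
  intro i hi
  have hs : Module.support R (ModuleCat.of R (R ⧸ I)) ⊆ PrimeSpectrum.zeroLocus I := by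
    show Module.support R (R ⧸ I) ⊆ _
    rw [Module.support_eq_zeroLocus, Ideal.annihilator_quotient]
  exact ModuleCat.subsingleton_ext_of_exists_isRegular I (ModuleCat.of R (R ⧸ I)) hs
    (ModuleCat.of R M) hlt rs hmem hreg i hi

/-- The depth drops by one: long exact sequence of `0 → M → M → M / f M → 0`
(`Ext.covariant_sequence_exact₃'` with `IsSMulRegular.smulShortComplex_shortExact`), exactly as in the proof
of `ModuleCat.exists_isRegular_of_exists_subsingleton_ext` in `Mathlib/RingTheory/Depth/Rees.lean`
(the block `h_ext'`). -/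
theorem depthGE_quot {R : Type} [CommRing R] (I : Ideal R) (M : Type) [AddCommGroup M] [Module R M]
    {n : ℕ} (h : DepthGE I (n + 1) M) {f : R} (hf : IsSMulRegular M f) :
    DepthGE I n (QuotSMulTop f M) := by
  intro i hi
  have zero1 := AddCommGrpCat.isZero_of_iff_subsingleton.mpr (h i (by omega))
  have zero2 := AddCommGrpCat.isZero_of_iff_subsingleton.mpr (h (i + 1) (by omega))
  have hx : IsSMulRegular (ModuleCat.of R M) f := hf
  exact AddCommGrpCat.subsingleton_of_isZero <| ShortComplex.Exact.isZero_of_both_zeros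
    ((Ext.covariant_sequence_exact₃' (ModuleCat.of R (R ⧸ I)) hx.smulShortComplex_shortExact)
      i (i + 1) rfl) (zero1.eq_zero_of_src _) (zero2.eq_zero_of_tgt _)

/-- If the depth is at least `1` then the maximal ideal `I` is not associated to `M`: an associated
prime `I` gives an injection `R / I → M` (`isAssociatedPrime_iff_exists_injective_linearMap`), but
`Hom (R / I) M` is trivial (`Ext.addEquiv₀`, `ModuleCat.homAddEquiv` as in the Mathlib file).  The ring has to be Noetherian. -/
theorem not_mem_ass_of_depthGE {R : Type} [CommRing R] [IsNoetherianRing R] {I : Ideal R} (M : Type)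
    [AddCommGroup M] [Module R M] (h : DepthGE I 1 M) : I ∉ associatedPrimes R M := by
  intro hmem
  have h0 := h 0 one_pos
  have h1 : Subsingleton (ModuleCat.of R (R ⧸ I) ⟶ ModuleCat.of R M) :=
    Ext.addEquiv₀.subsingleton_congr.mp h0
  have h2 : Subsingleton ((R ⧸ I) →ₗ[R] M) := by
    have h3 : Subsingleton ((ModuleCat.of R (R ⧸ I)) →ₗ[R] (ModuleCat.of R M)) :=
      ModuleCat.homAddEquiv.symm.subsingleton
    exact h3
  have h4 : IsAssociatedPrime I M := hmem
  obtain ⟨hp, f, hf⟩ := (isAssociatedPrime_iff_exists_injective_linearMap I M).1 h4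
  have h5 : f = 0 := Subsingleton.elim _ _
  have h6 : Nontrivial (R ⧸ I) := Ideal.Quotient.nontrivial_iff.2 hp.ne_top
  obtain ⟨a, b, hab⟩ := h6.exists_pair_ne
  apply hab
  apply hf
  rw [h5]
  rfl

end PCL

end
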