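import Pool.Agent.W_52423f_v9.BmC
import Pool.Agent.W_52423f_h70.SbCnt

/-!
# Bezout with multiplicities: the depth of the local rings of affine space
-/

open scoped Classical
open RingTheory.Sequence

noncomputable section

namespace PCL

variable {k : Type} [Field k] {ι : Type} [Fintype ι]

instance mI_isPrime (b : ι → k) : (mI b).IsPrime := (mI_spec b b).1.isPrime

/-- The local ring of affine space at the point `b`. -/
abbrev LR (b : ι → k) : Type := Localization.AtPrime (mI b)

/-- The polynomials `X i - b i`, in any order, form a weakly regular sequence in the polynomial ring.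

Proof.  Let `l : List ι` be without repetitions.  By `isWeaklyRegular_iff` (or `_iff_Fin`) one has to show that
`X i - C (b i)` is regular modulo the ideal generated by `X j - C (b j)`, `j` in a list `l'` which does not
contain `i`.  That ideal is the kernel of the surjective algebra endomorphism `φ` of `MvPolynomial ι k`
with `φ (X j) = C (b j)` for `j ∈ l'`, `φ (X j) = X j` otherwise (`a - φ a` is in the ideal by induction
on `a`, since it holds for the variables), so if `(X i - C (b i)) * a` is in the ideal then
`(X i - C (b i)) * φ a = 0`, `φ a = 0` and `a` is in the ideal. -/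
theorem weaklyRegular_X (b : ι → k) (l : List ι) (hl : l.Nodup) :
    IsWeaklyRegular (MvPolynomial ι k)
      (l.map fun i => (MvPolynomial.X i - MvPolynomial.C (b i) : MvPolynomial ι k)) := by
  refine ⟨fun n hn => ?_⟩
  have hn' : n < l.length := by simpa using hn
  rw [← List.map_take, List.getElem_map]
  set l' := l.take n with hl'
  have hnot : l[n] ∉ l' := by
    intro hmem
    obtain ⟨m, hm, hm2⟩ := List.getElem_of_mem hmem
    have hmn : m < n := by
      have := hm
      rw [hl', List.length_take] at this
      omega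
    have h3 : l[m]'(by omega) = l[n] := by
      rw [← hm2]
      simp [hl']
    have := (hl.getElem_inj_iff).1 h3
    omega
  set f : ι → MvPolynomial ι k := fun i => MvPolynomial.X i - MvPolynomial.C (b i) with hf
  set I : Ideal (MvPolynomial ι k) := Ideal.ofList (l'.map f) with hI
  have hfI : ∀ j ∈ l', f j ∈ I := fun j hj =>
    Ideal.subset_span (List.mem_map.2 ⟨j, hj, rfl⟩)
  let φ : MvPolynomial ι k →ₐ[k] MvPolynomial ι k :=
    MvPolynomial.aeval (fun j => if j ∈ l' then MvPolynomial.C (b j) else MvPolynomial.X j)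
  have hφX : ∀ j, φ (MvPolynomial.X j) =
      if j ∈ l' then MvPolynomial.C (b j) else MvPolynomial.X j := fun j =>
    MvPolynomial.aeval_X _ j
  have hφC : ∀ c, φ (MvPolynomial.C c) = MvPolynomial.C c := fun c =>
    MvPolynomial.aeval_C _ c
  have h1 : (Ideal.Quotient.mkₐ k I).comp φ = Ideal.Quotient.mkₐ k I := by
    refine MvPolynomial.algHom_ext fun j => ?_
    rw [AlgHom.comp_apply, hφX]
    split_ifs with hj
    · refine (Ideal.Quotient.eq.2 ?_)
      rw [← neg_mem_iff, neg_sub]
      exact hfI j hj
    · rfl
  have h2 : ∀ a, φ a = 0 → a ∈ I := by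
    intro a ha
    have h3 : (Ideal.Quotient.mkₐ k I) (φ a) = (Ideal.Quotient.mkₐ k I) a :=
      DFunLike.congr_fun h1 a
    rw [ha, map_zero] at h3
    exact Ideal.Quotient.eq_zero_iff_mem.1 h3.symm
  have h4 : ∀ a ∈ I, φ a = 0 := by
    have h5 : I ≤ RingHom.ker φ := by
      rw [hI, Ideal.ofList, Ideal.span_le]
      rintro x hx
      obtain ⟨j, hj, rfl⟩ := List.mem_map.1 hx
      show φ (f j) = 0
      rw [hf]
      simp only [map_sub]
      rw [hφX, if_pos hj, hφC, sub_self]
    exact fun a ha => h5 ha
  have h6 : (I • ⊤ : Submodule (MvPolynomial ι k) (MvPolynomial ι k)) = I := by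
    rw [smul_eq_mul, Ideal.mul_top]
  have hne : (MvPolynomial.X l[n] - MvPolynomial.C (b l[n]) : MvPolynomial ι k) ≠ 0 := by
    intro h0
    have h7 := congrArg (MvPolynomial.eval (fun j => b j + 1)) h0
    simp at h7
  rw [isSMulRegular_iff_right_eq_zero_of_smul]
  intro x hx
  obtain ⟨a, rfl⟩ := Submodule.Quotient.mk_surjective _ x
  rw [← Submodule.Quotient.mk_smul, Submodule.Quotient.mk_eq_zero, h6, smul_eq_mul] at hx
  rw [Submodule.Quotient.mk_eq_zero, h6]
  refine h2 a ?_
  have h8 := h4 _ hx
  rw [map_mul] at h8
  simp only [map_sub] at h8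
  rw [hφX, if_neg hnot, hφC] at h8
  exact (mul_eq_zero.1 h8).resolve_left hne

/-- The local ring has depth at least the number of variables.

Proof.  Localization is flat (`IsLocalization.flat`), so `weaklyRegular_X` for `l = Finset.univ.toList`
gives a weakly regular sequence in `LR b` (`RingTheory.Sequence.IsWeaklyRegular.of_flat_of_isBaseChange`, file
`Mathlib/RingTheory/Regular/Flat.lean`, or `IsWeaklyRegular.isWeaklyRegular_lTensor`); it lies in the maximal ideal
(`X i - C (b i) ∈ mI b`), so it is regular
(`RingTheory.Sequence.IsRegular.of_isWeaklyRegular_of_mem_maximalIdeal`).  Then `depthGE_of_regular`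
(`𝔪 • ⊤ < ⊤` in a local ring). -/
theorem depthGE_LR (b : ι → k) :
    DepthGE (IsLocalRing.maximalIdeal (LR b)) (Fintype.card ι) (LR b) := by
  have h0 := weaklyRegular_X b (Finset.univ : Finset ι).toList (Finset.nodup_toList _)
  have hmem : ∀ r ∈ ((Finset.univ : Finset ι).toList.map fun i =>
      (MvPolynomial.X i - MvPolynomial.C (b i) : MvPolynomial ι k)), r ∈ mI b := by
    intro r hr
    obtain ⟨j, -, rfl⟩ := List.mem_map.1 hr
    show MvPolynomial.eval b _ = 0
    simp
  have h1 := h0.isRegular_of_isLocalization_of_mem (LR b) (mI b) hmem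
  have h2 : IsLocalRing.maximalIdeal (LR b) • (⊤ : Submodule (LR b) (LR b)) < ⊤ := by
    rw [smul_eq_mul, Ideal.mul_top]
    exact lt_top_iff_ne_top.2 (IsLocalRing.maximalIdeal.isMaximal (LR b)).ne_top
  have h3 := depthGE_of_regular (IsLocalRing.maximalIdeal (LR b)) (LR b) h2 _ (fun r hr => by
    obtain ⟨s, hs, rfl⟩ := List.mem_map.1 hr
    exact (IsLocalization.AtPrime.to_map_mem_maximal_iff (LR b) (mI b) s).2 (hmem s hs)) h1
  simpa using h3

end PCL

end
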