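import Pool.Agent.W_52423f_v9.BmD

/-!
# Bezout with multiplicities: generic regular sequences
-/

open scoped Classical
open RingTheory.Sequence

noncomputable section

namespace PCL

variable {k : Type} [Field k] {ι : Type} [Fintype ι]

theorem BmE_noeth (b : ι → k) : IsNoetherianRing (LR b) :=
  IsLocalization.isNoetherianRing (mI b).primeCompl (LR b) inferInstance

theorem BmE_not_le (G : Set (MvPolynomial ι k)) (b : ι → k)
    (hb : mI b ∈ (Ideal.span G).minimalPrimes) (P : Ideal (LR b)) (hP : P.IsPrime)
    (hne : P ≠ IsLocalRing.maximalIdeal (LR b)) :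
    ¬ Ideal.span G ≤ P.comap (algebraMap (MvPolynomial ι k) (LR b)) := by
  intro hle
  have hPr : (P.comap (algebraMap (MvPolynomial ι k) (LR b))).IsPrime := Ideal.comap_isPrime _ P
  have hmax : P ≤ IsLocalRing.maximalIdeal (LR b) := IsLocalRing.le_maximalIdeal hP.ne_top
  have hc : P.comap (algebraMap (MvPolynomial ι k) (LR b)) ≤ mI b := by
    have h1 : (IsLocalRing.maximalIdeal (LR b)).comap (algebraMap (MvPolynomial ι k) (LR b)) =
        mI b := Localization.AtPrime.under_maximalIdeal
    exact (Ideal.comap_mono hmax).trans (le_of_eq h1)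
  have h2 : mI b ≤ P.comap (algebraMap (MvPolynomial ι k) (LR b)) := hb.2 ⟨hPr, hle⟩ hc
  apply hne
  refine le_antisymm hmax ?_
  have h3 : Ideal.map (algebraMap (MvPolynomial ι k) (LR b)) (mI b) =
      IsLocalRing.maximalIdeal (LR b) := Localization.AtPrime.map_eq_maximalIdeal
  rw [← h3]
  exact Ideal.map_le_iff_le_comap.mpr h2

/-- Generic choice.

Proof.  For every `b ∈ s` the set of associated primes of the finitely generated module `M b` over the
Noetherian ring `LR b` is finite (`associatedPrimes.finite`).  For `P` in it let `P'` be the preimage of `P`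
in the polynomial ring.  By `not_mem_ass_of_depthGE`, `P` is not the maximal ideal, so
`P' ≤ mI b` and `P' ≠ mI b` (`IsLocalization.AtPrime` correspondence:
`IsLocalization.AtPrime.comap_maximalIdeal`, `Localization.AtPrime`; if `P' = mI b` then
`P` contains the maximal ideal, `IsLocalization.map_comap`).  Since `mI b` is a minimal prime over `span G`, the
prime `P'` does not contain `G`; so the subspace `P' ∩ span_k G` of the `k`-vector space `span_k G` is
proper.  A vector space over an infinite field is not a finite union of proper subspaces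
(`Subspace.biUnion_ne_univ_of_top_notMem` or `Submodule.iUnion_ssubset_of_forall_ne_top_of_card_lt`),
so there is `f ∈ span_k G` whose image is in no associated prime of any `M b`; so `f` is regular on `M b`
(`biUnion_associatedPrimes_eq_zero_divisors`, `isSMulRegular_iff...`). -/
theorem exists_generic [Infinite k] (G : Set (MvPolynomial ι k)) (s : Finset (ι → k))
    (hs : ∀ b ∈ s, mI b ∈ (Ideal.span G).minimalPrimes)
    (M : (ι → k) → Type) [∀ b, AddCommGroup (M b)] [∀ b, Module (LR b) (M b)]
    [∀ b, Module.Finite (LR b) (M b)]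
    (hM : ∀ b ∈ s, DepthGE (IsLocalRing.maximalIdeal (LR b)) 1 (M b)) :
    ∃ f ∈ Submodule.span k G, ∀ b ∈ s,
      IsSMulRegular (M b) (algebraMap (MvPolynomial ι k) (LR b) f) := by
  have hN : ∀ b : ι → k, IsNoetherianRing (LR b) := BmE_noeth
  have hfin : ∀ b : ι → k, Finite (associatedPrimes (LR b) (M b)) := fun b =>
    (associatedPrimes.finite (LR b) (M b)).to_subtype
  let J : Type := Σ b : s, associatedPrimes (LR b.1) (M b.1)
  let p : J → Submodule k (Submodule.span k G) := fun j =>
    ((j.2.1.comap (algebraMap (MvPolynomial ι k) (LR j.1.1))).restrictScalars k).comap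
      (Submodule.span k G).subtype
  have hp : ∀ j, p j ≠ ⊤ := by
    intro j htop
    have hj : (j.2.1 : Ideal (LR j.1.1)).IsPrime := j.2.2.1
    have hne : (j.2.1 : Ideal (LR j.1.1)) ≠ IsLocalRing.maximalIdeal (LR j.1.1) := by
      intro e
      have h1 := not_mem_ass_of_depthGE (M j.1.1) (hM j.1.1 j.1.2)
      rw [← e] at h1
      exact h1 j.2.2
    refine BmE_not_le G j.1.1 (hs j.1.1 j.1.2) j.2.1 hj hne ?_
    rw [Ideal.span_le]
    intro g hg
    have h2 : (⟨g, Submodule.subset_span hg⟩ : Submodule.span k G) ∈ p j := by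
      rw [htop]; exact Submodule.mem_top
    exact h2
  obtain ⟨x, hx⟩ := Submodule.exists_forall_notMem_of_forall_ne_top p hp
  refine ⟨x.1, x.2, fun b hb => ?_⟩
  by_contra hreg
  have h3 : (algebraMap (MvPolynomial ι k) (LR b) x.1) ∈
      ⋃ P ∈ associatedPrimes (LR b) (M b), (P : Set (LR b)) := by
    rw [biUnion_associatedPrimes_eq_compl_regular]
    exact hreg
  simp only [Set.mem_iUnion] at h3
  obtain ⟨P, hP, hxP⟩ := h3
  exact hx ⟨⟨b, hb⟩, ⟨P, hP⟩⟩ hxP

/-- Generic regular sequences.

Proof.  Induction on `n` for all families `M`: `exists_generic` gives `f`; by `depthGE_quot` the modules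
`QuotSMulTop (algebraMap _ _ f) (M b)` have depth at least `n - 1`; the induction hypothesis gives a list
`fs`; the list `f :: fs` works (`isWeaklyRegular_cons_iff`). -/
theorem exists_weaklyRegular [Infinite k] (G : Set (MvPolynomial ι k)) (s : Finset (ι → k))
    (hs : ∀ b ∈ s, mI b ∈ (Ideal.span G).minimalPrimes) (n : ℕ) :
    ∀ (M : (ι → k) → Type) [∀ b, AddCommGroup (M b)] [∀ b, Module (LR b) (M b)]
      [∀ b, Module.Finite (LR b) (M b)]
      (_ : ∀ b ∈ s, DepthGE (IsLocalRing.maximalIdeal (LR b)) n (M b)),
      ∃ fs : List (MvPolynomial ι k), fs.length = n ∧ (∀ f ∈ fs, f ∈ Submodule.span k G) ∧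
        ∀ b ∈ s, IsWeaklyRegular (M b) (fs.map (algebraMap (MvPolynomial ι k) (LR b))) := by
  induction n with
  | zero =>
    intro M _ _ _ _
    exact ⟨[], rfl, by simp, fun b _ => IsWeaklyRegular.nil _ _⟩
  | succ n ih =>
    intro M _ _ _ hM
    obtain ⟨f, hf, hreg⟩ := exists_generic G s hs M fun b hb i hi => hM b hb i (by omega)
    obtain ⟨fs, hlen, hmem, hw⟩ := ih
      (fun b => QuotSMulTop (algebraMap (MvPolynomial ι k) (LR b) f) (M b))
      (fun b hb => depthGE_quot _ _ (hM b hb) (hreg b hb))
    refine ⟨f :: fs, by simp [hlen], ?_, fun b hb => ?_⟩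
    · intro g hg
      rcases List.mem_cons.mp hg with rfl | hg
      · exact hf
      · exact hmem g hg
    · rw [List.map_cons, isWeaklyRegular_cons_iff]
      exact ⟨hreg b hb, hw b hb⟩

end PCL

end
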