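import Pool.Agent.W_52423f_v9.BmA
import Pool.Agent.W_52423f_v9.BmB
import Pool.Agent.W_52423f_v9.BmE

/-!
# Bezout's theorem with multiplicities
-/

open scoped Classical
open RingTheory.Sequence

noncomputable section

namespace PCL

section

variable {k : Type} [Field k] {ι : Type} [Fintype ι]

theorem BmMain_ofList (fs : List (MvPolynomial ι k)) (I : Ideal (MvPolynomial ι k))
    (h : ∀ f ∈ fs, f ∈ I) : Ideal.ofList fs ≤ I := by
  unfold Ideal.ofList
  rw [Ideal.span_le]
  exact h

theorem BmMain_deg (G : Set (MvPolynomial ι k)) {D : ℕ} (hG : ∀ f ∈ G, ∀ i, f.degreeOf i ≤ D)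
    {f : MvPolynomial ι k} (hf : f ∈ Submodule.span k G) (i : ι) : f.degreeOf i ≤ D := by
  have h1 : Submodule.span k G ≤ MvPolynomial.restrictDegree ι k D := by
    rw [Submodule.span_le]
    intro g hg
    exact BzB_mem.2 (hG g hg)
  exact BzB_mem.1 (h1 hf) i

theorem BmMain_span (G : Set (MvPolynomial ι k)) {f : MvPolynomial ι k}
    (hf : f ∈ Submodule.span k G) : f ∈ Ideal.span G := by
  have h1 : Submodule.span k G ≤ (Ideal.span G).restrictScalars k := by
    rw [Submodule.span_le]
    intro g hg
    exact Ideal.subset_span hg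
  exact h1 hf

/-- The ideal of the polynomials which lie in the ideal generated by the first `i` members of the list,
locally at all points of `s`. -/
def BmMain_J (s : Finset (ι → k)) (fs : List (MvPolynomial ι k)) (i : ℕ) :
    Ideal (MvPolynomial ι k) :=
  ⨅ b ∈ s, (Ideal.map (algebraMap (MvPolynomial ι k) (LR b)) (Ideal.ofList (fs.take i))).comap
    (algebraMap (MvPolynomial ι k) (LR b))

theorem BmMain_mem {s : Finset (ι → k)} {fs : List (MvPolynomial ι k)} {i : ℕ}
    {a : MvPolynomial ι k} : a ∈ BmMain_J s fs i ↔ ∀ b ∈ s,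
      algebraMap (MvPolynomial ι k) (LR b) a ∈
        Ideal.map (algebraMap (MvPolynomial ι k) (LR b)) (Ideal.ofList (fs.take i)) := by
  unfold BmMain_J
  simp only [Submodule.mem_iInf, Ideal.mem_comap]

theorem BmMain_reg {s : Finset (ι → k)} {fs : List (MvPolynomial ι k)}
    (h : ∀ b ∈ s, IsWeaklyRegular (LR b) (fs.map (algebraMap (MvPolynomial ι k) (LR b))))
    {i : ℕ} (hi : i < fs.length) {a : MvPolynomial ι k} (ha : fs[i] * a ∈ BmMain_J s fs i) :
    a ∈ BmMain_J s fs i := by
  rw [BmMain_mem] at ha ⊢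
  intro b hb
  have h1 := (h b hb).regular_mod_prev i (by rw [List.length_map]; exact hi)
  have h2 : Ideal.ofList ((fs.map (algebraMap (MvPolynomial ι k) (LR b))).take i) =
      Ideal.map (algebraMap (MvPolynomial ι k) (LR b)) (Ideal.ofList (fs.take i)) := by
    rw [Ideal.map_ofList, List.map_take]
  rw [h2] at h1
  have h3 := ha b hb
  set I := Ideal.map (algebraMap (MvPolynomial ι k) (LR b)) (Ideal.ofList (fs.take i)) with hI
  have h4 : (I • (⊤ : Submodule (LR b) (LR b))) = I := by
    rw [smul_eq_mul, Ideal.mul_top]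
  have h5 : ∀ x : LR b, (Submodule.Quotient.mk x : LR b ⧸ (I • (⊤ : Submodule (LR b) (LR b)))) = 0 ↔
      x ∈ I := by
    intro x
    rw [Submodule.Quotient.mk_eq_zero, h4]
  rw [← h5]
  apply h1
  simp only [List.getElem_map, smul_zero]
  rw [← Submodule.Quotient.mk_smul, h5, smul_eq_mul, ← map_mul]
  exact h3

end

/-- Bezout's theorem with multiplicities.  `G` is a set of polynomials in `r` variables of degree at most
`D` in every variable over an infinite field, `s` a finite set of isolated points of the zero set of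
`G`, and for `b ∈ s` the ideal `q b` contains `G` and a power of the maximal ideal of `b`.  Then the sum
of the colengths of the `q b` is at most `C_r D^r`. -/
theorem bezout_mult (r : ℕ) : ∃ C : ℕ, ∀ (k : Type) [Field k] [Infinite k] (ι : Type) [Fintype ι],
    Fintype.card ι = r → ∀ (G : Set (MvPolynomial ι k)) (D : ℕ), 1 ≤ D →
    (∀ f ∈ G, ∀ i, f.degreeOf i ≤ D) →
    ∀ (s : Finset (ι → k)) (q : (ι → k) → Ideal (MvPolynomial ι k)),
      (∀ b ∈ s, mI b ∈ (Ideal.span G).minimalPrimes ∧ Ideal.span G ≤ q b ∧ ∃ e, mI b ^ e ≤ q b) →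
      ∑ b ∈ s, Module.finrank k (MvPolynomial ι k ⧸ q b) ≤ C * D ^ r := by
  refine ⟨4 ^ (r * (r + 1)), ?_⟩
  intro k _ _ ι _ hcard G D hD1 hG s q hq
  obtain ⟨fs, hlen, hspan, hreg⟩ := exists_weaklyRegular G s (fun b hb => (hq b hb).1) r
    (fun b => LR b) (fun b _ => by rw [← hcard]; exact depthGE_LR b)
  have hgetD : ∀ i (h : i < r), fs.getD i 0 = fs[i]'(by omega) := by
    intro i h
    exact List.getD_eq_getElem fs 0 (by omega)
  have hmem : ∀ i < r, fs.getD i 0 ∈ fs := by
    intro i h
    rw [hgetD i h]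
    exact List.getElem_mem _
  have hchain := hf_chain (k := k) (ι := ι) hcard hD1 (BmMain_J s fs) (fun i => fs.getD i 0)
    (fun i hi j => BmMain_deg G hG (hspan _ (hmem i hi)) j)
    (fun i hi a ha => by
      simp only [hgetD i hi] at ha
      exact BmMain_reg hreg (by omega) ha)
    (fun i hi => by
      refine sup_le ?_ ?_
      · intro a ha
        rw [BmMain_mem] at ha ⊢
        intro b hb
        refine Ideal.map_mono ?_ (ha b hb)
        refine BmMain_ofList _ _ fun f hf => Ideal.subset_span ?_
        have h1 : fs.take i <+: fs.take (i + 1) := List.take_prefix_take_left (by omega)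
        exact h1.subset hf
      · rw [Ideal.span_singleton_le_iff_mem, BmMain_mem]
        intro b _
        refine Ideal.mem_map_of_mem _ (Ideal.subset_span ?_)
        show fs.getD i 0 ∈ fs.take (i + 1)
        rw [hgetD i hi, List.mem_take_iff_getElem]
        exact ⟨i, by omega, rfl⟩)
  have hle : ∀ b ∈ s, BmMain_J s fs r ≤ q b := by
    intro b hb a ha
    obtain ⟨-, hGq, e, he⟩ := hq b hb
    rw [BmMain_mem] at ha
    have h1 := ha b hb
    rw [IsLocalization.mem_map_algebraMap_iff (mI b).primeCompl] at h1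
    obtain ⟨⟨⟨x, hx⟩, ⟨g, hg⟩⟩, h2⟩ := h1
    have h3 : algebraMap (MvPolynomial ι k) (LR b) (a * g) =
        algebraMap (MvPolynomial ι k) (LR b) x := by
      rw [map_mul]
      exact h2
    rw [IsLocalization.eq_iff_exists (mI b).primeCompl] at h3
    obtain ⟨⟨c, hc⟩, h4⟩ := h3
    have h5 : (c * g) * a ∈ q b := by
      have h6 : (c * g) * a = c * x := by
        calc (c * g) * a = c * (a * g) := by ring
          _ = c * x := h4
      rw [h6]
      refine Ideal.mul_mem_left _ _ (hGq ?_)
      exact BmMain_ofList _ _ (fun f hf => BmMain_span G (hspan f (List.mem_of_mem_take hf))) hx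
    refine mem_of_mul_mem_pow (mI_spec b b).1 he ?_ h5
    intro h
    rcases (mI_isPrime b).mem_or_mem h with h | h
    · exact hc h
    · exact hg h
  obtain ⟨T₀, hT₀⟩ := sum_finrank_le_hf (BmMain_J s fs r) s q hle (fun b hb => (hq b hb).2.2)
  exact (hT₀ (max T₀ D) (le_max_left _ _)).trans (hchain _ (le_max_right _ _))

end PCL

end
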