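import Pool.Agent.W_52423f_v9.LaD
import Pool.Agent.W_52423f_h70.CrC

/-!
# Simple abelian varieties with an elliptic factor and coefficients: auxiliary statements
-/

open scoped Classical

noncomputable section

namespace PCL

open Pool.Agent.PTwist WeierstrassCurve WeierstrassCurve.Affine

/-- The action of an integral matrix on the tuples of points. -/
def mAct {M : Type} [Field M] {V : WeierstrassCurve M} {N : ℕ} (T : Matrix (Fin N) (Fin N) ℤ)
    (P : Fin N → V.toAffine.Point) : Fin N → V.toAffine.Point :=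
  fun i => ∑ j, T i j • P j

/-- The subgroup generated by the `T^k x_b`. -/
def torb {M : Type} [Field M] {V : WeierstrassCurve M} {N μ : ℕ} (T : Matrix (Fin N) (Fin N) ℤ)
    (x : Fin μ → Fin N → V.toAffine.Point) : AddSubgroup (Fin N → V.toAffine.Point) :=
  AddSubgroup.closure {P | ∃ (b : Fin μ) (k : ℕ), P = mAct (T ^ k) (x b)}

variable {p : ℕ} [Fact p.Prime] {K : Type} [NontriviallyNormedField K] [CompleteSpace K]
  [IsUltrametricDist K] [IsAlgClosed K] [NormedAlgebra ℚ_[p] K]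

/-- Growth (as `Nc_growth`). -/
theorem growthJ {n m r e c C₀ : ℕ}
    (h : ∀ v : ℕ, 1 ≤ v → (2 * v ^ (m - r) + 1) ^ n ≤ c * (C₀ * v ^ (2 * r)) ^ e) :
    n * (m - r) ≤ 2 * r * e := by
  by_contra hcon
  push Not at hcon
  set B := c * C₀ ^ e with hB
  have h1 := h (B + 1) (by omega)
  have h2 : (B + 1) ^ (2 * r * e + 1) ≤ (2 * (B + 1) ^ (m - r) + 1) ^ n := by
    calc (B + 1) ^ (2 * r * e + 1) ≤ (B + 1) ^ (n * (m - r)) :=
          Nat.pow_le_pow_right (by omega) hcon
      _ = ((B + 1) ^ (m - r)) ^ n := by rw [← pow_mul, mul_comm]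
      _ ≤ (2 * (B + 1) ^ (m - r) + 1) ^ n := Nat.pow_le_pow_left (by omega) _
  have h3 : c * (C₀ * (B + 1) ^ (2 * r)) ^ e = B * (B + 1) ^ (2 * r * e) := by
    rw [mul_pow, ← pow_mul, hB]
    ring
  rw [h3] at h1
  have h4 := h2.trans h1
  rw [pow_succ] at h4
  have h5 : 0 < (B + 1) ^ (2 * r * e) := by positivity
  nlinarith

/-- The action as a linear map in the matrix. -/
def FinA_lin {M : Type} [Field M] {V : WeierstrassCurve M} {N : ℕ}
    (P : Fin N → V.toAffine.Point) : Matrix (Fin N) (Fin N) ℤ →ₗ[ℤ] (Fin N → V.toAffine.Point) where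
  toFun T := mAct T P
  map_add' S T := by
    funext i
    simp only [mAct, Matrix.add_apply, add_smul, Finset.sum_add_distrib, Pi.add_apply]
  map_smul' a T := by
    funext i
    simp only [mAct, Matrix.smul_apply, smul_eq_mul, mul_smul, Finset.smul_sum, Pi.smul_apply,
      RingHom.id_apply]

/-- Finite generation: `T` is integral over `ℤ` (Cayley-Hamilton), so finitely many powers suffice. -/
theorem torb_fg {M : Type} [Field M] {V : WeierstrassCurve M} {N μ : ℕ}
    (T : Matrix (Fin N) (Fin N) ℤ) (x : Fin μ → Fin N → V.toAffine.Point) : (torb T x).FG := by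
  have hint : IsIntegral ℤ T := Algebra.IsIntegral.isIntegral T
  have h1 : (Subalgebra.toSubmodule (Algebra.adjoin ℤ {T})).FG := hint.fg_adjoin_singleton
  have h2 : Subalgebra.toSubmodule (Algebra.adjoin ℤ {T}) =
      Submodule.span ℤ (Set.range fun k : ℕ => T ^ k) := by
    rw [Algebra.adjoin_eq_span]
    congr 1
    ext S
    rw [SetLike.mem_coe, Submonoid.mem_closure_singleton]
    rfl
  have h3 : (⨆ b : Fin μ, (Subalgebra.toSubmodule (Algebra.adjoin ℤ {T})).map
      (FinA_lin (x b))).FG := Submodule.fg_iSup _ fun b => h1.map _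
  have h4 : (⨆ b : Fin μ, (Subalgebra.toSubmodule (Algebra.adjoin ℤ {T})).map
      (FinA_lin (x b))) = AddSubgroup.toIntSubmodule (torb T x) := by
    have h5 : AddSubgroup.toIntSubmodule (torb T x) =
        Submodule.span ℤ {P | ∃ (b : Fin μ) (k : ℕ), P = mAct (T ^ k) (x b)} :=
      AddSubgroup.toIntSubmodule_closure _
    rw [h5, h2]
    simp only [Submodule.map_span]
    rw [← Submodule.span_iUnion]
    congr 1
    ext P
    simp only [Set.mem_iUnion, Set.mem_image, Set.mem_range, exists_exists_eq_and,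
      Set.mem_ofPred_eq]
    constructor
    · rintro ⟨b, k, rfl⟩
      exact ⟨b, k, rfl⟩
    · rintro ⟨b, k, rfl⟩
      exact ⟨b, k, rfl⟩
  rw [h4, Submodule.fg_iff_addSubgroup_fg] at h3
  exact h3

/-- A maximal independent family: every element has a multiple in its span. -/
theorem FinA_rel {G : Type} [AddCommGroup G] {L : AddSubgroup G} (hfg : L.FG) {m : ℕ}
    (hm : Module.finrank ℤ L = m) {u : Fin m → G} (hu : ∀ j, u j ∈ L)
    (hind : ∀ t : Fin m → ℤ, ∑ j, t j • u j = 0 → t = 0) {x : G} (hx : x ∈ L) :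
    ∃ (k : ℤ) (n : Fin m → ℤ), k ≠ 0 ∧ k • x = ∑ j, n j • u j := by
  have : Module.Finite ℤ L :=
    Module.Finite.iff_addGroup_fg.2 ((AddGroup.fg_iff_addSubgroup_fg L).2 hfg)
  have h1 : ¬ LinearIndependent ℤ (Fin.cons ⟨x, hx⟩ (fun j => ⟨u j, hu j⟩) : Fin (m + 1) → L) := by
    intro h
    have h2 := h.fintype_card_le_finrank
    rw [Fintype.card_fin, hm] at h2
    omega
  rw [Fintype.not_linearIndependent_iff] at h1
  obtain ⟨g, hg, i, hi⟩ := h1
  rw [Fin.sum_univ_succ] at hg
  simp only [Fin.cons_zero, Fin.cons_succ] at hg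
  have hg' : g 0 • x + ∑ j, g (Fin.succ j) • u j = 0 := by
    have h3 := congrArg (fun z : L => (z : G)) hg
    push_cast at h3
    exact h3
  have h0 : g 0 ≠ 0 := by
    intro h0
    rw [h0, zero_smul, zero_add] at hg'
    have h4 := hind (fun j => g (Fin.succ j)) hg'
    refine Fin.cases (fun h => h h0) (fun j h => h (congrFun h4 j)) i hi
  refine ⟨g 0, fun j => -g (Fin.succ j), h0, ?_⟩
  rw [eq_neg_of_add_eq_zero_left hg', ← Finset.sum_neg_distrib]
  exact Finset.sum_congr rfl fun j _ => (neg_smul _ _).symm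

/-- Independent integral vectors have a left inverse up to an integer. -/
theorem FinA_left {a b : ℕ} (n : Fin a → Fin b → ℤ)
    (hn : ∀ t : Fin a → ℤ, (∀ i, ∑ j, t j * n j i = 0) → t = 0) :
    ∃ (d : ℤ) (q : Fin b → Fin a → ℤ), d ≠ 0 ∧
      ∀ j j', ∑ i, n j i * q i j' = if j = j' then d else 0 := by
  have h1 : LinearIndependent ℚ (fun j : Fin a => (fun i => (n j i : ℚ) : Fin b → ℚ)) := by
    rw [← LinearIndependent.iff_fractionRing (R := ℤ)]
    rw [Fintype.linearIndependent_iff]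
    intro t ht
    have h2 := hn t (fun i => by
      have h3 := congrFun ht i
      rw [Finset.sum_apply, Pi.zero_apply] at h3
      have h4 : (((∑ j, t j * n j i : ℤ)) : ℚ) = 0 := by
        push_cast
        rw [← h3]
        refine Finset.sum_congr rfl fun j _ => ?_
        rw [Pi.smul_apply, zsmul_eq_mul]
      exact_mod_cast h4)
    exact fun i => congrFun h2 i
  have hker : LinearMap.ker (Fintype.linearCombination ℚ
      (fun j : Fin a => (fun i => (n j i : ℚ) : Fin b → ℚ))) = ⊥ := by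
    rw [LinearMap.ker_eq_bot']
    intro t ht
    funext i
    exact (Fintype.linearIndependent_iff.1 h1) t ht i
  obtain ⟨g, hg⟩ := LinearMap.exists_leftInverse_of_injective _ hker
  obtain ⟨d, hd⟩ := IsLocalization.exist_integer_multiples (nonZeroDivisors ℤ)
    (Finset.univ : Finset (Fin b × Fin a)) (fun z => g (Pi.single z.1 1) z.2)
  choose q hq using fun z : Fin b × Fin a => hd z (Finset.mem_univ z)
  refine ⟨d, fun i j => q (i, j), nonZeroDivisors.ne_zero d.2, fun j j' => ?_⟩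
  have h5 : g (fun i => (n j i : ℚ)) = Pi.single j 1 := by
    have h6 := LinearMap.congr_fun hg (Pi.single j 1)
    rw [LinearMap.comp_apply, Fintype.linearCombination_apply_single, one_smul] at h6
    exact h6
  have h7 : (fun i => (n j i : ℚ)) = ∑ i, (n j i : ℚ) • (Pi.single i 1 : Fin b → ℚ) := by
    funext i
    rw [Finset.sum_apply]
    simp [Pi.single_apply]
  rw [h7, map_sum] at h5
  have h8 := congrFun h5 j'
  rw [Finset.sum_apply] at h8
  have h9 : ((∑ i, n j i * q (i, j') : ℤ) : ℚ) = ((if j = j' then (d : ℤ) else 0 : ℤ) : ℚ) := by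
    push_cast
    have h10 : ∀ i, ((q (i, j') : ℤ) : ℚ) = (d : ℤ) * g (Pi.single i 1) j' := by
      intro i
      have h11 := hq (i, j')
      rw [zsmul_eq_mul] at h11
      exact h11
    rw [Finset.sum_congr rfl fun i _ => by rw [h10 i]]
    have h12 : ∑ i, (n j i : ℚ) * ((d : ℤ) * g (Pi.single i 1) j') =
        (d : ℤ) * ∑ i, (g ((n j i : ℚ) • (Pi.single i 1 : Fin b → ℚ))) j' := by
      rw [Finset.mul_sum]
      refine Finset.sum_congr rfl fun i _ => ?_
      rw [map_smul, Pi.smul_apply, smul_eq_mul]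
      ring
    rw [h12, h8, Pi.single_apply]
    by_cases h : j = j'
    · subst h; simp
    · rw [if_neg (fun h' => h h'.symm), if_neg h]; simp
  exact_mod_cast h9

omit [IsAlgClosed K] in
/-- A relation between points gives the same relation between logarithms in two balls. -/
theorem FinA_log {M : Type} [Field M] [NumberField M] {V : WeierstrassCurve M} [V.IsElliptic]
    {ι : M →+* K} {n m m' r r' : ℕ} {ρ ρ' : ℝ}
    {u : Fin m → Fin n → V.toAffine.Point} {c : Fin m → Fin r → ℤ_[p]} {ζ : Fin r → Fin n → K}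
    {u' : Fin m' → Fin n → V.toAffine.Point} {c' : Fin m' → Fin r' → ℤ_[p]}
    {ζ' : Fin r' → Fin n → K} (hE : ExpData p V ι ρ u c ζ) (hE' : ExpData p V ι ρ' u' c' ζ')
    (j : Fin m') (s : ℤ) (t : Fin m → ℤ) (h : s • u' j = ∑ i, t i • u i) (x : Fin n) :
    (s : K) * ∑ l, algebraMap ℚ_[p] K (c' j l : ℚ_[p]) * ζ' l x =
      ∑ i, (t i : K) * ∑ l, algebraMap ℚ_[p] K (c i l : ℚ_[p]) * ζ l x := by
  have h1 : ∑ _i : Fin 1, s • u' j x = ∑ i, t i • u i x := by
    have h2 := congrFun h x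
    rw [Pi.smul_apply, Finset.sum_apply] at h2
    simpa using h2
  have key : ∑ _i : Fin 1, (s : K) * ∑ l, algebraMap ℚ_[p] K (c' j l : ℚ_[p]) * ζ' l x =
      ∑ i, (t i : K) * ∑ l, algebraMap ℚ_[p] K (c i l : ℚ_[p]) * ζ l x := by
    rcases le_total (rad ρ) (rad ρ') with hle | hle
    · exact log_rel (p := p) (V := V) (ι := ι) hE'.lc (P := fun _ : Fin 1 => u' j x)
        (Q := fun i => u i x)
        (z := fun _ => ∑ l, algebraMap ℚ_[p] K (c' j l : ℚ_[p]) * ζ' l x)
        (w := fun i => ∑ l, algebraMap ℚ_[p] K (c i l : ℚ_[p]) * ζ l x)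
        (fun _ => hE'.norm_le j x) (fun i => (hE.norm_le i x).trans hle) (fun _ => hE'.pts j x)
        (fun i => hE.pts i x) (fun _ => s) t h1
    · exact log_rel (p := p) (V := V) (ι := ι) hE.lc (P := fun _ : Fin 1 => u' j x)
        (Q := fun i => u i x)
        (z := fun _ => ∑ l, algebraMap ℚ_[p] K (c' j l : ℚ_[p]) * ζ' l x)
        (w := fun i => ∑ l, algebraMap ℚ_[p] K (c i l : ℚ_[p]) * ζ l x)
        (fun _ => (hE'.norm_le j x).trans hle) (fun i => hE.norm_le i x) (fun _ => hE'.pts j x)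
        (fun i => hE.pts i x) (fun _ => s) t h1
  simpa using key

/-- If `c` contains `p^k` times the identity matrix and is square then its left kernel is zero. -/
theorem FinA_ker {m : ℕ} {c : Fin m → Fin m → ℤ_[p]} {I : Fin m → Fin m} {k : ℕ}
    (hI : ∀ l l', c (I l) l' = if l = l' then (p : ℤ_[p]) ^ k else 0) {b : Fin m → ℚ_[p]}
    (hb : Matrix.vecMul b (cQ c) = 0) : b = 0 := by
  have hp : (p : ℤ_[p]) ^ k ≠ 0 := pow_ne_zero _ (by exact_mod_cast (Fact.out : p.Prime).ne_zero)
  have hinj : Function.Injective I := by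
    intro l l' h
    by_contra hne
    have h1 := hI l l
    rw [h, hI, if_neg (fun h' => hne h'.symm), if_pos rfl] at h1
    exact hp h1.symm
  have hbij : Function.Bijective I := Finite.injective_iff_bijective.1 hinj
  funext j
  obtain ⟨l, rfl⟩ := hbij.2 j
  have h1 := congrFun hb l
  rw [Matrix.vecMul, dotProduct, ← Equiv.sum_comp (Equiv.ofBijective I hbij)] at h1
  have h2 : ∀ i, b (Equiv.ofBijective I hbij i) * cQ c (Equiv.ofBijective I hbij i) l =
      if i = l then b (I i) * (p : ℚ_[p]) ^ k else 0 := by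
    intro i
    rw [Equiv.ofBijective_apply, cQ_apply, hI]
    split_ifs with h
    · rw [PadicInt.coe_pow, PadicInt.coe_natCast]
    · rw [PadicInt.coe_zero, mul_zero]
  rw [Finset.sum_congr rfl fun i _ => h2 i, Finset.sum_ite_eq' Finset.univ l,
    if_pos (Finset.mem_univ _), Pi.zero_apply] at h1
  rw [Pi.zero_apply]
  refine (mul_eq_zero.1 h1).resolve_right ?_
  exact pow_ne_zero _ (by exact_mod_cast (Fact.out : p.Prime).ne_zero)

omit [IsAlgClosed K] in
/-- The contradiction in the proof of `full_sub`. -/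
theorem FinA_core {M : Type} [Field M] [NumberField M] {V : WeierstrassCurve M} [V.IsElliptic]
    {ι : M →+* K} {N m m' r' : ℕ} {ρ ρ' : ℝ} {L : AddSubgroup (Fin N → V.toAffine.Point)}
    (hfg : L.FG) (hm : Module.finrank ℤ L = m)
    {u : Fin m → Fin N → V.toAffine.Point} {c : Fin m → Fin m → ℤ_[p]} {ζ : Fin m → Fin N → K}
    {u' : Fin m' → Fin N → V.toAffine.Point} {c' : Fin m' → Fin r' → ℤ_[p]}
    {ζ' : Fin r' → Fin N → K} (huL : ∀ j, u j ∈ L)
    (hui : ∀ t : Fin m → ℤ, ∑ j, t j • u j = 0 → t = 0) (hE : ExpData p V ι ρ u c ζ)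
    (hζ : ∀ a : Fin m → ℤ_[p], (∀ t, ∑ l, algebraMap ℚ_[p] K (a l : ℚ_[p]) * ζ l t = 0) → a = 0)
    {I : Fin m → Fin m} {k : ℕ} (hI : ∀ l l', c (I l) l' = if l = l' then (p : ℤ_[p]) ^ k else 0)
    (hui' : ∀ t : Fin m' → ℤ, ∑ j, t j • u' j = 0 → t = 0) (hE' : ExpData p V ι ρ' u' c' ζ')
    (hζ' : ∀ a : Fin r' → ℤ_[p],
      (∀ t, ∑ l, algebraMap ℚ_[p] K (a l : ℚ_[p]) * ζ' l t = 0) → a = 0)
    (h : ∀ j, ∃ k : ℤ, k ≠ 0 ∧ k • u' j ∈ L) (hlt : r' < m') : False := by
  have : CharZero K := charZero_of_injective_algebraMap (algebraMap ℚ_[p] K).injective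
  -- a relation between the logarithms of the `u'_j`
  obtain ⟨a, ha0, ha⟩ : ∃ a : Fin m' → ℚ_[p], a ≠ 0 ∧ Matrix.vecMul a (cQ c') = 0 := by
    have h1 : LinearMap.ker (Matrix.vecMulLinear (cQ c')) ≠ ⊥ := by
      apply LinearMap.ker_ne_bot_of_finrank_lt
      simpa using hlt
    obtain ⟨a, ha, ha0⟩ := Submodule.exists_mem_ne_zero_of_ne_bot h1
    exact ⟨a, ha0, ha⟩
  have ha' := (ker_iff hζ' a).1 ha
  -- the relations between the points
  have hrel : ∀ j, ∃ (s : ℤ) (n : Fin m → ℤ), s ≠ 0 ∧ s • u' j = ∑ i, n i • u i := by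
    intro j
    obtain ⟨k₁, hk₁, hk₁L⟩ := h j
    obtain ⟨k₂, n, hk₂, hn⟩ := FinA_rel hfg hm huL hui hk₁L
    exact ⟨k₂ * k₁, n, mul_ne_zero hk₂ hk₁, by rw [mul_smul, hn]⟩
  choose s n hs hsn using hrel
  obtain ⟨d, q, hd, hq⟩ := FinA_left n (fun t ht => by
    have h2 : ∑ j, (t j * s j) • u' j = 0 := by
      have h3 : ∀ j, (t j * s j) • u' j = ∑ i, (t j * n j i) • u i := by
        intro j
        rw [mul_smul, hsn, Finset.smul_sum]
        exact Finset.sum_congr rfl fun i _ => (mul_smul _ _ _).symm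
      rw [Finset.sum_congr rfl fun j _ => h3 j, Finset.sum_comm]
      refine Finset.sum_eq_zero fun i _ => ?_
      rw [← Finset.sum_smul, ht i, zero_smul]
    have h4 := hui' _ h2
    funext j
    exact (mul_eq_zero.1 (congrFun h4 j)).resolve_right (hs j))
  -- the coefficients of the relation between the logarithms of the `u_i`
  obtain ⟨b, hb⟩ : ∃ b : Fin m → ℚ_[p], ∀ i, b i = ∑ j, a j / (s j : ℚ_[p]) * (n j i : ℚ_[p]) :=
    ⟨_, fun i => rfl⟩
  have hsQ : ∀ j, (s j : ℚ_[p]) ≠ 0 := fun j => by exact_mod_cast hs j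
  have hsK : ∀ j, (s j : K) ≠ 0 := fun j => by exact_mod_cast hs j
  have hb0 : b = 0 := by
    apply FinA_ker hI
    rw [ker_iff hζ]
    intro x
    rw [← ha' x]
    have h5 : ∀ i, algebraMap ℚ_[p] K (b i) *
        ∑ l, algebraMap ℚ_[p] K (c i l : ℚ_[p]) * ζ l x =
        ∑ j, algebraMap ℚ_[p] K (a j) / (s j : K) * ((n j i : K) *
          ∑ l, algebraMap ℚ_[p] K (c i l : ℚ_[p]) * ζ l x) := by
      intro i
      rw [hb i, map_sum, Finset.sum_mul]
      refine Finset.sum_congr rfl fun j _ => ?_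
      rw [map_mul, map_div₀, map_intCast, map_intCast, mul_assoc]
    rw [Finset.sum_congr rfl fun i _ => h5 i, Finset.sum_comm]
    refine Finset.sum_congr rfl fun j _ => ?_
    rw [← Finset.mul_sum, ← FinA_log hE hE' j (s j) (n j) (hsn j) x, ← mul_assoc,
      div_mul_cancel₀ _ (hsK j)]
  apply ha0
  funext j'
  have h6 : ∑ i, b i * (q i j' : ℚ_[p]) = a j' / (s j' : ℚ_[p]) * (d : ℚ_[p]) := by
    have h7 : ∀ i, b i * (q i j' : ℚ_[p]) =
        ∑ j, a j / (s j : ℚ_[p]) * ((n j i * q i j' : ℤ) : ℚ_[p]) := by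
      intro i
      rw [hb i, Finset.sum_mul]
      refine Finset.sum_congr rfl fun j _ => ?_
      push_cast
      ring
    rw [Finset.sum_congr rfl fun i _ => h7 i, Finset.sum_comm]
    have h8 : ∀ j, ∑ i, a j / (s j : ℚ_[p]) * ((n j i * q i j' : ℤ) : ℚ_[p]) =
        if j = j' then a j / (s j : ℚ_[p]) * (d : ℚ_[p]) else 0 := by
      intro j
      rw [← Finset.mul_sum, ← Int.cast_sum, hq j j']
      split_ifs with h9
      · rfl
      · rw [Int.cast_zero, mul_zero]
    rw [Finset.sum_congr rfl fun j _ => h8 j, Finset.sum_ite_eq' Finset.univ j',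
      if_pos (Finset.mem_univ _)]
  have hdQ : (d : ℚ_[p]) ≠ 0 := by exact_mod_cast hd
  rw [hb0] at h6
  simp only [Pi.zero_apply, zero_mul, Finset.sum_const_zero] at h6
  have h9 := (mul_eq_zero.1 h6.symm).resolve_right hdQ
  exact (div_eq_zero_iff.1 h9).resolve_right (hsQ j')

/-- Subgroups: if the closure of the image of a finitely generated group `L` has the rank of `L` then
the same holds for every finitely generated group `L'` whose elements have nonzero multiples in `L`. -/
theorem full_sub {M : Type} [Field M] [NumberField M] (V : WeierstrassCurve M) [V.IsElliptic]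
    (ι : M →+* K) {N : ℕ} (L L' : AddSubgroup (Fin N → V.toAffine.Point)) (hfg : L.FG)
    (hfg' : L'.FG) (h : ∀ P ∈ L', ∃ k : ℤ, k ≠ 0 ∧ k • P ∈ L)
    (hfull : HasRank (fun _ : Fin N => V.map ι) p (Module.finrank ℤ L)
        (clos (fun _ : Fin N => V.map ι)
          ((fun P i => pmap V ι (P i)) '' (L : Set (Fin N → V.toAffine.Point))))) :
    HasRank (fun _ : Fin N => V.map ι) p (Module.finrank ℤ L')
        (clos (fun _ : Fin N => V.map ι)
          ((fun P i => pmap V ι (P i)) '' (L' : Set (Fin N → V.toAffine.Point)))) := by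
  obtain ⟨m, hm⟩ : ∃ m, Module.finrank ℤ L = m := ⟨_, rfl⟩
  rw [hm] at hfull
  obtain ⟨r, ρ, u, c, ζ, -, huL, hui, hE, hζ, ⟨I, k, hI⟩, hR⟩ :=
    exists_expData' (p := p) V ι L hfg hm
  obtain ⟨r', ρ', u', c', ζ', hrm', huL', hui', hE', hζ', -, hR'⟩ :=
    exists_expData' (p := p) V ι L' hfg' (m := Module.finrank ℤ L') rfl
  have hr : r = m := hasRank_unique _ hR hfull
  rcases hrm'.lt_or_eq with hlt | heq
  · subst hr
    exact (FinA_core hfg hm huL hui hE hζ hI hui' hE' hζ' (fun j => h _ (huL' j)) hlt).elim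
  · rw [heq] at hR'
    exact hR'

end PCL

end
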