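import Pool.Agent.W_52423f_v9.FinA

/-!
# The group generated by the images of some points under the powers of an integral matrix: stability
-/

open scoped Classical

noncomputable section

namespace PCL

open WeierstrassCurve WeierstrassCurve.Affine

/-- The generators. -/
theorem torb_self {M : Type} [Field M] {V : WeierstrassCurve M} {N μ : ℕ}
    (T : Matrix (Fin N) (Fin N) ℤ) (x : Fin μ → Fin N → V.toAffine.Point) (b : Fin μ) :
    x b ∈ torb T x := by
  refine AddSubgroup.subset_closure ⟨b, 0, ?_⟩
  rw [pow_zero]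
  exact (lAct_one (x b)).symm

/-- Stability under `T`. -/
theorem torb_stable {M : Type} [Field M] {V : WeierstrassCurve M} {N μ : ℕ}
    (T : Matrix (Fin N) (Fin N) ℤ) (x : Fin μ → Fin N → V.toAffine.Point) :
    ∀ P ∈ torb T x, lActHom V.toAffine.Point N T P ∈ torb T x := by
  intro P hP
  unfold torb at hP
  induction hP using AddSubgroup.closure_induction with
  | mem P hP =>
    obtain ⟨b, k, rfl⟩ := hP
    refine AddSubgroup.subset_closure ⟨b, k + 1, ?_⟩
    have h1 : lAct (T ^ (k + 1)) (x b) = lAct T (lAct (T ^ k) (x b)) := by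
      rw [pow_succ', lAct_mul]
    exact h1.symm
  | zero =>
    rw [map_zero]
    exact AddSubgroup.zero_mem _
  | add P Q _ _ hP hQ =>
    rw [map_add]
    exact AddSubgroup.add_mem _ hP hQ
  | neg P _ hP =>
    rw [map_neg]
    exact AddSubgroup.neg_mem _ hP

/-- An integral polynomial proportional to a rational polynomial. -/
theorem exists_int_poly (g : Polynomial ℚ) : ∃ (b : ℤ) (f : Polynomial ℤ), b ≠ 0 ∧
    f.map (Int.castRingHom ℚ) = Polynomial.C (b : ℚ) * g := by
  obtain ⟨b, hb, hf⟩ := IsLocalization.integerNormalization_spec (nonZeroDivisors ℤ) g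
  refine ⟨b, IsLocalization.integerNormalization (nonZeroDivisors ℤ) g,
    nonZeroDivisors.ne_zero hb, ?_⟩
  refine Eq.trans hf ?_
  rw [← Polynomial.smul_eq_C_mul, Int.cast_smul_eq_zsmul]

end PCL

end
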