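import Pool.Agent.W_52423f_v9.LaA

/-!
# The algebraic hull of the kernel (interface)
-/

open scoped Classical

noncomputable section

namespace PCL

/-- Linear algebra.  `A` is a rational `m × m` matrix annihilated by a squarefree polynomial `g` which
splits over the field `M` (characteristic zero, with an embedding `ι` into `K ⊇ ℚ_p`), `ℚ^m` (row
vectors) is generated by `μ` elements under `A`, `c` is a `p`-adic `m × r` matrix with independent
columns whose left kernel is stable under right multiplication by `A`.  Let `𝒲` be the `M`-space of the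
vectors `β` in `M^m` whose image in `K^m` is in the `K`-span of the columns of `c`.  Then
`m ≤ dim 𝒲 + μ min (m - r) (deg g)`.
Proof.  `K₀ = {a ∈ ℚ_p^m : a c = 0}` has dimension `m - r`, and `𝒲` is the set of `β` with
`∑ a_j ι(β_j) = 0` for all `a ∈ K₀` (a vector of `K^m` orthogonal to `K₀` is in the span of the columns).
For a root `λ ∈ M` of `g` let `E_λ = {a ∈ M^m : a A = λ a}`; its dimension is at most `μ`, because the
Lagrange projector `e_λ(A)` (a polynomial in `A`) maps `M^m` onto `E_λ` and `e_λ(A)` maps `x_b A^k` to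
`λ^k e_λ(A) x_b`.  `K₀ ⊗ K` (the `K`-span of `K₀` in `K^m`) is stable under `A`, so it is the direct sum of
its intersections with the `K`-spans of the `E_λ` (`g` squarefree and split); let `X` be the set
of the `λ` with nonzero intersection: `#X ≤ m - r`, `#X ≤ deg g`.  `𝒲` contains the vectors orthogonal
to the `E_λ`, `λ ∈ X`, so its codimension is at most `μ #X`. -/
theorem hull_bound {p : ℕ} [Fact p.Prime] {M : Type} [Field M] [CharZero M] {K : Type} [Field K]
    [Algebra ℚ_[p] K] (ι : M →+* K) {m r μ : ℕ} (A : Matrix (Fin m) (Fin m) ℚ) (g : Polynomial ℚ)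
    (hg : Squarefree g) (hs : (g.map (algebraMap ℚ M)).Splits)
    (hA : Polynomial.aeval A g = 0) (x : Fin μ → Fin m → ℚ)
    (hx : Submodule.span ℚ {y | ∃ (b : Fin μ) (k : ℕ), y = Matrix.vecMul (x b) (A ^ k)} = ⊤)
    (c : Matrix (Fin m) (Fin r) ℚ_[p]) (hc : LinearIndependent ℚ_[p] c.transpose)
    (hK : ∀ a : Fin m → ℚ_[p], Matrix.vecMul a c = 0 →
      Matrix.vecMul (Matrix.vecMul a (A.map (algebraMap ℚ ℚ_[p]))) c = 0) :
    ∃ 𝒲 : Submodule M (Fin m → M),
      (∀ β ∈ 𝒲, ∃ ω : Fin r → K, ∀ j, ι (β j) = ∑ l, algebraMap ℚ_[p] K (c j l) * ω l) ∧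
      m ≤ Module.finrank M 𝒲 + μ * min (m - r) g.natDegree := by
  obtain ⟨θ, hθ, a, ha, hga⟩ := exists_roots (F := M) g hg hs
  obtain ⟨D, hD⟩ := exists_left_inv c hc
  have hS := exists_S (A.map (algebraMap ℚ ℚ_[p])) c D hD hK
  -- the matrices over `M` and `K`
  have hB : Polynomial.aeval (A.map (algebraMap ℚ M))
      (∏ i, (Polynomial.X - Polynomial.C (θ i))) = 0 := by
    have h1 : Polynomial.aeval (A.map (algebraMap ℚ M)) (g.map (algebraMap ℚ M)) = 0 := by
      rw [Polynomial.aeval_map_algebraMap]
      have h2 := Polynomial.aeval_algHom_apply ((Algebra.ofId ℚ M).mapMatrix (m := Fin m)) A g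
      rw [hA, map_zero] at h2
      exact h2
    rw [hga, map_mul, Polynomial.aeval_C, ← Algebra.smul_def] at h1
    exact (smul_eq_zero.1 h1).resolve_left ha
  have hξ : Submodule.span M {y : Fin m → M | ∃ (b : Fin μ) (k : ℕ),
      y = Matrix.vecMul (fun j => algebraMap ℚ M (x b j)) (A.map (algebraMap ℚ M) ^ k)} = ⊤ := by
    have h1 : ∀ y : Fin m → ℚ, (fun j => algebraMap ℚ M (y j)) ∈
        Submodule.span M {y : Fin m → M | ∃ (b : Fin μ) (k : ℕ),
          y = Matrix.vecMul (fun j => algebraMap ℚ M (x b j)) (A.map (algebraMap ℚ M) ^ k)} := by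
      intro y
      have hy : y ∈ Submodule.span ℚ {y | ∃ (b : Fin μ) (k : ℕ),
          y = Matrix.vecMul (x b) (A ^ k)} := by
        rw [hx]
        exact Submodule.mem_top
      induction hy using Submodule.span_induction with
      | mem y hy =>
        obtain ⟨b, k, rfl⟩ := hy
        refine Submodule.subset_span ⟨b, k, ?_⟩
        funext j
        have h2 := RingHom.map_vecMul (algebraMap ℚ M) (A ^ k) (x b) j
        have h3 : (A ^ k).map (algebraMap ℚ M) = A.map (algebraMap ℚ M) ^ k :=
          map_pow (algebraMap ℚ M).mapMatrix A k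
        rw [h3] at h2
        exact h2
      | zero =>
        have h2 : (fun j : Fin m => algebraMap ℚ M ((0 : Fin m → ℚ) j)) = 0 := by
          funext j
          simp
        rw [h2]
        exact Submodule.zero_mem _
      | add y y' _ _ h h' =>
        have h2 : (fun j : Fin m => algebraMap ℚ M ((y + y') j)) =
            (fun j => algebraMap ℚ M (y j)) + fun j => algebraMap ℚ M (y' j) := by
          funext j
          simp
        rw [h2]
        exact Submodule.add_mem _ h h'
      | smul t y _ h =>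
        have h2 : (fun j : Fin m => algebraMap ℚ M ((t • y) j)) =
            (algebraMap ℚ M t) • fun j => algebraMap ℚ M (y j) := by
          funext j
          simp
        rw [h2]
        exact Submodule.smul_mem _ _ h
    rw [eq_top_iff]
    intro y _
    have h2 : y = ∑ j, y j • fun i => algebraMap ℚ M ((Pi.single j 1 : Fin m → ℚ) i) := by
      funext i
      rw [Finset.sum_apply, Finset.sum_eq_single i]
      · simp
      · intro j _ hj
        rw [Pi.smul_apply, Pi.single_eq_of_ne (Ne.symm hj), map_zero, smul_zero]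
      · intro h
        exact absurd (Finset.mem_univ _) h
    rw [h2]
    exact Submodule.sum_mem _ fun j _ => Submodule.smul_mem _ _ (h1 _)
  have hS' : (A.map (algebraMap ℚ M)).map ι * c.map (algebraMap ℚ_[p] K) =
      c.map (algebraMap ℚ_[p] K) *
        (D * A.map (algebraMap ℚ ℚ_[p]) * c).map (algebraMap ℚ_[p] K) := by
    rw [← Matrix.map_mul, ← hS, Matrix.map_mul]
    congr 1
    apply Matrix.ext
    intro i j
    have h1 : (ι.comp (algebraMap ℚ M)) = (algebraMap ℚ_[p] K).comp (algebraMap ℚ ℚ_[p]) :=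
      Subsingleton.elim _ _
    exact RingHom.congr_fun h1 (A i j)
  have hD' : D.map (algebraMap ℚ_[p] K) * c.map (algebraMap ℚ_[p] K) = 1 := by
    rw [← Matrix.map_mul, hD, Matrix.map_one _ (map_zero _) (map_one _)]
  exact la_main ι hθ hB _ hξ (c.map (algebraMap ℚ_[p] K)) _ hS' _ hD'

/-- If all irreducible factors of `g` over `ℚ_p` have degree at least `f` then the left kernel of `c` is
`0` or has dimension at least `f` (it is a `ℚ_p[A]`-module; an irreducible factor `q` of the minimal
polynomial of `A` on it divides `g`, and for `a ≠ 0` in the kernel of `q(A)` the vectors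
`a, a A, ..., a A^(deg q - 1)` are independent). -/
theorem kernel_step {p : ℕ} [Fact p.Prime] {m r f : ℕ} (A : Matrix (Fin m) (Fin m) ℚ)
    (g : Polynomial ℚ) (hg : g ≠ 0) (hA : Polynomial.aeval A g = 0)
    (hf : ∀ q : Polynomial ℚ_[p], Irreducible q → q ∣ g.map (algebraMap ℚ ℚ_[p]) →
      f ≤ q.natDegree)
    (c : Matrix (Fin m) (Fin r) ℚ_[p]) (hc : LinearIndependent ℚ_[p] c.transpose)
    (hK : ∀ a : Fin m → ℚ_[p], Matrix.vecMul a c = 0 →
      Matrix.vecMul (Matrix.vecMul a (A.map (algebraMap ℚ ℚ_[p]))) c = 0) (hrm : r < m) :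
    r + f ≤ m := by
  obtain ⟨D, hD⟩ := exists_left_inv c hc
  let N : Submodule ℚ_[p] (Fin m → ℚ_[p]) := LinearMap.ker (Matrix.vecMulLinear c)
  have hN : r + Module.finrank ℚ_[p] N = m := by
    have h1 := LinearMap.finrank_range_add_finrank_ker (Matrix.vecMulLinear c)
    rw [Module.finrank_fin_fun] at h1
    have h2 : LinearMap.range (Matrix.vecMulLinear c) = ⊤ := by
      rw [LinearMap.range_eq_top]
      intro y
      refine ⟨Matrix.vecMul y D, ?_⟩
      rw [Matrix.vecMulLinear_apply, Matrix.vecMul_vecMul, hD, Matrix.vecMul_one]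
    rw [h2, finrank_top, Module.finrank_fin_fun] at h1
    exact h1
  have hst : ∀ a ∈ N, Matrix.vecMulLinear (A.map (algebraMap ℚ ℚ_[p])) a ∈ N := fun a ha => hK a ha
  let T : Module.End ℚ_[p] N := (Matrix.vecMulLinear (A.map (algebraMap ℚ ℚ_[p]))).restrict hst
  have hT : ∀ (F : Polynomial ℚ_[p]) (a : N), ((Polynomial.aeval T F) a : Fin m → ℚ_[p]) =
      Matrix.vecMul (a : Fin m → ℚ_[p])
        (Polynomial.aeval (A.map (algebraMap ℚ ℚ_[p])) F) := by
    have hpow : ∀ (n : ℕ) (a : N), ((T ^ n) a : Fin m → ℚ_[p]) =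
        Matrix.vecMul (a : Fin m → ℚ_[p]) (A.map (algebraMap ℚ ℚ_[p]) ^ n) := by
      intro n
      induction n with
      | zero =>
        intro a
        rw [pow_zero, pow_zero, Matrix.vecMul_one]
        rfl
      | succ n ih =>
        intro a
        have h1 : (T ^ (n + 1)) a = T ((T ^ n) a) := by
          rw [pow_succ']
          rfl
        have h2 : (T ((T ^ n) a) : Fin m → ℚ_[p]) =
            Matrix.vecMul ((T ^ n) a : Fin m → ℚ_[p]) (A.map (algebraMap ℚ ℚ_[p])) := rfl
        rw [h1, h2, ih, Matrix.vecMul_vecMul, ← pow_succ]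
    intro F a
    induction F using Polynomial.induction_on' with
    | add F G hF hG =>
      rw [map_add, map_add, Matrix.vecMul_add, ← hF, ← hG]
      rfl
    | monomial n t =>
      rw [Polynomial.aeval_monomial, Polynomial.aeval_monomial, ← Algebra.smul_def,
        ← Algebra.smul_def, Matrix.vecMul_smul, ← hpow]
      rfl
  have hg' : Polynomial.aeval T (g.map (algebraMap ℚ ℚ_[p])) = 0 := by
    apply LinearMap.ext
    intro a
    apply Subtype.ext
    rw [hT, Polynomial.aeval_map_algebraMap]
    have h2 := Polynomial.aeval_algHom_apply ((Algebra.ofId ℚ ℚ_[p]).mapMatrix (m := Fin m)) A g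
    rw [hA, map_zero] at h2
    have h3 : Polynomial.aeval (A.map (algebraMap ℚ ℚ_[p])) g = 0 := h2
    rw [h3, Matrix.vecMul_zero]
    rfl
  have hpos : 0 < Module.finrank ℚ_[p] N := by omega
  have hnt : Nontrivial N := Module.nontrivial_of_finrank_pos hpos
  have hint : IsIntegral ℚ_[p] T := Algebra.IsIntegral.isIntegral T
  obtain ⟨q, hq, hqd⟩ := Polynomial.exists_irreducible_of_natDegree_pos
    (minpoly.natDegree_pos hint)
  have h1 : f ≤ q.natDegree := hf q hq (hqd.trans (minpoly.dvd _ _ hg'))
  have h2 : q.natDegree ≤ (LinearMap.charpoly T).natDegree :=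
    Polynomial.natDegree_le_of_dvd (hqd.trans (LinearMap.minpoly_dvd_charpoly T))
      (LinearMap.charpoly_monic T).ne_zero
  rw [LinearMap.charpoly_natDegree] at h2
  omega

end PCL

end
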