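import Pool.Agent.W_52423f_v9.SjG
import Pool.Agent.W_52423f_v9.AnMain
import Pool.Agent.W_52423f_v9.LaMain
import Pool.Agent.W_52423f_v9.LaD
import Pool.Agent.W_52423f_v9.FinA
import Pool.Agent.W_52423f_v9.FinDefs
import Pool.Agent.W_52423f_h70.MainA
import Pool.Agent.W_52423f_h70.NcMain

/-!
# Simple abelian varieties with an elliptic factor and coefficients: the main theorem
-/

open scoped Classical

noncomputable section

namespace PCL

open Pool.Agent.PTwist WeierstrassCurve WeierstrassCurve.Affine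

variable {p : ℕ} [Fact p.Prime] {K : Type} [NontriviallyNormedField K] [CompleteSpace K]
  [IsUltrametricDist K] [IsAlgClosed K] [NormedAlgebra ℚ_[p] K]

/-- The main theorem. -/
theorem main_coeff {M : Type} [Field M] [NumberField M] (V : WeierstrassCurve M) [V.IsElliptic]
    (hcm : NoCM V) (ι : M →+* K) {N μ m : ℕ} (T : Matrix (Fin N) (Fin N) ℤ) (g : Polynomial ℚ)
    (hg : Squarefree g) (hs : (g.map (algebraMap ℚ M)).Splits)
    (hT : Polynomial.aeval (T.map (Int.cast : ℤ → ℚ)) g = 0)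
    (x : Fin μ → Fin N → V.toAffine.Point) (hL : SimplePos (torb T x))
    (hm : Module.finrank ℤ (torb T x) = m) :
    ∃ r : ℕ, r ≤ m ∧
      HasRank (fun _ : Fin N => V.map ι) p r
        (clos (fun _ : Fin N => V.map ι)
          ((fun P i => pmap V ι (P i)) '' (torb T x : Set (Fin N → V.toAffine.Point)))) ∧
      N * (m - r) ≤ 2 * r * (μ * min (m - r) g.natDegree) ∧
      (r < m → ∀ f : ℕ, (∀ q : Polynomial ℚ_[p], Irreducible q →
        q ∣ g.map (algebraMap ℚ ℚ_[p]) → f ≤ q.natDegree) → r + f ≤ m) := by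
  have hfg : (torb T x).FG := torb_fg T x
  obtain ⟨r, ρ, u, c, ζ, hrm, huL, hind, hE, hζ, ⟨I, k, hI⟩, hR⟩ :=
    exists_expData' (p := p) V ι (torb T x) hfg hm
  refine ⟨r, hrm, hR, ?_⟩
  rcases hrm.lt_or_eq with h | h
  swap
  · subst h
    refine ⟨?_, fun h => absurd h (lt_irrefl _)⟩
    rw [Nat.sub_self, mul_zero]
    exact Nat.zero_le _
  -- the coordinates
  have hrel : ∀ P ∈ torb T x, ∃ n : ℤ, n ≠ 0 ∧ ∃ t : Fin m → ℤ, n • P = ∑ j, t j • u j :=
    fun P hP => exists_rel hfg hm u huL hind hP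
  obtain ⟨κ, hκ⟩ := exists_kappa ℚ u hind hrel
  have hτ := torb_stable T x
  let v : Fin m → torb T x := fun j => ⟨lActHom V.toAffine.Point N T (u j), hτ _ (huL j)⟩
  let A : Matrix (Fin m) (Fin m) ℚ := Matrix.of fun j => κ (v j)
  have hB : ∀ P Q : torb T x, (Q : Fin N → V.toAffine.Point) = lActHom V.toAffine.Point N T P →
      κ Q = Matrix.vecMul (κ P) A := fun P Q hPQ =>
    kappa_mul hrel hκ (lActHom V.toAffine.Point N T) v (fun j => rfl) P Q hPQ
  -- the annihilator
  have hA : Polynomial.aeval A g = 0 := by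
    obtain ⟨b, f, hb, hf⟩ := exists_int_poly g
    have hf0 : Polynomial.aeval T f = 0 := by
      have h1 : (Polynomial.aeval T f).map (Int.castRingHom ℚ) = 0 := by
        have h2 := Polynomial.aeval_algHom_apply
          (((Int.castRingHom ℚ).mapMatrix (m := Fin N)).toIntAlgHom) T f
        have h3 : Polynomial.aeval (T.map (Int.castRingHom ℚ)) f =
            Polynomial.aeval (T.map (Int.castRingHom ℚ)) (f.map (Int.castRingHom ℚ)) := by
          rw [← Polynomial.aeval_map_algebraMap ℚ]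
          rfl
        have h4 : Polynomial.aeval (T.map (Int.castRingHom ℚ)) (f.map (Int.castRingHom ℚ)) = 0 := by
          rw [hf, map_mul]
          have h5 : Polynomial.aeval (T.map (Int.castRingHom ℚ)) g = 0 := hT
          rw [h5, mul_zero]
        rw [h4] at h3
        exact h2.symm.trans h3
      apply Matrix.ext
      intro i j
      have h2 := congrFun (congrFun h1 i) j
      have h3 : ((Polynomial.aeval T f i j : ℤ) : ℚ) = 0 := h2
      exact_mod_cast h3
    have h1 : Polynomial.aeval A f = 0 := by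
      refine kappa_ann hτ hκ huL hB fun P _ => ?_
      rw [lActHom_aeval, hf0, map_zero]
      rfl
    have h2 : Polynomial.aeval A (f.map (Int.castRingHom ℚ)) = 0 := by
      have h3 := Polynomial.aeval_map_algebraMap ℚ A f
      rw [h1] at h3
      exact h3
    rw [hf, map_mul, Polynomial.aeval_C, ← Algebra.smul_def] at h2
    exact (smul_eq_zero.1 h2).resolve_left (by exact_mod_cast hb)
  -- the generators
  have hx : Submodule.span ℚ {y | ∃ (b : Fin μ) (k : ℕ),
      y = Matrix.vecMul (κ ⟨x b, torb_self T x b⟩) (A ^ k)} = ⊤ := by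
    refine kappa_span hτ hκ huL hB (fun b => ⟨x b, torb_self T x b⟩) ?_
    unfold torb
    refine AddSubgroup.closure_mono ?_
    rintro P ⟨b, k, rfl⟩
    exact ⟨b, k, (lActHom_pow T k (x b)).symm⟩
  -- the kernel
  have hc : LinearIndependent ℚ_[p] (cQ c).transpose := cols_indep hI
  have hK : ∀ a : Fin m → ℚ_[p], Matrix.vecMul a (cQ c) = 0 →
      Matrix.vecMul (Matrix.vecMul a (A.map (algebraMap ℚ ℚ_[p]))) (cQ c) = 0 := by
    refine ker_stable hE hζ T A fun j => ?_
    obtain ⟨n, hn, t, ht⟩ := hrel _ (hτ _ (huL j))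
    exact ⟨n, hn, t, ht, fun k => hκ (v j) n t ht k⟩
  refine ⟨?_, fun _ f hf => kernel_step A g hg.ne_zero hA hf (cQ c) hc hK h⟩
  obtain ⟨𝒲, h𝒲, hdim⟩ := hull_bound ι A g hg hs hA
    (fun b => κ ⟨x b, torb_self T x b⟩) hx (cQ c) hc hK
  have hND := Nc_nd hL huL hind
  have hinj : ∀ s : Fin N → ℤ, s ≠ 0 → ∀ j, gam u s j ≠ 0 := by
    intro s hs j h0
    refine hND s hs (Pi.single j 1) (by simp) ?_
    rw [Finset.sum_eq_single j]
    · simp [h0]
    · intro i _ hi
      simp [Pi.single_eq_of_ne hi]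
    · simp
  obtain ⟨C₀, hC₀, hBP⟩ := bp_vanJ h hE (gam u) (fun s j => rfl) hinj 𝒲 h𝒲
  obtain ⟨c', hZE⟩ := zero_estimateJ m
  have key : N * (m - r) ≤ 2 * r * (m - Module.finrank M 𝒲) := by
    refine growthJ (c := c') (C₀ := C₀) fun v hv => ?_
    obtain ⟨P, hP, hdeg, hvan⟩ := hBP v hv
    exact hZE M V hcm N (gam u) hND 𝒲 (v ^ (m - r)) (C₀ * v ^ (2 * r)) P
      (Nat.mul_pos hC₀ (Nat.pow_pos hv)) hP hdeg hvan
  exact key.trans (Nat.mul_le_mul_left _ (by omega))

end PCL

end
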