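import Pool.Agent.W_52423f_v9.JtDefs

/-!
# Jets: the differential equation
-/

open scoped Classical

noncomputable section

namespace PCL

variable {K : Type} [Field K] {W : WeierstrassCurve K} {F : Type} [Field F] [Algebra K F]

/-- Leibniz rule for iterated derivations. -/
theorem iter_leibniz {R A : Type} [CommRing R] [CommRing A] [Algebra R A] (D : Derivation R A A)
    (n : ℕ) (a b : A) :
    D^[n] (a * b) = ∑ k ∈ Finset.range (n + 1), (n.choose k : A) * D^[k] a * D^[n - k] b := by
  rw [← Finset.Nat.sum_antidiagonal_eq_sum_range_succ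
    (fun i j => (n.choose i : A) * D^[i] a * D^[j] b)]
  induction n with
  | zero => simp
  | succ n ih =>
    have h1 := Finset.sum_antidiagonal_choose_succ_mul (R := A)
      (fun i j => D^[i] a * D^[j] b) n
    simp only [← mul_assoc] at h1
    rw [h1, Function.iterate_succ_apply', ih, map_sum]
    have h2 : ∀ ij ∈ Finset.HasAntidiagonal.antidiagonal n, D ((n.choose ij.1 : A) * D^[ij.1] a * D^[ij.2] b) =
        (n.choose ij.1 : A) * D^[ij.1] a * D^[ij.2 + 1] b +
          (n.choose ij.2 : A) * D^[ij.1 + 1] a * D^[ij.2] b := by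
      intro ij hij
      have h3 : n.choose ij.2 = n.choose ij.1 := by
        rw [← Finset.HasAntidiagonal.mem_antidiagonal.1 hij, Nat.choose_symm_add]
      rw [h3, Derivation.leibniz, Derivation.leibniz, Derivation.map_natCast,
        Function.iterate_succ_apply', Function.iterate_succ_apply']
      simp only [smul_eq_mul]
      ring
    rw [Finset.sum_congr rfl h2, Finset.sum_add_distrib]

/-- The homomorphism `f ↦ ∑ β^n / n! eval (D2^[n] f) ε^n`. -/
def JtA_phi (W : WeierstrassCurve K) {F : Type} [Field F] [Algebra K F] (β x h : F)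
    (f : MvPolynomial (Fin 2) F) : PowerSeries F :=
  PowerSeries.mk fun n => β ^ n * (n.factorial : F)⁻¹ *
    MvPolynomial.eval ![x, h] ((D2 W F)^[n] f)

theorem JtA_jx (β x h : F) : jx W β x h = JtA_phi W β x h (MvPolynomial.X 0) := rfl

theorem JtA_jh (β x h : F) : jh W β x h = JtA_phi W β x h (MvPolynomial.X 1) := rfl

theorem JtA_D0 : D2 W F (MvPolynomial.X 0) = MvPolynomial.X 1 := by
  unfold D2
  rw [MvPolynomial.mkDerivation_X]
  rfl

theorem JtA_D1 : D2 W F (MvPolynomial.X 1) =
    6 * MvPolynomial.X 0 ^ 2 + MvPolynomial.C (algebraMap K F W.b₂) * MvPolynomial.X 0 +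
        MvPolynomial.C (algebraMap K F W.b₄) := by
  unfold D2
  rw [MvPolynomial.mkDerivation_X]
  rfl

theorem JtA_iter_add (n : ℕ) (f g : MvPolynomial (Fin 2) F) :
    (D2 W F)^[n] (f + g) = (D2 W F)^[n] f + (D2 W F)^[n] g := by
  induction n generalizing f g with
  | zero => rfl
  | succ n ih =>
    rw [Function.iterate_succ_apply, Function.iterate_succ_apply, Function.iterate_succ_apply,
      map_add, ih]

theorem JtA_iter_zero (n : ℕ) : (D2 W F)^[n] (0 : MvPolynomial (Fin 2) F) = 0 := by
  induction n with
  | zero => rfl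
  | succ n ih => rw [Function.iterate_succ_apply, map_zero, ih]

theorem JtA_add (β x h : F) (f g : MvPolynomial (Fin 2) F) :
    JtA_phi W β x h (f + g) = JtA_phi W β x h f + JtA_phi W β x h g := by
  ext n
  rw [map_add]
  simp only [JtA_phi, PowerSeries.coeff_mk, JtA_iter_add, map_add, mul_add]

theorem JtA_C (β x h c : F) : JtA_phi W β x h (MvPolynomial.C c) = PowerSeries.C c := by
  ext n
  rw [PowerSeries.coeff_C]
  simp only [JtA_phi, PowerSeries.coeff_mk]
  rcases n with _ | n
  · simp
  · rw [Function.iterate_succ_apply, MvPolynomial.derivation_C, JtA_iter_zero, map_zero, mul_zero,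
      if_neg (Nat.succ_ne_zero n)]

theorem JtA_mul [CharZero F] (β x h : F) (f g : MvPolynomial (Fin 2) F) :
    JtA_phi W β x h (f * g) = JtA_phi W β x h f * JtA_phi W β x h g := by
  ext n
  rw [PowerSeries.coeff_mul]
  simp only [JtA_phi, PowerSeries.coeff_mk]
  rw [iter_leibniz, map_sum, Finset.mul_sum, Finset.Nat.sum_antidiagonal_eq_sum_range_succ
    (fun i j => β ^ i * (i.factorial : F)⁻¹ * MvPolynomial.eval ![x, h] ((D2 W F)^[i] f) *
      (β ^ j * (j.factorial : F)⁻¹ * MvPolynomial.eval ![x, h] ((D2 W F)^[j] g)))]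
  refine Finset.sum_congr rfl fun k hk => ?_
  have hkn : k ≤ n := Nat.lt_succ_iff.1 (Finset.mem_range.1 hk)
  have h1 : (n.choose k : F) * k.factorial * (n - k).factorial = n.factorial := by
    exact_mod_cast Nat.choose_mul_factorial_mul_factorial hkn
  have hk0 : (k.factorial : F) ≠ 0 := by exact_mod_cast k.factorial_ne_zero
  have hk1 : ((n - k).factorial : F) ≠ 0 := by exact_mod_cast (n - k).factorial_ne_zero
  have hn0 : (n.factorial : F) ≠ 0 := by exact_mod_cast n.factorial_ne_zero
  have h2 : (n.factorial : F)⁻¹ * (n.choose k : F) =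
      (k.factorial : F)⁻¹ * ((n - k).factorial : F)⁻¹ := by
    rw [← h1]
    have hc : (n.choose k : F) ≠ 0 := by exact_mod_cast (Nat.choose_pos hkn).ne'
    field_simp
  have h3 : β ^ n = β ^ k * β ^ (n - k) := by
    rw [← pow_add, Nat.add_sub_cancel' hkn]
  rw [map_mul, map_mul, map_natCast, h3]
  linear_combination (β ^ k * β ^ (n - k) * MvPolynomial.eval ![x, h] ((D2 W F)^[k] f) *
    MvPolynomial.eval ![x, h] ((D2 W F)^[n - k] g)) * h2

theorem JtA_d [CharZero F] (β x h : F) (f : MvPolynomial (Fin 2) F) :
    PowerSeries.derivative F (JtA_phi W β x h f) =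
      PowerSeries.C β * JtA_phi W β x h (D2 W F f) := by
  ext n
  rw [PowerSeries.coeff_derivative, PowerSeries.coeff_C_mul]
  simp only [JtA_phi, PowerSeries.coeff_mk]
  rw [Function.iterate_succ_apply, Nat.factorial_succ]
  have hn0 : (n.factorial : F) ≠ 0 := by exact_mod_cast n.factorial_ne_zero
  have hn1 : ((n : F) + 1) ≠ 0 := by exact_mod_cast Nat.succ_ne_zero n
  push_cast
  field_simp
  ring

theorem JtA_map {F' : Type} [Field F'] [Algebra K F'] (φ : F →ₐ[K] F')
    (f : MvPolynomial (Fin 2) F) :
    MvPolynomial.map (φ : F →+* F') (D2 W F f) = D2 W F' (MvPolynomial.map (φ : F →+* F') f) := by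
  induction f using MvPolynomial.induction_on with
  | C a => rw [MvPolynomial.derivation_C, MvPolynomial.map_C, MvPolynomial.derivation_C, map_zero]
  | add p q hp hq => rw [map_add, map_add, map_add, map_add, hp, hq]
  | mul_X p i hp =>
    have hX : MvPolynomial.map (φ : F →+* F') (D2 W F (MvPolynomial.X i)) =
        D2 W F' (MvPolynomial.X i) := by
      fin_cases i
      · show MvPolynomial.map (φ : F →+* F') (D2 W F (MvPolynomial.X 0)) =
          D2 W F' (MvPolynomial.X 0)
        rw [JtA_D0, JtA_D0, MvPolynomial.map_X]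
      · show MvPolynomial.map (φ : F →+* F') (D2 W F (MvPolynomial.X 1)) =
          D2 W F' (MvPolynomial.X 1)
        rw [JtA_D1, JtA_D1]
        simp only [map_add, map_mul, map_pow, MvPolynomial.map_X, MvPolynomial.map_C, map_ofNat,
          RingHom.coe_coe, AlgHom.commutes]
    rw [Derivation.leibniz, map_mul, Derivation.leibniz, MvPolynomial.map_X]
    simp only [smul_eq_mul, map_add, map_mul, MvPolynomial.map_X, hX, hp]

theorem JtA_iter_map {F' : Type} [Field F'] [Algebra K F'] (φ : F →ₐ[K] F') (n : ℕ)
    (f : MvPolynomial (Fin 2) F) :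
    MvPolynomial.map (φ : F →+* F') ((D2 W F)^[n] f) =
      (D2 W F')^[n] (MvPolynomial.map (φ : F →+* F') f) := by
  induction n generalizing f with
  | zero => rfl
  | succ n ih =>
    rw [Function.iterate_succ_apply, Function.iterate_succ_apply, ih, JtA_map]

theorem JtA_phi_map {F' : Type} [Field F'] [Algebra K F'] (φ : F →ₐ[K] F') (β x h : F)
    (f : MvPolynomial (Fin 2) F) :
    PowerSeries.map (φ : F →+* F') (JtA_phi W β x h f) =
      JtA_phi W (φ β) (φ x) (φ h) (MvPolynomial.map (φ : F →+* F') f) := by
  ext n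
  rw [PowerSeries.coeff_map]
  simp only [JtA_phi, PowerSeries.coeff_mk]
  rw [← JtA_iter_map, MvPolynomial.eval_map, map_mul, map_mul, map_pow, map_inv₀, map_natCast]
  have h1 : ∀ g : MvPolynomial (Fin 2) F, (φ : F →+* F') (MvPolynomial.eval ![x, h] g) =
      MvPolynomial.eval₂ (φ : F →+* F') ![φ x, φ h] g := by
    intro g
    rw [← MvPolynomial.eval₂_id, MvPolynomial.hom_eval₂]
    congr 1
    funext i
    fin_cases i <;> rfl
  rw [h1]
  rfl

/-- `coeff 0`: the zeroth term of the definition is `eval ![x, h] (X 0) = x`. -/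
theorem jx_const (β x h : F) : PowerSeries.constantCoeff (jx W β x h) = x := by
  rw [← PowerSeries.coeff_zero_eq_constantCoeff_apply]
  unfold jx
  rw [PowerSeries.coeff_mk]
  simp

theorem jh_const (β x h : F) : PowerSeries.constantCoeff (jh W β x h) = h := by
  rw [← PowerSeries.coeff_zero_eq_constantCoeff_apply]
  unfold jh
  rw [PowerSeries.coeff_mk]
  simp

/-- `x' = β h`: the coefficient of `ε^n` of the left side is
`(n+1) β^(n+1) / (n+1)! * eval (D2^[n+1] (X 0))` and `D2 (X 0) = X 1`. -/
theorem d_jx [CharZero F] (β x h : F) :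
    PowerSeries.derivative F (jx W β x h) = PowerSeries.C β * jh W β x h := by
  rw [JtA_jx, JtA_jh, JtA_d, JtA_D0]

/-- `h' = β (6 x^2 + b₂ x + b₄)`.  As for `d_jx`, `D2 (X 1) = 6 X 0 ^ 2 + b₂ X 0 + b₄`, and the map
`f ↦ ∑ β^n / n! eval (D2^[n] f) ε^n` is a ring homomorphism (`iter_leibniz`), sends constants to
constants and `X 0` to `jx`. -/
theorem d_jh [CharZero F] (β x h : F) :
    PowerSeries.derivative F (jh W β x h) = PowerSeries.C β *
      (6 * jx W β x h ^ 2 + PowerSeries.C (algebraMap K F W.b₂) * jx W β x h +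
        PowerSeries.C (algebraMap K F W.b₄)) := by
  have h6 : JtA_phi W β x h (6 : MvPolynomial (Fin 2) F) = 6 := by
    have h7 := JtA_C (W := W) β x h 6
    rw [map_ofNat, map_ofNat] at h7
    exact h7
  rw [JtA_jx, JtA_jh, JtA_d, JtA_D1, JtA_add, JtA_add, JtA_mul, JtA_mul, JtA_C, JtA_C, pow_two,
    JtA_mul, h6, pow_two]

/-- Uniqueness of the solution: by strong induction on `n` the coefficients of `ε^n` agree (the
differential equations determine those of `ε^(n+1)`). -/
theorem jets_unique [CharZero F] (β : F) {X H X' H' : PowerSeries F}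
    (h1 : PowerSeries.derivative F X = PowerSeries.C β * H)
    (h2 : PowerSeries.derivative F H = PowerSeries.C β *
      (6 * X ^ 2 + PowerSeries.C (algebraMap K F W.b₂) * X + PowerSeries.C (algebraMap K F W.b₄)))
    (h1' : PowerSeries.derivative F X' = PowerSeries.C β * H')
    (h2' : PowerSeries.derivative F H' = PowerSeries.C β *
      (6 * X' ^ 2 + PowerSeries.C (algebraMap K F W.b₂) * X' +
        PowerSeries.C (algebraMap K F W.b₄)))
    (hX : PowerSeries.constantCoeff X = PowerSeries.constantCoeff X')
    (hH : PowerSeries.constantCoeff H = PowerSeries.constantCoeff H') : X = X' ∧ H = H' := by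
  have key : ∀ n : ℕ, ∀ m ≤ n, PowerSeries.coeff m X = PowerSeries.coeff m X' ∧
      PowerSeries.coeff m H = PowerSeries.coeff m H' := by
    intro n
    induction n with
    | zero =>
      intro m hm
      rw [Nat.le_zero.1 hm]
      rw [PowerSeries.coeff_zero_eq_constantCoeff_apply,
        PowerSeries.coeff_zero_eq_constantCoeff_apply,
        PowerSeries.coeff_zero_eq_constantCoeff_apply,
        PowerSeries.coeff_zero_eq_constantCoeff_apply]
      exact ⟨hX, hH⟩
    | succ n ih =>
      intro m hm
      rcases Nat.lt_or_eq_of_le hm with hm' | hm'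
      · exact ih m (Nat.lt_succ_iff.1 hm')
      · subst hm'
        have hn1 : ((n : F) + 1) ≠ 0 := by exact_mod_cast Nat.succ_ne_zero n
        have e1 := congrArg (PowerSeries.coeff n) h1
        have e1' := congrArg (PowerSeries.coeff n) h1'
        have e2 := congrArg (PowerSeries.coeff n) h2
        have e2' := congrArg (PowerSeries.coeff n) h2'
        rw [PowerSeries.coeff_derivative, PowerSeries.coeff_C_mul] at e1 e1' e2 e2'
        have hsq : PowerSeries.coeff n (X ^ 2) = PowerSeries.coeff n (X' ^ 2) := by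
          rw [pow_two, pow_two, PowerSeries.coeff_mul, PowerSeries.coeff_mul]
          refine Finset.sum_congr rfl fun ij hij => ?_
          have h3 := Finset.HasAntidiagonal.mem_antidiagonal.1 hij
          rw [(ih ij.1 (by omega)).1, (ih ij.2 (by omega)).1]
        have h6 : (6 : PowerSeries F) = PowerSeries.C (6 : F) := by rw [map_ofNat]
        have e3 : PowerSeries.coeff n (6 * X ^ 2 + PowerSeries.C (algebraMap K F W.b₂) * X +
            PowerSeries.C (algebraMap K F W.b₄)) =
            PowerSeries.coeff n (6 * X' ^ 2 + PowerSeries.C (algebraMap K F W.b₂) * X' +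
            PowerSeries.C (algebraMap K F W.b₄)) := by
          rw [h6]
          simp only [map_add, PowerSeries.coeff_C_mul]
          rw [hsq, (ih n le_rfl).1]
        constructor
        · refine mul_right_cancel₀ hn1 ?_
          rw [e1, e1', (ih n le_rfl).2]
        · refine mul_right_cancel₀ hn1 ?_
          rw [e2, e2', e3]
  exact ⟨PowerSeries.ext fun n => (key n n le_rfl).1, PowerSeries.ext fun n => (key n n le_rfl).2⟩

/-- The equation of the curve: the derivative of `H^2 - (4 X^3 + b₂ X^2 + 2 b₄ X + b₆)` is zero by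
`d_jx`, `d_jh`, its constant coefficient is zero. -/
theorem jets_curve [CharZero F] (β : F) {x h : F} (hh : h ^ 2 = cub W x) :
    jh W β x h ^ 2 = cub W (jx W β x h) := by
  refine PowerSeries.derivative.ext ?_ ?_
  · unfold cub
    have h1 := d_jx (W := W) β x h
    have h2 := d_jh (W := W) β x h
    have h3 : PowerSeries.derivative F (4 : PowerSeries F) = 0 := by
      have h5 : (4 : PowerSeries F) = PowerSeries.C (4 : F) := by rw [map_ofNat]
      rw [h5, PowerSeries.derivative_C]
    have h4 : PowerSeries.derivative F (2 : PowerSeries F) = 0 := by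
      have h5 : (2 : PowerSeries F) = PowerSeries.C (2 : F) := by rw [map_ofNat]
      rw [h5, PowerSeries.derivative_C]
    simp only [PowerSeries.algebraMap_apply]
    simp only [pow_succ, pow_zero, one_mul, map_add, Derivation.leibniz, smul_eq_mul, h1, h2,
      PowerSeries.derivative_C, h3, h4]
    ring
  · unfold cub
    simp only [PowerSeries.algebraMap_apply, map_add, map_mul, map_pow, map_ofNat, jx_const,
      jh_const, PowerSeries.constantCoeff_C]
    exact hh

/-- Jets and homomorphisms of fields. -/
theorem jx_map {F' : Type} [Field F'] [Algebra K F'] (φ : F →ₐ[K] F') (β x h : F) :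
    PowerSeries.map (φ : F →+* F') (jx W β x h) = jx W (φ β) (φ x) (φ h) := by
  rw [JtA_jx, JtA_jx, JtA_phi_map, MvPolynomial.map_X]

theorem jh_map {F' : Type} [Field F'] [Algebra K F'] (φ : F →ₐ[K] F') (β x h : F) :
    PowerSeries.map (φ : F →+* F') (jh W β x h) = jh W (φ β) (φ x) (φ h) := by
  rw [JtA_jh, JtA_jh, JtA_phi_map, MvPolynomial.map_X]

/-- In the direction zero the jets are constant. -/
theorem jx_zero (x h : F) : jx W 0 x h = PowerSeries.C x := by
  ext n
  rw [PowerSeries.coeff_C]
  unfold jx
  rw [PowerSeries.coeff_mk]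
  rcases n with _ | n
  · simp
  · rw [zero_pow (Nat.succ_ne_zero n), if_neg (Nat.succ_ne_zero n), zero_mul, zero_mul]

end PCL

end
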