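import Pool.Agent.W_52423f_v9.JtA

/-!
# Jets: Taylor coefficients are iterated derivatives
-/

open scoped Classical

noncomputable section

namespace PCL

variable {K : Type} [Field K] {W : WeierstrassCurve K} {F : Type} [Field F] [Algebra K F]

/-- Chain rule: the derivative of `f(jets)` is `(DW β f)(jets)`.  Both sides are derivations of
`K[x_i, h_i]` with values in `F[[ε]]` (via `ev (jX β u) (jH β u)`) which agree on the variables (`d_jx`,
`d_jh`); or induction on `f` (`MvPolynomial.induction_on`). -/
theorem deriv_ev_jets [CharZero F] {m : ℕ} (β : Fin m → K) (u : Fin m → Pt W F)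
    (f : MvPolynomial (Fin m ⊕ Fin m) K) :
    PowerSeries.derivative F (ev (jX β u) (jH β u) f) = ev (jX β u) (jH β u) (DW W β f) := by
  unfold ev
  induction f using MvPolynomial.induction_on with
  | C a =>
    rw [← MvPolynomial.algebraMap_eq, AlgHom.commutes, Derivation.map_algebraMap, map_zero,
      PowerSeries.algebraMap_apply]
    exact (PowerSeries.derivative F).map_algebraMap (algebraMap K F a)
  | add p q hp hq => rw [map_add, map_add, map_add, map_add, hp, hq]
  | mul_X p j hp =>
    have hX : PowerSeries.derivative F (MvPolynomial.aeval (R := K) (Sum.elim (jX β u) (jH β u))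
        (MvPolynomial.X j)) = MvPolynomial.aeval (R := K) (Sum.elim (jX β u) (jH β u))
          (DW W β (MvPolynomial.X j)) := by
      rw [MvPolynomial.aeval_X]
      unfold DW
      rw [MvPolynomial.mkDerivation_X]
      rcases j with i | i
      · simp only [Sum.elim_inl, map_mul, MvPolynomial.aeval_C, MvPolynomial.aeval_X, Sum.elim_inr]
        unfold jX jH
        rw [d_jx, PowerSeries.algebraMap_apply]
      · simp only [Sum.elim_inl, map_mul, map_add, map_pow, map_ofNat, MvPolynomial.aeval_C,
          MvPolynomial.aeval_X, Sum.elim_inr]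
        unfold jX jH
        rw [d_jh]
        simp only [PowerSeries.algebraMap_apply]
    rw [map_mul, Derivation.leibniz, Derivation.leibniz, hX, hp, map_add, smul_eq_mul, smul_eq_mul,
      smul_eq_mul, smul_eq_mul, map_mul, map_mul]

/-- The constant coefficient of `f(jets)` is `f(u)`. -/
theorem const_ev_jets {m : ℕ} (β : Fin m → K) (u : Fin m → Pt W F)
    (f : MvPolynomial (Fin m ⊕ Fin m) K) :
    PowerSeries.constantCoeff (ev (jX β u) (jH β u) f) =
      ev (fun i => xc (u i)) (fun i => hc (u i)) f := by
  unfold ev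
  rw [MvPolynomial.aeval_def, MvPolynomial.aeval_def, MvPolynomial.eval₂_comp_left]
  congr 1
  funext j
  rcases j with i | i
  · exact jx_const _ _ _
  · exact jh_const _ _ _

/-- Taylor coefficients.  Induction on `n` from `deriv_ev_jets`, `const_ev_jets` (generalise `f`). -/
theorem coeff_ev_jets [CharZero F] {m : ℕ} (β : Fin m → K) (u : Fin m → Pt W F)
    (f : MvPolynomial (Fin m ⊕ Fin m) K) (n : ℕ) :
    (n.factorial : F) * PowerSeries.coeff n (ev (jX β u) (jH β u) f) =
      ev (fun i => xc (u i)) (fun i => hc (u i)) ((DW W β)^[n] f) := by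
  induction n generalizing f with
  | zero =>
    rw [Nat.factorial_zero, Nat.cast_one, one_mul, PowerSeries.coeff_zero_eq_constantCoeff_apply,
      const_ev_jets]
    rfl
  | succ n ih =>
    rw [Function.iterate_succ_apply, ← ih, ← deriv_ev_jets, PowerSeries.coeff_derivative,
      Nat.factorial_succ]
    push_cast
    ring

/-- Divisibility by `ε^N` means that the derivatives of order less than `N` vanish
(`PowerSeries.X_pow_dvd_iff`). -/
theorem dvd_ev_jets [CharZero F] {m : ℕ} (β : Fin m → K) (u : Fin m → Pt W F)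
    (f : MvPolynomial (Fin m ⊕ Fin m) K) (N : ℕ) :
    (PowerSeries.X : PowerSeries F) ^ N ∣ ev (jX β u) (jH β u) f ↔
      ∀ n < N, ev (fun i => xc (u i)) (fun i => hc (u i)) ((DW W β)^[n] f) = 0 := by
  rw [PowerSeries.X_pow_dvd_iff]
  refine forall₂_congr fun n _ => ?_
  rw [← coeff_ev_jets, mul_eq_zero, or_iff_right]
  exact Nat.cast_ne_zero.2 (Nat.factorial_ne_zero n)

theorem JtB_inl {m : ℕ} (β : Fin m → K) (i : Fin m) :
    DW W β (MvPolynomial.X (Sum.inl i)) = MvPolynomial.C (β i) * MvPolynomial.X (Sum.inr i) :=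
  MvPolynomial.mkDerivation_X _ _ _

theorem JtB_inr {m : ℕ} (β : Fin m → K) (i : Fin m) :
    DW W β (MvPolynomial.X (Sum.inr i)) = MvPolynomial.C (β i) *
      (6 * MvPolynomial.X (Sum.inl i) ^ 2 + MvPolynomial.C W.b₂ * MvPolynomial.X (Sum.inl i) +
        MvPolynomial.C W.b₄) :=
  MvPolynomial.mkDerivation_X _ _ _

theorem JtB_C {m : ℕ} (β : Fin m → K) (a : K) : DW W β (MvPolynomial.C a) = 0 :=
  (DW W β).map_algebraMap a

theorem JtB_6 {m : ℕ} (β : Fin m → K) : DW W β 6 = 0 :=
  (DW W β).map_algebraMap 6

/-- The derivations in different directions commute: check on the variables; the commutator of two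
derivations is a derivation (`Derivation.commutator`, `MvPolynomial.derivation_eq_of_forall_mem_vars`
or `MvPolynomial.derivation_ext`). -/
theorem DW_comm {m : ℕ} (β β' : Fin m → K) (f : MvPolynomial (Fin m ⊕ Fin m) K) :
    DW W β (DW W β' f) = DW W β' (DW W β f) := by
  have h : ⁅DW W β, DW W β'⁆ = 0 := by
    refine MvPolynomial.derivation_ext fun j => ?_
    rw [Derivation.commutator_apply, Derivation.zero_apply]
    rcases j with i | i
    · simp only [JtB_inl, JtB_inr, JtB_C, Derivation.leibniz, smul_eq_mul]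
      ring
    · simp only [JtB_inl, JtB_inr, JtB_C, Derivation.leibniz, smul_eq_mul, map_add,
        Derivation.leibniz_pow, JtB_6]
      ring
  have h2 := congrArg (fun D => D f) h
  rw [Derivation.commutator_apply, Derivation.zero_apply, sub_eq_zero] at h2
  exact h2

/-- Linearity in the direction. -/
theorem DW_add_smul {m : ℕ} (β β' : Fin m → K) (t : K) (f : MvPolynomial (Fin m ⊕ Fin m) K) :
    DW W (β + t • β') f = DW W β f + t • DW W β' f := by
  have h : DW W (β + t • β') = DW W β + t • DW W β' := by
    refine MvPolynomial.derivation_ext fun j => ?_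
    rw [Derivation.add_apply, Derivation.smul_apply, MvPolynomial.smul_eq_C_mul]
    rcases j with i | i
    · simp only [JtB_inl, Pi.add_apply, Pi.smul_apply, smul_eq_mul, map_add, map_mul]
      ring
    · simp only [JtB_inr, Pi.add_apply, Pi.smul_apply, smul_eq_mul, map_add, map_mul]
      ring
  rw [h]
  rfl

/-- Polarisation in two directions.  For `e < N`, `t : ℕ`: `(DW (β' + t β))^[e] g
= ∑ j, (e.choose j) t^j (DW β)^[j] (DW β')^[e-j] g` (`DW_comm`, `DW_add_smul`; induction on `e` or
`Commute.add_pow` in `Module.End`), and its value at the point is zero for all `t`.  A polynomial in `t`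
with infinitely many zeros is zero, so each `(DW β)^[j] (DW β')^[e-j] g` vanishes at the point. -/
theorem polar [CharZero K] {m : ℕ} (𝒲 : Submodule K (Fin m → K))
    (g : MvPolynomial (Fin m ⊕ Fin m) K) (x h : Fin m → F) (N : ℕ)
    (hg : ∀ β ∈ 𝒲, ∀ n < N, ev x h ((DW W β)^[n] g) = 0) :
    ∀ β ∈ 𝒲, ∀ β' ∈ 𝒲, ∀ i n, i + n < N →
      ev x h ((DW W β')^[n] ((DW W β)^[i] g)) = 0 := by
  intro β hβ β' hβ' i n hin
  have hF : CharZero F := charZero_of_injective_algebraMap (algebraMap K F).injective
  let A : Module.End K (MvPolynomial (Fin m ⊕ Fin m) K) := (DW W β').toLinearMap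
  let B : Module.End K (MvPolynomial (Fin m ⊕ Fin m) K) := (DW W β).toLinearMap
  have hA : ∀ (j : ℕ) (f : MvPolynomial (Fin m ⊕ Fin m) K), (A ^ j) f = (DW W β')^[j] f :=
    fun j f => Module.End.pow_apply A j f
  have hB : ∀ (j : ℕ) (f : MvPolynomial (Fin m ⊕ Fin m) K), (B ^ j) f = (DW W β)^[j] f :=
    fun j f => Module.End.pow_apply B j f
  have hAB : Commute A B := LinearMap.ext fun f => DW_comm β' β f
  let c : ℕ → F := fun j => ev x h ((A ^ j) ((B ^ (i + n - j)) g))
  let p : Polynomial F := ∑ j ∈ Finset.range (i + n + 1),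
    Polynomial.C (((i + n).choose j : F) * c j) * Polynomial.X ^ j
  have hp : ∀ t : ℕ, p.eval (t : F) = 0 := by
    intro t
    have h1 := hg (β + (t : K) • β') (𝒲.add_mem hβ (𝒲.smul_mem _ hβ')) (i + n) hin
    have h2 : (DW W (β + (t : K) • β')).toLinearMap = (t : K) • A + B := by
      refine LinearMap.ext fun f => ?_
      show DW W (β + (t : K) • β') f = (t : K) • DW W β' f + DW W β f
      rw [DW_add_smul, add_comm]
    have h3 : (DW W (β + (t : K) • β'))^[i + n] g = (((t : K) • A + B) ^ (i + n)) g := by
      rw [← h2]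
      exact (Module.End.pow_apply _ _ _).symm
    rw [h3, (hAB.smul_left (t : K)).add_pow, LinearMap.sum_apply] at h1
    rw [← h1]
    show p.eval (t : F) = MvPolynomial.aeval (Sum.elim x h) _
    rw [map_sum, Polynomial.eval_finsetSum]
    refine Finset.sum_congr rfl fun j _ => ?_
    rw [← nsmul_eq_mul', LinearMap.smul_apply, Module.End.mul_apply, smul_pow, LinearMap.smul_apply,
      map_nsmul, map_smul, Polynomial.eval_mul, Polynomial.eval_C, Polynomial.eval_pow,
      Polynomial.eval_X, nsmul_eq_mul, Algebra.smul_def, map_pow, map_natCast]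
    show ((i + n).choose j : F) * c j * (t : F) ^ j = ((i + n).choose j : F) * ((t : F) ^ j * c j)
    ring
  have hp0 : p = 0 := by
    refine Polynomial.eq_zero_of_infinite_isRoot p ?_
    refine (Set.infinite_range_of_injective (Nat.cast_injective (R := F))).mono ?_
    rintro _ ⟨t, rfl⟩
    exact hp t
  have hc : p.coeff n = ((i + n).choose n : F) * c n := by
    show (∑ j ∈ Finset.range (i + n + 1),
      Polynomial.C (((i + n).choose j : F) * c j) * Polynomial.X ^ j).coeff n = _
    rw [Polynomial.finsetSum_coeff, Finset.sum_eq_single n]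
    · rw [Polynomial.coeff_C_mul, Polynomial.coeff_X_pow, if_pos rfl, mul_one]
    · intro j _ hj
      rw [Polynomial.coeff_C_mul, Polynomial.coeff_X_pow, if_neg (Ne.symm hj), mul_zero]
    · intro hn
      exact absurd (Finset.mem_range.2 (by omega)) hn
  rw [hp0, Polynomial.coeff_zero] at hc
  have h4 : c n = 0 := by
    rcases mul_eq_zero.1 hc.symm with h5 | h5
    · exact absurd h5 (Nat.cast_ne_zero.2 (Nat.choose_pos (by omega)).ne')
    · exact h5
  have h5 : c n = ev x h ((DW W β')^[n] ((DW W β)^[i] g)) := by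
    show ev x h ((A ^ n) ((B ^ (i + n - n)) g)) = _
    rw [Nat.add_sub_cancel, hA, hB]
  rw [← h5, h4]

end PCL

end
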