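import Pool.Agent.W_52423f_v9.JtA
import Pool.Agent.W_52423f_h70.SbFpol

/-!
# Jets: the chord formula solves the differential equation
-/

open scoped Classical

noncomputable section

namespace PCL

variable {K : Type} [Field K] {W : WeierstrassCurve K} {F : Type} [Field F] [Algebra K F]

theorem JtC1_cub_C (a g : F) (hg : g ^ 2 = cub W a) :
    (PowerSeries.C g : PowerSeries F) ^ 2 = 4 * PowerSeries.C a ^ 3 +
      PowerSeries.C (algebraMap K F W.b₂) * PowerSeries.C a ^ 2 +
      2 * PowerSeries.C (algebraMap K F W.b₄) * PowerSeries.C a +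
      PowerSeries.C (algebraMap K F W.b₆) := by
  have h := congrArg (PowerSeries.C (R := F)) hg
  simp only [cub, map_pow, map_add, map_mul, map_ofNat] at h
  exact h

theorem JtC1_cub_ser (X : PowerSeries F) :
    cub W X = 4 * X ^ 3 + PowerSeries.C (algebraMap K F W.b₂) * X ^ 2 +
      2 * PowerSeries.C (algebraMap K F W.b₄) * X + PowerSeries.C (algebraMap K F W.b₆) := by
  simp only [cub, PowerSeries.algebraMap_apply]

/-- Algebra in a domain with a derivation `D`. -/
theorem JtC1_alg {A : Type} [CommRing A] [IsDomain A] (q b2 b4 b6 β a g X H L DX DH DL : A)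
    (hq : 4 * q = 1)
    (h1 : DX = β * H) (h2 : DH = β * (6 * X ^ 2 + b2 * X + b4))
    (h3 : H ^ 2 = 4 * X ^ 3 + b2 * X ^ 2 + 2 * b4 * X + b6)
    (hg : g ^ 2 = 4 * a ^ 3 + b2 * a ^ 2 + 2 * b4 * a + b6)
    (hL : L * (X - a) = H - g) (hDL : DL * (X - a) + L * DX = DH) (hne : X - a ≠ 0)
    (X2 : A) (hX2 : X2 = q * (L ^ 2 - b2) - X - a) :
    2 * DL = β * (4 * X - 4 * X2) ∧
      L * H = 4 * X ^ 2 + 2 * X * X2 - 2 * a * X2 + 2 * a * X + b2 * X + b4 := by
  have h4 : 4 * X2 = L ^ 2 - b2 - 4 * X - 4 * a := by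
    rw [hX2]; linear_combination (L ^ 2 - b2) * hq
  have h20 : (2 : A) ≠ 0 := by
    intro h
    have : (1 : A) = 0 := by rw [← hq]; linear_combination 2 * q * h
    exact one_ne_zero this
  constructor
  · refine mul_right_cancel₀ (pow_ne_zero 2 hne) ?_
    linear_combination 2 * (X - a) * hDL - 2 * (X - a) * L * h1 + 2 * (X - a) * h2 +
      (-2 * β * H + β * (L * (X - a) + H - g)) * hL - β * h3 + β * hg + β * (X - a) ^ 2 * h4
  · refine mul_right_cancel₀ (mul_ne_zero h20 hne) ?_
    linear_combination (2 * H - (L * (X - a) + (H - g))) * hL - (X - a) ^ 2 * h4 + h3 - hg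

/-- The chord formula solves the differential equation.  `X, H` are power series over `F` with
`X' = β H`, `H' = β (6 X^2 + b₂ X + b₄)`, `H^2 = 4 X^3 + b₂ X^2 + 2 b₄ X + b₆`; `a, g` in `F` with
`g^2 = 4 a^3 + ...`; `L (X - a) = H - g` (`X - a` is a unit, so `L = (H - g) (X - a)⁻¹`),
`X₂ = L^2 / 4 - b₂ / 4 - X - a`, `H₂ = -(H + L (X₂ - X))`.  Then `X₂' = β H₂`,
`H₂' = β (6 X₂^2 + b₂ X₂ + b₄)`.
Proof.  `L' (X - a) = H' - L X'`; multiply the identity `2 L' = β (4 X - 4 X₂)`, i.e.
`L' = β (4 X + 2 a + b₂ / 2 - L^2 / 2)`, by `(X - a)^2` and use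
`H^2 - g^2 = (X - a) (4 (X^2 + a X + a^2) + b₂ (X + a) + 2 b₄)`; then
`X₂' = L L' / 2 - X' = β (L (X - X₂) - H)`.  For `H₂'`: `H₂^2 = 4 X₂^3 + b₂ X₂^2 + 2 b₄ X₂ + b₆`
(the point lies on the curve), or directly from the formula for `L'`. -/
theorem chord_ode [CharZero F] (β a g : F) {X H L : PowerSeries F}
    (h1 : PowerSeries.derivative F X = PowerSeries.C β * H)
    (h2 : PowerSeries.derivative F H = PowerSeries.C β *
      (6 * X ^ 2 + PowerSeries.C (algebraMap K F W.b₂) * X + PowerSeries.C (algebraMap K F W.b₄)))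
    (h3 : H ^ 2 = cub W X) (hg : g ^ 2 = cub W a)
    (hL : L * (X - PowerSeries.C a) = H - PowerSeries.C g)
    (hne : X - PowerSeries.C a ≠ 0) :
    let X₂ := PowerSeries.C (4 : F)⁻¹ * (L ^ 2 - PowerSeries.C (algebraMap K F W.b₂)) - X -
      PowerSeries.C a
    let H₂ := -(H + L * (X₂ - X))
    PowerSeries.derivative F X₂ = PowerSeries.C β * H₂ ∧
      PowerSeries.derivative F H₂ = PowerSeries.C β *
        (6 * X₂ ^ 2 + PowerSeries.C (algebraMap K F W.b₂) * X₂ +
          PowerSeries.C (algebraMap K F W.b₄)) := by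
  intro X₂ H₂
  have hq : (4 : PowerSeries F) * PowerSeries.C (4 : F)⁻¹ = 1 := by
    have h : (PowerSeries.C ((4 : F) * (4 : F)⁻¹) : PowerSeries F) = 1 := by
      rw [mul_inv_cancel₀ (by norm_num), map_one]
    rw [map_mul, map_ofNat] at h
    exact h
  have h3' := h3
  rw [JtC1_cub_ser] at h3'
  have hg' := JtC1_cub_C a g hg
  have hdC : ∀ r : F, PowerSeries.derivative F (PowerSeries.C r) = 0 := fun r =>
    PowerSeries.derivative_C
  have hdm : ∀ f g : PowerSeries F, PowerSeries.derivative F (f * g) =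
      f * PowerSeries.derivative F g + g * PowerSeries.derivative F f := fun f g => by
    rw [Derivation.leibniz, smul_eq_mul, smul_eq_mul]
  have hDL : PowerSeries.derivative F L * (X - PowerSeries.C a) +
      L * PowerSeries.derivative F X = PowerSeries.derivative F H := by
    have h := congrArg (PowerSeries.derivative F) hL
    rw [hdm, map_sub, map_sub, hdC, hdC, sub_zero, sub_zero] at h
    rw [← h]; ring
  obtain ⟨hA, hB⟩ := JtC1_alg (PowerSeries.C (4 : F)⁻¹) (PowerSeries.C (algebraMap K F W.b₂))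
    (PowerSeries.C (algebraMap K F W.b₄)) (PowerSeries.C (algebraMap K F W.b₆))
    (PowerSeries.C β) (PowerSeries.C a) (PowerSeries.C g) X H L _ _ _ hq h1 h2 h3' hg' hL hDL hne
    X₂ rfl
  have h4 : 4 * X₂ = L ^ 2 - PowerSeries.C (algebraMap K F W.b₂) - 4 * X -
      4 * PowerSeries.C a := by
    simp only [X₂]
    linear_combination (L ^ 2 - PowerSeries.C (algebraMap K F W.b₂)) * hq
  have hDX2 : PowerSeries.derivative F X₂ = PowerSeries.C β * H₂ := by
    have e : PowerSeries.derivative F X₂ = PowerSeries.C (4 : F)⁻¹ *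
        (2 * L * PowerSeries.derivative F L) - PowerSeries.derivative F X := by
      simp only [X₂]
      rw [map_sub, map_sub, hdC, sub_zero, hdm, hdC, map_sub, hdC, pow_two, hdm]
      ring
    rw [e, h1]
    simp only [H₂]
    linear_combination PowerSeries.C (4 : F)⁻¹ * L * hA +
      PowerSeries.C β * L * (X - X₂) * hq
  refine ⟨hDX2, ?_⟩
  have h20 : (2 : PowerSeries F) ≠ 0 := by
    intro h
    have : (1 : PowerSeries F) = 0 := by
      rw [← hq]; linear_combination 2 * PowerSeries.C (4 : F)⁻¹ * h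
    exact one_ne_zero this
  have e : PowerSeries.derivative F H₂ = -(PowerSeries.derivative F H +
      (L * (PowerSeries.derivative F X₂ - PowerSeries.derivative F X) +
        (X₂ - X) * PowerSeries.derivative F L)) := by
    simp only [H₂]
    rw [map_neg, map_add, hdm, map_sub]
  refine mul_right_cancel₀ h20 ?_
  rw [e, hDX2, h2, h1]
  simp only [H₂]
  linear_combination (-(X₂ - X)) * hA + 4 * PowerSeries.C β * hB +
    2 * PowerSeries.C β * (X₂ - X) * (-h4)

end PCL

end
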