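import Pool.Agent.W_52423f_v9.JtC0
import Pool.Agent.W_52423f_v9.JtC1
import Pool.Agent.W_52423f_h70.SbFpol

/-!
# Jets: translation invariance
-/

open scoped Classical

noncomputable section

namespace PCL

variable {K : Type} [Field K] {W : WeierstrassCurve K} {F : Type} [Field F] [Algebra K F]

/-- Translation invariance.  For an affine point `u` over `F` and a `K`-point `κ` with `u ≠ ± κ` the pair
`pr κ false` at the jets of `u` represents the jet of `u + κ`, up to a unit.  For `κ = 0` the pair is
`(x : 1)` and `u + κ = u`.  For `κ = (a, b)`: `x(u) ≠ a` (`eq_or_neg`), the unit is `2 (jx - a)^2`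
(constant coefficient `2 (x(u) - a)^2 ≠ 0`), and `jx(u + κ)` is the series `X₂` of `chord_ode` by
`jets_unique` (initial values by `chord`).  The first entry of the pair,
`2 X a (X + a) + b₂ X a + b₄ (X + a) + b₆ - H g`, is `2 (X - a)^2 X₂`: use the two equations of the
curve (`jets_curve`, `curve_eq`). -/
theorem jet_transl [CharZero K] [CharZero F] [W.IsElliptic] (β : F) (κ : Pt W K) (u : Pt W F)
    (hu : u ≠ 0) (h1 : u ≠ emb F κ) (h2 : u ≠ -emb F κ) :
    ∃ U : PowerSeries F, IsUnit U ∧
      pr κ false (jx W β (xc u) (hc u)) (jh W β (xc u) (hc u)) =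
        fun j => U * (![jx W β (xc (u + emb F κ)) (hc (u + emb F κ)), 1] : Fin 2 → PowerSeries F) j := by
  cases κ with
  | zero =>
    refine ⟨1, isUnit_one, ?_⟩
    have h0 : emb F (WeierstrassCurve.Affine.Point.zero : Pt W K) = 0 := map_zero (emb F)
    rw [h0, add_zero]
    funext j
    rw [one_mul]
    rfl
  | some a b hab =>
    obtain ⟨hab', he⟩ : ∃ hab' : (WeierstrassCurve.Affine.baseChange W F).Nonsingular
        (algebraMap K F a) (algebraMap K F b),
        emb F (WeierstrassCurve.Affine.Point.some a b hab : Pt W K) =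
          WeierstrassCurve.Affine.Point.some _ _ hab' := ⟨_, rfl⟩
    rw [he] at h1 h2 ⊢
    obtain ⟨κ', hκ'⟩ : ∃ κ' : Pt W F, κ' = WeierstrassCurve.Affine.Point.some _ _ hab' := ⟨_, rfl⟩
    have hκ0 : κ' ≠ 0 := by
      rw [hκ']
      exact WeierstrassCurve.Affine.Point.some_ne_zero hab'
    have hκx : xc κ' = algebraMap K F a := by rw [hκ']; rfl
    have hκh : hc κ' = 2 * algebraMap K F b + algebraMap K F W.a₁ * algebraMap K F a +
        algebraMap K F W.a₃ := by rw [hκ']; rfl
    rw [← hκ'] at h1 h2 ⊢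
    have hx : xc u ≠ xc κ' := fun h => (eq_or_neg hu hκ0 h).elim h1 h2
    obtain ⟨-, hc1, hc2⟩ := chord hu hκ0 hx
    have hxa : xc u - xc κ' ≠ 0 := sub_ne_zero.mpr hx
    have e2 := jets_curve β (curve_eq hu)
    have e3 := curve_eq hκ0
    have d1 := d_jx (W := W) β (xc u) (hc u)
    have d2 := d_jh (W := W) β (xc u) (hc u)
    have c1 := jx_const (W := W) β (xc u) (hc u)
    have c2 := jh_const (W := W) β (xc u) (hc u)
    generalize jx W β (xc u) (hc u) = X at e2 d1 d2 c1 ⊢
    generalize jh W β (xc u) (hc u) = H at e2 d1 d2 c2 ⊢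
    have hcc : PowerSeries.constantCoeff (X - PowerSeries.C (xc κ')) = xc u - xc κ' := by
      rw [map_sub, c1, PowerSeries.constantCoeff_C]
    have hne : X - PowerSeries.C (xc κ') ≠ 0 := by
      intro h
      rw [h, map_zero] at hcc
      exact hxa hcc.symm
    have hunit : IsUnit (X - PowerSeries.C (xc κ')) := by
      rw [PowerSeries.isUnit_iff_constantCoeff, hcc]
      exact isUnit_iff_ne_zero.mpr hxa
    obtain ⟨v, hv⟩ := hunit.exists_right_inv
    have e1 : (H - PowerSeries.C (hc κ')) * v * (X - PowerSeries.C (xc κ')) =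
        H - PowerSeries.C (hc κ') := by
      linear_combination (H - PowerSeries.C (hc κ')) * hv
    have hcL : PowerSeries.constantCoeff ((H - PowerSeries.C (hc κ')) * v) =
        (hc u - hc κ') / (xc u - xc κ') := by
      have h3 := congrArg (PowerSeries.constantCoeff (R := F)) e1
      rw [map_mul, hcc, map_sub, c2, PowerSeries.constantCoeff_C] at h3
      rw [eq_div_iff hxa, h3]
    generalize (H - PowerSeries.C (hc κ')) * v = L at e1 hcL
    obtain ⟨o1, o2⟩ := chord_ode (W := W) β (xc κ') (hc κ') d1 d2 e2 e3 e1 hne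
    have h4 : (4 : F) ≠ 0 := by norm_num
    have k1 : PowerSeries.constantCoeff (PowerSeries.C (4 : F)⁻¹ *
        (L ^ 2 - PowerSeries.C (algebraMap K F W.b₂)) - X - PowerSeries.C (xc κ')) =
        xc (u + κ') := by
      rw [map_sub, map_sub, map_mul, map_sub, map_pow, hcL, c1, PowerSeries.constantCoeff_C,
        PowerSeries.constantCoeff_C, PowerSeries.constantCoeff_C, hc1]
      field_simp
    have hkey := (jets_unique (W := W) β o1 o2 (d_jx (W := W) β (xc (u + κ')) (hc (u + κ')))
      (d_jh (W := W) β (xc (u + κ')) (hc (u + κ'))) (by rw [k1, jx_const])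
      (by
        rw [map_neg, map_add, map_mul, map_sub, k1, hcL, c1, c2, jh_const, hc2])).1
    rw [← hkey]
    refine ⟨2 * (X - PowerSeries.C (xc κ')) ^ 2, ?_, ?_⟩
    · rw [PowerSeries.isUnit_iff_constantCoeff, map_mul, map_pow, hcc, map_ofNat]
      exact isUnit_iff_ne_zero.mpr (mul_ne_zero two_ne_zero (pow_ne_zero 2 hxa))
    · have hq : (4 : PowerSeries F) * PowerSeries.C (4 : F)⁻¹ = 1 := by
        have h5 : (4 : PowerSeries F) = PowerSeries.C (4 : F) := (map_ofNat _ 4).symm
        rw [h5, ← map_mul, mul_inv_cancel₀ h4, map_one]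
      have ha : algebraMap K (PowerSeries F) a = PowerSeries.C (xc κ') := by
        rw [hκx]
        exact PowerSeries.algebraMap_apply
      have hg : algebraMap K (PowerSeries F) (2 * b + W.a₁ * a + W.a₃) =
          PowerSeries.C (hc κ') := by
        rw [hκh]
        have h6 : algebraMap K (PowerSeries F) (2 * b + W.a₁ * a + W.a₃) =
          PowerSeries.C (algebraMap K F (2 * b + W.a₁ * a + W.a₃)) := PowerSeries.algebraMap_apply
        have h7 : algebraMap K F (2 * b + W.a₁ * a + W.a₃) = 2 * algebraMap K F b +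
          algebraMap K F W.a₁ * algebraMap K F a + algebraMap K F W.a₃ := by
          simp only [map_add, map_mul, map_ofNat]
        rw [h6, h7]
      have e2' : H ^ 2 = 4 * X ^ 3 + algebraMap K (PowerSeries F) W.b₂ * X ^ 2 +
          2 * algebraMap K (PowerSeries F) W.b₄ * X + algebraMap K (PowerSeries F) W.b₆ := e2
      have hb2 : algebraMap K (PowerSeries F) W.b₂ = PowerSeries.C (algebraMap K F W.b₂) :=
        PowerSeries.algebraMap_apply
      have hb4 : algebraMap K (PowerSeries F) W.b₄ = PowerSeries.C (algebraMap K F W.b₄) :=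
        PowerSeries.algebraMap_apply
      have hb6 : algebraMap K (PowerSeries F) W.b₆ = PowerSeries.C (algebraMap K F W.b₆) :=
        PowerSeries.algebraMap_apply
      have e3' : PowerSeries.C (hc κ') ^ 2 = 4 * PowerSeries.C (xc κ') ^ 3 +
          algebraMap K (PowerSeries F) W.b₂ * PowerSeries.C (xc κ') ^ 2 +
          2 * algebraMap K (PowerSeries F) W.b₄ * PowerSeries.C (xc κ') +
          algebraMap K (PowerSeries F) W.b₆ := by
        rw [← map_pow, e3, cub, map_add, map_add, map_add, map_mul, map_mul, map_mul, map_mul,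
          map_pow, map_pow, map_ofNat, map_ofNat, hb2, hb4, hb6]
      funext j
      fin_cases j
      · simp only [pr, Bool.false_eq_true, if_false, ha, hg, Fin.zero_eta, Matrix.cons_val_zero]
        rw [← hb2]
        generalize PowerSeries.C (4 : F)⁻¹ = q at hq ⊢
        linear_combination (-(2 * q * (L * (X - PowerSeries.C (xc κ')) +
            (H - PowerSeries.C (hc κ'))))) * e1 - 2 * q * e2' - 2 * q * e3' -
          (((2 * X * PowerSeries.C (xc κ') * (X + PowerSeries.C (xc κ'))
          + algebraMap K (PowerSeries F) W.b₂ * X * PowerSeries.C (xc κ')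
          + algebraMap K (PowerSeries F) W.b₄ * (X + PowerSeries.C (xc κ')) +
            algebraMap K (PowerSeries F) W.b₆)
          - H * PowerSeries.C (hc κ')) + 2 * (X - PowerSeries.C (xc κ')) ^ 2 *
            (X + PowerSeries.C (xc κ'))) * hq
      · simp only [pr, Bool.false_eq_true, if_false, ha, hg, Fin.mk_one, Matrix.cons_val_one,
          Matrix.cons_val_fin_one, mul_one]

/-- Homogeneity of `hPol` over a commutative ring (as `hPol_smul`). -/
theorem hPol_smul' {R : Type} [CommRing R] [Algebra K R] {m : ℕ} {D : ℕ}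
    {P : MvPolynomial (Fin m) K} (hdeg : ∀ i, P.degreeOf i ≤ D) (lam : Fin m → R)
    (a : Fin m → Fin 2 → R) :
    hPol D P (fun i j => lam i * a i j) = (∏ i, lam i ^ D) * hPol D P a := by
  unfold hPol
  rw [Finset.mul_sum]
  refine Finset.sum_congr rfl fun α hα => ?_
  have h1 : ∏ i, ((lam i * a i 1) ^ α i * (lam i * a i 0) ^ (D - α i)) =
      (∏ i, lam i ^ D) * ∏ i, (a i 1 ^ α i * a i 0 ^ (D - α i)) := by
    rw [← Finset.prod_mul_distrib]
    refine Finset.prod_congr rfl fun i _ => ?_
    have h2 : α i ≤ D := (MvPolynomial.monomial_le_degreeOf i hα).trans (hdeg i)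
    have h3 : lam i ^ D = lam i ^ α i * lam i ^ (D - α i) := by
      rw [← pow_add, Nat.add_sub_cancel' h2]
    rw [h3, mul_pow, mul_pow]
    ring
  rw [h1]
  ring

/-- The polynomial `fpol D P κ` at the jets of `u` is, up to a unit, `P` at the jets of `u + κ`:
`ev_fpol`, `jet_transl` for every coordinate, `hPol_smul'`. -/
theorem fpol_jets [CharZero K] [CharZero F] [W.IsElliptic] {m D : ℕ} {P : MvPolynomial (Fin m) K}
    (hdeg : ∀ i, P.degreeOf i ≤ D) (κ : Fin m → Pt W K) (u : Fin m → Pt W F) (hu : ∀ i, u i ≠ 0)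
    (h1 : ∀ i, u i ≠ emb F (κ i)) (h2 : ∀ i, u i ≠ -emb F (κ i)) (β : Fin m → K) :
    ∃ U : PowerSeries F, IsUnit U ∧
      ev (jX β u) (jH β u) (fpol D P κ fun _ => false) = U * PX D P (jX β (trw u κ)) := by
  choose U hU hpr using fun i => jet_transl (algebraMap K F (β i)) (κ i) (u i) (hu i) (h1 i) (h2 i)
  refine ⟨∏ i, U i ^ D, ?_, ?_⟩
  · rw [IsUnit.prod_univ_iff]
    exact fun i => (hU i).pow D
  · rw [ev_fpol]
    have h3 : (fun i => pr (κ i) false (jX β u i) (jH β u i)) =
        fun i j => U i * (![jX β (trw u κ) i, 1] : Fin 2 → PowerSeries F) j := by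
      funext i
      exact hpr i
    rw [h3]
    exact hPol_smul' hdeg U fun i => ![jX β (trw u κ) i, 1]

end PCL

end
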