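import Pool.Agent.W_52423f_v9.JtA
import Pool.Agent.W_52423f_h70.SbFpol

/-!
# Jets: the chord formula
-/

open scoped Classical

noncomputable section

namespace PCL

variable {K : Type} [Field K] {W : WeierstrassCurve K} {F : Type} [Field F] [Algebra K F]

/-- The `x`- and the `h`-coordinate of `u + κ` by the chord formula (`u = (x, y)`, `κ = (a, b)` affine,
`x ≠ a`): with `Λ = (h - g) / (x - a)`, `h = hc u`, `g = hc κ`,
`xc (u + κ) = Λ^2 / 4 - b₂ / 4 - x - a` and `hc (u + κ) = - (h + Λ (xc (u + κ) - x))`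
(`WeierstrassCurve.Affine.Point.add_of_X_ne`, `slope_of_X_ne`, `2 slope + a₁ = Λ`; compare
`AddX_formula` in `Pool.Agent.W_52423f_h30.AddX` and `pr_spec` in `SbPair`). -/
theorem chord [CharZero F] {u κ : Pt W F} (hu : u ≠ 0) (hκ : κ ≠ 0) (hx : xc u ≠ xc κ) :
    u + κ ≠ 0 ∧
    xc (u + κ) = ((hc u - hc κ) / (xc u - xc κ)) ^ 2 / 4 - algebraMap K F W.b₂ / 4 - xc u - xc κ ∧
    hc (u + κ) = -(hc u + (hc u - hc κ) / (xc u - xc κ) * (xc (u + κ) - xc u)) := by
  cases u with
  | zero => exact absurd rfl hu
  | some x y hxy =>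
    cases κ with
    | zero => exact absurd rfl hκ
    | some a b hab =>
      have hx' : x ≠ a := hx
      have hsub : x - a ≠ 0 := sub_ne_zero.2 hx'
      have h2 : (2 : F) ≠ 0 := two_ne_zero
      have h4 : (4 : F) ≠ 0 := by exact_mod_cast (show (4 : ℕ) ≠ 0 by norm_num)
      obtain ⟨X, Y, hXY, hadd, hX, hY⟩ : ∃ (X Y : F)
          (hXY : (WeierstrassCurve.Affine.baseChange W F).Nonsingular X Y),
          (WeierstrassCurve.Affine.Point.some x y hxy : Pt W F) +
            WeierstrassCurve.Affine.Point.some a b hab =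
            WeierstrassCurve.Affine.Point.some X Y hXY ∧
          X = ((y - b) / (x - a)) ^ 2 + algebraMap K F W.a₁ * ((y - b) / (x - a)) -
            algebraMap K F W.a₂ - x - a ∧
          Y = -((y - b) / (x - a) * (X - x) + y) - algebraMap K F W.a₁ * X -
            algebraMap K F W.a₃ := by
        refine ⟨_, _, _, WeierstrassCurve.Affine.Point.add_of_X_ne hx', ?_, ?_⟩
        · rw [WeierstrassCurve.Affine.slope_of_X_ne hx']
          rfl
        · rw [WeierstrassCurve.Affine.slope_of_X_ne hx']
          rfl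
      have hb2 : algebraMap K F W.b₂ = (algebraMap K F W.a₁) ^ 2 + 4 * algebraMap K F W.a₂ := by
        rw [WeierstrassCurve.b₂, map_add, map_pow, map_mul, map_ofNat]
      have hL : ((2 * y + algebraMap K F W.a₁ * x + algebraMap K F W.a₃) -
          (2 * b + algebraMap K F W.a₁ * a + algebraMap K F W.a₃)) / (x - a) =
          2 * ((y - b) / (x - a)) + algebraMap K F W.a₁ := by
        field_simp
        ring
      rw [hadd]
      refine ⟨WeierstrassCurve.Affine.Point.some_ne_zero _, ?_, ?_⟩
      · show X = (((2 * y + algebraMap K F W.a₁ * x + algebraMap K F W.a₃) -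
          (2 * b + algebraMap K F W.a₁ * a + algebraMap K F W.a₃)) / (x - a)) ^ 2 / 4 -
          algebraMap K F W.b₂ / 4 - x - a
        rw [hL, hX, hb2]
        field_simp
        ring
      · show 2 * Y + algebraMap K F W.a₁ * X + algebraMap K F W.a₃ =
          -((2 * y + algebraMap K F W.a₁ * x + algebraMap K F W.a₃) +
          ((2 * y + algebraMap K F W.a₁ * x + algebraMap K F W.a₃) -
          (2 * b + algebraMap K F W.a₁ * a + algebraMap K F W.a₃)) / (x - a) * (X - x))
        rw [hL, hY]
        ring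

end PCL

end
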