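import Pool.Agent.W_52423f_v9.JtA
import Pool.Agent.W_52423f_h70.SbCnt

/-!
# Jets: the colength of the ideal of the polynomials vanishing to order `T`
-/

open scoped Classical

noncomputable section

namespace PCL

variable {K : Type} [Field K] {W : WeierstrassCurve K} {F : Type} [Field F] [Algebra K F]

/-- `X_i - x(u_i)` is mapped to `(ε)` by every `jphi J β u`, so products of `T` elements of the maximal
ideal of the point are mapped to `(ε^T)`. -/
theorem mI_pow_le {m : ℕ} (J : Finset (Fin m)) (𝒲' : Submodule K (Fin m → K)) (T : ℕ)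
    (u : Fin m → Pt W F) :
    (mI fun i : {i : Fin m // i ∉ J} => xc (u i.1)) ^ T ≤ qJ J 𝒲' T u := by
  unfold qJ
  refine le_iInf₂ fun β _ => ?_
  rw [← Ideal.map_le_iff_le_comap, Ideal.map_pow, ← Ideal.span_singleton_pow]
  refine Ideal.pow_right_mono ?_ T
  rw [Ideal.map_le_iff_le_comap]
  intro p hp
  have hp' : MvPolynomial.eval (fun i : {i : Fin m // i ∉ J} => xc (u i.1)) p = 0 := hp
  rw [Ideal.mem_comap, Ideal.mem_span_singleton, PowerSeries.X_dvd_iff]
  have h1 : (PowerSeries.constantCoeff (R := F)).comp
      ((jphi J β u : MvPolynomial {i : Fin m // i ∉ J} F →ₐ[F] PowerSeries F) :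
        MvPolynomial {i : Fin m // i ∉ J} F →+* PowerSeries F) =
      MvPolynomial.eval (fun i : {i : Fin m // i ∉ J} => xc (u i.1)) := by
    apply MvPolynomial.ringHom_ext
    · intro c
      simp [jphi, PowerSeries.algebraMap_apply]
    · intro i
      simp [jphi, jX, jx_const]
  have h2 := congrArg (fun f : MvPolynomial {i : Fin m // i ∉ J} F →+* F => f p) h1
  exact h2.trans hp'

/-- The quotient by a power of the maximal ideal of a rational point is finite-dimensional. -/
theorem JtD_fin {ι : Type} [Finite ι] (a : ι → F) (T : ℕ) :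
    Module.Finite F (MvPolynomial ι F ⧸ (mI a) ^ T) := by
  rcases Nat.eq_zero_or_pos T with rfl | hT
  · rw [pow_zero, Ideal.one_eq_top]
    infer_instance
  · have h1 : Module.Finite F (MvPolynomial ι F ⧸ mI a) := by
      refine Module.Finite.of_surjective
        ((Ideal.Quotient.mkₐ F (mI a)).comp (Algebra.ofId F (MvPolynomial ι F))).toLinearMap ?_
      intro y
      obtain ⟨p, rfl⟩ := Ideal.Quotient.mk_surjective y
      refine ⟨MvPolynomial.eval a p, ?_⟩
      show Ideal.Quotient.mk (mI a) (algebraMap F (MvPolynomial ι F) (MvPolynomial.eval a p)) =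
        Ideal.Quotient.mk (mI a) p
      rw [Ideal.Quotient.eq]
      show MvPolynomial.eval a (algebraMap F (MvPolynomial ι F) (MvPolynomial.eval a p) - p) = 0
      rw [map_sub, MvPolynomial.algebraMap_eq, MvPolynomial.eval_C, sub_self]
    have hle : (mI a) ^ T ≤ mI a := Ideal.pow_le_self hT.ne'
    have hsurj : Function.Surjective (Ideal.Quotient.factorₐ F hle) :=
      Ideal.Quotient.factor_surjective hle
    refine Module.finite_of_surjective_of_ker_le_nilradical
      (Ideal.Quotient.factorₐ F hle) hsurj ?_ (IsNoetherian.noetherian _)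
    intro y hy
    obtain ⟨p, rfl⟩ := Ideal.Quotient.mk_surjective y
    have hp : Ideal.Quotient.mk (mI a) p = 0 := hy
    rw [Ideal.Quotient.eq_zero_iff_mem] at hp
    rw [mem_nilradical]
    refine ⟨T, ?_⟩
    rw [← map_pow, Ideal.Quotient.eq_zero_iff_mem]
    exact Ideal.pow_mem_pow hp T

/-- The quotient by `qJ` is finite-dimensional: `mI^T ≤ qJ` and the quotient by a power of the maximal
ideal of a rational point is spanned by the monomials in the `X_i - x_i` of degree less than `T`. -/
theorem finite_qJ {m : ℕ} (J : Finset (Fin m)) (𝒲' : Submodule K (Fin m → K)) (T : ℕ)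
    (u : Fin m → Pt W F) :
    Module.Finite F (MvPolynomial {i : Fin m // i ∉ J} F ⧸ qJ J 𝒲' T u) := by
  have h1 := JtD_fin (fun i : {i : Fin m // i ∉ J} => xc (u i.1)) T
  have hle := mI_pow_le (W := W) J 𝒲' T u
  exact Module.Finite.of_surjective (Ideal.Quotient.factorₐ F hle).toLinearMap
    (Ideal.Quotient.factor_surjective hle)

theorem mem_WJ {m : ℕ} {𝒲 : Submodule K (Fin m → K)} {J : Finset (Fin m)} {β : Fin m → K} :
    β ∈ WJ 𝒲 J ↔ β ∈ 𝒲 ∧ ∀ j ∈ J, β j = 0 := by
  unfold WJ
  rw [Submodule.mem_inf, Submodule.mem_pi]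
  simp only [Finset.mem_coe, Submodule.mem_bot]

/-- The dimension of the space of directions vanishing on `J`. -/
theorem finrank_WJ {m : ℕ} (𝒲 : Submodule K (Fin m → K)) (J : Finset (Fin m)) :
    Module.finrank K 𝒲 ≤ Module.finrank K (WJ 𝒲 J) + J.card ∧
      Module.finrank K (WJ 𝒲 J) + J.card ≤ m := by
  obtain ⟨P, hP⟩ : ∃ P : Submodule K (Fin m → K),
      P = Submodule.pi (J : Set (Fin m)) fun _ => (⊥ : Submodule K K) := ⟨_, rfl⟩
  have h1 : Module.finrank K P + J.card = m := by
    have hker : LinearMap.ker (LinearMap.funLeft K K (fun j : J => (j : Fin m))) = P := by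
      ext β
      rw [hP, LinearMap.mem_ker, Submodule.mem_pi]
      constructor
      · intro h j hj
        have := congrFun h ⟨j, hj⟩
        rw [Submodule.mem_bot]
        exact this
      · intro h
        funext j
        exact (Submodule.mem_bot K).1 (h j.1 j.2)
    have h2 := LinearMap.finrank_range_add_finrank_ker
      (LinearMap.funLeft K K (fun j : J => (j : Fin m)))
    rw [LinearMap.range_eq_top.2 (LinearMap.funLeft_surjective_of_injective K K _
      Subtype.val_injective), finrank_top, hker, Module.finrank_fin_fun] at h2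
    have h3 : Module.finrank K (J → K) = J.card := by
      rw [Module.finrank_fintype_fun_eq_card, Fintype.card_coe]
    rw [h3] at h2
    omega
  have h2 := Submodule.finrank_sup_add_finrank_inf_eq 𝒲 P
  have h3 : Module.finrank K (𝒲 ⊔ P : Submodule K (Fin m → K)) ≤ m := by
    have := Submodule.finrank_le (𝒲 ⊔ P)
    rwa [Module.finrank_fin_fun] at this
  have h4 : Module.finrank K (𝒲 ⊓ P : Submodule K (Fin m → K)) ≤ Module.finrank K P :=
    Submodule.finrank_mono inf_le_right
  have h5 : WJ 𝒲 J = 𝒲 ⊓ P := by
    rw [hP]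
    rfl
  rw [h5]
  omega

/-- Specialisation of the variables in `J` and jets in a direction which vanishes on `J` (as
`aeval_spc`; `jx_zero` for the variables in `J`). -/
theorem jphi_spc {m : ℕ} (J : Finset (Fin m)) (β : Fin m → K) (hβ : ∀ j ∈ J, β j = 0)
    (u : Fin m → Pt W F) (t : Fin m → F) (ht : ∀ j ∈ J, t j = xc (u j))
    (N : MvPolynomial (Fin m) K) :
    jphi J β u (spc J t N) = MvPolynomial.aeval (jX β u) N := by
  have h : ((jphi J β u).restrictScalars K).comp (spc J t) =
      (MvPolynomial.aeval (jX β u) : MvPolynomial (Fin m) K →ₐ[K] PowerSeries F) := by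
    apply MvPolynomial.algHom_ext
    intro i
    simp only [MvPolynomial.aeval_X, AlgHom.coe_comp, AlgHom.coe_restrictScalars',
      Function.comp_apply, spc]
    split_ifs with h
    · rw [← MvPolynomial.algebraMap_eq, AlgHom.commutes]
      unfold jX
      rw [hβ i h, map_zero, jx_zero, ht i h]
      rfl
    · unfold jphi
      rw [MvPolynomial.aeval_X]
  exact congrArg (fun f : MvPolynomial (Fin m) K →ₐ[K] PowerSeries F => f N) h

end PCL

end
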