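import Pool.Agent.W_52423f_h70.SbCnt
import Pool.Agent.W_52423f_v9.JtD

/-!
# Jets: the colength of the ideal of the polynomials vanishing to order `T`
-/

open scoped Classical

noncomputable section

namespace PCL

variable {K : Type} [Field K] {W : WeierstrassCurve K} {F : Type} [Field F] [Algebra K F]

/-- A subspace of `K^m` of dimension `d` has `d` coordinates which map it isomorphically onto `K^d`
(row reduction; or: the coordinate functionals span the dual space of the subspace, choose a basis among
them). -/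
theorem exists_coords {m : ℕ} (𝒲' : Submodule K (Fin m → K)) :
    ∃ I : Fin (Module.finrank K 𝒲') → Fin m, Function.Injective I ∧
      ∀ c : Fin (Module.finrank K 𝒲') → K, ∃ β ∈ 𝒲', ∀ a, β (I a) = c a := by
  let φ : Fin m → Module.Dual K 𝒲' := fun i => (LinearMap.proj i).comp 𝒲'.subtype
  obtain ⟨κ, a, ha, hspan, hli⟩ := exists_linearIndependent' K φ
  haveI : Finite κ := Finite.of_injective a ha
  haveI : Fintype κ := Fintype.ofFinite κ
  let Φ : 𝒲' →ₗ[K] (κ → K) := LinearMap.pi fun x => φ (a x)
  have hΦ : ∀ β x, Φ β x = β.1 (a x) := fun β x => rfl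
  have hinj : Function.Injective Φ := by
    rw [injective_iff_map_eq_zero]
    intro β hβ
    have h1 : ∀ ψ ∈ Submodule.span K (Set.range φ), ψ β = 0 := by
      intro ψ hψ
      rw [← hspan] at hψ
      induction hψ using Submodule.span_induction with
      | mem ψ hψ =>
        obtain ⟨x, rfl⟩ := hψ
        exact congrFun hβ x
      | zero => rfl
      | add f g _ _ hf hg => rw [LinearMap.add_apply, hf, hg, add_zero]
      | smul c f _ hf => rw [LinearMap.smul_apply, hf, smul_zero]
    ext i
    exact h1 (φ i) (Submodule.subset_span ⟨i, rfl⟩)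
  have hc1 : Fintype.card κ ≤ Module.finrank K 𝒲' := by
    rw [← Subspace.dual_finrank_eq]
    exact hli.fintype_card_le_finrank
  have hc2 : Module.finrank K 𝒲' ≤ Fintype.card κ := by
    rw [← Module.finrank_fintype_fun_eq_card K]
    exact LinearMap.finrank_le_finrank_of_injective hinj
  have hcard : Module.finrank K 𝒲' = Fintype.card κ := le_antisymm hc2 hc1
  have hsurj : Function.Surjective Φ := by
    rw [← LinearMap.injective_iff_surjective_of_finrank_eq_finrank]
    · exact hinj
    · rw [Module.finrank_fintype_fun_eq_card, hcard]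
  let e : Fin (Module.finrank K 𝒲') ≃ κ := (finCongr hcard).trans (Fintype.equivFin κ).symm
  refine ⟨fun x => a (e x), ha.comp e.injective, fun c => ?_⟩
  obtain ⟨β, hβ⟩ := hsurj (fun x => c (e.symm x))
  refine ⟨β.1, β.2, fun x => ?_⟩
  have h2 := congrFun hβ (e x)
  rw [hΦ, e.symm_apply_apply] at h2
  exact h2

/-- The jet of `x` minus its value. -/
lemma JtD1_jx (β x h : F) : ∃ g : PowerSeries F, jx W β x h - PowerSeries.C x =
    PowerSeries.X * g ∧ PowerSeries.constantCoeff g = β * h := by
  refine ⟨PowerSeries.mk fun p => PowerSeries.coeff (p + 1) (jx W β x h), ?_, ?_⟩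
  · have h1 := PowerSeries.sub_const_eq_X_mul_shift (jx W β x h)
    rw [jx_const] at h1
    exact h1
  · rw [← PowerSeries.coeff_zero_eq_constantCoeff_apply, PowerSeries.coeff_mk, jx,
      PowerSeries.coeff_mk]
    simp [D2]

/-- The coefficient of `ε ^ e` in a product of powers of elements divisible by `ε`. -/
lemma JtD1_coeff {d : ℕ} (g : Fin d → PowerSeries F) (α : Fin d → ℕ) (e : ℕ) (c : F)
    (hc : (∑ a, α a) < e → c = 0) :
    PowerSeries.coeff e (PowerSeries.C c * ∏ a, (PowerSeries.X * g a) ^ α a) =
      if ∑ a, α a = e then c * ∏ a, PowerSeries.constantCoeff (g a) ^ α a else 0 := by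
  have h1 : ∏ a, (PowerSeries.X * g a) ^ α a =
      PowerSeries.X ^ (∑ a, α a) * ∏ a, g a ^ α a := by
    rw [← Finset.prod_pow_eq_pow_sum, ← Finset.prod_mul_distrib]
    exact Finset.prod_congr rfl fun a _ => mul_pow _ _ _
  rw [PowerSeries.coeff_C_mul, h1, PowerSeries.coeff_X_pow_mul']
  rcases lt_trichotomy (∑ a, α a) e with h | h | h
  · rw [hc h, if_neg h.ne, zero_mul]
  · rw [if_pos h.le, if_pos h, h, Nat.sub_self, PowerSeries.coeff_zero_eq_constantCoeff_apply,
      map_prod]
    simp only [map_pow]
  · rw [if_neg (by omega), if_neg h.ne', mul_zero]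

/-- Polynomials vanishing on `K ^ d`. -/
lemma JtD1_zero [CharZero K] {ι : Type} [Fintype ι] {d : ℕ} (s : ι → Fin d → ℕ)
    (hs : Function.Injective s) (c : ι → F)
    (h : ∀ y : Fin d → K, ∑ α, c α * ∏ a, algebraMap K F (y a) ^ s α a = 0) : ∀ α, c α = 0 := by
  set Q : MvPolynomial (Fin d) F :=
    ∑ α, MvPolynomial.monomial (Finsupp.equivFunOnFinite.symm (s α)) (c α) with hQ
  have h0 : Q = 0 := by
    refine MvPolynomial.funext_set (fun _ => Set.range (algebraMap K F)) (fun _ => ?_) ?_
    · exact Set.infinite_range_of_injective (algebraMap K F).injective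
    · intro x hx
      have hx' : ∀ a, ∃ y, algebraMap K F y = x a := fun a => hx a (Set.mem_univ a)
      choose y hy using hx'
      rw [map_zero, ← h y, hQ, map_sum]
      refine Finset.sum_congr rfl fun α _ => ?_
      rw [MvPolynomial.eval_monomial, Finsupp.prod_fintype _ _ (fun a => pow_zero _)]
      congr 1
      refine Finset.prod_congr rfl fun a _ => ?_
      rw [hy a]; rfl
  intro α
  have h1 : Q.coeff (Finsupp.equivFunOnFinite.symm (s α)) = c α := by
    rw [hQ, MvPolynomial.coeff_sum, Finset.sum_eq_single α]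
    · rw [MvPolynomial.coeff_monomial, if_pos rfl]
    · intro b _ hb
      rw [MvPolynomial.coeff_monomial, if_neg]
      intro h2
      exact hb (hs (Finsupp.equivFunOnFinite.symm.injective h2))
    · intro h2; exact absurd (Finset.mem_univ α) h2
  rw [← h1, h0, MvPolynomial.coeff_zero]

/-- The arithmetic. -/
lemma JtD1_arith (d T : ℕ) (hT : 1 ≤ T) : T ^ d ≤ d ^ d * ((T - 1) / d + 1) ^ d := by
  rcases Nat.eq_zero_or_pos d with rfl | hd
  · simp
  · rw [← mul_pow]
    refine Nat.pow_le_pow_left ?_ d
    have h1 := Nat.div_add_mod (T - 1) d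
    have h2 := Nat.mod_lt (T - 1) hd
    rw [mul_add, mul_one]
    omega

lemma JtD1_colength [CharZero K] {m : ℕ} (J : Finset (Fin m))
    (𝒲' : Submodule K (Fin m → K)) (hJ : ∀ β ∈ 𝒲', ∀ j ∈ J, β j = 0) {T : ℕ} (hT : 1 ≤ T)
    (u : Fin m → Pt W F) (hu : ∀ i, hc (u i) ≠ 0) {d : ℕ} (I : Fin d → Fin m)
    (hI2 : ∀ c : Fin d → K, ∃ β ∈ 𝒲', ∀ a, β (I a) = c a) :
    T ^ d ≤ d ^ d *
      Module.finrank F (MvPolynomial {i : Fin m // i ∉ J} F ⧸ qJ J 𝒲' T u) := by
  have hIJ : ∀ a, I a ∉ J := by
    intro a ha
    obtain ⟨β, hβ, h1⟩ := hI2 (fun _ => 1)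
    have h2 := h1 a
    rw [hJ β hβ _ ha] at h2
    exact zero_ne_one h2
  set T' := (T - 1) / d + 1 with hT'
  haveI := finite_qJ J 𝒲' T u
  let Y : Fin d → MvPolynomial {i : Fin m // i ∉ J} F := fun a =>
    MvPolynomial.X ⟨I a, hIJ a⟩ - MvPolynomial.C (xc (u (I a)))
  let s : (Fin d → Fin T') → Fin d → ℕ := fun α a => (α a).val
  have hs : Function.Injective s := by
    intro α α' h
    funext a
    exact Fin.ext (congrFun h a)
  let v : (Fin d → Fin T') → MvPolynomial {i : Fin m // i ∉ J} F ⧸ qJ J 𝒲' T u := fun α =>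
    Ideal.Quotient.mkₐ F _ (∏ a, Y a ^ s α a)
  have hli : LinearIndependent F v := by
    rw [Fintype.linearIndependent_iff]
    intro c hsum
    have hmem : ∑ α, MvPolynomial.C (c α) * ∏ a, Y a ^ s α a ∈ qJ J 𝒲' T u := by
      rw [← Ideal.Quotient.eq_zero_iff_mem, ← hsum, map_sum]
      refine Finset.sum_congr rfl fun α _ => ?_
      rw [← MvPolynomial.smul_eq_C_mul]
      exact map_smul (Ideal.Quotient.mkₐ F (qJ J 𝒲' T u)) _ _
    have hdvd : ∀ β ∈ 𝒲', (PowerSeries.X : PowerSeries F) ^ T ∣
        ∑ α, PowerSeries.C (c α) * ∏ a, (jX β u (I a) - PowerSeries.C (xc (u (I a)))) ^ s α a := by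
      intro β hβ
      unfold qJ at hmem
      rw [Submodule.mem_iInf] at hmem
      have h1 := hmem β
      rw [Submodule.mem_iInf] at h1
      have h2 := h1 hβ
      rw [Ideal.mem_comap, Ideal.mem_span_singleton] at h2
      convert h2 using 1
      rw [map_sum]
      refine Finset.sum_congr rfl fun α _ => ?_
      rw [map_mul, map_prod]
      have hC : ∀ z : F, jphi J β u (MvPolynomial.C z) = PowerSeries.C z := by
        intro z
        unfold jphi
        rw [MvPolynomial.aeval_C]; rfl
      rw [hC]
      congr 1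
      refine Finset.prod_congr rfl fun a _ => ?_
      rw [map_pow, map_sub, hC]
      congr 2
      unfold jphi
      rw [MvPolynomial.aeval_X]
    have key : ∀ n, ∀ α, ∑ a, s α a = n → c α = 0 := by
      intro n
      induction n using Nat.strong_induction_on with
      | _ n ih =>
        intro α hα
        have hn : n < T := by
          rw [← hα]
          have h1 : ∑ a, s α a ≤ ∑ _a : Fin d, (T - 1) / d :=
            Finset.sum_le_sum fun a _ => by
              have := (α a).isLt
              simp only [s]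
              omega
          rw [Finset.sum_const, Finset.card_univ, Fintype.card_fin, smul_eq_mul] at h1
          have h2 := Nat.mul_div_le (T - 1) d
          omega
        have h3 : ∀ y : Fin d → K, ∑ α', (if ∑ a, s α' a = n then
            c α' * ∏ a, hc (u (I a)) ^ s α' a else 0) *
              ∏ a, algebraMap K F (y a) ^ s α' a = 0 := by
          intro y
          obtain ⟨β, hβ, hβy⟩ := hI2 y
          have h4 := (PowerSeries.X_pow_dvd_iff.mp (hdvd β hβ)) n hn
          have hg : ∀ a, ∃ g : PowerSeries F, jX β u (I a) - PowerSeries.C (xc (u (I a))) =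
              PowerSeries.X * g ∧ PowerSeries.constantCoeff g =
                algebraMap K F (y a) * hc (u (I a)) := by
            intro a
            obtain ⟨g, hg1, hg2⟩ := JtD1_jx (W := W) (algebraMap K F (β (I a))) (xc (u (I a)))
              (hc (u (I a)))
            exact ⟨g, hg1, by rw [hg2, hβy a]⟩
          choose g hg1 hg2 using hg
          rw [map_sum] at h4
          refine Eq.trans ?_ h4
          refine Finset.sum_congr rfl fun α' _ => ?_
          simp only [hg1]
          rw [JtD1_coeff g (s α') n (c α') (fun h5 => ih _ h5 α' rfl)]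
          split_ifs with h6
          · simp only [hg2, mul_pow, Finset.prod_mul_distrib]
            ring
          · rw [zero_mul]
        have h7 := JtD1_zero s hs _ h3 α
        rw [if_pos hα] at h7
        rcases mul_eq_zero.mp h7 with h8 | h8
        · exact h8
        · exfalso
          rw [Finset.prod_eq_zero_iff] at h8
          obtain ⟨a, _, h9⟩ := h8
          exact pow_ne_zero _ (hu (I a)) h9
    intro α
    exact key _ α rfl
  have hcard := hli.fintype_card_le_finrank
  rw [Fintype.card_fun, Fintype.card_fin, Fintype.card_fin] at hcard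
  exact (JtD1_arith d T hT).trans (Nat.mul_le_mul_left _ hcard)

/-- Independence of the leading forms.  For `β ∈ 𝒲'` the image of
`f = ∑_α c_α ∏_a (X_(I a) - x_(I a))^(α a)` (a finite sum over exponents `α : Fin d → ℕ` with
`∑ α < T`) under `jphi J β u` has, in the least degree `e` in which some `c_α` is not zero, the
coefficient `∑_(|α| = e) c_α ∏_a (β_(I a) h_(I a))^(α a)`; if `f ∈ qJ` this is zero for all
`β ∈ 𝒲'`, i.e. for all values of the `β_(I a)` in the infinite field `K` (`exists_coords`), so all these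
`c_α` are zero (`MvPolynomial.funext`-type argument, coefficients in `F`: the polynomial
`∑ c_α h^α y^α` in `F[y]` vanishes on `K^d`, `MvPolynomial.eq_zero_of_eval_zero_at_prod_finset` or
induction).  The coordinates `I a` are not in `J` because `β` vanishes on `J` for all `β ∈ 𝒲'`.
Taking the exponents with all `α a < T'`, `T' = (T - 1) / d + 1` (so `∑ α ≤ T - 1`, `T ≤ d T'`), one gets
`T'^d` independent elements of the quotient. -/
theorem colength [CharZero K] [CharZero F] {m : ℕ} (J : Finset (Fin m))
    (𝒲' : Submodule K (Fin m → K)) (hJ : ∀ β ∈ 𝒲', ∀ j ∈ J, β j = 0) {T : ℕ} (hT : 1 ≤ T)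
    (u : Fin m → Pt W F) (hu : ∀ i, hc (u i) ≠ 0) :
    T ^ Module.finrank K 𝒲' ≤ Module.finrank K 𝒲' ^ Module.finrank K 𝒲' *
      Module.finrank F (MvPolynomial {i : Fin m // i ∉ J} F ⧸ qJ J 𝒲' T u) := by
  obtain ⟨I, hI, hI2⟩ := exists_coords 𝒲'
  exact JtD1_colength J 𝒲' hJ hT u hu I hI2

end PCL

end
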