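import Pool.Agent.W_52423f_h70.SbDefs

/-!
# Jets of points of an elliptic curve: definitions

`x' = h`, `h' = 6 x^2 + b₂ x + b₄` is the translation invariant derivation on the curve
`h^2 = 4 x^3 + b₂ x^2 + 2 b₄ x + b₆` (`h = 2 y + a₁ x + a₃`).
-/

open scoped Classical

noncomputable section

namespace PCL

variable {K : Type} [Field K]

/-- The derivation of `F[x, h]` (`x = X 0`, `h = X 1`) with `x ↦ h`, `h ↦ 6 x^2 + b₂ x + b₄`. -/
def D2 (W : WeierstrassCurve K) (F : Type) [Field F] [Algebra K F] :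
    Derivation F (MvPolynomial (Fin 2) F) (MvPolynomial (Fin 2) F) :=
  MvPolynomial.mkDerivation F
    ![MvPolynomial.X 1,
      6 * MvPolynomial.X 0 ^ 2 + MvPolynomial.C (algebraMap K F W.b₂) * MvPolynomial.X 0 +
        MvPolynomial.C (algebraMap K F W.b₄)]

/-- The power series `x(u + exp(β ε))` in `ε`, where `u` has the coordinates `x, h`. -/
def jx (W : WeierstrassCurve K) {F : Type} [Field F] [Algebra K F] (β x h : F) : PowerSeries F :=
  PowerSeries.mk fun n => β ^ n * (n.factorial : F)⁻¹ *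
    MvPolynomial.eval ![x, h] ((D2 W F)^[n] (MvPolynomial.X 0))

/-- The power series `h(u + exp(β ε))` in `ε`, where `u` has the coordinates `x, h`. -/
def jh (W : WeierstrassCurve K) {F : Type} [Field F] [Algebra K F] (β x h : F) : PowerSeries F :=
  PowerSeries.mk fun n => β ^ n * (n.factorial : F)⁻¹ *
    MvPolynomial.eval ![x, h] ((D2 W F)^[n] (MvPolynomial.X 1))

/-- The invariant derivation in the direction `β` of the polynomials in the coordinates `x_i, h_i` of
the points of the `m`-th power of the curve. -/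
def DW (W : WeierstrassCurve K) {m : ℕ} (β : Fin m → K) :
    Derivation K (MvPolynomial (Fin m ⊕ Fin m) K) (MvPolynomial (Fin m ⊕ Fin m) K) :=
  MvPolynomial.mkDerivation K
    (Sum.elim (fun i => MvPolynomial.C (β i) * MvPolynomial.X (Sum.inr i))
      (fun i => MvPolynomial.C (β i) * (6 * MvPolynomial.X (Sum.inl i) ^ 2 +
        MvPolynomial.C W.b₂ * MvPolynomial.X (Sum.inl i) + MvPolynomial.C W.b₄)))

variable {W : WeierstrassCurve K}

/-- The `x`-coordinates of `u + exp(β ε)`. -/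
def jX {F : Type} [Field F] [Algebra K F] {m : ℕ} (β : Fin m → K) (u : Fin m → Pt W F) :
    Fin m → PowerSeries F :=
  fun i => jx W (algebraMap K F (β i)) (xc (u i)) (hc (u i))

/-- The `h`-coordinates of `u + exp(β ε)`. -/
def jH {F : Type} [Field F] [Algebra K F] {m : ℕ} (β : Fin m → K) (u : Fin m → Pt W F) :
    Fin m → PowerSeries F :=
  fun i => jh W (algebraMap K F (β i)) (xc (u i)) (hc (u i))

/-- The multihomogenisation of `P` (degree `D` in each variable) at the points `(a_i : 1)`; for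
`a_i = x(u_i) ≠ 0` it is `∏ a_i ^ D * P(1/a_1, ..., 1/a_m)`. -/
def PX {R : Type} [CommRing R] [Algebra K R] {m : ℕ} (D : ℕ) (P : MvPolynomial (Fin m) K)
    (a : Fin m → R) : R :=
  hPol D P fun i => ![a i, 1]

/-- `P(1/x(u_1), ..., 1/x(u_m))` vanishes at the (affine) point `u` to order at least `T` in all the
directions of `𝒲`. -/
def VanJ {F : Type} [Field F] [Algebra K F] {m : ℕ} (𝒲 : Submodule K (Fin m → K)) (T D : ℕ)
    (P : MvPolynomial (Fin m) K) (u : Fin m → Pt W F) : Prop :=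
  ∀ β ∈ 𝒲, (PowerSeries.X : PowerSeries F) ^ T ∣ PX D P (jX β u)

/-- `w` lies in `Z_k`: its coordinates are different from those of the `γ(s)`, `s` in the box of size
`k S`, and `P` vanishes at `w + γ(s)` to order at least `k T + 1` along `𝒲`, for all these `s`. -/
def InZJ {n m : ℕ} (γ : (Fin n → ℤ) →+ (Fin m → Pt W K)) (𝒲 : Submodule K (Fin m → K))
    (S T D : ℕ) (P : MvPolynomial (Fin m) K) (k : ℕ) {F : Type} [Field F] [Algebra K F]
    (w : Fin m → Pt W F) : Prop :=
  (∀ s ∈ box n (k * S), ∀ i, w i ≠ emb F (γ s i)) ∧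
    ∀ s ∈ box n (k * S), VanJ 𝒲 (k * T + 1) D P (trw w (γ s))

/-- The statement `dim Z_k >= d`. -/
def QQJ {n m : ℕ} (γ : (Fin n → ℤ) →+ (Fin m → Pt W K)) (𝒲 : Submodule K (Fin m → K))
    (S T D : ℕ) (P : MvPolynomial (Fin m) K) (k d : ℕ) : Prop :=
  ∃ (F : Type) (_ : Field F) (_ : Algebra K F) (w : Fin m → Pt W F) (J : Finset (Fin m)),
    J.card = d ∧ HasIndep w J ∧ InZJ γ 𝒲 S T D P k w

/-- The `K`-span of the derivatives of order at most `k T` along `𝒲` of the polynomials
`fpol D P (γ s)`, `s` in the box of size `k S`. -/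
def FFJ {n m : ℕ} (γ : (Fin n → ℤ) →+ (Fin m → Pt W K)) (𝒲 : Submodule K (Fin m → K))
    (S T D : ℕ) (P : MvPolynomial (Fin m) K) (k : ℕ) :
    Submodule K (MvPolynomial (Fin m ⊕ Fin m) K) :=
  Submodule.span K {f | ∃ s ∈ box n (k * S), ∃ β ∈ 𝒲, ∃ i ≤ k * T,
    f = (DW W β)^[i] (fpol D P (γ s) fun _ => false)}

/-- The generators of the ideal to which Bezout's theorem is applied. -/
def GGJ {n m : ℕ} (γ : (Fin n → ℤ) →+ (Fin m → Pt W K)) (𝒲 : Submodule K (Fin m → K))
    (S T D : ℕ) (P : MvPolynomial (Fin m) K) (k B : ℕ) {F : Type} [Field F] [Algebra K F]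
    (J : Finset (Fin m)) (t : Fin m → F) : Set (MvPolynomial {i : Fin m // i ∉ J} F) :=
  {g | ∃ f ∈ FFJ γ 𝒲 S T D P k, ∃ N : MvPolynomial (Fin m) K, IsNrm W f N ∧
    (∀ i, N.degreeOf i ≤ B) ∧ g = spc J t N}

/-- The directions of `𝒲` with vanishing coordinates in `J`. -/
def WJ {m : ℕ} (𝒲 : Submodule K (Fin m → K)) (J : Finset (Fin m)) : Submodule K (Fin m → K) :=
  𝒲 ⊓ Submodule.pi (J : Set (Fin m)) fun _ => (⊥ : Submodule K K)

/-- The homomorphism from the polynomials in the variables outside `J` to the power series in `ε`: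
restriction to `u + exp(β ε)` (`β` vanishes on `J`). -/
def jphi {F : Type} [Field F] [Algebra K F] {m : ℕ} (J : Finset (Fin m)) (β : Fin m → K)
    (u : Fin m → Pt W F) : MvPolynomial {i : Fin m // i ∉ J} F →ₐ[F] PowerSeries F :=
  MvPolynomial.aeval fun i => jX β u i.1

/-- The ideal of the polynomials which vanish at `u` to order at least `T` in the directions of
`𝒲'`. -/
def qJ {F : Type} [Field F] [Algebra K F] {m : ℕ} (J : Finset (Fin m))
    (𝒲' : Submodule K (Fin m → K)) (T : ℕ) (u : Fin m → Pt W F) :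
    Ideal (MvPolynomial {i : Fin m // i ∉ J} F) :=
  ⨅ β ∈ 𝒲', (Ideal.span {(PowerSeries.X : PowerSeries F) ^ T}).comap (jphi J β u)

end PCL

end
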