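import Mathlib

/-!
# Linear algebra: algebraic vectors orthogonal to a stable subspace

`B` is an `m × m` matrix over `M` with `∏ (B - θ_i) = 0`, the `θ_i` distinct.  `c` is an `m × r` matrix over
`K ⊇ M` with `B c = c S`, with a left inverse.  The row vectors `ξ_b B^k`,
`b < μ`, span `M^m`.  Then the vectors `β` in `M^m` which lie in the column space of `c` over `K` form a
space of dimension at least `m - μ * min (m - r) d`.

Proof: let `π_i` be the Lagrange projections.  The kernel `N` of `c` (row vectors `a` with `a c = 0`) is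
stable under all `π_i`.  Let `I₀` be the set of the `i` with `N π_i ≠ 0`.  Vectors `a_i π_i ≠ 0`, `i ∈ I₀`, are
eigenvectors for distinct eigenvalues, so `|I₀| ≤ dim N = m - r`.  Every `β` with `π_i β = 0` for `i ∈ I₀` is
orthogonal to `N`, and the rank of `π_i` is at most `μ`, because its row space is spanned by the `ξ_b π_i`.
-/

set_option autoImplicit false

open scoped Classical

open Polynomial Matrix

noncomputable section

namespace PCL

variable {M : Type} [Field M] {m d : ℕ}

/-- The Lagrange projections. -/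
def laP (B : Matrix (Fin m) (Fin m) M) (θ : Fin d → M) (i : Fin d) :
    Matrix (Fin m) (Fin m) M := aeval B (Lagrange.basis Finset.univ θ i)

theorem laP_mul {B : Matrix (Fin m) (Fin m) M} {θ : Fin d → M}
    (hB : aeval B (∏ i, (X - C (θ i))) = 0) (i : Fin d) :
    laP B θ i * B = θ i • laP B θ i := by
  have h1 : Lagrange.basis Finset.univ θ i * (X - C (θ i)) =
      C (Lagrange.nodalWeight Finset.univ θ i) * ∏ j, (X - C (θ j)) := by
    rw [Lagrange.basis_eq_prod_sub_inv_mul_nodal_div (Finset.mem_univ i),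
      ← Lagrange.nodal_erase_eq_nodal_div (Finset.mem_univ i), ← Lagrange.nodal_eq,
      Lagrange.nodal_eq_mul_nodal_erase (Finset.mem_univ i)]
    ring
  have h2 : aeval B (Lagrange.basis Finset.univ θ i * (X - C (θ i))) = 0 := by
    rw [h1, map_mul, hB, mul_zero]
  rw [map_mul, map_sub, aeval_X, aeval_C, mul_sub, sub_eq_zero] at h2
  have h3 : laP B θ i * algebraMap M (Matrix (Fin m) (Fin m) M) (θ i) = θ i • laP B θ i := by
    rw [← Algebra.commutes, Algebra.smul_def]
  exact h2.trans h3

theorem laP_mul_pow {B : Matrix (Fin m) (Fin m) M} {θ : Fin d → M}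
    (hB : aeval B (∏ i, (X - C (θ i))) = 0) (i : Fin d) (k : ℕ) :
    B ^ k * laP B θ i = θ i ^ k • laP B θ i := by
  have hc : Commute B (laP B θ i) := by
    have h1 : Commute (aeval B (X : M[X])) (aeval B (Lagrange.basis Finset.univ θ i)) := by
      show aeval B (X : M[X]) * aeval B (Lagrange.basis Finset.univ θ i) =
        aeval B (Lagrange.basis Finset.univ θ i) * aeval B (X : M[X])
      rw [← map_mul, ← map_mul, mul_comm]
    rw [aeval_X] at h1
    exact h1
  induction k with
  | zero => rw [pow_zero, pow_zero, one_mul, one_smul]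
  | succ k ih =>
    rw [pow_succ, mul_assoc, hc.eq, ← mul_assoc, ih, Matrix.smul_mul, laP_mul hB, smul_smul,
      pow_succ]

theorem laP_sum (B : Matrix (Fin m) (Fin m) M) {θ : Fin d → M} (hθ : Function.Injective θ)
    (hd : 0 < d) : ∑ i, laP B θ i = 1 := by
  have : Nonempty (Fin d) := ⟨⟨0, hd⟩⟩
  have h1 := Lagrange.sum_basis (s := Finset.univ) (v := θ) hθ.injOn Finset.univ_nonempty
  unfold laP
  rw [← map_sum, h1, map_one]

theorem laP_rank {B : Matrix (Fin m) (Fin m) M} {θ : Fin d → M}
    (hB : aeval B (∏ i, (X - C (θ i))) = 0) {μ : ℕ} (ξ : Fin μ → Fin m → M)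
    (hξ : Submodule.span M {a | ∃ b k, a = ξ b ᵥ* B ^ k} = ⊤) (i : Fin d) :
    (laP B θ i).rank ≤ μ := by
  rw [← Matrix.rank_transpose]
  have hle : LinearMap.range (laP B θ i)ᵀ.mulVecLin ≤
      Submodule.span M (Set.range fun b => ξ b ᵥ* laP B θ i) := by
    rintro _ ⟨a, rfl⟩
    rw [Matrix.mulVecLin_apply, Matrix.mulVec_transpose]
    have ha : a ∈ Submodule.span M {a | ∃ b k, a = ξ b ᵥ* B ^ k} := by
      rw [hξ]
      exact Submodule.mem_top
    induction ha using Submodule.span_induction with
    | mem a ha =>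
      obtain ⟨b, k, rfl⟩ := ha
      rw [Matrix.vecMul_vecMul, laP_mul_pow hB, Matrix.vecMul_smul]
      exact Submodule.smul_mem _ _ (Submodule.subset_span ⟨b, rfl⟩)
    | zero =>
      rw [Matrix.zero_vecMul]
      exact Submodule.zero_mem _
    | add a a' _ _ h h' =>
      rw [Matrix.add_vecMul]
      exact Submodule.add_mem _ h h'
    | smul t a _ h =>
      rw [Matrix.smul_vecMul]
      exact Submodule.smul_mem _ _ h
  have h1 := Submodule.finrank_mono hle
  have h2 := finrank_range_le_card (R := M) (fun b => ξ b ᵥ* laP B θ i)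
  rw [Fintype.card_fin] at h2
  exact h1.trans h2

/-- The common kernel of some of the projections. -/
theorem la_ker {ι : Type} [Fintype ι] (A : ι → Matrix (Fin m) (Fin m) M) {μ : ℕ}
    (hA : ∀ i, (A i).rank ≤ μ) : ∃ W : Submodule M (Fin m → M),
      (∀ β, β ∈ W ↔ ∀ i, A i *ᵥ β = 0) ∧ m ≤ Module.finrank M W + μ * Fintype.card ι := by
  let f : (Fin m → M) →ₗ[M] ((i : ι) → LinearMap.range (A i).mulVecLin) :=
    LinearMap.pi fun i => (A i).mulVecLin.rangeRestrict
  refine ⟨LinearMap.ker f, ?_, ?_⟩
  · intro β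
    rw [LinearMap.mem_ker, funext_iff]
    refine forall_congr' fun i => ?_
    rw [Subtype.ext_iff]
    rfl
  · have h1 := LinearMap.finrank_range_add_finrank_ker f
    rw [Module.finrank_fin_fun] at h1
    have h2 : Module.finrank M (LinearMap.range f) ≤
        Module.finrank M ((i : ι) → LinearMap.range (A i).mulVecLin) :=
      Submodule.finrank_le _
    rw [Module.finrank_pi_fintype] at h2
    have h3 : ∑ i, Module.finrank M (LinearMap.range (A i).mulVecLin) ≤ ∑ _i : ι, μ :=
      Finset.sum_le_sum fun i _ => hA i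
    rw [Finset.sum_const, Finset.card_univ, smul_eq_mul, mul_comm] at h3
    omega

variable {K : Type} [Field K] (φ : M →+* K)

theorem la_aeval {r : ℕ} {B : Matrix (Fin m) (Fin m) M} {c : Matrix (Fin m) (Fin r) K}
    {S : Matrix (Fin r) (Fin r) K} (hS : B.map φ * c = c * S) (F : M[X]) :
    ∃ S' : Matrix (Fin r) (Fin r) K, (aeval B F).map φ * c = c * S' := by
  induction F using Polynomial.induction_on' with
  | add p q hp hq =>
    obtain ⟨S₁, h₁⟩ := hp
    obtain ⟨S₂, h₂⟩ := hq
    refine ⟨S₁ + S₂, ?_⟩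
    rw [map_add, Matrix.map_add _ (map_add φ), Matrix.add_mul, h₁, h₂, Matrix.mul_add]
  | monomial n t =>
    have h1 : ∀ n : ℕ, (B ^ n).map φ * c = c * S ^ n := by
      intro n
      induction n with
      | zero =>
        rw [pow_zero, pow_zero, Matrix.mul_one, Matrix.map_one _ (map_zero φ) (map_one φ),
          Matrix.one_mul]
      | succ n ih =>
        rw [pow_succ, Matrix.map_mul, Matrix.mul_assoc, hS, ← Matrix.mul_assoc, ih,
          Matrix.mul_assoc, pow_succ]
    refine ⟨φ t • S ^ n, ?_⟩
    rw [aeval_monomial, ← Algebra.smul_def, Matrix.map_smulₛₗ φ φ t (fun x => by simp),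
      Matrix.smul_mul, h1, Matrix.mul_smul]

/-- The main statement. -/
theorem la_main {B : Matrix (Fin m) (Fin m) M} {θ : Fin d → M} (hθ : Function.Injective θ)
    (hB : aeval B (∏ i, (X - C (θ i))) = 0) {μ : ℕ} (ξ : Fin μ → Fin m → M)
    (hξ : Submodule.span M {a | ∃ b k, a = ξ b ᵥ* B ^ k} = ⊤)
    {r : ℕ} (c : Matrix (Fin m) (Fin r) K) (S : Matrix (Fin r) (Fin r) K)
    (hS : B.map φ * c = c * S) (D : Matrix (Fin r) (Fin m) K) (hD : D * c = 1) :
    ∃ W : Submodule M (Fin m → M),
      (∀ β ∈ W, ∃ y : Fin r → K, ∀ j, φ (β j) = ∑ l, c j l * y l) ∧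
      m ≤ Module.finrank M W + μ * min (m - r) d := by
  rcases Nat.eq_zero_or_pos d with hd | hd
  · -- `d = 0`: `m = 0`
    subst hd
    have hm : m = 0 := by
      by_contra hm
      rw [Finset.univ_eq_empty, Finset.prod_empty, map_one] at hB
      have h1 := congrFun (congrFun hB ⟨0, Nat.pos_of_ne_zero hm⟩) ⟨0, Nat.pos_of_ne_zero hm⟩
      rw [Matrix.one_apply_eq, Matrix.zero_apply] at h1
      exact one_ne_zero h1
    subst hm
    exact ⟨⊤, fun β _ => ⟨0, fun j => j.elim0⟩, Nat.zero_le _⟩
  -- the set of the `i` which occur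
  let I₀ : Finset (Fin d) := Finset.univ.filter fun i =>
    ∃ a : Fin m → K, a ᵥ* c = 0 ∧ a ᵥ* (laP B θ i).map φ ≠ 0
  have hcard : I₀.card ≤ min (m - r) d := by
    refine le_min ?_ ?_
    · -- eigenvectors for distinct eigenvalues
      have hch : ∀ i : I₀, ∃ a : Fin m → K, a ᵥ* c = 0 ∧ a ᵥ* (laP B θ i).map φ ≠ 0 := fun i =>
        (Finset.mem_filter.1 i.2).2
      choose a ha ha' using hch
      let N : Submodule K (Fin m → K) := LinearMap.ker (Matrix.vecMulLinear c)
      have hN : Module.finrank K N ≤ m - r := by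
        have h1 := LinearMap.finrank_range_add_finrank_ker (Matrix.vecMulLinear c)
        rw [Module.finrank_fin_fun] at h1
        have h2 : LinearMap.range (Matrix.vecMulLinear c) = ⊤ := by
          rw [LinearMap.range_eq_top]
          intro y
          refine ⟨y ᵥ* D, ?_⟩
          rw [Matrix.vecMulLinear_apply, Matrix.vecMul_vecMul, hD, Matrix.vecMul_one]
        rw [h2, finrank_top, Module.finrank_fin_fun] at h1
        have h4 : Module.finrank K N = Module.finrank K (LinearMap.ker (Matrix.vecMulLinear c)) :=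
          rfl
        omega
      let w : I₀ → N := fun i => ⟨a i ᵥ* (laP B θ i).map φ, by
        rw [LinearMap.mem_ker, Matrix.vecMulLinear_apply, Matrix.vecMul_vecMul]
        obtain ⟨S', hS'⟩ := la_aeval φ hS (Lagrange.basis Finset.univ θ (i : Fin d))
        have h5 : (laP B θ i).map φ * c = c * S' := hS'
        rw [h5, ← Matrix.vecMul_vecMul, ha, Matrix.zero_vecMul]⟩
      have hli : LinearIndependent K fun i => ((w i : N) : Fin m → K) := by
        refine Module.End.eigenvectors_linearIndependent'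
          (Matrix.vecMulLinear (B.map φ) : Module.End K (Fin m → K))
          (fun i : I₀ => φ (θ i)) ?_ _ ?_
        · intro i j hij
          exact Subtype.ext (hθ (φ.injective hij))
        · intro i
          rw [Module.End.hasEigenvector_iff, Module.End.mem_eigenspace_iff]
          refine ⟨?_, ha' i⟩
          show (a i ᵥ* (laP B θ i).map φ) ᵥ* B.map φ = φ (θ i) • (a i ᵥ* (laP B θ i).map φ)
          rw [Matrix.vecMul_vecMul, ← Matrix.map_mul, laP_mul hB,
            Matrix.map_smulₛₗ φ φ (θ i) (fun x => by simp), Matrix.vecMul_smul]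
      have hli' : LinearIndependent K w := LinearIndependent.of_comp N.subtype hli
      have h6 := hli'.fintype_card_le_finrank
      rw [Fintype.card_coe] at h6
      exact h6.trans hN
    · have h1 := Finset.card_filter_le (Finset.univ : Finset (Fin d)) fun i =>
        ∃ a : Fin m → K, a ᵥ* c = 0 ∧ a ᵥ* (laP B θ i).map φ ≠ 0
      rwa [Finset.card_univ, Fintype.card_fin] at h1
  obtain ⟨W, hW, hWm⟩ := la_ker (fun i : I₀ => laP B θ i) (μ := μ)
    fun i => laP_rank hB ξ hξ i
  refine ⟨W, ?_, ?_⟩
  · intro β hβ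
    rw [hW] at hβ
    -- orthogonality
    have horth : ∀ a : Fin m → K, a ᵥ* c = 0 → a ⬝ᵥ (fun j => φ (β j)) = 0 := by
      intro a ha
      have h1 : (∑ i, (laP B θ i).map φ) *ᵥ (fun j => φ (β j)) = fun j => φ (β j) := by
        have h2 : ∑ i, (laP B θ i).map φ = (1 : Matrix (Fin m) (Fin m) K) := by
          have h3 := congrArg (fun A : Matrix (Fin m) (Fin m) M => φ.mapMatrix A)
            (laP_sum B hθ hd)
          simp only [map_sum, map_one] at h3
          exact h3
        rw [h2, Matrix.one_mulVec]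
      rw [← h1, Matrix.sum_mulVec, dotProduct_sum]
      refine Finset.sum_eq_zero fun i _ => ?_
      by_cases hi : i ∈ I₀
      · have h2 : (laP B θ i).map φ *ᵥ (fun j => φ (β j)) = fun j => φ ((laP B θ i *ᵥ β) j) := by
          funext j
          exact (RingHom.map_mulVec φ (laP B θ i) β j).symm
        rw [h2, hβ ⟨i, hi⟩]
        simp [dotProduct]
      · rw [dotProduct_mulVec]
        have h3 : a ᵥ* (laP B θ i).map φ = 0 := by
          by_contra h4
          exact hi (Finset.mem_filter.2 ⟨Finset.mem_univ i, a, ha, h4⟩)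
        rw [h3, zero_dotProduct]
    refine ⟨D *ᵥ fun j => φ (β j), fun j => ?_⟩
    have h1 := horth (((1 : Matrix (Fin m) (Fin m) K) - c * D) j) (by
      have h2 : (((1 : Matrix (Fin m) (Fin m) K) - c * D) j) ᵥ* c =
          (((1 : Matrix (Fin m) (Fin m) K) - c * D) * c) j := rfl
      rw [h2, Matrix.sub_mul, Matrix.one_mul, Matrix.mul_assoc, hD, Matrix.mul_one, sub_self]
      rfl)
    have h2 : (((1 : Matrix (Fin m) (Fin m) K) - c * D) j) ⬝ᵥ (fun j => φ (β j)) =
        (((1 : Matrix (Fin m) (Fin m) K) - c * D) *ᵥ fun j => φ (β j)) j := rfl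
    rw [h2, Matrix.sub_mulVec, Matrix.one_mulVec, ← Matrix.mulVec_mulVec, Pi.sub_apply,
      sub_eq_zero] at h1
    exact h1
  · rw [Fintype.card_coe] at hWm
    exact hWm.trans (Nat.add_le_add_left (Nat.mul_le_mul_left _ hcard) _)

/-- A left inverse of a matrix with independent columns. -/
theorem exists_left_inv {F : Type} [Field F] {r : ℕ} (c : Matrix (Fin m) (Fin r) F)
    (hc : LinearIndependent F c.transpose) : ∃ D : Matrix (Fin r) (Fin m) F, D * c = 1 := by
  have hinj : Function.Injective c.mulVecLin := by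
    rw [← LinearMap.ker_eq_bot, LinearMap.ker_eq_bot']
    intro y hy
    rw [Matrix.mulVecLin_apply, Matrix.mulVec_eq_sum] at hy
    rw [Fintype.linearIndependent_iff] at hc
    funext i
    exact hc y (by simpa using hy) i
  obtain ⟨g, hg⟩ := LinearMap.exists_leftInverse_of_injective c.mulVecLin
    (LinearMap.ker_eq_bot.2 hinj)
  refine ⟨LinearMap.toMatrix' g, ?_⟩
  have h1 := congrArg LinearMap.toMatrix' hg
  rw [LinearMap.toMatrix'_comp, LinearMap.toMatrix'_id] at h1
  rw [← h1]
  congr 1
  exact (LinearMap.toMatrix'_toLin' c).symm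

/-- The kernel is stable. -/
theorem exists_S {F : Type} [Field F] {r : ℕ} (A : Matrix (Fin m) (Fin m) F)
    (c : Matrix (Fin m) (Fin r) F) (D : Matrix (Fin r) (Fin m) F) (hD : D * c = 1)
    (hK : ∀ a : Fin m → F, a ᵥ* c = 0 → (a ᵥ* A) ᵥ* c = 0) : A * c = c * (D * A * c) := by
  have h0 : ∀ j, (((1 : Matrix (Fin m) (Fin m) F) - c * D) j) ᵥ* c = 0 := by
    intro j
    have h2 : (((1 : Matrix (Fin m) (Fin m) F) - c * D) j) ᵥ* c =
        (((1 : Matrix (Fin m) (Fin m) F) - c * D) * c) j := rfl
    rw [h2, Matrix.sub_mul, Matrix.one_mul, Matrix.mul_assoc, hD, Matrix.mul_one, sub_self]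
    rfl
  have h1 : ((1 : Matrix (Fin m) (Fin m) F) - c * D) * A * c = 0 := by
    funext j
    exact hK _ (h0 j)
  rw [Matrix.sub_mul, Matrix.sub_mul, Matrix.one_mul, sub_eq_zero] at h1
  rw [h1]
  simp only [Matrix.mul_assoc]

/-- The roots of a squarefree polynomial which splits. -/
theorem exists_roots {F : Type} [Field F] [CharZero F] (g : ℚ[X]) (hg : Squarefree g)
    (hs : (g.map (algebraMap ℚ F)).Splits) :
    ∃ θ : Fin g.natDegree → F, Function.Injective θ ∧
      ∃ a : F, a ≠ 0 ∧ g.map (algebraMap ℚ F) = C a * ∏ i, (X - C (θ i)) := by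
  have hg0 : g ≠ 0 := hg.ne_zero
  have hsep : (g.map (algebraMap ℚ F)).Separable :=
    (PerfectField.separable_iff_squarefree.2 hg).map
  have hnd := nodup_roots hsep
  have hcard : (g.map (algebraMap ℚ F)).roots.toFinset.card = g.natDegree := by
    rw [Multiset.toFinset_card_of_nodup hnd, ← hs.natDegree_eq_card_roots, natDegree_map]
  let e : Fin g.natDegree ≃ (g.map (algebraMap ℚ F)).roots.toFinset :=
    (finCongr hcard.symm).trans (Finset.equivFin _).symm
  refine ⟨fun i => e i, fun i j h => e.injective (Subtype.ext h),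
    (g.map (algebraMap ℚ F)).leadingCoeff, ?_, ?_⟩
  · rw [Ne, leadingCoeff_eq_zero]
    exact (Polynomial.map_ne_zero_iff (algebraMap ℚ F).injective).2 hg0
  · have h1 := hs.eq_prod_roots
    have h2 : (Multiset.map (fun a => X - C a) (g.map (algebraMap ℚ F)).roots).prod =
        ∏ i, (X - C ((e i : F))) := by
      have h3 : ∏ a ∈ (g.map (algebraMap ℚ F)).roots.toFinset, (X - C a) =
          (Multiset.map (fun a => X - C a) (g.map (algebraMap ℚ F)).roots).prod := by
        rw [Finset.prod_multiset_map_count]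
        refine Finset.prod_congr rfl fun a ha => ?_
        rw [Multiset.count_eq_one_of_mem hnd (Multiset.mem_toFinset.1 ha), pow_one]
      rw [← h3, ← Finset.prod_coe_sort]
      exact (e.prod_comp (fun a => X - C (a : F))).symm
    rw [← h2]
    exact h1

end PCL

end
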