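import Mathlib

/-!
# Integer matrices acting on powers of a group, and rational coordinates

* `lAct T P`: the integer matrix `T` acts on the vector `P` of elements of an abelian group `X`;
  `lActHom` is the ring homomorphism to the endomorphisms of `X^N`.
* `exists_kappa`: coordinates with values in a field of characteristic zero of the elements of a group `L` in which
  the independent elements `u_j` generate a subgroup with torsion quotient.
-/

set_option autoImplicit false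

open scoped Classical

open Polynomial Matrix

noncomputable section

namespace PCL

section act

variable {X : Type} [AddCommGroup X] {N : ℕ}

/-- The action of an integer matrix on `X^N`. -/
def lAct (T : Matrix (Fin N) (Fin N) ℤ) (P : Fin N → X) : Fin N → X := fun i => ∑ j, T i j • P j

theorem lAct_add (T : Matrix (Fin N) (Fin N) ℤ) (P Q : Fin N → X) :
    lAct T (P + Q) = lAct T P + lAct T Q := by
  funext i
  simp only [lAct, Pi.add_apply, smul_add, Finset.sum_add_distrib]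

theorem lAct_one (P : Fin N → X) : lAct 1 P = P := by
  funext i
  unfold lAct
  rw [Finset.sum_eq_single i]
  · rw [Matrix.one_apply_eq, one_smul]
  · intro j _ hj
    rw [Matrix.one_apply_ne (Ne.symm hj), zero_smul]
  · intro h
    exact absurd (Finset.mem_univ _) h

theorem lAct_mul (T U : Matrix (Fin N) (Fin N) ℤ) (P : Fin N → X) :
    lAct (T * U) P = lAct T (lAct U P) := by
  funext i
  simp only [lAct, Matrix.mul_apply, Finset.sum_smul, Finset.smul_sum, mul_smul]
  rw [Finset.sum_comm]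

/-- The ring homomorphism given by the action. -/
def lActHom (X : Type) [AddCommGroup X] (N : ℕ) :
    Matrix (Fin N) (Fin N) ℤ →+* Module.End ℤ (Fin N → X) where
  toFun T :=
    { toFun := lAct T
      map_add' := lAct_add T
      map_smul' := by
        intro n P
        funext i
        simp only [lAct, Pi.smul_apply, Finset.smul_sum, RingHom.id_apply]
        exact Finset.sum_congr rfl fun j _ => smul_comm _ _ _ }
  map_zero' := by
    apply LinearMap.ext
    intro P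
    funext i
    show ∑ j, (0 : Matrix (Fin N) (Fin N) ℤ) i j • P j = 0
    simp
  map_one' := by
    apply LinearMap.ext
    intro P
    exact lAct_one P
  map_add' := by
    intro T U
    apply LinearMap.ext
    intro P
    funext i
    show ∑ j, (T + U) i j • P j = ∑ j, T i j • P j + ∑ j, U i j • P j
    simp only [Matrix.add_apply, add_smul, Finset.sum_add_distrib]
  map_mul' := by
    intro T U
    apply LinearMap.ext
    intro P
    exact lAct_mul T U P

theorem lActHom_apply (T : Matrix (Fin N) (Fin N) ℤ) (P : Fin N → X) :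
    lActHom X N T P = lAct T P := rfl

theorem lActHom_aeval (T : Matrix (Fin N) (Fin N) ℤ) (F : ℤ[X]) :
    aeval (lActHom X N T) F = lActHom X N (aeval T F) :=
  aeval_algHom_apply (lActHom X N).toIntAlgHom T F

theorem lActHom_pow (T : Matrix (Fin N) (Fin N) ℤ) (k : ℕ) (P : Fin N → X) :
    (lActHom X N T ^ k) P = lAct (T ^ k) P := by
  rw [← map_pow]
  rfl

end act

section kappa

variable {G : Type} [AddCommGroup G] {L : AddSubgroup G} {m : ℕ}

/-- In a finitely generated group of rank `m`, independent elements `u_1, ..., u_m` generate a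
subgroup with torsion quotient. -/
theorem exists_rel (hfg : L.FG) (hm : Module.finrank ℤ L = m) (u : Fin m → G) (huL : ∀ j, u j ∈ L)
    (hind : ∀ t : Fin m → ℤ, ∑ j, t j • u j = 0 → t = 0) {P : G} (hP : P ∈ L) :
    ∃ n : ℤ, n ≠ 0 ∧ ∃ t : Fin m → ℤ, n • P = ∑ j, t j • u j := by
  have hfin : Module.Finite ℤ L :=
    Module.Finite.iff_addGroup_fg.2 ((AddGroup.fg_iff_addSubgroup_fg L).2 hfg)
  let w : Fin (m + 1) → L := Fin.cons ⟨P, hP⟩ fun j => ⟨u j, huL j⟩
  have h1 : ¬ LinearIndependent ℤ w := by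
    intro h
    have h2 := h.fintype_card_le_finrank
    rw [Fintype.card_fin, hm] at h2
    omega
  rw [Fintype.not_linearIndependent_iff] at h1
  obtain ⟨g, hg, i, hi⟩ := h1
  have h2 : g 0 • P + ∑ j, g (Fin.succ j) • u j = 0 := by
    have h3 := congrArg (fun x : L => (x : G)) hg
    simp only [Fin.sum_univ_succ, w, Fin.cons_zero, Fin.cons_succ, AddSubgroup.coe_add,
      AddSubgroup.val_finsetSum, AddSubgroup.coe_zsmul, AddSubgroup.coe_zero] at h3
    exact h3
  refine ⟨g 0, ?_, fun j => - g (Fin.succ j), ?_⟩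
  · intro h0
    rw [h0, zero_smul, zero_add] at h2
    have h3 := hind (fun j => g (Fin.succ j)) h2
    apply hi
    refine Fin.cases h0 (fun j => ?_) i
    exact congrFun h3 j
  · simp only [neg_smul, Finset.sum_neg_distrib]
    exact eq_neg_of_add_eq_zero_left h2

/-- Coordinates. -/
theorem exists_kappa (F : Type) [Field F] [CharZero F] (u : Fin m → G)
    (hind : ∀ t : Fin m → ℤ, ∑ j, t j • u j = 0 → t = 0)
    (hrel : ∀ P ∈ L, ∃ n : ℤ, n ≠ 0 ∧ ∃ t : Fin m → ℤ, n • P = ∑ j, t j • u j) :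
    ∃ κ : L →+ (Fin m → F), ∀ (P : L) (n : ℤ) (t : Fin m → ℤ),
      n • (P : G) = ∑ j, t j • u j → ∀ j, (n : F) * κ P j = t j := by
  choose n hn t ht using hrel
  have hkey : ∀ (P : L) (n' : ℤ) (t' : Fin m → ℤ), n' • (P : G) = ∑ j, t' j • u j →
      ∀ j, (n' : F) * ((t P.1 P.2 j : F) / (n P.1 P.2 : F)) = t' j := by
    intro P n' t' h j
    have h1 : ∑ j, (n' * t P.1 P.2 j - n P.1 P.2 * t' j) • u j = 0 := by
      simp only [sub_smul, Finset.sum_sub_distrib, mul_smul, ← Finset.smul_sum]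
      rw [← ht P.1 P.2, ← h, smul_comm, sub_self]
    have h2 := congrFun (hind _ h1) j
    simp only [Pi.zero_apply] at h2
    have h3 : (n' : F) * t P.1 P.2 j = n P.1 P.2 * t' j := by
      exact_mod_cast sub_eq_zero.1 h2
    have h4 : (n P.1 P.2 : F) ≠ 0 := by exact_mod_cast hn P.1 P.2
    field_simp
    exact h3
  refine ⟨AddMonoidHom.mk' (fun P j => (t P.1 P.2 j : F) / (n P.1 P.2 : F)) ?_, hkey⟩
  intro P Q
  funext j
  rw [Pi.add_apply]
  have h1 := hkey (P + Q) (n P.1 P.2 * n Q.1 Q.2)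
    (fun j => n Q.1 Q.2 * t P.1 P.2 j + n P.1 P.2 * t Q.1 Q.2 j) (by
      simp only [add_smul, Finset.sum_add_distrib, mul_smul, ← Finset.smul_sum]
      rw [← ht P.1 P.2, ← ht Q.1 Q.2, AddSubgroup.coe_add, smul_add, smul_add,
        smul_comm (n Q.1 Q.2) (n P.1 P.2)]) j
  have h2 : (n P.1 P.2 : F) ≠ 0 := by exact_mod_cast hn P.1 P.2
  have h3 : (n Q.1 Q.2 : F) ≠ 0 := by exact_mod_cast hn Q.1 Q.2
  push_cast at h1
  have h4 : ((n P.1 P.2 : F) * (n Q.1 Q.2 : F)) ≠ 0 := mul_ne_zero h2 h3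
  apply mul_left_cancel₀ h4
  refine h1.trans ?_
  field_simp

variable {F : Type} [Field F] [CharZero F] {u : Fin m → G} {κ : L →+ (Fin m → F)}

omit [CharZero F] in
theorem kappa_u (hκ : ∀ (P : L) (n : ℤ) (t : Fin m → ℤ),
      n • (P : G) = ∑ j, t j • u j → ∀ j, (n : F) * κ P j = t j)
    {j : Fin m} (hj : u j ∈ L) : κ ⟨u j, hj⟩ = Pi.single j 1 := by
  funext k
  have h1 := hκ ⟨u j, hj⟩ 1 (Pi.single j 1) (by
    rw [one_smul, Finset.sum_eq_single j]
    · rw [Pi.single_eq_same, one_smul]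
    · intro i _ hi
      rw [Pi.single_eq_of_ne hi, zero_smul]
    · intro h
      exact absurd (Finset.mem_univ _) h) k
  rw [Int.cast_one, one_mul] at h1
  rw [h1]
  by_cases hk : k = j
  · subst hk
    rw [Pi.single_eq_same, Pi.single_eq_same, Int.cast_one]
  · rw [Pi.single_eq_of_ne hk, Pi.single_eq_of_ne hk, Int.cast_zero]

/-- The matrix of a stable endomorphism. -/
theorem kappa_mul (hrel : ∀ P ∈ L, ∃ n : ℤ, n ≠ 0 ∧ ∃ t : Fin m → ℤ, n • P = ∑ j, t j • u j)
    (hκ : ∀ (P : L) (n : ℤ) (t : Fin m → ℤ),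
      n • (P : G) = ∑ j, t j • u j → ∀ j, (n : F) * κ P j = t j)
    (τ : Module.End ℤ G) (v : Fin m → L) (hv : ∀ j, (v j : G) = τ (u j)) (P Q : L)
    (hPQ : (Q : G) = τ P) :
    κ Q = κ P ᵥ* (Matrix.of fun j => κ (v j) : Matrix (Fin m) (Fin m) F) := by
  obtain ⟨n, hn, t, ht⟩ := hrel P P.2
  have hn' : (n : F) ≠ 0 := by exact_mod_cast hn
  have h1 : n • Q = ∑ j, t j • v j := by
    apply Subtype.ext
    rw [AddSubgroup.coe_zsmul, AddSubgroup.val_finsetSum, hPQ]
    simp only [AddSubgroup.coe_zsmul, hv]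
    rw [← map_zsmul, ht, map_sum]
    exact Finset.sum_congr rfl fun j _ => map_zsmul τ _ _
  have h2 := congrArg κ h1
  rw [map_zsmul, map_sum] at h2
  funext k
  apply mul_left_cancel₀ hn'
  have h3 := congrFun h2 k
  rw [Pi.smul_apply, zsmul_eq_mul, Finset.sum_apply] at h3
  rw [h3, Matrix.vecMul, dotProduct, Finset.mul_sum]
  refine Finset.sum_congr rfl fun j _ => ?_
  rw [map_zsmul, Pi.smul_apply, zsmul_eq_mul, ← mul_assoc, hκ P n t ht j]
  rfl

omit [CharZero F] in
theorem kappa_pow {τ : Module.End ℤ G} (hτ : ∀ P ∈ L, τ P ∈ L) {B : Matrix (Fin m) (Fin m) F}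
    (hB : ∀ P Q : L, (Q : G) = τ P → κ Q = κ P ᵥ* B) (n : ℕ) (P : L) :
    ∃ Q : L, (Q : G) = (τ ^ n) P ∧ κ Q = κ P ᵥ* B ^ n := by
  induction n with
  | zero =>
    refine ⟨P, rfl, ?_⟩
    rw [pow_zero, Matrix.vecMul_one]
  | succ n ih =>
    obtain ⟨Q, hQ, hk⟩ := ih
    refine ⟨⟨τ Q, hτ _ Q.2⟩, ?_, ?_⟩
    · rw [pow_succ']
      exact congrArg τ hQ
    · rw [hB Q _ rfl, hk, Matrix.vecMul_vecMul, ← pow_succ]

theorem kappa_aeval {τ : Module.End ℤ G} (hτ : ∀ P ∈ L, τ P ∈ L) {B : Matrix (Fin m) (Fin m) F}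
    (hB : ∀ P Q : L, (Q : G) = τ P → κ Q = κ P ᵥ* B) (f : ℤ[X]) (P : L) :
    ∃ Q : L, (Q : G) = (aeval τ f) P ∧ κ Q = κ P ᵥ* aeval B f := by
  induction f using Polynomial.induction_on' with
  | add f g hf hg =>
    obtain ⟨Q, hQ, hQ'⟩ := hf
    obtain ⟨R, hR, hR'⟩ := hg
    refine ⟨Q + R, ?_, ?_⟩
    · rw [AddSubgroup.coe_add, hQ, hR, map_add]
      rfl
    · rw [map_add, hQ', hR', map_add, Matrix.vecMul_add]
  | monomial n a =>
    obtain ⟨Q, hQ, hk⟩ := kappa_pow hτ hB n P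
    refine ⟨a • Q, ?_, ?_⟩
    · rw [AddSubgroup.coe_zsmul, hQ, aeval_monomial]
      show _ = ((algebraMap ℤ (Module.End ℤ G)) a) ((τ ^ n) (P : G))
      rw [Module.algebraMap_end_apply]
    · rw [map_zsmul, hk, aeval_monomial, ← Algebra.smul_def, Matrix.vecMul_smul]

theorem kappa_ann {τ : Module.End ℤ G} (hτ : ∀ P ∈ L, τ P ∈ L) {B : Matrix (Fin m) (Fin m) F}
    (hκ : ∀ (P : L) (n : ℤ) (t : Fin m → ℤ),
      n • (P : G) = ∑ j, t j • u j → ∀ j, (n : F) * κ P j = t j)
    (huL : ∀ j, u j ∈ L) (hB : ∀ P Q : L, (Q : G) = τ P → κ Q = κ P ᵥ* B) {f : ℤ[X]}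
    (hf : ∀ P ∈ L, (aeval τ f) P = 0) : aeval B f = 0 := by
  apply Matrix.ext
  intro j k
  obtain ⟨Q, hQ, hk⟩ := kappa_aeval hτ hB f ⟨u j, huL j⟩
  have h1 : Q = 0 := Subtype.ext (hQ.trans (hf _ (huL j)))
  rw [h1, map_zero, kappa_u hκ, Matrix.single_one_vecMul] at hk
  exact (congrFun hk k).symm

/-- The coordinates of the generators span. -/
theorem kappa_span {τ : Module.End ℤ G} (hτ : ∀ P ∈ L, τ P ∈ L) {B : Matrix (Fin m) (Fin m) F}
    (hκ : ∀ (P : L) (n : ℤ) (t : Fin m → ℤ),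
      n • (P : G) = ∑ j, t j • u j → ∀ j, (n : F) * κ P j = t j)
    (huL : ∀ j, u j ∈ L) (hB : ∀ P Q : L, (Q : G) = τ P → κ Q = κ P ᵥ* B) {μ : ℕ}
    (x : Fin μ → L)
    (hL : L ≤ AddSubgroup.closure {P | ∃ (b : Fin μ) (k : ℕ), P = (τ ^ k) (x b : G)}) :
    Submodule.span F {a | ∃ b k, a = κ (x b) ᵥ* B ^ k} = ⊤ := by
  have hmem : ∀ P ∈ AddSubgroup.closure {P | ∃ (b : Fin μ) (k : ℕ), P = (τ ^ k) (x b : G)},
      ∃ Q : L, (Q : G) = P ∧ κ Q ∈ Submodule.span F {a | ∃ b k, a = κ (x b) ᵥ* B ^ k} := by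
    intro P hP
    induction hP using AddSubgroup.closure_induction with
    | mem P hP =>
      obtain ⟨b, k, rfl⟩ := hP
      obtain ⟨Q, hQ, hk⟩ := kappa_pow hτ hB k (x b)
      exact ⟨Q, hQ, Submodule.subset_span ⟨b, k, hk⟩⟩
    | zero =>
      refine ⟨0, rfl, ?_⟩
      rw [map_zero]
      exact Submodule.zero_mem _
    | add P Q _ _ h h' =>
      obtain ⟨R, hR, hk⟩ := h
      obtain ⟨R', hR', hk'⟩ := h'
      refine ⟨R + R', ?_, ?_⟩
      · rw [AddSubgroup.coe_add, hR, hR']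
      · rw [map_add]
        exact Submodule.add_mem _ hk hk'
    | neg P _ h =>
      obtain ⟨R, hR, hk⟩ := h
      refine ⟨-R, ?_, ?_⟩
      · rw [AddSubgroup.coe_neg, hR]
      · rw [map_neg]
        exact Submodule.neg_mem _ hk
  rw [eq_top_iff]
  intro a _
  have h1 : a = ∑ j, a j • (Pi.single j 1 : Fin m → F) := by
    funext k
    rw [Finset.sum_apply, Finset.sum_eq_single k]
    · rw [Pi.smul_apply, Pi.single_eq_same, smul_eq_mul, mul_one]
    · intro j _ hj
      rw [Pi.smul_apply, Pi.single_eq_of_ne (Ne.symm hj), smul_zero]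
    · intro h
      exact absurd (Finset.mem_univ _) h
  rw [h1]
  refine Submodule.sum_mem _ fun j _ => Submodule.smul_mem _ _ ?_
  obtain ⟨Q, hQ, hk⟩ := hmem _ (hL (huL j))
  have h2 : Q = ⟨u j, huL j⟩ := Subtype.ext hQ
  rw [h2, kappa_u hκ (huL j)] at hk
  exact hk

end kappa

end PCL

end
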