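import Pool.Agent.W_52423f_v9.JtDefs
import Pool.Agent.W_52423f_h70.SbDeg

/-!
# Zero estimate with multiplicities: degrees
-/

open scoped Classical

noncomputable section

namespace PCL

variable {K : Type} [Field K] {W : WeierstrassCurve K}

lemma SjA_monomial {σ : Type} (s : σ →₀ ℕ) (c : K) (w : σ) :
    (MvPolynomial.monomial s c).degreeOf w ≤ s w := by
  by_cases hc : c = 0
  · rw [hc, map_zero, MvPolynomial.degreeOf_zero]; exact Nat.zero_le _
  · rw [MvPolynomial.degreeOf_monomial_eq s w hc]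

lemma SjA_der {σ : Type} (φ : σ → MvPolynomial σ K) (w : σ) (B : ℕ)
    (hB : ∀ v, (φ v).degreeOf w ≤ B) (f : MvPolynomial σ K) :
    (MvPolynomial.mkDerivation K φ f).degreeOf w ≤ f.degreeOf w + B := by
  conv_lhs => rw [← f.support_sum_monomial_coeff, map_sum]
  refine (MvPolynomial.degreeOf_sum_le _ _ _).trans (Finset.sup_le fun s hs => ?_)
  rw [MvPolynomial.mkDerivation_monomial, MvPolynomial.smul_eq_C_mul]
  refine (MvPolynomial.degreeOf_C_mul_le _ _ _).trans ?_
  unfold Finsupp.sum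
  refine (MvPolynomial.degreeOf_sum_le _ _ _).trans (Finset.sup_le fun v _ => ?_)
  dsimp only
  rw [smul_eq_mul]
  refine (MvPolynomial.degreeOf_mul_le _ _ _).trans (Nat.add_le_add ?_ (hB v))
  refine (SjA_monomial _ _ _).trans ?_
  refine le_trans ?_ (MvPolynomial.monomial_le_degreeOf w hs)
  rw [Finsupp.coe_tsub, Pi.sub_apply]
  exact Nat.sub_le _ _

lemma SjA_six {σ : Type} (v w : σ) (b0 b2 b4 : K) :
    (MvPolynomial.C b0 * (6 * MvPolynomial.X v ^ 2 + MvPolynomial.C b2 * MvPolynomial.X v +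
      MvPolynomial.C b4) : MvPolynomial σ K).degreeOf w ≤ if w = v then 2 else 0 := by
  refine (MvPolynomial.degreeOf_C_mul_le _ _ _).trans ?_
  have hX : (MvPolynomial.X v : MvPolynomial σ K).degreeOf w = if w = v then 1 else 0 := by
    rw [MvPolynomial.degreeOf_X]
  have e1 : (6 * MvPolynomial.X v ^ 2 : MvPolynomial σ K).degreeOf w ≤
      if w = v then 2 else 0 := by
    have h6 : (6 : MvPolynomial σ K) = MvPolynomial.C 6 := (map_ofNat _ 6).symm
    rw [h6]
    refine (MvPolynomial.degreeOf_C_mul_le _ _ _).trans ?_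
    refine (MvPolynomial.degreeOf_pow_le _ _ _).trans ?_
    rw [hX]
    split_ifs <;> simp
  have e2 : (MvPolynomial.C b2 * MvPolynomial.X v : MvPolynomial σ K).degreeOf w ≤
      if w = v then 2 else 0 := by
    refine (MvPolynomial.degreeOf_C_mul_le _ _ _).trans ?_
    rw [hX]
    split_ifs <;> simp
  have e3 : (MvPolynomial.C b4 : MvPolynomial σ K).degreeOf w ≤ if w = v then 2 else 0 := by
    rw [MvPolynomial.degreeOf_C]; exact Nat.zero_le _
  exact (MvPolynomial.degreeOf_add_le _ _ _).trans (max_le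
    ((MvPolynomial.degreeOf_add_le _ _ _).trans (max_le e1 e2)) e3)

/-- Degrees of `DW β f`.  `DW β f = ∑ v, (pderiv v f) * DW β (X v)` (`MvPolynomial.mkDerivation_apply` /
`MvPolynomial.mkDerivationₗ_monomial` and induction on `f`); differentiation does not increase degrees,
and `DW β (X (inl i))` is of degree `0, 1` in `x_i, h_i`, `DW β (X (inr i))` of degree `2, 0`. -/
theorem degreeOf_DW {m : ℕ} (β : Fin m → K) (f : MvPolynomial (Fin m ⊕ Fin m) K) (i : Fin m) :
    (DW W β f).degreeOf (Sum.inl i) ≤ f.degreeOf (Sum.inl i) + 2 ∧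
      (DW W β f).degreeOf (Sum.inr i) ≤ f.degreeOf (Sum.inr i) + 1 := by
  unfold DW
  refine ⟨SjA_der _ _ 2 (fun v => ?_) f, SjA_der _ _ 1 (fun v => ?_) f⟩
  · cases v with
    | inl j =>
      rw [Sum.elim_inl]
      refine (MvPolynomial.degreeOf_C_mul_le _ _ _).trans ?_
      rw [MvPolynomial.degreeOf_X]
      split_ifs <;> simp
    | inr j =>
      rw [Sum.elim_inr]
      refine (SjA_six _ _ _ _ _).trans ?_
      split_ifs <;> simp
  · cases v with
    | inl j =>
      rw [Sum.elim_inl]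
      refine (MvPolynomial.degreeOf_C_mul_le _ _ _).trans ?_
      rw [MvPolynomial.degreeOf_X]
      split_ifs <;> simp
    | inr j =>
      rw [Sum.elim_inr]
      refine (SjA_six _ _ _ _ _).trans ?_
      rw [if_neg (by simp)]
      exact Nat.zero_le _

lemma SjA_iter {m : ℕ} (β : Fin m → K) (f : MvPolynomial (Fin m ⊕ Fin m) K) (i : Fin m) (j : ℕ) :
    ((DW W β)^[j] f).degreeOf (Sum.inl i) ≤ f.degreeOf (Sum.inl i) + 2 * j ∧
      ((DW W β)^[j] f).degreeOf (Sum.inr i) ≤ f.degreeOf (Sum.inr i) + j := by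
  induction j with
  | zero => simp
  | succ j ih =>
    rw [Function.iterate_succ_apply']
    have h := degreeOf_DW (W := W) β ((DW W β)^[j] f) i
    exact ⟨by omega, by omega⟩

/-- Degrees of the elements of `FFJ`: `degreeOf_fpol`, `degreeOf_DW` (iterated), span induction as in
`degreeOf_FF`. -/
theorem degreeOf_FFJ {n m : ℕ} {γ : (Fin n → ℤ) →+ (Fin m → Pt W K)}
    {𝒲 : Submodule K (Fin m → K)} {S T D k : ℕ}
    {P : MvPolynomial (Fin m) K} (hdeg : ∀ i, P.degreeOf i ≤ D)
    {f : MvPolynomial (Fin m ⊕ Fin m) K} (hf : f ∈ FFJ γ 𝒲 S T D P k) (i : Fin m) :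
    f.degreeOf (Sum.inl i) ≤ 2 * D + 2 * (k * T) ∧ f.degreeOf (Sum.inr i) ≤ D + k * T := by
  induction hf using Submodule.span_induction with
  | mem f hf =>
    obtain ⟨s, hs, β, hβ, j, hj, rfl⟩ := hf
    have h1 := degreeOf_fpol hdeg (γ s) (fun _ => false) i
    have h2 := SjA_iter (W := W) β (fpol D P (γ s) fun _ => false) i j
    exact ⟨by omega, by omega⟩
  | zero => simp
  | add f g _ _ hf hg =>
    exact ⟨(MvPolynomial.degreeOf_add_le _ _ _).trans (max_le hf.1 hg.1),
      (MvPolynomial.degreeOf_add_le _ _ _).trans (max_le hf.2 hg.2)⟩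
  | smul a f _ hf =>
    rw [MvPolynomial.smul_eq_C_mul]
    exact ⟨(MvPolynomial.degreeOf_C_mul_le _ _ _).trans hf.1,
      (MvPolynomial.degreeOf_C_mul_le _ _ _).trans hf.2⟩

end PCL

end
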