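import Pool.Agent.W_52423f_v9.JtB
import Pool.Agent.W_52423f_v9.JtC

/-!
# Zero estimate with multiplicities: `Z_k` is cut out by `FFJ`
-/

open scoped Classical

noncomputable section

namespace PCL

variable {K : Type} [Field K] {W : WeierstrassCurve K} {F : Type} [Field F] [Algebra K F]

theorem SjB_zero_mem_box (n T : ℕ) : (0 : Fin n → ℤ) ∈ box n T := by
  unfold box
  rw [Fintype.mem_piFinset]
  intro i
  rw [Finset.mem_Icc, Pi.zero_apply]
  omega

theorem SjB_neg_mem_box {n T : ℕ} {s : Fin n → ℤ} (hs : s ∈ box n T) : -s ∈ box n T := by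
  unfold box at hs ⊢
  rw [Fintype.mem_piFinset] at hs ⊢
  intro i
  have h := hs i
  rw [Finset.mem_Icc] at h ⊢
  rw [Pi.neg_apply]
  omega

theorem SjB_ne_zero {n m T : ℕ} {γ : (Fin n → ℤ) →+ (Fin m → Pt W K)} {u : Fin m → Pt W F}
    (hu : ∀ s ∈ box n T, ∀ i, u i ≠ emb F (γ s i)) : ∀ i, u i ≠ 0 := by
  intro i h
  refine hu 0 (SjB_zero_mem_box n T) i ?_
  rw [h, map_zero, Pi.zero_apply, map_zero]

theorem SjB_ne_neg {n m T : ℕ} {γ : (Fin n → ℤ) →+ (Fin m → Pt W K)} {u : Fin m → Pt W F}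
    (hu : ∀ s ∈ box n T, ∀ i, u i ≠ emb F (γ s i)) {s : Fin n → ℤ} (hs : s ∈ box n T) :
    ∀ i, u i ≠ -emb F (γ s i) := by
  intro i h
  refine hu (-s) (SjB_neg_mem_box hs) i ?_
  rw [h, map_neg, Pi.neg_apply, map_neg]

theorem SjB_ev_add {R : Type} [CommRing R] [Algebra K R] {m : ℕ} (x y : Fin m → R)
    (f g : MvPolynomial (Fin m ⊕ Fin m) K) : ev x y (f + g) = ev x y f + ev x y g := by
  unfold ev
  exact map_add _ _ _

theorem SjB_ev_zero {R : Type} [CommRing R] [Algebra K R] {m : ℕ} (x y : Fin m → R) :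
    ev x y (0 : MvPolynomial (Fin m ⊕ Fin m) K) = 0 := by
  unfold ev
  exact map_zero _

theorem SjB_ev_smul {R : Type} [CommRing R] [Algebra K R] {m : ℕ} (x y : Fin m → R) (a : K)
    (f : MvPolynomial (Fin m ⊕ Fin m) K) : ev x y (a • f) = algebraMap K R a * ev x y f := by
  unfold ev
  rw [map_smul, Algebra.smul_def]

theorem SjB_cub_map {R S : Type} [CommRing R] [Algebra K R] [CommRing S] [Algebra K S]
    (φ : R →ₐ[K] S) (x : R) : φ (cub W x) = cub W (φ x) := by
  unfold cub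
  simp only [map_add, map_mul, map_pow, map_ofNat, AlgHom.commutes]

theorem SjB_ev_map {R S : Type} [CommRing R] [Algebra K R] [CommRing S] [Algebra K S] {m : ℕ}
    (φ : R →ₐ[K] S) (x y : Fin m → R) (f : MvPolynomial (Fin m ⊕ Fin m) K) :
    φ (ev x y f) = ev (fun i => φ (x i)) (fun i => φ (y i)) f := by
  unfold ev
  rw [MvPolynomial.comp_aeval_apply]
  congr 2
  funext i
  cases i <;> rfl

theorem SjB_fl_map {R S : Type} [CommRing R] [Algebra K R] [CommRing S] [Algebra K S] {m : ℕ}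
    (φ : R →ₐ[K] S) (ε : Fin m → Bool) (y : Fin m → R) :
    fl ε (fun i => φ (y i)) = fun i => φ (fl ε y i) := by
  funext i
  unfold fl
  cases ε i
  · simp
  · simp

/-- `fpol_jets` and `dvd_ev_jets`. -/
theorem vanJ_iff [CharZero K] [W.IsElliptic] {m D : ℕ} {P : MvPolynomial (Fin m) K}
    (hdeg : ∀ i, P.degreeOf i ≤ D) (κ : Fin m → Pt W K) (u : Fin m → Pt W F) (hu : ∀ i, u i ≠ 0)
    (h1 : ∀ i, u i ≠ emb F (κ i)) (h2 : ∀ i, u i ≠ -emb F (κ i)) (𝒲 : Submodule K (Fin m → K))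
    (N : ℕ) :
    VanJ 𝒲 N D P (trw u κ) ↔ ∀ β ∈ 𝒲, ∀ i < N,
      ev (fun i => xc (u i)) (fun i => hc (u i)) ((DW W β)^[i] (fpol D P κ fun _ => false)) = 0 := by
  have : CharZero F := charZero_of_injective_algebraMap (algebraMap K F).injective
  unfold VanJ
  refine forall₂_congr fun β _ => ?_
  obtain ⟨U, hU, hUe⟩ := fpol_jets hdeg κ u hu h1 h2 β
  rw [← dvd_ev_jets, hUe, hU.dvd_mul_left]

/-- For a point `u` whose coordinates are different from those of the `γ(s)`, `s` in the box: `u` is in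
`Z_k` iff all elements of `FFJ` vanish at `u` (`vanJ_iff`; the box is symmetric and contains `0`). -/
theorem inZJ_iff [CharZero K] [W.IsElliptic] {n m : ℕ} {γ : (Fin n → ℤ) →+ (Fin m → Pt W K)}
    {𝒲 : Submodule K (Fin m → K)} {S T D k : ℕ} {P : MvPolynomial (Fin m) K}
    (hdeg : ∀ i, P.degreeOf i ≤ D) (u : Fin m → Pt W F)
    (hu : ∀ s ∈ box n (k * S), ∀ i, u i ≠ emb F (γ s i)) :
    InZJ γ 𝒲 S T D P k u ↔ ∀ f ∈ FFJ γ 𝒲 S T D P k,
      ev (fun i => xc (u i)) (fun i => hc (u i)) f = 0 := by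
  have h0 := SjB_ne_zero hu
  constructor
  · intro h f hf
    unfold FFJ at hf
    induction hf using Submodule.span_induction with
    | mem f hf =>
      obtain ⟨s, hs, β, hβ, i, hi, rfl⟩ := hf
      exact (vanJ_iff hdeg (γ s) u h0 (hu s hs) (SjB_ne_neg hu hs) 𝒲 (k * T + 1)).1
        (h.2 s hs) β hβ i (Nat.lt_succ_of_le hi)
    | zero => exact SjB_ev_zero _ _
    | add f g _ _ hf hg => rw [SjB_ev_add, hf, hg, add_zero]
    | smul a f _ hf => rw [SjB_ev_smul, hf, mul_zero]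
  · intro h
    refine ⟨hu, fun s hs => ?_⟩
    rw [vanJ_iff hdeg (γ s) u h0 (hu s hs) (SjB_ne_neg hu hs) 𝒲 (k * T + 1)]
    intro β hβ i hi
    exact h _ (Submodule.subset_span ⟨s, hs, β, hβ, i, Nat.le_of_lt_succ hi, rfl⟩)

/-- Elements of `FFJ` vanish to high order at the points at which `P` vanishes to higher order.
`f` is a combination of `(DW β)^[i] (fpol D P (γ s))`, `i ≤ k T`; by `vanJ_iff` (for `N`) and `polar` the
derivatives `(DW β')^[n] (DW β)^[i] (fpol ..)`, `i + n < N`, vanish at `u`; then `dvd_ev_jets`. -/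
theorem FFJ_order [CharZero K] [W.IsElliptic] {n m : ℕ} {γ : (Fin n → ℤ) →+ (Fin m → Pt W K)}
    {𝒲 : Submodule K (Fin m → K)} {S T D k N : ℕ} {P : MvPolynomial (Fin m) K}
    (hdeg : ∀ i, P.degreeOf i ≤ D) (u : Fin m → Pt W F)
    (hu : ∀ s ∈ box n (k * S), ∀ i, u i ≠ emb F (γ s i))
    (hv : ∀ s ∈ box n (k * S), VanJ 𝒲 (k * T + N) D P (trw u (γ s)))
    {f : MvPolynomial (Fin m ⊕ Fin m) K} (hf : f ∈ FFJ γ 𝒲 S T D P k)
    {β : Fin m → K} (hβ : β ∈ 𝒲) :
    (PowerSeries.X : PowerSeries F) ^ N ∣ ev (jX β u) (jH β u) f := by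
  have : CharZero F := charZero_of_injective_algebraMap (algebraMap K F).injective
  have h0 := SjB_ne_zero hu
  unfold FFJ at hf
  induction hf using Submodule.span_induction with
  | mem f hf =>
    obtain ⟨s, hs, β', hβ', i, hi, rfl⟩ := hf
    have h1 := (vanJ_iff hdeg (γ s) u h0 (hu s hs) (SjB_ne_neg hu hs) 𝒲 (k * T + N)).1 (hv s hs)
    rw [dvd_ev_jets]
    intro j hj
    exact polar 𝒲 _ _ _ (k * T + N) h1 β' hβ' β hβ i j (by omega)
  | zero => rw [SjB_ev_zero]; exact dvd_zero _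
  | add f g _ _ hf hg => rw [SjB_ev_add]; exact dvd_add hf hg
  | smul a f _ hf => rw [SjB_ev_smul]; exact hf.mul_left _

/-- The norm of an element of `FFJ` vanishes to high order, too.  Apply `IsNrm` over the field of Laurent
series of `F` (`LaurentSeries F = HahnSeries ℤ F`, the ring of power series is embedded by
`HahnSeries.ofPowerSeries ℤ F`, an injective `K`-algebra homomorphism) to the jets of `u`
(`jets_curve`): `N(jX) = ∏ ε, f(jX, ± jH)`, the factor with `ε = false` is divisible by `ε^N`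
and the other factors are power series. -/
theorem nrm_order [CharZero K] [W.IsElliptic] {m N : ℕ} (u : Fin m → Pt W F) (hu : ∀ i, u i ≠ 0)
    {f : MvPolynomial (Fin m ⊕ Fin m) K} (β : Fin m → K)
    (hf : (PowerSeries.X : PowerSeries F) ^ N ∣ ev (jX β u) (jH β u) f)
    {Nm : MvPolynomial (Fin m) K} (hN : IsNrm W f Nm) :
    (PowerSeries.X : PowerSeries F) ^ N ∣ MvPolynomial.aeval (jX β u) Nm := by
  have : CharZero F := charZero_of_injective_algebraMap (algebraMap K F).injective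
  set φ : PowerSeries F →ₐ[K] HahnSeries ℤ F :=
    { HahnSeries.ofPowerSeries ℤ F with commutes' := fun _ => rfl } with hφ
  have hφi : Function.Injective φ := by
    have h1 : (φ : PowerSeries F → HahnSeries ℤ F) = HahnSeries.ofPowerSeries ℤ F := rfl
    rw [h1]
    exact HahnSeries.ofPowerSeries_injective
  have hcurve : ∀ i, φ (jH β u i) ^ 2 = cub W (φ (jX β u i)) := by
    intro i
    rw [← map_pow, ← SjB_cub_map]
    congr 1
    exact jets_curve _ (curve_eq (hu i))
  have h2 := hN (HahnSeries ℤ F) (fun i => φ (jX β u i)) (fun i => φ (jH β u i)) hcurve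
  have h3 : φ (MvPolynomial.aeval (jX β u) Nm) =
      φ (∏ ε : Fin m → Bool, ev (jX β u) (fl ε (jH β u)) f) := by
    rw [MvPolynomial.comp_aeval_apply, map_prod]
    refine Eq.trans h2 (Finset.prod_congr rfl fun ε _ => ?_)
    rw [SjB_fl_map, SjB_ev_map]
  rw [hφi h3]
  refine dvd_trans ?_ (Finset.dvd_prod_of_mem _ (Finset.mem_univ (fun _ : Fin m => false)))
  have h4 : fl (fun _ : Fin m => false) (jH β u) = jH β u := by
    funext i
    simp [fl]
  rw [h4]
  exact hf

end PCL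

end
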