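import Pool.Agent.W_52423f_v9.JtA
import Pool.Agent.W_52423f_h70.SbTop
import Pool.Agent.W_52423f_h70.SbChain

/-!
# Zero estimate with multiplicities: functoriality, the top and the bottom of the chain
-/

open scoped Classical

noncomputable section

namespace PCL

variable {K : Type} [Field K] {W : WeierstrassCurve K}

theorem SjC_box {n T : ℕ} {s : Fin n → ℤ} :
    s ∈ box n T ↔ ∀ j, -(T : ℤ) ≤ s j ∧ s j ≤ T := by
  simp [box, Fintype.mem_piFinset]

theorem SjC_box_mono {n T T' : ℕ} (h : T ≤ T') {s : Fin n → ℤ} (hs : s ∈ box n T) :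
    s ∈ box n T' := by
  rw [SjC_box] at hs ⊢
  intro j
  have h1 := hs j
  have h2 : (T : ℤ) ≤ T' := by exact_mod_cast h
  constructor <;> linarith

theorem SjC_van_mono {F : Type} [Field F] [Algebra K F] {m : ℕ} {𝒲 : Submodule K (Fin m → K)}
    {T T' D : ℕ} {P : MvPolynomial (Fin m) K} {u : Fin m → Pt W F} (h : T ≤ T')
    (hu : VanJ 𝒲 T' D P u) : VanJ 𝒲 T D P u :=
  fun β hβ => (pow_dvd_pow _ h).trans (hu β hβ)

/-- `PX` commutes with ring homomorphisms. -/
theorem PX_map {R R' : Type} [CommRing R] [Algebra K R] [CommRing R'] [Algebra K R'] {m : ℕ} (D : ℕ)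
    (P : MvPolynomial (Fin m) K) (φ : R →+* R') (hφ : ∀ c : K, φ (algebraMap K R c) = algebraMap K R' c)
    (a : Fin m → R) : φ (PX D P a) = PX D P fun i => φ (a i) := by
  unfold PX hPol
  rw [map_sum]
  refine Finset.sum_congr rfl fun α _ => ?_
  rw [map_mul, hφ, map_prod]
  congr 1
  refine Finset.prod_congr rfl fun i _ => ?_
  rw [map_mul, map_pow, map_pow]
  simp

/-- `VanJ` is invariant under homomorphisms of fields: `jx_map`, `PX_map`, and `X ^ T` divides a power
series iff it divides its image under the injective `PowerSeries.map`. -/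
theorem vanJ_mp {F F' : Type} [Field F] [Algebra K F] [Field F'] [Algebra K F'] {m : ℕ}
    (σ : F →ₐ[K] F') (𝒲 : Submodule K (Fin m → K)) (T D : ℕ) (P : MvPolynomial (Fin m) K)
    (w : Fin m → Pt W F) : VanJ 𝒲 T D P (fun j => mp σ (w j)) ↔ VanJ 𝒲 T D P w := by
  unfold VanJ
  refine forall₂_congr fun β _ => ?_
  have h1 : jX β (fun j => mp σ (w j)) = fun i => PowerSeries.map (σ : F →+* F') (jX β w i) := by
    funext i
    unfold jX
    rw [jx_map, xc_mp, hc_mp, AlgHom.commutes]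
  have h2 : PX D P (jX β fun j => mp σ (w j)) =
      PowerSeries.map (σ : F →+* F') (PX D P (jX β w)) := by
    rw [h1, PX_map D P (PowerSeries.map (σ : F →+* F'))]
    intro c
    rw [PowerSeries.algebraMap_apply, PowerSeries.algebraMap_apply, PowerSeries.map_C]
    congr 1
    exact σ.commutes c
  rw [h2, PowerSeries.X_pow_dvd_iff, PowerSeries.X_pow_dvd_iff]
  refine forall₂_congr fun j _ => ?_
  rw [PowerSeries.coeff_map]
  exact map_eq_zero σ

theorem inZJ_mp {F F' : Type} [Field F] [Algebra K F] [Field F'] [Algebra K F'] {n m : ℕ}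
    {γ : (Fin n → ℤ) →+ (Fin m → Pt W K)} {𝒲 : Submodule K (Fin m → K)} {S T D k : ℕ}
    {P : MvPolynomial (Fin m) K} (σ : F →ₐ[K] F') (w : Fin m → Pt W F) :
    InZJ γ 𝒲 S T D P k (fun j => mp σ (w j)) ↔ InZJ γ 𝒲 S T D P k w := by
  unfold InZJ
  refine and_congr ?_ ?_
  · refine forall₂_congr fun s _ => forall_congr' fun i => not_congr ?_
    rw [← mp_emb σ]
    exact (mp_injective σ).eq_iff
  · refine forall₂_congr fun s _ => ?_
    rw [← mp_trw, vanJ_mp]

/-- `Z_(k+1)` is contained in `Z_k`. -/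
theorem inZJ_mono {F : Type} [Field F] [Algebra K F] {n m : ℕ}
    {γ : (Fin n → ℤ) →+ (Fin m → Pt W K)} {𝒲 : Submodule K (Fin m → K)} {S T D k : ℕ}
    {P : MvPolynomial (Fin m) K} {w : Fin m → Pt W F} (h : InZJ γ 𝒲 S T D P (k + 1) w) :
    InZJ γ 𝒲 S T D P k w := by
  have hb : ∀ s ∈ box n (k * S), s ∈ box n ((k + 1) * S) := fun s hs =>
    SjC_box_mono (by rw [add_mul]; exact Nat.le_add_right _ _) hs
  exact ⟨fun s hs => h.1 s (hb s hs), fun s hs => SjC_van_mono
    (by rw [add_mul]; omega) (h.2 s (hb s hs))⟩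

/-- Translates of a point of `Z_(k+1)` by `γ(s)`, `s` in the box of size `S`: the coordinates are
different from those of the `γ(s')`, `s'` in the box of size `k S`, and the orders are at least
`(k + 1) T + 1` (as `inZ_trw`; `w_i + γ_i(s) = γ_i(s')` means `w_i = γ_i(s' - s)`). -/
theorem inZJ_trw {F : Type} [Field F] [Algebra K F] {n m : ℕ}
    {γ : (Fin n → ℤ) →+ (Fin m → Pt W K)} {𝒲 : Submodule K (Fin m → K)} {S T D k : ℕ}
    {P : MvPolynomial (Fin m) K} {w : Fin m → Pt W F} (h : InZJ γ 𝒲 S T D P (k + 1) w)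
    {s : Fin n → ℤ} (hs : s ∈ box n S) :
    (∀ s' ∈ box n (k * S), ∀ i, trw w (γ s) i ≠ emb F (γ s' i)) ∧
      ∀ s' ∈ box n (k * S), VanJ 𝒲 ((k + 1) * T + 1) D P (trw (trw w (γ s)) (γ s')) := by
  refine ⟨fun s' hs' i hi => ?_, fun s' hs' => ?_⟩
  · have h1 : w i = emb F (γ (s' - s) i) := by
      have h2 : w i + emb F (γ s i) = emb F (γ s' i) := hi
      rw [map_sub, Pi.sub_apply, map_sub, ← h2, add_sub_cancel_right]
    refine h.1 (s' - s) ?_ i h1
    rw [SjC_box] at hs hs' ⊢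
    intro j
    have h3 := hs j
    have h4 := hs' j
    rw [Pi.sub_apply]
    push_cast at h3 h4 ⊢
    constructor <;> linarith
  · rw [trw_trw, ← map_add]
    refine h.2 (s + s') ?_
    rw [SjC_box] at hs hs' ⊢
    intro j
    have h3 := hs j
    have h4 := hs' j
    rw [Pi.add_apply]
    push_cast at h3 h4 ⊢
    constructor <;> linarith

/-- The bottom: the point `γ(s*)`, `s* = (m S + 1, 0, ..., 0)`. -/
theorem qqJ_base {n m : ℕ} (hn : 0 < n) {γ : (Fin n → ℤ) →+ (Fin m → Pt W K)}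
    (hinj : ∀ s : Fin n → ℤ, s ≠ 0 → ∀ j, γ s j ≠ 0) {𝒲 : Submodule K (Fin m → K)} {S T D : ℕ}
    {P : MvPolynomial (Fin m) K}
    (hvan : ∀ s ∈ box n (2 * m * S + 1), s ≠ 0 → VanJ 𝒲 (m * T + 1) D P (γ s)) :
    QQJ γ 𝒲 S T D P m 0 := by
  obtain ⟨e, he⟩ : ∃ e : Fin n → ℤ, e = Pi.single ⟨0, hn⟩ ((m * S + 1 : ℕ) : ℤ) := ⟨_, rfl⟩
  have he0 : e ⟨0, hn⟩ = (m * S + 1 : ℕ) := by rw [he, Pi.single_eq_same]
  have hej : ∀ j, j ≠ ⟨0, hn⟩ → e j = 0 := fun j hj => by rw [he, Pi.single_eq_of_ne hj]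
  refine ⟨K, inferInstance, inferInstance, γ e, ∅, rfl, ?_, fun s hs i hi => ?_, fun s hs => ?_⟩
  · unfold HasIndep
    have : IsEmpty ((∅ : Finset (Fin m)) : Type) := by
      constructor
      rintro ⟨x, hx⟩
      simp at hx
    rw [algebraicIndependent_empty_type_iff]
    exact (algebraMap K K).injective
  · rw [emb_self] at hi
    rw [SjC_box] at hs
    refine hinj (e - s) (fun h0 => ?_) i ?_
    · have h1 := congrFun h0 ⟨0, hn⟩
      rw [Pi.sub_apply, he0, Pi.zero_apply] at h1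
      have h2 := (hs ⟨0, hn⟩).2
      push_cast at h1 h2
      linarith
    · rw [map_sub, Pi.sub_apply, hi, sub_self]
  · have h : trw (γ e) (γ s) = γ (e + s) := by
      funext j
      rw [map_add]
      simp [trw, emb_self]
    rw [h]
    rw [SjC_box] at hs
    refine hvan (e + s) ?_ fun h0 => ?_
    · rw [SjC_box]
      intro j
      have h1 := hs j
      rw [Pi.add_apply]
      by_cases hj : j = ⟨0, hn⟩
      · rw [hj] at h1 ⊢
        rw [he0]
        push_cast at h1 ⊢
        constructor <;> nlinarith [Nat.cast_nonneg (α := ℤ) (m * S)]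
      · rw [hej j hj]
        have h5 : (0 : ℤ) ≤ (m : ℤ) * S := by positivity
        push_cast at h1 ⊢
        constructor <;> linarith
    · have h1 := congrFun h0 ⟨0, hn⟩
      rw [Pi.add_apply, he0, Pi.zero_apply] at h1
      have h2 := (hs ⟨0, hn⟩).1
      push_cast at h1 h2
      linarith

/-- The top: `InZJ` with `k = 0` and `β = 0` says (constant coefficient) `PX D P (x(w)) = 0`, i.e.
`Van D P w`; `not_van_of_indep`. -/
theorem not_qqJ_top {n m : ℕ} {γ : (Fin n → ℤ) →+ (Fin m → Pt W K)}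
    {𝒲 : Submodule K (Fin m → K)} {S T D : ℕ} {P : MvPolynomial (Fin m) K} (hP : P ≠ 0)
    (hdeg : ∀ i, P.degreeOf i ≤ D) : ¬ QQJ γ 𝒲 S T D P 0 m := by
  rintro ⟨F, i1, i2, w, J, hJ, hw, hz⟩
  refine not_van_of_indep hP hdeg w J hJ hw ?_
  have h0 : ∀ i, w i ≠ 0 := by
    intro i hi
    refine hz.1 0 (zero_mem_box _ _) i ?_
    rw [map_zero, Pi.zero_apply, map_zero, hi]
  have h := hz.2 0 (zero_mem_box _ _) 0 𝒲.zero_mem
  have hcc : ∀ c : K, PowerSeries.constantCoeff (algebraMap K (PowerSeries F) c) =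
      algebraMap K F c := by
    intro c
    rw [PowerSeries.algebraMap_apply, PowerSeries.constantCoeff_C]
  rw [map_zero, trw_zero', zero_mul, zero_add, pow_one, PowerSeries.X_dvd_iff,
    PX_map (R := PowerSeries F) (R' := F) D P PowerSeries.constantCoeff hcc] at h
  · have h1 : (fun i => PowerSeries.constantCoeff (jX (W := W) (0 : Fin m → K) w i)) =
        fun i => xc (w i) := by
      funext i
      exact jx_const _ _ _
    rw [h1] at h
    have hx : (fun i => (w i).xRep) = fun i => ![xc (w i), 1] := by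
      funext i
      have h2 := h0 i
      revert h2
      cases w i with
      | zero => exact fun h2 => absurd rfl h2
      | some x y h => exact fun _ => rfl
    unfold Van
    rw [hx]
    exact h

/-- The choice of `k` and `d` (as `chain`). -/
theorem chainJ {n m : ℕ} (hn : 0 < n) {γ : (Fin n → ℤ) →+ (Fin m → Pt W K)}
    (hinj : ∀ s : Fin n → ℤ, s ≠ 0 → ∀ j, γ s j ≠ 0) {𝒲 : Submodule K (Fin m → K)} {S T D : ℕ}
    {P : MvPolynomial (Fin m) K} (hP : P ≠ 0) (hdeg : ∀ i, P.degreeOf i ≤ D)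
    (hvan : ∀ s ∈ box n (2 * m * S + 1), s ≠ 0 → VanJ 𝒲 (m * T + 1) D P (γ s)) :
    ∃ k d, k + d + 1 = m ∧ QQJ γ 𝒲 S T D P (k + 1) d ∧ ¬ QQJ γ 𝒲 S T D P k (d + 1) := by
  by_contra hcon
  push Not at hcon
  have key : ∀ d, d ≤ m → QQJ γ 𝒲 S T D P (m - d) d := by
    intro d
    induction d with
    | zero => intro _; simpa using qqJ_base hn hinj hvan
    | succ d ih =>
      intro hd
      have h1 := ih (by omega)
      have h2 := hcon (m - (d + 1)) d (by omega)
      have h3 : m - (d + 1) + 1 = m - d := by omega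
      rw [h3] at h2
      exact h2 h1
  have h := key m le_rfl
  rw [Nat.sub_self] at h
  exact not_qqJ_top hP hdeg h

/-- As `alg_of_not_qq`. -/
theorem alg_of_not_qqJ {n m : ℕ} {γ : (Fin n → ℤ) →+ (Fin m → Pt W K)}
    {𝒲 : Submodule K (Fin m → K)} {S T D k d : ℕ}
    {P : MvPolynomial (Fin m) K} (hQ : ¬ QQJ γ 𝒲 S T D P k (d + 1)) {F : Type} [Field F]
    [Algebra K F] (w : Fin m → Pt W F) (hw : InZJ γ 𝒲 S T D P k w) (J : Finset (Fin m))
    (hJ : J.card = d) (hind : HasIndep w J) (i : Fin m) : IsAlgebraic (xfield w J) (xc (w i)) := by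
  by_cases hi : i ∈ J
  · exact isAlgebraic_algebraMap
      (⟨xc (w i), IntermediateField.subset_adjoin _ _ ⟨i, hi, rfl⟩⟩ : xfield w J)
  · by_contra hc
    apply hQ
    have h1 : Transcendental (Algebra.adjoin K ((fun j => xc (w j)) '' (J : Set (Fin m))))
        (xc (w i)) := fun h => hc (IntermediateField.isAlgebraic_adjoin_iff.mpr h)
    have h2 : AlgebraicIndepOn K (fun j => xc (w j)) (J : Set (Fin m)) := hind
    have h3 := AlgebraicIndepOn.insert h2 h1
    rw [← Finset.coe_insert] at h3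
    exact ⟨F, _, _, w, insert i J, by rw [Finset.card_insert_of_notMem hi, hJ], h3, hw⟩

end PCL

end
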