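import Pool.Agent.W_52423f_v9.SjC
import Pool.Agent.W_52423f_h70.SbNice

/-!
# Zero estimate with multiplicities: choice of the field
-/

open scoped Classical

noncomputable section

namespace PCL

variable {K : Type} [Field K] {W : WeierstrassCurve K}

/-- As `exists_nice` (copy its proof; `inZ_mp`, `alg_of_not_qq` are replaced by `inZJ_mp`,
`inZJ_mono`, `alg_of_not_qqJ`). -/
theorem exists_niceJ [CharZero K] {n m : ℕ} {γ : (Fin n → ℤ) →+ (Fin m → Pt W K)}
    {𝒲 : Submodule K (Fin m → K)} {S T D k d : ℕ}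
    {P : MvPolynomial (Fin m) K} (hQ1 : QQJ γ 𝒲 S T D P (k + 1) d)
    (hQ2 : ¬ QQJ γ 𝒲 S T D P k (d + 1)) :
    ∃ (Ω : Type) (_ : Field Ω) (_ : Algebra K Ω) (w : Fin m → Pt W Ω) (J : Finset (Fin m)),
      IsAlgClosed Ω ∧ J.card = d ∧ IsTranscendenceBasis K (fun j : J => xc (w j)) ∧
      InZJ γ 𝒲 S T D P (k + 1) w := by
  obtain ⟨F, i1, i2, w, J, hJ, hind, hz⟩ := hQ1
  set φ : F →ₐ[K] AlgebraicClosure F := IsScalarTower.toAlgHom K F (AlgebraicClosure F) with hφ
  set w1 : Fin m → Pt W (AlgebraicClosure F) := fun j => mp φ (w j) with hw1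
  have hz1 : InZJ γ 𝒲 S T D P (k + 1) w1 := (inZJ_mp φ w).mpr hz
  have hz1k : InZJ γ 𝒲 S T D P k w1 := inZJ_mono hz1
  have hx1 : (fun j : J => xc (w1 j)) = φ ∘ (fun j : J => xc (w j)) := by
    funext j; exact xc_mp φ _
  have hind1 : HasIndep w1 J := by
    unfold HasIndep
    rw [hx1]
    exact AlgebraicIndependent.map' hind φ.injective
  have halg : ∀ i, IsAlgebraic (xfield w1 J) (xc (w1 i)) := fun i =>
    alg_of_not_qqJ hQ2 w1 hz1k J hJ hind1 i
  set L := xfield w1 J with hL
  set E := algebraicClosure L (AlgebraicClosure F) with hE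
  set Ω : IntermediateField K (AlgebraicClosure F) := E.restrictScalars K with hΩ
  have hmem : ∀ z : AlgebraicClosure F, z ∈ Ω ↔ IsAlgebraic L z := by
    intro z
    rw [hΩ, IntermediateField.mem_restrictScalars, hE, mem_algebraicClosure_iff]
  have hac : IsAlgClosed Ω := by
    exact SbNice_closed L (AlgebraicClosure F)
  have hw2 : ∀ i, ∃ p : Pt W Ω, mp Ω.val p = w1 i := fun i =>
    exists_mp_val Ω ⟨(hmem _).mpr (halg i), (hmem _).mpr (isAlgebraic_yc L (halg i))⟩
  choose w2 hw2 using hw2
  have hw2' : (fun j => mp Ω.val (w2 j)) = w1 := funext hw2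
  refine ⟨Ω, inferInstance, inferInstance, w2, J, hac, hJ, ?_, ?_⟩
  · have hx2 : (fun j : J => xc (w1 j)) = Ω.val ∘ (fun j : J => xc (w2 j)) := by
      funext j
      simp only [Function.comp_apply]
      rw [← hw2, xc_mp]
    have hind2 : AlgebraicIndependent K (fun j : J => xc (w2 j)) := by
      refine AlgebraicIndependent.of_comp Ω.val ?_
      rw [← hx2]
      exact hind1
    rw [hind2.isTranscendenceBasis_iff_isAlgebraic]
    constructor
    intro z
    by_contra hz
    have h1 := (hind2.option_iff_transcendental z).mpr hz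
    have h2 := AlgebraicIndependent.map' h1 (f := Ω.val) Ω.val.injective
    have h3 : (Ω.val ∘ fun o : Option J => o.elim z (fun j : J => xc (w2 j))) =
        fun o : Option J => o.elim (z : AlgebraicClosure F) (fun j : J => xc (w1 j)) := by
      funext o
      cases o with
      | none => rfl
      | some j =>
        have := congrFun hx2 j
        exact this.symm
    rw [h3] at h2
    have h4 := (hind1.option_iff_transcendental (z : AlgebraicClosure F)).mp h2
    apply h4
    have h5 := (hmem z).mp z.2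
    rw [hL, xfield, SbNice_alg] at h5
    have h6 : Set.range (fun j : J => xc (w1 j)) = (fun j => xc (w1 j)) '' (J : Set (Fin m)) := by
      ext y
      constructor
      · rintro ⟨j, rfl⟩
        exact ⟨j.1, j.2, rfl⟩
      · rintro ⟨j, hj, rfl⟩
        exact ⟨⟨j, hj⟩, rfl⟩
    rw [h6]
    exact h5
  · rw [← inZJ_mp Ω.val w2, hw2']
    exact hz1

end PCL

end
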