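import Pool.Agent.W_52423f_v9.SjA
import Pool.Agent.W_52423f_v9.SjB
import Pool.Agent.W_52423f_v9.SjC
import Pool.Agent.W_52423f_h70.SbMax
import Pool.Agent.W_52423f_h70.SbCnt

/-!
# Zero estimate with multiplicities: the points are isolated
-/

open scoped Classical

noncomputable section

namespace PCL

variable {K : Type} [Field K] {W : WeierstrassCurve K}

theorem SjE_xc_emb {F : Type} [Field F] [Algebra K F] (p : Pt W K) :
    xc (emb F p) = algebraMap K F (xc p) := xc_mp (Algebra.ofId K F) p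

theorem SjE_neg_box {n T : ℕ} {s : Fin n → ℤ} (hs : s ∈ box n T) : -s ∈ box n T := by
  unfold box at hs ⊢
  rw [Fintype.mem_piFinset] at hs ⊢
  intro i
  have h := hs i
  rw [Finset.mem_Icc] at h ⊢
  rw [Pi.neg_apply]
  constructor
  · linarith [h.2]
  · linarith [h.1]

/-- The main argument, for a field `F'` and a homomorphism with kernel `q`. -/
theorem SjE_core [CharZero K] [W.IsElliptic] {n m : ℕ}
    {γ : (Fin n → ℤ) →+ (Fin m → Pt W K)} {𝒲 : Submodule K (Fin m → K)} {S T D k B : ℕ}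
    {P : MvPolynomial (Fin m) K} (hdeg : ∀ i, P.degreeOf i ≤ D)
    (hB : 2 ^ m * (2 * D + 2 * (k * T)) + 3 * (2 ^ m * (D + k * T)) ≤ B)
    {Ω : Type} [Field Ω] [Algebra K Ω] [IsAlgClosed Ω]
    (w : Fin m → Pt W Ω) (J : Finset (Fin m)) (hQ : ¬ QQJ γ 𝒲 S T D P k (J.card + 1))
    (hind : HasIndep w J) (b : Fin m → Pt W Ω)
    (hb : ∀ s ∈ box n (k * S), ∀ i, b i ≠ emb Ω (γ s i)) (hbJ : ∀ j ∈ J, xc (b j) = xc (w j))
    (q : Ideal (MvPolynomial {i : Fin m // i ∉ J} Ω))
    (hqb : q ≤ mI fun i : {i : Fin m // i ∉ J} => xc (b i.1))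
    (hGG : GGJ γ 𝒲 S T D P k B J (fun j => xc (w j)) ⊆
      (q : Set (MvPolynomial {i : Fin m // i ∉ J} Ω)))
    {F' : Type} [Field F'] [Algebra K F'] [Algebra Ω F'] [IsScalarTower K Ω F'] [IsAlgClosed F']
    (φ : MvPolynomial {i : Fin m // i ∉ J} Ω →ₐ[Ω] F') (hφ : ∀ r, φ r = 0 ↔ r ∈ q) :
    q.IsMaximal := by
  have hx0 : ∃ x : Fin m → F', ∀ i, x i = if h : i ∈ J then algebraMap Ω F' (xc (w i)) else
      φ (MvPolynomial.X ⟨i, h⟩) := ⟨_, fun _ => rfl⟩
  obtain ⟨x, hx⟩ := hx0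
  obtain ⟨y, hy⟩ := exists_y W x
  have h1 : ∀ f ∈ FFJ γ 𝒲 S T D P k, ∃ N : MvPolynomial (Fin m) K, IsNrm W f N ∧
      MvPolynomial.aeval x N = 0 := by
    intro f hf
    obtain ⟨N, hN1, hN2⟩ := exists_nrm W f (2 * D + 2 * (k * T)) (D + k * T)
      (fun i => (degreeOf_FFJ hdeg hf i).1) (fun i => (degreeOf_FFJ hdeg hf i).2)
    refine ⟨N, hN2, ?_⟩
    rw [aeval_spc J (fun j => xc (w j)) φ x hx N, hφ]
    exact hGG ⟨f, hf, N, hN2, fun i => (hN1 i).trans hB, rfl⟩
  obtain ⟨ε, hε⟩ := exists_sign (FFJ γ 𝒲 S T D P k) x y hy h1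
  have hsq : ∀ i, fl ε y i ^ 2 = cub W (x i) := by
    intro i
    rw [← hy i]
    unfold fl
    split_ifs <;> ring
  have hpt := fun i => exists_pt (W := W) (hsq i)
  choose u hu0 hux huh using hpt
  have hux' : (fun i => xc (u i)) = x := funext hux
  have huh' : (fun i => hc (u i)) = fl ε y := funext huh
  -- the coordinates of `u` are different from those of the `γ(s)`
  have hb0 : ∀ i, b i ≠ 0 := by
    intro i h
    apply hb 0 (zero_mem_box _ _) i
    rw [h, map_zero, Pi.zero_apply, map_zero]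
  have hune : ∀ s ∈ box n (k * S), ∀ i, u i ≠ emb F' (γ s i) := by
    intro s hs i hui
    have h0 : emb Ω (γ s i) ≠ 0 := by
      intro h0
      have h2 : γ s i = 0 := emb_injective (F := Ω) (by rw [h0, map_zero])
      apply hu0 i
      rw [hui, h2, map_zero]
    have hxi : x i = algebraMap Ω F' (xc (emb Ω (γ s i))) := by
      rw [← hux i, hui, SjE_xc_emb, SjE_xc_emb, ← IsScalarTower.algebraMap_apply]
    have hbi : xc (b i) = xc (emb Ω (γ s i)) := by
      by_cases hi : i ∈ J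
      · rw [hbJ i hi]
        rw [hx i, dif_pos hi] at hxi
        exact (algebraMap Ω F').injective hxi
      · rw [hx i, dif_neg hi] at hxi
        have h2 : MvPolynomial.X ⟨i, hi⟩ - MvPolynomial.C (xc (emb Ω (γ s i))) ∈ q := by
          rw [← hφ, map_sub, hxi, ← MvPolynomial.algebraMap_eq, AlgHom.commutes, sub_self]
        have h3 := hqb h2
        unfold mI at h3
        rw [RingHom.mem_ker, map_sub, MvPolynomial.eval_X, MvPolynomial.eval_C, sub_eq_zero] at h3
        exact h3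
    rcases eq_or_neg (hb0 i) h0 hbi with h2 | h2
    · exact hb s hs i h2
    · apply hb (-s) (SjE_neg_box hs) i
      rw [h2, map_neg, Pi.neg_apply, map_neg]
  have hZ : InZJ γ 𝒲 S T D P k u := by
    rw [inZJ_iff hdeg u hune, hux', huh']
    exact hε
  let σ : Ω →ₐ[K] F' := IsScalarTower.toAlgHom K Ω F'
  have hσ : ∀ a, σ a = algebraMap Ω F' a := fun a => rfl
  have huJ : ∀ j ∈ J, xc (u j) = σ (xc (w j)) := by
    intro j hj
    rw [hux j, hx j, dif_pos hj, hσ]
  have hindu : HasIndep u J := by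
    have h := hind.map' (f := σ) σ.toRingHom.injective
    have h2 : (fun j : J => xc (u j)) = σ ∘ (fun j : J => xc (w j)) := by
      funext j
      exact huJ j j.2
    unfold HasIndep
    rw [h2]
    exact h
  have hL : xfield u J ≤ σ.fieldRange := by
    unfold xfield
    rw [IntermediateField.adjoin_le_iff]
    rintro _ ⟨j, hj, rfl⟩
    exact ⟨xc (w j), (huJ j hj).symm⟩
  have ha : ∀ i, ∃ a : Ω, σ a = x i := by
    intro i
    have h := alg_of_not_qqJ hQ u hZ J rfl hindu i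
    rw [hux i] at h
    exact SbMax_mem_range σ (xfield u J) hL (x i) h
  choose a ha using ha
  let E : MvPolynomial {i : Fin m // i ∉ J} Ω →ₐ[Ω] Ω := MvPolynomial.aeval fun i => a i.1
  have hE : ∀ r, φ r = algebraMap Ω F' (E r) := by
    intro r
    have h : φ = (Algebra.ofId Ω F').comp E := by
      apply MvPolynomial.algHom_ext
      intro i
      have h5 := hx i.1
      rw [dif_neg i.2] at h5
      simp only [AlgHom.coe_comp, Function.comp_apply, E, MvPolynomial.aeval_X]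
      rw [Algebra.ofId_apply, ← hσ, ha i.1, h5]
    rw [h]
    rfl
  have hqE : q = RingHom.ker E := by
    ext r
    rw [RingHom.mem_ker, ← hφ, hE r]
    exact map_eq_zero _
  rw [hqE]
  exact RingHom.ker_isMaximal_of_surjective E fun c => ⟨MvPolynomial.C c, by simp [E]⟩

/-- Every prime ideal which contains `GGJ` and is contained in the maximal ideal of a point `b` (with
coordinates different from those of the `γ(s)`) is maximal.  Copy the proofs of `SbMax_core` and
`isMaximal_of_GG`; `degreeOf_FFJ` and `exists_nrm` with `a = 2 D + 2 k T`, `b = D + k T` give the degree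
bound `B`; `inZJ_iff` needs that the coordinates of the point `u` over `F'` are different from those of the
`γ(s)`, `s` in the box of size `k S`: if `u_i = γ_i(s)` then (`u_i ≠ 0`) `x(u_i) = x(γ_i(s))`, i.e. for
`i ∉ J` the polynomial `X_i - x(γ_i(s))` is in `q ≤ mI b`, so `x(b_i) = x(γ_i(s))`, and for `i ∈ J` also
`x(b_i) = x(w_i) = x(γ_i(s))`; hence `b_i = ± γ_i(s) = γ_i(± s)`, contradiction. -/
theorem isMaximal_of_GGJ [CharZero K] [W.IsElliptic] {n m : ℕ}
    {γ : (Fin n → ℤ) →+ (Fin m → Pt W K)} {𝒲 : Submodule K (Fin m → K)} {S T D k B : ℕ}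
    {P : MvPolynomial (Fin m) K} (hdeg : ∀ i, P.degreeOf i ≤ D)
    (hB : 2 ^ m * (2 * D + 2 * (k * T)) + 3 * (2 ^ m * (D + k * T)) ≤ B)
    {Ω : Type} [Field Ω] [Algebra K Ω] [IsAlgClosed Ω]
    (w : Fin m → Pt W Ω) (J : Finset (Fin m)) (hQ : ¬ QQJ γ 𝒲 S T D P k (J.card + 1))
    (hind : HasIndep w J) (b : Fin m → Pt W Ω)
    (hb : ∀ s ∈ box n (k * S), ∀ i, b i ≠ emb Ω (γ s i)) (hbJ : ∀ j ∈ J, xc (b j) = xc (w j))
    (q : Ideal (MvPolynomial {i : Fin m // i ∉ J} Ω)) (hq : q.IsPrime)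
    (hqb : q ≤ mI fun i : {i : Fin m // i ∉ J} => xc (b i.1))
    (hGG : GGJ γ 𝒲 S T D P k B J (fun j => xc (w j)) ⊆
      (q : Set (MvPolynomial {i : Fin m // i ∉ J} Ω))) :
    q.IsMaximal := by
  have : q.IsPrime := hq
  have : IsDomain (MvPolynomial {i : Fin m // i ∉ J} Ω ⧸ q) := Ideal.Quotient.isDomain q
  let Q := MvPolynomial {i : Fin m // i ∉ J} Ω ⧸ q
  let F' := AlgebraicClosure (FractionRing Q)
  let φ : MvPolynomial {i : Fin m // i ∉ J} Ω →ₐ[Ω] F' :=
    (IsScalarTower.toAlgHom Ω Q F').comp (Ideal.Quotient.mkₐ Ω q)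
  refine SjE_core hdeg hB w J hQ hind b hb hbJ q hqb hGG (F' := F') φ ?_
  intro r
  have h1 : φ r = algebraMap Q F' (Ideal.Quotient.mk q r) := rfl
  have h2 : Function.Injective (algebraMap Q F') := by
    rw [IsScalarTower.algebraMap_eq Q (FractionRing Q) F']
    exact (algebraMap (FractionRing Q) F').injective.comp (IsFractionRing.injective Q _)
  rw [h1, map_eq_zero_iff _ h2, Ideal.Quotient.eq_zero_iff_mem]

end PCL

end
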