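import Pool.Agent.W_52423f_v9.SjE
import Pool.Agent.W_52423f_v9.JtD1
import Pool.Agent.W_52423f_v9.BmMain

/-!
# Zero estimate with multiplicities: the number of points of a fibre
-/

open scoped Classical

noncomputable section

namespace PCL

/-- The ideal of the jets of order `T ≥ 1` is contained in the maximal ideal of the point. -/
theorem SjF_qJ_le {K : Type} [Field K] {W : WeierstrassCurve K} {F : Type} [Field F] [Algebra K F]
    {m : ℕ} (J : Finset (Fin m)) (𝒲' : Submodule K (Fin m → K)) {T : ℕ} (hT : 1 ≤ T)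
    (u : Fin m → Pt W F) :
    qJ J 𝒲' T u ≤ mI fun i : {i : Fin m // i ∉ J} => xc (u i.1) := by
  intro f hf
  have h1 : f ∈ (Ideal.span {(PowerSeries.X : PowerSeries F) ^ T}).comap (jphi J (0 : Fin m → K) u) := by
    unfold qJ at hf
    rw [Submodule.mem_iInf] at hf
    have h2 := hf 0
    rw [Submodule.mem_iInf] at h2
    exact h2 (Submodule.zero_mem _)
  rw [Ideal.mem_comap, Ideal.mem_span_singleton] at h1
  have h3 : PowerSeries.X ∣ jphi J (0 : Fin m → K) u f := (dvd_pow_self _ (by omega)).trans h1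
  rw [PowerSeries.X_dvd_iff] at h3
  show MvPolynomial.eval _ f = 0
  rw [← h3]
  have h4 : (MvPolynomial.eval fun i : {i : Fin m // i ∉ J} => xc (u i.1)) =
      (PowerSeries.constantCoeff (R := F)).comp (jphi J (0 : Fin m → K) u).toRingHom := by
    apply MvPolynomial.ringHom_ext
    · intro r
      simp [jphi]
    · intro i
      simp [jphi, jX, jx_const]
  rw [h4]
  rfl

/-- The generators of the ideal of a fibre are contained in the ideals of jets. -/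
theorem SjF_span_le {K : Type} [Field K] [CharZero K] {W : WeierstrassCurve K} [W.IsElliptic]
    {n m : ℕ} {γ : (Fin n → ℤ) →+ (Fin m → Pt W K)} {𝒲 : Submodule K (Fin m → K)} {S D k B : ℕ}
    {P : MvPolynomial (Fin m) K} (hdeg : ∀ i, P.degreeOf i ≤ D) {Ω : Type} [Field Ω] [Algebra K Ω]
    (w : Fin m → Pt W Ω) (J : Finset (Fin m)) (b : Fin m → Pt W Ω)
    (hb0 : ∀ i, b i ≠ 0) (hb1 : ∀ s ∈ box n (k * S), ∀ i, b i ≠ emb Ω (γ s i))
    (hb2 : ∀ s ∈ box n (k * S), VanJ 𝒲 ((k + 1) * D + 1) D P (trw b (γ s)))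
    (hb3 : ∀ j ∈ J, xc (b j) = xc (w j)) :
    Ideal.span (GGJ γ 𝒲 S D D P k B J (fun j => xc (w j))) ≤ qJ J (WJ 𝒲 J) D b := by
  rw [Ideal.span_le]
  rintro g ⟨f, hf, N, hN, -, rfl⟩
  show spc J _ N ∈ qJ J (WJ 𝒲 J) D b
  unfold qJ
  rw [Submodule.mem_iInf]
  intro β
  rw [Submodule.mem_iInf]
  intro hβ
  rw [Ideal.mem_comap, Ideal.mem_span_singleton]
  obtain ⟨hβ1, hβ2⟩ := mem_WJ.mp hβ
  rw [jphi_spc J β hβ2 b _ (fun j hj => (hb3 j hj).symm) N]
  refine (pow_dvd_pow _ (Nat.le_succ D)).trans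
    (nrm_order b hb0 β (FFJ_order (N := D + 1) hdeg b hb1 ?_ hf hβ1) hN)
  intro s hs
  have h1 : k * D + (D + 1) = (k + 1) * D + 1 := by ring
  rw [h1]
  exact hb2 s hs

/-- The number of points `b` with given `x`-coordinates in `J`, at which `P` and its translates vanish to
order `(k + 1) D + 1` along `𝒲`, is at most `c D^(m - dim 𝒲)`.
Proof (compare `card_fiber`).  `B = 5 (m + 1) 2^m D`, `G = GGJ γ 𝒲 S D D P k B J (x(w))`,
`s` = the finset of the vectors `(x(b_i))_(i ∉ J)`, `b ∈ 𝓑` (`card_le_two_pow`: `𝓑.card ≤ 2^m s.card`), for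
every element of `s` choose a `b`, and `q = qJ J (WJ 𝒲 J) D b`.  Hypotheses of `bezout_mult`:
`span G ≤ q` by `FFJ_order` (`N = D + 1`), `nrm_order`, `jphi_spc`; `mI^D ≤ q` by `mI_pow_le`; `mI` is
minimal over `G` by `isMaximal_of_GGJ`.  By `colength`, with `w' = dim WJ 𝒲 J`,
`s.card * D^w' ≤ w'^w' ∑ finrank ≤ m^m C B^(m - |J|)` and `B = const D`, so
`s.card ≤ c D^(m - |J| - w')`, `m - |J| - w' ≤ m - dim 𝒲` (`finrank_WJ`). -/
theorem card_fiberJ (m : ℕ) : ∃ c : ℕ, ∀ (K : Type) [Field K] [CharZero K]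
    (W : WeierstrassCurve K) [W.IsElliptic] (n : ℕ) (γ : (Fin n → ℤ) →+ (Fin m → Pt W K))
    (𝒲 : Submodule K (Fin m → K)) (S D k : ℕ) (P : MvPolynomial (Fin m) K), 1 ≤ D → k ≤ m →
    (∀ i, P.degreeOf i ≤ D) → ∀ (Ω : Type) [Field Ω] [Algebra K Ω] [IsAlgClosed Ω]
    (w : Fin m → Pt W Ω) (J : Finset (Fin m)), ¬ QQJ γ 𝒲 S D D P k (J.card + 1) →
    HasIndep w J → ∀ 𝓑 : Finset (Fin m → Pt W Ω),
    (∀ b ∈ 𝓑, (∀ i, hc (b i) ≠ 0) ∧ (∀ s ∈ box n (k * S), ∀ i, b i ≠ emb Ω (γ s i)) ∧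
      (∀ s ∈ box n (k * S), VanJ 𝒲 ((k + 1) * D + 1) D P (trw b (γ s))) ∧
      ∀ j ∈ J, xc (b j) = xc (w j)) →
    𝓑.card ≤ c * D ^ (m - Module.finrank K 𝒲) := by
  choose C hC using bezout_mult
  refine ⟨2 ^ m * ((m + 1) ^ m * (∑ r ∈ Finset.range (m + 1), C r) * (5 * (m + 1) * 2 ^ m) ^ m), ?_⟩
  intro K _ _ W _ n γ 𝒲 S D k P hD hk hdeg Ω _ _ _ w J hQ hind 𝓑 h𝓑
  haveI : CharZero Ω := charZero_of_injective_algebraMap (algebraMap K Ω).injective
  haveI : Infinite Ω := inferInstance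
  have hcard : Fintype.card {i : Fin m // i ∉ J} = m - J.card := by
    simp [Fintype.card_subtype_compl]
  obtain ⟨B, hB⟩ : ∃ B, B = 5 * (m + 1) * 2 ^ m * D := ⟨_, rfl⟩
  have hB1 : 2 ^ m * (2 * D + 2 * (k * D)) + 3 * (2 ^ m * (D + k * D)) ≤ B := by
    rw [hB]
    have h1 : 2 ^ m * (2 * D + 2 * (k * D)) + 3 * (2 ^ m * (D + k * D)) =
        5 * (k + 1) * 2 ^ m * D := by ring
    rw [h1]
    gcongr
  have hBpos : 1 ≤ B := by
    rw [hB]
    have : 0 < 5 * (m + 1) * 2 ^ m * D := by positivity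
    exact this
  -- zero is in the box
  have hbox0 : (0 : Fin n → ℤ) ∈ box n (k * S) := by
    unfold box
    rw [Fintype.mem_piFinset]
    intro i
    rw [Finset.mem_Icc, Pi.zero_apply]
    constructor
    · have : (0 : ℤ) ≤ ((k * S : ℕ) : ℤ) := Int.natCast_nonneg _
      linarith
    · exact Int.natCast_nonneg _
  have hne0 : ∀ b ∈ 𝓑, ∀ i, b i ≠ 0 := by
    intro b hb i h0
    refine (h𝓑 b hb).2.1 0 hbox0 i ?_
    rw [h0, map_zero]
    simp
  -- the vectors of coordinates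
  obtain ⟨s, hs⟩ : ∃ s : Finset ({i : Fin m // i ∉ J} → Ω),
      s = 𝓑.image fun b (i : {i : Fin m // i ∉ J}) => xc (b i.1) := ⟨_, rfl⟩
  have hsel : ∀ v : {i : Fin m // i ∉ J} → Ω, ∃ b : Fin m → Pt W Ω, v ∈ s →
      b ∈ 𝓑 ∧ (fun i : {i : Fin m // i ∉ J} => xc (b i.1)) = v := by
    intro v
    by_cases hv : v ∈ s
    · rw [hs, Finset.mem_image] at hv
      obtain ⟨b, hb, hbv⟩ := hv
      exact ⟨b, fun _ => ⟨hb, hbv⟩⟩
    · exact ⟨fun _ => 0, fun h => absurd h hv⟩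
  choose sel hsel using hsel
  have hscard : (𝓑.image fun b i => xc (b i)).card ≤ s.card := by
    refine Finset.card_le_card_of_injOn
      (fun (x : Fin m → Ω) (i : {i : Fin m // i ∉ J}) => x i.1) ?_ ?_
    · intro x hx
      rw [Finset.mem_coe, Finset.mem_image] at hx
      obtain ⟨b, hb, rfl⟩ := hx
      rw [hs, Finset.mem_coe, Finset.mem_image]
      exact ⟨b, hb, rfl⟩
    · intro x hx x' hx' h
      rw [Finset.mem_coe, Finset.mem_image] at hx hx'
      obtain ⟨b, hb, rfl⟩ := hx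
      obtain ⟨b', hb', rfl⟩ := hx'
      funext i
      by_cases hi : i ∈ J
      · show xc (b i) = xc (b' i)
        rw [(h𝓑 b hb).2.2.2 i hi, (h𝓑 b' hb').2.2.2 i hi]
      · exact congrFun h ⟨i, hi⟩
  -- Bezout
  have hbez := hC (m - J.card) Ω {i : Fin m // i ∉ J} hcard
    (GGJ γ 𝒲 S D D P k B J (fun j => xc (w j))) B hBpos
    (by
      rintro f ⟨f', hf', N, hN, hdegN, rfl⟩ i
      exact (degreeOf_spc J _ N i).trans (hdegN _))
    s (fun v => qJ J (WJ 𝒲 J) D (sel v))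
    (by
      intro v hv
      obtain ⟨hb, hbv⟩ := hsel v hv
      obtain ⟨b1, b2, b3, b4⟩ := h𝓑 _ hb
      have hle := SjF_span_le (B := B) hdeg w J (sel v) (hne0 _ hb) b2 b3 b4
      have hle2 := SjF_qJ_le J (WJ 𝒲 J) hD (sel v)
      have hmp := mI_pow_le J (WJ 𝒲 J) D (sel v)
      have hmax := (mI_spec v v).1
      rw [hbv] at hle2 hmp
      refine ⟨⟨⟨hmax.isPrime, hle.trans hle2⟩, ?_⟩, hle, D, hmp⟩
      rintro q ⟨hqp, hqG⟩ hqM
      have hqmax := isMaximal_of_GGJ (S := S) (T := D) (k := k) (B := B) hdeg hB1 w J hQ hind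
        (sel v) b2 b4 q hqp (by rw [hbv]; exact hqM) (Ideal.span_le.mp hqG)
      exact (hqmax.eq_of_le hmax.ne_top hqM).ge)
  -- the colengths
  obtain ⟨w', hw'⟩ : ∃ w', w' = Module.finrank K (WJ 𝒲 J) := ⟨_, rfl⟩
  obtain ⟨hfr1, hfr2⟩ := finrank_WJ 𝒲 J
  rw [← hw'] at hfr1 hfr2
  have hcol : s.card * D ^ w' ≤ w' ^ w' * ∑ v ∈ s,
      Module.finrank Ω (MvPolynomial {i : Fin m // i ∉ J} Ω ⧸ qJ J (WJ 𝒲 J) D (sel v)) := by
    rw [Finset.mul_sum, ← smul_eq_mul, ← Finset.sum_const]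
    refine Finset.sum_le_sum fun v hv => ?_
    have h := colength (F := Ω) J (WJ 𝒲 J) (fun β hβ => (mem_WJ.mp hβ).2) hD (sel v)
      (h𝓑 _ (hsel v hv).1).1
    rw [← hw'] at h
    exact h
  have hCr : C (m - J.card) ≤ ∑ r ∈ Finset.range (m + 1), C r :=
    Finset.single_le_sum (f := C) (fun _ _ => Nat.zero_le _) (by
      rw [Finset.mem_range]; omega)
  have hww : w' ^ w' ≤ (m + 1) ^ m :=
    (Nat.pow_le_pow_left (by omega) _).trans (Nat.pow_le_pow_right (by omega) (by omega))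
  have hBr : B ^ (m - J.card) ≤ (5 * (m + 1) * 2 ^ m) ^ m * D ^ (m - J.card) := by
    rw [hB, mul_pow]
    refine Nat.mul_le_mul_right _ (Nat.pow_le_pow_right ?_ (Nat.sub_le _ _))
    positivity
  have hmain : s.card * D ^ w' ≤ ((m + 1) ^ m * (∑ r ∈ Finset.range (m + 1), C r) *
      (5 * (m + 1) * 2 ^ m) ^ m * D ^ (m - J.card - w')) * D ^ w' := by
    have hD2 : D ^ (m - J.card - w') * D ^ w' = D ^ (m - J.card) := by
      rw [← pow_add]
      congr 1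
      omega
    calc s.card * D ^ w' ≤ w' ^ w' * (C (m - J.card) * B ^ (m - J.card)) :=
          hcol.trans (Nat.mul_le_mul_left _ hbez)
      _ ≤ (m + 1) ^ m * ((∑ r ∈ Finset.range (m + 1), C r) *
          ((5 * (m + 1) * 2 ^ m) ^ m * D ^ (m - J.card))) :=
          Nat.mul_le_mul hww (Nat.mul_le_mul hCr hBr)
      _ = _ := by rw [← hD2]; ring
  have hs2 : s.card ≤ (m + 1) ^ m * (∑ r ∈ Finset.range (m + 1), C r) *
      (5 * (m + 1) * 2 ^ m) ^ m * D ^ (m - J.card - w') :=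
    Nat.le_of_mul_le_mul_right hmain (pow_pos hD _)
  have hDle : D ^ (m - J.card - w') ≤ D ^ (m - Module.finrank K 𝒲) :=
    Nat.pow_le_pow_right hD (by omega)
  calc 𝓑.card ≤ 2 ^ m * (𝓑.image fun b i => xc (b i)).card := card_le_two_pow 𝓑 hne0
    _ ≤ 2 ^ m * ((m + 1) ^ m * (∑ r ∈ Finset.range (m + 1), C r) *
      (5 * (m + 1) * 2 ^ m) ^ m * D ^ (m - Module.finrank K 𝒲)) :=
        Nat.mul_le_mul_left _ (hscard.trans (hs2.trans (Nat.mul_le_mul_left _ hDle)))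
    _ = _ := by ring

end PCL

end
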