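import Pool.Agent.W_52423f_v9.SjF
import Pool.Agent.W_52423f_v9.SjD
import Pool.Agent.W_52423f_h70.SbMain
import Pool.Agent.W_52423f_h70.ZE

/-!
# The zero estimate with multiplicities
-/

open scoped Classical

noncomputable section

namespace PCL

/-- An affine point with `h = 0` is `2`-torsion. -/
lemma SjG_two_torsion {K : Type} [Field K] {W : WeierstrassCurve K} {F : Type} [Field F]
    [Algebra K F] {p : Pt W F} (hp : p ≠ 0) (h : hc p = 0) : p + p = 0 := by
  have hneg : p = -p := by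
    cases p with
    | zero => exact absurd rfl hp
    | some x y hxy =>
      change 2 * y + algebraMap K F W.a₁ * x + algebraMap K F W.a₃ = 0 at h
      rw [WeierstrassCurve.Affine.Point.neg_some]
      rw [WeierstrassCurve.Affine.Point.some.injEq]
      refine ⟨rfl, ?_⟩
      rw [WeierstrassCurve.Affine.negY]
      change y = -y - algebraMap K F W.a₁ * x - algebraMap K F W.a₃
      linear_combination h
  have h2 : p + p = p + -p := congrArg (fun q => p + q) hneg
  rw [h2, add_neg_cancel]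

/-- The indices for which a coordinate of `w + γ(s)` is a `2`-torsion point. -/
lemma SjG_card_bad {K : Type} [Field K] {W : WeierstrassCurve K} {n m : ℕ}
    {γ : (Fin n → ℤ) →+ (Fin m → Pt W K)}
    (hinj : ∀ s : Fin n → ℤ, s ≠ 0 → ∀ j, γ s j ≠ 0) {F : Type} [Field F] [Algebra K F]
    (w : Fin m → Pt W F) (T : Finset (Fin n → ℤ)) (hT : ∀ s ∈ T, ∀ i, trw w (γ s) i ≠ 0) :
    (T.filter fun s => ¬ ∀ i, hc (trw w (γ s) i) ≠ 0).card ≤ m := by
  have hsub : (T.filter fun s => ¬ ∀ i, hc (trw w (γ s) i) ≠ 0) ⊆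
      (Finset.univ : Finset (Fin m)).biUnion fun i => T.filter fun s => hc (trw w (γ s) i) = 0 := by
    intro s hs
    rw [Finset.mem_filter] at hs
    obtain ⟨hsT, hs⟩ := hs
    push Not at hs
    obtain ⟨i, hi⟩ := hs
    rw [Finset.mem_biUnion]
    exact ⟨i, Finset.mem_univ _, Finset.mem_filter.mpr ⟨hsT, hi⟩⟩
  refine (Finset.card_le_card hsub).trans (Finset.card_biUnion_le.trans ?_)
  have h1 : ∀ i : Fin m, (T.filter fun s => hc (trw w (γ s) i) = 0).card ≤ 1 := by
    intro i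
    rw [Finset.card_le_one]
    intro s hs t ht
    rw [Finset.mem_filter] at hs ht
    by_contra hst
    have hs2 := SjG_two_torsion (hT s hs.1 i) hs.2
    have ht2 := SjG_two_torsion (hT t ht.1 i) ht.2
    have h3 : (w i + emb F (γ s i)) + (w i + emb F (γ s i)) =
        (w i + emb F (γ t i)) + (w i + emb F (γ t i)) := hs2.trans ht2.symm
    have h4 : emb F (γ s i) + emb F (γ s i) = emb F (γ t i) + emb F (γ t i) := by
      have h5 : (w i + w i) + (emb F (γ s i) + emb F (γ s i)) =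
          (w i + w i) + (emb F (γ t i) + emb F (γ t i)) := by
        calc (w i + w i) + (emb F (γ s i) + emb F (γ s i))
            = (w i + emb F (γ s i)) + (w i + emb F (γ s i)) := by abel
          _ = (w i + emb F (γ t i)) + (w i + emb F (γ t i)) := h3
          _ = _ := by abel
      exact add_left_cancel h5
    rw [← map_add, ← map_add] at h4
    have h6 := emb_injective h4
    have hne : s + s - (t + t) ≠ 0 := by
      intro h0
      apply hst
      funext l
      have h7 := congrFun h0 l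
      simp only [Pi.sub_apply, Pi.add_apply, Pi.zero_apply] at h7
      omega
    refine hinj _ hne i ?_
    rw [map_sub, map_add, map_add, Pi.sub_apply, Pi.add_apply, Pi.add_apply, h6, sub_self]
  calc ∑ i : Fin m, (T.filter fun s => hc (trw w (γ s) i) = 0).card ≤ ∑ _i : Fin m, 1 :=
        Finset.sum_le_sum fun i _ => h1 i
    _ = m := by simp

/-- Stabiliser theorem with multiplicities.  Copy the proof of `stab_main`: `chainJ`, `exists_niceJ`,
`exists_sigma`, `card_fiberJ`, `exists_tau`.  `good` = the `s` in the box of size `S` for which no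
`w_i + γ_i(s)` is `2`-torsion, i.e. `hc (trw w (γ s) i) ≠ 0` (for each `i` at most one `s` is bad: two of
them would give `2 γ_i(s - s') = γ_i(2 (s - s')) = 0`).  `n > 0`. -/
theorem stabJ_main (m : ℕ) : ∃ c : ℕ, ∀ (K : Type) [Field K] [CharZero K] (W : WeierstrassCurve K)
    [W.IsElliptic],
    ∀ (n : ℕ) (γ : (Fin n → ℤ) →+ (Fin m → Pt W K)), 0 < n →
      (∀ s : Fin n → ℤ, s ≠ 0 → ∀ j, γ s j ≠ 0) →
    ∀ (𝒲 : Submodule K (Fin m → K)) (S D : ℕ) (P : MvPolynomial (Fin m) K), 1 ≤ D → P ≠ 0 →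
      (∀ i, P.degreeOf i ≤ D) →
      (∀ s ∈ box n (2 * m * S + 1), s ≠ 0 → VanJ 𝒲 (m * D + 1) D P (γ s)) →
    ∃ (Ω : Type) (_ : Field Ω) (_ : Algebra K Ω) (w : Fin m → Pt W Ω) (J : Finset (Fin m)),
      IsAlgClosed Ω ∧ J ≠ Finset.univ ∧ HasIndep w J ∧
      Algebra.IsAlgebraic (fieldOf w J) Ω ∧
      (2 * S + 1) ^ n ≤ c * D ^ (m - Module.finrank K 𝒲) *
        ((box n (2 * S)).filter fun v => ∃ τ : Ω ≃ₐ[K] Ω,
          ∀ j, mp (τ : Ω →ₐ[K] Ω) (w j) = w j + emb Ω (γ v j)).card := by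
  obtain ⟨c₀, hc₀⟩ := card_fiberJ m
  refine ⟨m + c₀, ?_⟩
  intro K _ _ W _ n γ hn hinj 𝒲 S D P hD hP hdeg hvan
  obtain ⟨k, d, hkd, hQ1, hQ2⟩ := chainJ hn hinj hP hdeg hvan
  obtain ⟨Ω, i1, i2, w, J, hac, hJ, hTB, hz⟩ := exists_niceJ hQ1 hQ2
  have hTB' := (isTB_iff w J).mp hTB
  have hind : HasIndep w J := hTB'.1
  refine ⟨Ω, i1, i2, w, J, hac, ?_, hind, ?_, ?_⟩
  · intro h
    rw [h, Finset.card_univ, Fintype.card_fin] at hJ
    omega
  · refine isAlgebraic_mono ?_ hTB'.2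
    exact IntermediateField.adjoin.mono K _ _ Set.subset_union_left
  set V := (box n (2 * S)).filter fun v => ∃ τ : Ω ≃ₐ[K] Ω,
          ∀ j, mp (τ : Ω →ₐ[K] Ω) (w j) = w j + emb Ω (γ v j) with hV
  have hVpos : 1 ≤ V.card := by
    rw [Nat.one_le_iff_ne_zero, Ne, Finset.card_eq_zero]
    intro h
    have h0 : (0 : Fin n → ℤ) ∈ V := by
      rw [hV, Finset.mem_filter]
      refine ⟨zero_mem_box _ _, AlgEquiv.refl, fun j => ?_⟩
      have h1 : ((AlgEquiv.refl : Ω ≃ₐ[K] Ω) : Ω →ₐ[K] Ω) = AlgHom.id K Ω := rfl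
      rw [h1, mp_id, map_zero, Pi.zero_apply, map_zero, add_zero]
    rw [h] at h0
    simp at h0
  -- the automorphisms
  have hσ : ∀ s : Fin n → ℤ, ∃ σ : Ω ≃ₐ[K] Ω, ∀ j ∈ J, σ (xc (trw w (γ s) j)) = xc (w j) :=
    fun s => exists_sigma w J hTB (γ s)
  choose σ hσ using hσ
  set good := (box n S).filter fun s => ∀ i, hc (trw w (γ s) i) ≠ 0 with hgood
  set b : (Fin n → ℤ) → (Fin m → Pt W Ω) :=
    fun s i => mp (σ s : Ω →ₐ[K] Ω) (trw w (γ s) i) with hb
  have hcount : (good.image b).card ≤ c₀ * D ^ (m - Module.finrank K 𝒲) := by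
    have hQ2' : ¬ QQJ γ 𝒲 S D D P k (J.card + 1) := by rw [hJ]; exact hQ2
    refine hc₀ K W n γ 𝒲 S D k P hD (by omega) hdeg Ω w J hQ2' hind (good.image b) ?_
    intro b' hb'
    rw [Finset.mem_image] at hb'
    obtain ⟨s, hs, rfl⟩ := hb'
    rw [hgood, Finset.mem_filter] at hs
    obtain ⟨hA, hB⟩ := inZJ_trw hz hs.1
    refine ⟨fun i h0 => hs.2 i ?_, ?_, ?_, ?_⟩
    · have h1 : (σ s : Ω →ₐ[K] Ω) (hc (trw w (γ s) i)) = 0 := by
        rw [← hc_mp]; exact h0
      exact (map_eq_zero _).mp h1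
    · intro s' hs' i h0
      refine hA s' hs' i (mp_injective (σ s : Ω →ₐ[K] Ω) ?_)
      rw [mp_emb]
      exact h0
    · intro s' hs'
      have h1 := (vanJ_mp (σ s : Ω →ₐ[K] Ω) 𝒲 ((k + 1) * D + 1) D P
        (trw (trw w (γ s)) (γ s'))).mpr (hB s' hs')
      rw [mp_trw] at h1
      exact h1
    · intro j hj
      show xc (mp (σ s : Ω →ₐ[K] Ω) (trw w (γ s) j)) = xc (w j)
      rw [xc_mp]
      exact hσ s j hj
  have hfib : ∀ b' ∈ good.image b, (good.filter fun s => b s = b').card ≤ V.card := by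
    intro b' hb'
    rw [Finset.mem_image] at hb'
    obtain ⟨s₀, hs₀, rfl⟩ := hb'
    refine Finset.card_le_card_of_injOn (fun s => s₀ - s) ?_ ?_
    · intro s hs
      rw [Finset.mem_coe, Finset.mem_filter] at hs
      have hsg := (Finset.mem_filter.mp hs.1).1
      have hs₀g := (Finset.mem_filter.mp hs₀).1
      rw [Finset.mem_coe, hV, Finset.mem_filter]
      refine ⟨sub_mem_box hs₀g hsg, ?_⟩
      obtain ⟨τ, hτ⟩ := exists_tau w (σ s) (σ s₀) (γ s) (γ s₀) (fun i => congrFun hs.2 i)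
      refine ⟨τ, fun j => ?_⟩
      rw [hτ j, map_sub]
    · intro s _ t _ hst
      exact sub_right_injective hst
  have hgoodcard : good.card ≤ V.card * (good.image b).card :=
    Finset.card_le_mul_card_image good _ hfib
  have hbad := SjG_card_bad hinj w (box n S) (by
    intro s hs i h0
    have hA := (inZJ_trw hz hs).1 0 (zero_mem_box _ _) i
    apply hA
    rw [h0, map_zero, Pi.zero_apply, map_zero])
  have hsplit : (box n S).card = good.card +
      ((box n S).filter fun s => ¬ ∀ i, hc (trw w (γ s) i) ≠ 0).card :=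
    (Finset.card_filter_add_card_filter_not _).symm
  have hDe : 1 ≤ D ^ (m - Module.finrank K 𝒲) := Nat.one_le_pow _ _ hD
  calc (2 * S + 1) ^ n = (box n S).card := (card_box n S).symm
    _ = good.card + ((box n S).filter fun s => ¬ ∀ i, hc (trw w (γ s) i) ≠ 0).card := hsplit
    _ ≤ V.card * (good.image b).card + m := add_le_add hgoodcard hbad
    _ ≤ V.card * (c₀ * D ^ (m - Module.finrank K 𝒲)) +
          m * (D ^ (m - Module.finrank K 𝒲) * V.card) := by
        refine add_le_add (Nat.mul_le_mul_left _ hcount) ?_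
        calc m = m * 1 := by ring
          _ ≤ m * (D ^ (m - Module.finrank K 𝒲) * V.card) :=
            Nat.mul_le_mul_left _ (Nat.one_le_iff_ne_zero.mpr (by positivity))
    _ = (m + c₀) * D ^ (m - Module.finrank K 𝒲) * V.card := by
        ring

/-- The zero estimate with multiplicities for a curve without complex multiplication (as
`zero_estimate`, with `trace_rel`).  For `n = 0` the left side is `1`. -/
theorem zero_estimateJ (m : ℕ) : ∃ c : ℕ, ∀ (K : Type) [Field K] [CharZero K]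
    (W : WeierstrassCurve K) [W.IsElliptic], NoCM W →
    ∀ (n : ℕ) (γ : (Fin n → ℤ) →+ (Fin m → Pt W K)), ND γ →
    ∀ (𝒲 : Submodule K (Fin m → K)) (S D : ℕ) (P : MvPolynomial (Fin m) K), 1 ≤ D → P ≠ 0 →
      (∀ i, P.degreeOf i ≤ D) →
      (∀ s ∈ box n (2 * m * S + 1), s ≠ 0 → VanJ 𝒲 (m * D + 1) D P (γ s)) →
      (2 * S + 1) ^ n ≤ c * D ^ (m - Module.finrank K 𝒲) := by
  obtain ⟨c, hc⟩ := stabJ_main m
  refine ⟨c + 1, ?_⟩
  intro K _ _ W _ hcm n γ hND 𝒲 S D P hD hP hdeg hvan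
  have hDe : 1 ≤ D ^ (m - Module.finrank K 𝒲) := Nat.one_le_pow _ _ hD
  rcases Nat.eq_zero_or_pos n with hn | hn
  · subst hn
    rw [pow_zero]
    nlinarith
  have hinj : ∀ s : Fin n → ℤ, s ≠ 0 → ∀ j, γ s j ≠ 0 := by
    intro s hs j h0
    refine hND s hs (Pi.single j 1) (by simp) ?_
    rw [Finset.sum_eq_single j]
    · simp [h0]
    · intro i _ hi
      simp [Pi.single_eq_of_ne hi]
    · simp
  obtain ⟨Ω, i1, i2, w, J, hac, hJ, hind, halg, hcard⟩ :=
    hc K W n γ hn hinj 𝒲 S D P hD hP hdeg hvan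
  set V := (box n (2 * S)).filter fun v => ∃ τ : Ω ≃ₐ[K] Ω,
          ∀ j, mp (τ : Ω →ₐ[K] Ω) (w j) = w j + emb Ω (γ v j) with hV
  have hV1 : V.card ≤ 1 := by
    have hsub : V ⊆ {0} := by
      intro v hv
      rw [Finset.mem_singleton]
      by_contra hv0
      obtain ⟨τ, hτ⟩ := (Finset.mem_filter.mp hv).2
      obtain ⟨t, ht, hsum⟩ := trace_rel hcm w J hJ hind halg τ (γ v) hτ
      exact hND v hv0 t ht hsum
    exact (Finset.card_le_card hsub).trans (by simp)
  calc (2 * S + 1) ^ n ≤ c * D ^ (m - Module.finrank K 𝒲) * V.card := hcard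
    _ ≤ c * D ^ (m - Module.finrank K 𝒲) * 1 := Nat.mul_le_mul_left _ hV1
    _ = c * D ^ (m - Module.finrank K 𝒲) := by ring
    _ ≤ (c + 1) * D ^ (m - Module.finrank K 𝒲) := Nat.mul_le_mul_right _ (Nat.le_succ c)

end PCL

end
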